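import Mathlib

/-! Pattern containment and order embeddings. -/

set_option autoImplicit false

namespace Pool.Agent.LibC3e

open Finset

/-- `π` contains the pattern `σ`. -/
def Contains {k n : ℕ} (σ : Equiv.Perm (Fin k)) (π : Equiv.Perm (Fin n)) : Prop :=
  ∃ f : Fin k ↪o Fin n, ∀ i j : Fin k, σ i < σ j ↔ π (f i) < π (f j)

open Classical in
/-- the number of permutations of length `n` containing `σ` -/
noncomputable def cnt {k : ℕ} (σ : Equiv.Perm (Fin k)) (n : ℕ) : ℕ :=
  (Finset.univ.filter fun π : Equiv.Perm (Fin n) => Contains σ π).card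

open Classical in
/-- the number of permutations of length `n` avoiding `σ` -/
noncomputable def av {k : ℕ} (σ : Equiv.Perm (Fin k)) (n : ℕ) : ℕ :=
  (Finset.univ.filter fun π : Equiv.Perm (Fin n) => ¬ Contains σ π).card

lemma cnt_add_av {k : ℕ} (σ : Equiv.Perm (Fin k)) (n : ℕ) : cnt σ n + av σ n = n.factorial := by
  classical
  unfold cnt av
  rw [Finset.card_filter_add_card_filter_not]
  simp [Fintype.card_perm]

lemma av_eq_natCard {k : ℕ} (σ : Equiv.Perm (Fin k)) (n : ℕ) :
    Nat.card {π : Equiv.Perm (Fin n) //
          ¬ ∃ f : Fin k ↪o Fin n, ∀ i j : Fin k, σ i < σ j ↔ π (f i) < π (f j)} = av σ n := by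
  classical
  rw [Nat.card_eq_fintype_card, Fintype.card_subtype]
  unfold av Contains
  congr

/-- order embeddings of `Fin k` into `Fin n` are the `k`-subsets. -/
noncomputable def chainEquiv (k n : ℕ) :
    (Fin k ↪o Fin n) ≃ {s : Finset (Fin n) // s.card = k} where
  toFun f := ⟨Finset.univ.map f.toEmbedding, by simp⟩
  invFun s := s.1.orderEmbOfFin s.2
  left_inv f := by
    apply DFunLike.ext'
    have h := Finset.orderEmbOfFin_unique (s := Finset.univ.map f.toEmbedding) (k := k) (by simp)
      (f := f) (by intro x; simp) f.strictMono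
    exact h.symm
  right_inv s := by
    apply Subtype.ext
    ext x
    simp only [Finset.mem_map, Finset.mem_univ, true_and, RelEmbedding.coe_toEmbedding]
    have := Finset.range_orderEmbOfFin s.1 s.2
    constructor
    · rintro ⟨a, rfl⟩
      exact Finset.orderEmbOfFin_mem _ _ _
    · intro hx
      have : x ∈ Set.range (s.1.orderEmbOfFin s.2) := by
        rw [this]; exact hx
      exact this

instance (k n : ℕ) : Finite (Fin k ↪o Fin n) := Finite.of_equiv _ (chainEquiv k n).symm

noncomputable instance (k n : ℕ) : Fintype (Fin k ↪o Fin n) := Fintype.ofFinite _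

lemma card_chain (k n : ℕ) : Fintype.card (Fin k ↪o Fin n) = n.choose k := by
  rw [Fintype.card_congr (chainEquiv k n)]
  rw [Fintype.card_subtype]
  have : (Finset.univ.filter fun s : Finset (Fin n) => s.card = k) =
      Finset.powersetCard k Finset.univ := by
    ext s; simp [Finset.mem_powersetCard]
  rw [this, Finset.card_powersetCard]
  simp

end Pool.Agent.LibC3e
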