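import Mathlib

/-! Discrete Burke identity for longest strict chains in a Bernoulli grid, and the resulting
exponential tail bound. -/

set_option autoImplicit false

namespace Pool.Agent.LibC3e

open Finset

/-- The local rule. `u` = increment from below, `w` = increment from the left, `b` = bulk bit. -/
def cell (u w b : Bool) : Bool × Bool :=
  ((u || w || b) && !w, (u || w || b) && !u)

/-- One row: outgoing horizontal increments and the outgoing right increment. -/
def row : (n : ℕ) → (Fin n → Bool) → Bool → (Fin n → Bool) → (Fin n → Bool) × Bool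
  | 0, _, w, _ => (Fin.elim0, w)
  | n + 1, u, w, b =>
      let c := cell (u 0) w (b 0)
      let r := row n (Fin.tail u) c.2 (Fin.tail b)
      (Fin.cons c.1 r.1, r.2)

/-- real value of a weight attached to a bit -/
def wt (A : ℝ) (u : Bool) : ℝ := if u then A else 1

/-- Bernoulli weight of a bit -/
def bw (p : ℝ) (b : Bool) : ℝ := if b then p else 1 - p

lemma cell_sum (A B p : ℝ) (hAB : A * B = p) (F : Bool → Bool → ℝ) :
    ∑ u : Bool, ∑ w : Bool, ∑ b : Bool, wt A u * wt B w * bw p b *
      F (cell u w b).1 (cell u w b).2 =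
    ∑ u : Bool, ∑ w : Bool, wt A u * wt B w * F u w := by
  simp [cell, wt, bw, Fintype.univ_bool]
  rw [← hAB]
  ring

/-- sum over Boolean vectors with `Fin.cons` -/
lemma sum_cons {n : ℕ} (G : (Fin (n + 1) → Bool) → ℝ) :
    ∑ u : Fin (n + 1) → Bool, G u = ∑ u0 : Bool, ∑ us : Fin n → Bool, G (Fin.cons u0 us) := by
  rw [← (Fin.consEquiv (fun _ : Fin (n+1) => Bool)).sum_comp, Fintype.sum_prod_type]
  rfl

/-- product weight of a vector -/
def vw {n : ℕ} (f : Bool → ℝ) (u : Fin n → Bool) : ℝ := ∏ i, f (u i)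

lemma vw_cons {n : ℕ} (f : Bool → ℝ) (u0 : Bool) (us : Fin n → Bool) :
    vw f (Fin.cons u0 us : Fin (n+1) → Bool) = f u0 * vw f us := by
  unfold vw
  rw [Fin.prod_univ_succ]
  simp

lemma sum_vw {n : ℕ} (f : Bool → ℝ) :
    ∑ u : Fin n → Bool, vw f u = (f true + f false) ^ n := by
  induction n with
  | zero => simp [vw]
  | succ n ih =>
    rw [sum_cons]
    simp only [vw_cons, ← Finset.mul_sum, ih]
    rw [← Finset.sum_mul]
    simp [Fintype.univ_bool, pow_succ]
    ring

lemma row_sum (A B p : ℝ) (hAB : A * B = p) (n : ℕ) (F : (Fin n → Bool) → Bool → ℝ) :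
    ∑ u : Fin n → Bool, ∑ w : Bool, ∑ b : Fin n → Bool,
      vw (wt A) u * wt B w * vw (bw p) b * F (row n u w b).1 (row n u w b).2 =
    ∑ u : Fin n → Bool, ∑ w : Bool, vw (wt A) u * wt B w * F u w := by
  induction n with
  | zero =>
    simp [row, vw]
    congr 1
  | succ n ih =>
    rw [sum_cons, sum_cons]
    have h1 : ∀ u0 : Bool, ∀ us : Fin n → Bool, ∀ w : Bool,
        (∑ b : Fin (n+1) → Bool, vw (wt A) (Fin.cons u0 us : Fin (n+1) → Bool) * wt B w *
          vw (bw p) b * F (row (n+1) (Fin.cons u0 us) w b).1 (row (n+1) (Fin.cons u0 us) w b).2) =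
        ∑ b0 : Bool, ∑ bs : Fin n → Bool,
          (wt A u0 * wt B w * bw p b0) * (vw (wt A) us * vw (bw p) bs *
            F (Fin.cons (cell u0 w b0).1 (row n us (cell u0 w b0).2 bs).1)
              (row n us (cell u0 w b0).2 bs).2) := by
      intro u0 us w
      rw [sum_cons]
      refine Finset.sum_congr rfl fun b0 _ => Finset.sum_congr rfl fun bs _ => ?_
      rw [vw_cons, vw_cons]
      simp only [row, Fin.cons_zero, Fin.tail_cons]
      ring
    simp only [h1]
    -- reorder sums
    have h2 : (∑ u0 : Bool, ∑ us : Fin n → Bool, ∑ w : Bool, ∑ b0 : Bool, ∑ bs : Fin n → Bool,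
          (wt A u0 * wt B w * bw p b0) * (vw (wt A) us * vw (bw p) bs *
            F (Fin.cons (cell u0 w b0).1 (row n us (cell u0 w b0).2 bs).1)
              (row n us (cell u0 w b0).2 bs).2)) =
        ∑ u0 : Bool, ∑ w : Bool, ∑ b0 : Bool, wt A u0 * wt B w * bw p b0 *
          (fun c1 c2 => ∑ us : Fin n → Bool, ∑ bs : Fin n → Bool,
            (vw (wt A) us * vw (bw p) bs * F (Fin.cons c1 (row n us c2 bs).1) (row n us c2 bs).2))
            (cell u0 w b0).1 (cell u0 w b0).2 := by
      refine Finset.sum_congr rfl fun u0 _ => ?_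
      rw [Finset.sum_comm]
      refine Finset.sum_congr rfl fun w _ => ?_
      rw [Finset.sum_comm]
      refine Finset.sum_congr rfl fun b0 _ => ?_
      simp only [Finset.mul_sum]
    rw [h2]
    refine (cell_sum A B p hAB (fun c1 c2 => ∑ us : Fin n → Bool, ∑ bs : Fin n → Bool,
            (vw (wt A) us * vw (bw p) bs * F (Fin.cons c1 (row n us c2 bs).1)
              (row n us c2 bs).2))).trans ?_
    refine Finset.sum_congr rfl fun c1 _ => ?_
    have h3 := ih (fun us' w' => F (Fin.cons c1 us') w')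
    have h4 : (∑ w : Bool, wt A c1 * wt B w * ∑ us : Fin n → Bool, ∑ bs : Fin n → Bool,
          vw (wt A) us * vw (bw p) bs * F (Fin.cons c1 (row n us w bs).1) (row n us w bs).2) =
        wt A c1 * ∑ u : Fin n → Bool, ∑ w : Bool, ∑ b : Fin n → Bool,
          vw (wt A) u * wt B w * vw (bw p) b *
            F (Fin.cons c1 (row n u w b).1) (row n u w b).2 := by
      rw [Finset.sum_comm, Finset.mul_sum]
      refine Finset.sum_congr rfl fun w _ => ?_
      simp only [Finset.mul_sum]
      refine Finset.sum_congr rfl fun us _ => ?_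
      refine Finset.sum_congr rfl fun bs _ => ?_
      ring
    rw [h4, h3, Finset.mul_sum]
    refine Finset.sum_congr rfl fun us _ => ?_
    rw [Finset.mul_sum]
    refine Finset.sum_congr rfl fun w _ => ?_
    rw [vw_cons]
    ring

/-- iterate rows: `K` rows, left boundary bits `w`, bulk bits `ω`. -/
def rows : (K n : ℕ) → (Fin n → Bool) → (Fin K → Bool) → (Fin K → Fin n → Bool) → (Fin n → Bool)
  | 0, _, u, _, _ => u
  | K + 1, n, u, w, ω => rows K n (row n u (w 0) (ω 0)).1 (Fin.tail w) (Fin.tail ω)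

/-- sum over Boolean matrices with `Fin.cons` -/
lemma sum_consM {K n : ℕ} (G : (Fin (K + 1) → Fin n → Bool) → ℝ) :
    ∑ u : Fin (K + 1) → Fin n → Bool, G u =
      ∑ u0 : Fin n → Bool, ∑ us : Fin K → Fin n → Bool, G (Fin.cons u0 us) := by
  rw [← (Fin.consEquiv (fun _ : Fin (K+1) => Fin n → Bool)).sum_comp, Fintype.sum_prod_type]
  rfl

/-- product weight of a matrix -/
def mw {K n : ℕ} (p : ℝ) (ω : Fin K → Fin n → Bool) : ℝ := ∏ i, vw (bw p) (ω i)

lemma mw_cons {K n : ℕ} (p : ℝ) (u0 : Fin n → Bool) (us : Fin K → Fin n → Bool) :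
    mw p (Fin.cons u0 us : Fin (K+1) → Fin n → Bool) = vw (bw p) u0 * mw p us := by
  unfold mw
  rw [Fin.prod_univ_succ]
  simp

lemma rows_sum (A B p : ℝ) (hAB : A * B = p) (K n : ℕ) (F : (Fin n → Bool) → ℝ) :
    ∑ u : Fin n → Bool, ∑ w : Fin K → Bool, ∑ ω : Fin K → Fin n → Bool,
      vw (wt A) u * vw (wt B) w * mw p ω * F (rows K n u w ω) =
    (1 + B) ^ K * ∑ u : Fin n → Bool, vw (wt A) u * F u := by
  induction K generalizing F with
  | zero =>
    simp [rows, vw, mw]
  | succ K ih =>
    have h1 : (∑ u : Fin n → Bool, ∑ w : Fin (K+1) → Bool, ∑ ω : Fin (K+1) → Fin n → Bool,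
      vw (wt A) u * vw (wt B) w * mw p ω * F (rows (K+1) n u w ω)) =
      ∑ u : Fin n → Bool, ∑ w0 : Bool, ∑ b0 : Fin n → Bool,
        vw (wt A) u * wt B w0 * vw (bw p) b0 *
        (fun u' (_ : Bool) => ∑ ws : Fin K → Bool, ∑ ωs : Fin K → Fin n → Bool,
            vw (wt B) ws * mw p ωs * F (rows K n u' ws ωs))
          (row n u w0 b0).1 (row n u w0 b0).2 := by
      refine Finset.sum_congr rfl fun u _ => ?_
      rw [sum_cons]
      refine Finset.sum_congr rfl fun w0 _ => ?_
      simp only [sum_consM]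
      rw [Finset.sum_comm]
      refine Finset.sum_congr rfl fun b0 _ => ?_
      simp only [Finset.mul_sum]
      refine Finset.sum_congr rfl fun ws _ => Finset.sum_congr rfl fun ωs _ => ?_
      rw [vw_cons, mw_cons]
      simp only [rows, Fin.cons_zero, Fin.tail_cons]
      ring
    rw [h1]
    refine (row_sum A B p hAB n (fun u' (_ : Bool) => ∑ ws : Fin K → Bool,
      ∑ ωs : Fin K → Fin n → Bool,
            vw (wt B) ws * mw p ωs * F (rows K n u' ws ωs))).trans ?_
    have h2 : (∑ u : Fin n → Bool, ∑ w : Bool, vw (wt A) u * wt B w *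
        (fun u' (_ : Bool) => ∑ ws : Fin K → Bool, ∑ ωs : Fin K → Fin n → Bool,
            vw (wt B) ws * mw p ωs * F (rows K n u' ws ωs)) u w) =
        (1 + B) * ∑ u : Fin n → Bool, ∑ ws : Fin K → Bool, ∑ ωs : Fin K → Fin n → Bool,
          vw (wt A) u * vw (wt B) ws * mw p ωs * F (rows K n u ws ωs) := by
      rw [Finset.mul_sum]
      refine Finset.sum_congr rfl fun u _ => ?_
      simp only [Fintype.sum_bool, wt, Bool.false_eq_true, if_true, if_false]
      simp only [Finset.mul_sum, ← Finset.sum_add_distrib]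
      refine Finset.sum_congr rfl fun ws _ => Finset.sum_congr rfl fun ωs _ => ?_
      ring
    rw [h2, ih]
    ring

end Pool.Agent.LibC3e
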