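import Pool.Agent.LibC3e.Burke

/-! Strict chains in a Boolean matrix are bounded by the boundary process; exponential bound. -/

set_option autoImplicit false

namespace Pool.Agent.LibC3e

open Finset

/-- number of true entries among the first `x` -/
def ps {n : ℕ} (u : Fin n → Bool) (x : ℕ) : ℕ := ∑ i : Fin n, if (i : ℕ) < x ∧ u i = true then 1 else 0

lemma ps_zero {n : ℕ} (u : Fin n → Bool) : ps u 0 = 0 := by simp [ps]

lemma ps_mono {n : ℕ} (u : Fin n → Bool) {x y : ℕ} (h : x ≤ y) : ps u x ≤ ps u y := by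
  unfold ps
  refine Finset.sum_le_sum fun i _ => ?_
  split_ifs with h1 h2
  · exact le_rfl
  · exact absurd ⟨lt_of_lt_of_le h1.1 h, h1.2⟩ h2
  · exact Nat.zero_le _
  · exact le_rfl

lemma ps_cons_succ {n : ℕ} (u0 : Bool) (us : Fin n → Bool) (x : ℕ) :
    ps (Fin.cons u0 us : Fin (n+1) → Bool) (x + 1) = u0.toNat + ps us x := by
  unfold ps
  rw [Fin.sum_univ_succ]
  simp only [Fin.cons_zero, Fin.cons_succ, Fin.val_zero, Fin.val_succ]
  congr 1
  · cases u0 <;> simp
  · refine Finset.sum_congr rfl fun i _ => ?_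
    simp

lemma ps_succ {n : ℕ} (u : Fin (n+1) → Bool) (x : ℕ) :
    ps u (x + 1) = (u 0).toNat + ps (Fin.tail u) x := by
  conv_lhs => rw [← Fin.cons_self_tail u]
  rw [ps_cons_succ]

lemma cell_cons (u w b : Bool) :
    w.toNat + (cell u w b).1.toNat = u.toNat + (cell u w b).2.toNat := by
  cases u <;> cases w <;> cases b <;> rfl

lemma cell_one (u w : Bool) : w.toNat + (cell u w true).1.toNat = 1 := by
  cases u <;> cases w <;> rfl

lemma row_ge (n : ℕ) (u : Fin n → Bool) (w : Bool) (b : Fin n → Bool) (x : ℕ) :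
    ps u x ≤ w.toNat + ps (row n u w b).1 x := by
  induction n generalizing w x with
  | zero => simp [ps]
  | succ n ih =>
    rcases x with _ | x
    · rw [ps_zero]; omega
    · rw [ps_succ]
      simp only [row]
      rw [ps_cons_succ]
      have := ih (Fin.tail u) (cell (u 0) w (b 0)).2 (Fin.tail b) x
      have h2 := cell_cons (u 0) w (b 0)
      omega

lemma row_ge_one (n : ℕ) (u : Fin n → Bool) (w : Bool) (b : Fin n → Bool) (x : ℕ) (hx : x < n)
    (hb : b ⟨x, hx⟩ = true) :
    ps u x + 1 ≤ w.toNat + ps (row n u w b).1 (x + 1) := by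
  induction n generalizing w x with
  | zero => omega
  | succ n ih =>
    rcases x with _ | x
    · rw [ps_zero]
      simp only [row]
      rw [ps_cons_succ]
      have hb' : b 0 = true := hb
      have := cell_one (u 0) w
      rw [hb']
      omega
    · rw [ps_succ]
      simp only [row]
      rw [ps_cons_succ]
      have hb' : Fin.tail b ⟨x, by omega⟩ = true := hb
      have := ih (Fin.tail u) (cell (u 0) w (b 0)).2 (Fin.tail b) x (by omega) hb'
      have h2 := cell_cons (u 0) w (b 0)
      omega

/-- the matrix `ω` contains a strict chain of length `k` with all columns `≥ x` -/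
def HasChain {K n : ℕ} (ω : Fin K → Fin n → Bool) (x k : ℕ) : Prop :=
  ∃ (r : Fin k → Fin K) (c : Fin k → Fin n), StrictMono r ∧ StrictMono c ∧
    (∀ s, x ≤ (c s : ℕ)) ∧ ∀ s, ω (r s) (c s) = true

lemma rows_chain (K n : ℕ) (u : Fin n → Bool) (w : Fin K → Bool) (ω : Fin K → Fin n → Bool)
    (x k : ℕ) (h : HasChain ω x k) (hx : x ≤ n) :
    ps u x + k ≤ (∑ j, (w j).toNat) + ps (rows K n u w ω) n := by
  induction K generalizing u x k with
  | zero =>
    obtain ⟨r, c, hr, hc, h1, h2⟩ := h
    have hk : k = 0 := by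
      by_contra hk
      exact (r ⟨0, by omega⟩).elim0
    subst hk
    simp only [rows, Finset.univ_eq_empty, Finset.sum_empty, add_zero, zero_add]
    exact ps_mono u hx
  | succ K ih =>
    obtain ⟨r, c, hr, hc, h1, h2⟩ := h
    simp only [rows]
    rw [Fin.sum_univ_succ]
    have hw : ∑ i : Fin K, (w i.succ).toNat = ∑ i : Fin K, (Fin.tail w i).toNat := rfl
    rw [hw]
    rcases k with _ | k
    · -- empty chain
      have h3 : HasChain (Fin.tail ω) x 0 := by
        refine ⟨Fin.elim0, Fin.elim0, ?_, ?_, ?_, ?_⟩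
        · intro a; exact a.elim0
        · intro a; exact a.elim0
        · intro a; exact a.elim0
        · intro a; exact a.elim0
      have h4 := ih (row n u (w 0) (ω 0)).1 (Fin.tail w) (Fin.tail ω) x 0 h3 hx
      have h5 := row_ge n u (w 0) (ω 0) x
      omega
    · by_cases h0 : r 0 = 0
      · -- first element in the first row
        have hpos : ∀ s : Fin k, r s.succ ≠ 0 := by
          intro s hs
          have : r 0 < r s.succ := hr (Fin.succ_pos s)
          rw [hs] at this
          exact absurd this (by simp)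
        have h3 : HasChain (Fin.tail ω) ((c 0 : ℕ) + 1) k := by
          refine ⟨fun s => (r s.succ).pred (hpos s), fun s => c s.succ, ?_, ?_, ?_, ?_⟩
          · intro a b hab
            simp only [Fin.pred_lt_pred_iff]
            exact hr (Fin.succ_lt_succ_iff.mpr hab)
          · intro a b hab
            exact hc (Fin.succ_lt_succ_iff.mpr hab)
          · intro s
            have : c 0 < c s.succ := hc (Fin.succ_pos s)
            exact this
          · intro s
            have := h2 s.succ
            simp only [Fin.tail, Fin.succ_pred]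
            exact this
        have h4 := ih (row n u (w 0) (ω 0)).1 (Fin.tail w) (Fin.tail ω) ((c 0 : ℕ) + 1) k h3
          (c 0).isLt
        have hb : ω 0 ⟨(c 0 : ℕ), (c 0).isLt⟩ = true := by
          have := h2 0
          rw [h0] at this
          exact this
        have h5 := row_ge_one n u (w 0) (ω 0) (c 0) (c 0).isLt hb
        have h6 : ps u x ≤ ps u (c 0 : ℕ) := ps_mono u (h1 0)
        omega
      · -- no element in the first row
        have hpos : ∀ s : Fin (k+1), r s ≠ 0 := by
          intro s hs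
          have : r 0 ≤ r s := hr.monotone (Fin.zero_le s)
          rw [hs] at this
          exact h0 (Fin.le_zero_iff.mp this)
        have h3 : HasChain (Fin.tail ω) x (k+1) := by
          refine ⟨fun s => (r s).pred (hpos s), c, ?_, hc, h1, ?_⟩
          · intro a b hab
            simp only [Fin.pred_lt_pred_iff]
            exact hr hab
          · intro s
            have := h2 s
            simp only [Fin.tail, Fin.succ_pred]
            exact this
        have h4 := ih (row n u (w 0) (ω 0)).1 (Fin.tail w) (Fin.tail ω) x (k+1) h3 hx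
        have h5 := row_ge n u (w 0) (ω 0) x
        omega

lemma wt_pow (A t : ℝ) (b : Bool) : wt A b * t ^ b.toNat = wt (A * t) b := by
  cases b <;> simp [wt]

lemma vw_pow {n : ℕ} (A t : ℝ) (u : Fin n → Bool) :
    vw (wt A) u * t ^ (∑ j, (u j).toNat) = vw (wt (A * t)) u := by
  unfold vw
  rw [← Finset.prod_pow_eq_pow_sum, ← Finset.prod_mul_distrib]
  exact Finset.prod_congr rfl fun i _ => wt_pow A t (u i)

lemma ps_full {n : ℕ} (u : Fin n → Bool) : ps u n = ∑ j, (u j).toNat := by
  unfold ps
  refine Finset.sum_congr rfl fun i _ => ?_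
  cases u i <;> simp

lemma vw_nonneg {n : ℕ} (f : Bool → ℝ) (hf : ∀ b, 0 ≤ f b) (u : Fin n → Bool) : 0 ≤ vw f u :=
  Finset.prod_nonneg fun _ _ => hf _

lemma mw_nonneg {K n : ℕ} (p : ℝ) (h0 : 0 ≤ p) (h1 : p ≤ 1) (ω : Fin K → Fin n → Bool) :
    0 ≤ mw p ω := by
  refine Finset.prod_nonneg fun i _ => vw_nonneg _ (fun b => ?_) _
  unfold bw
  split_ifs <;> linarith

/-- Exponential bound: the `p`-weight of the matrices containing a strict `k`-chain. -/
lemma chain_weight_le (N k : ℕ) (p a t : ℝ) (hp0 : 0 ≤ p) (hp1 : p ≤ 1) (ha : 0 ≤ a) (ht : 1 ≤ t)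
    (hat : a * (a * t) = p) (S : Finset (Fin N → Fin N → Bool))
    (hS : ∀ ω ∈ S, HasChain ω 0 k) :
    t ^ k * (1 + a) ^ (2 * N) * ∑ ω ∈ S, mw p ω ≤ (1 + a * t) ^ (2 * N) := by
  have ht0 : (0:ℝ) ≤ t := by linarith
  have key := rows_sum a (a * t) p hat N N (fun u => t ^ (ps u N))
  have h1 : (1 + a * t) ^ N * ∑ u : Fin N → Bool, vw (wt a) u * t ^ (ps u N) =
      (1 + a * t) ^ (2 * N) := by
    have : ∀ u : Fin N → Bool, vw (wt a) u * t ^ (ps u N) = vw (wt (a * t)) u := by
      intro u; rw [ps_full, vw_pow]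
    simp only [this]
    rw [sum_vw]
    simp only [wt, if_true, Bool.false_eq_true, if_false]
    ring
  rw [h1] at key
  rw [← key]
  have hA : (1 + a) ^ N = ∑ u : Fin N → Bool, vw (wt a) u := by
    rw [sum_vw]; simp [wt]; ring
  have hfac : t ^ k * (1 + a) ^ (2 * N) * ∑ ω ∈ S, mw p ω =
      ∑ u : Fin N → Bool, ∑ w : Fin N → Bool, ∑ ω ∈ S,
        vw (wt a) u * vw (wt a) w * mw p ω * t ^ k := by
    rw [two_mul, pow_add, hA]
    simp only [← Finset.mul_sum, ← Finset.sum_mul]
    ring
  rw [hfac]
  refine Finset.sum_le_sum fun u _ => Finset.sum_le_sum fun w _ => ?_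
  have hwt : ∀ b, 0 ≤ wt a b := by intro b; unfold wt; split_ifs <;> linarith
  have hwt2 : ∀ b, 0 ≤ wt (a * t) b := by
    intro b; unfold wt; split_ifs
    · positivity
    · norm_num
  calc ∑ ω ∈ S, vw (wt a) u * vw (wt a) w * mw p ω * t ^ k
      ≤ ∑ ω ∈ S, vw (wt a) u * vw (wt (a * t)) w * mw p ω * t ^ (ps (rows N N u w ω) N) := by
        refine Finset.sum_le_sum fun ω hω => ?_
        have hc := rows_chain N N u w ω 0 k (hS ω hω) (Nat.zero_le _)
        rw [ps_zero, zero_add] at hc
        have h2 : t ^ k ≤ t ^ ((∑ j, (w j).toNat) + ps (rows N N u w ω) N) :=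
          pow_le_pow_right₀ ht hc
        calc vw (wt a) u * vw (wt a) w * mw p ω * t ^ k
            ≤ vw (wt a) u * vw (wt a) w * mw p ω *
              t ^ ((∑ j, (w j).toNat) + ps (rows N N u w ω) N) := by
              refine mul_le_mul_of_nonneg_left h2 ?_
              exact mul_nonneg (mul_nonneg (vw_nonneg _ hwt _) (vw_nonneg _ hwt _))
                (mw_nonneg p hp0 hp1 _)
          _ = vw (wt a) u * vw (wt (a * t)) w * mw p ω * t ^ (ps (rows N N u w ω) N) := by
              rw [pow_add, ← vw_pow a t w]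
              ring
    _ ≤ ∑ ω : Fin N → Fin N → Bool,
          vw (wt a) u * vw (wt (a * t)) w * mw p ω * t ^ (ps (rows N N u w ω) N) := by
        refine Finset.sum_le_univ_sum_of_nonneg fun ω => ?_
        exact mul_nonneg (mul_nonneg (mul_nonneg (vw_nonneg _ hwt _) (vw_nonneg _ hwt2 _))
          (mw_nonneg p hp0 hp1 _)) (pow_nonneg ht0 _)

end Pool.Agent.LibC3e
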