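import Pool.Agent.LibC3e.Lower

/-! Combination of the two bounds. -/

set_option autoImplicit false

namespace Pool.Agent.LibC3e

open Finset

lemma fact_le_pow_mul (M k : ℕ) (hk : k ≤ M) : M.factorial ≤ M ^ k * (M - k).factorial := by
  rw [← Nat.factorial_mul_descFactorial hk, mul_comm]
  exact Nat.mul_le_mul_right _ (Nat.descFactorial_le_pow M k)

lemma choose_big (g m : ℕ) (hm : 0 < m) (hg : 1 ≤ g) :
    (((g:ℝ) - 1) * Real.exp 1) ^ m ≤ ((g * m).choose m : ℝ) * (Real.exp 1 * m) := by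
  have h1 : ((g - 1) * m) ^ m ≤ (g * m).choose m * m.factorial := by
    rw [mul_comm ((g * m).choose m), ← Nat.descFactorial_eq_factorial_mul_choose]
    refine le_trans ?_ (Nat.pow_sub_le_descFactorial (g * m) m)
    apply Nat.pow_le_pow_left
    rw [Nat.sub_mul, one_mul]
    omega
  have hm' : (0:ℝ) < m := by exact_mod_cast hm
  have h2 : ((((g:ℝ) - 1) * m)) ^ m ≤ ((g * m).choose m : ℝ) * (m.factorial : ℝ) := by
    have : ((((g - 1) * m) ^ m : ℕ) : ℝ) ≤ (((g * m).choose m * m.factorial : ℕ) : ℝ) := by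
      exact_mod_cast h1
    push_cast [Nat.cast_sub hg] at this
    exact this
  have h3 := factorial_le m hm
  have h4 : ((((g:ℝ) - 1) * m)) ^ m ≤ ((g * m).choose m : ℝ) *
      (Real.exp 1 * m * ((m:ℝ) ^ m * Real.exp (-m))) :=
    h2.trans (mul_le_mul_of_nonneg_left h3 (Nat.cast_nonneg _))
  have h5 : (0:ℝ) < (m:ℝ) ^ m * Real.exp (-m) := by positivity
  refine le_of_mul_le_mul_right ?_ h5
  calc (((g:ℝ) - 1) * Real.exp 1) ^ m * ((m:ℝ) ^ m * Real.exp (-m))
      = ((((g:ℝ) - 1) * m)) ^ m * ((Real.exp 1) ^ m * Real.exp (-m)) := by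
        rw [mul_pow, mul_pow]; ring
    _ = ((((g:ℝ) - 1) * m)) ^ m := by
        rw [← Real.exp_nat_mul, ← Real.exp_add]
        simp
    _ ≤ _ := h4
    _ = _ := by ring

/-- Combination (`k + 1 = m²`, `s² y = (1-y)²`, `p M = y m⁴`). -/
lemma combine (m g k : ℕ) (p s y E : ℝ) (hm : 32 ≤ m) (hg : 11 ≤ g) (hk : k + 1 = m * m)
    (hp : 0 < p) (hy : 0 < y) (hy1 : y < 1) (hs : 1 ≤ s)
    (hpM : p = y * m ^ 2 / g) (hsy : s ^ 2 * y = (1 - y) ^ 2)
    (hthin : thin (tau m) (m * (g * m)) p ≤ thin (1 : Equiv.Perm (Fin k)) (m * (g * m)) p)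
    (hlow : p ^ (m * m) * T0 m g * Real.exp (-E) ≤
      ((m * (g * m)).factorial : ℝ) * thin (tau m) (m * (g * m)) p)
    (hup : thin (1 : Equiv.Perm (Fin k)) (m * (g * m)) p * (s ^ 2) ^ k ≤
      Real.exp 1 * (y * m ^ 4) * Real.exp (2 * (Real.sqrt y * m ^ 2) * (s - 1 / s) + 1 +
        (s - 1 / s + 1) ^ 2)) :
    (((1 - y) * (1 - 1 / g)) ^ (2 * (m * m)) * Real.exp (2 * (m * m))) * Real.exp (-E) ≤
      (Real.exp 1 * m) ^ (2 * m) * s ^ 2 * (Real.exp 1 * (y * m ^ 4) *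
        Real.exp (2 * (Real.sqrt y * m ^ 2) * (s - 1 / s) + 1 + (s - 1 / s + 1) ^ 2)) := by
  have hm0 : (0:ℝ) < m := by
    have : 0 < m := by omega
    exact_mod_cast this
  have hg0 : (0:ℝ) < g := by
    have : 0 < g := by omega
    exact_mod_cast this
  have hg1 : (1:ℝ) ≤ g := by
    have : 1 ≤ g := by omega
    exact_mod_cast this
  set B : ℝ := Real.exp 1 * (y * m ^ 4) * Real.exp (2 * (Real.sqrt y * m ^ 2) * (s - 1 / s) + 1 +
        (s - 1 / s + 1) ^ 2) with hB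
  have hB0 : 0 < B := by positivity
  have hMm : m * m ≤ m * (g * m) := by nlinarith
  set F : ℝ := ((m * (g * m) - m * m).factorial : ℝ) with hF
  have hF0 : 0 < F := by
    have := Nat.factorial_pos (m * (g * m) - m * m)
    rw [hF]; exact_mod_cast this
  set C : ℝ := ((g * m).choose m : ℝ) with hC
  have hC0 : 0 ≤ C := Nat.cast_nonneg _
  have hfM : ((m * (g * m)).factorial : ℝ) ≤ ((m * (g * m) : ℝ)) ^ (m * m) * F := by
    have := fact_le_pow_mul (m * (g * m)) (m * m) hMm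
    have h2 : ((m * (g * m)).factorial : ℝ) ≤ (((m * (g * m)) ^ (m * m) *
      (m * (g * m) - m * m).factorial : ℕ) : ℝ) := by exact_mod_cast this
    push_cast at h2
    exact h2
  have hs0 : 0 < s := by linarith
  have hs2 : 0 < (s ^ 2) ^ k := by positivity
  -- step A
  have hA : p ^ (m * m) * T0 m g * Real.exp (-E) * (s ^ 2) ^ k ≤
      ((m * (g * m) : ℝ)) ^ (m * m) * F * B := by
    calc p ^ (m * m) * T0 m g * Real.exp (-E) * (s ^ 2) ^ k
        ≤ (((m * (g * m)).factorial : ℝ) * thin (tau m) (m * (g * m)) p) * (s ^ 2) ^ k :=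
          mul_le_mul_of_nonneg_right hlow hs2.le
      _ ≤ (((m * (g * m)).factorial : ℝ) * thin (1 : Equiv.Perm (Fin k)) (m * (g * m)) p) *
          (s ^ 2) ^ k := by
          apply mul_le_mul_of_nonneg_right _ hs2.le
          exact mul_le_mul_of_nonneg_left hthin (Nat.cast_nonneg _)
      _ = ((m * (g * m)).factorial : ℝ) * (thin (1 : Equiv.Perm (Fin k)) (m * (g * m)) p *
          (s ^ 2) ^ k) := by ring
      _ ≤ ((m * (g * m)).factorial : ℝ) * B := mul_le_mul_of_nonneg_left hup (Nat.cast_nonneg _)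
      _ ≤ _ := mul_le_mul_of_nonneg_right hfM hB0.le
  have hT0 : T0 m g = C ^ (2 * m) * F := rfl
  rw [hT0] at hA
  -- cancel F
  have hA2 : p ^ (m * m) * C ^ (2 * m) * Real.exp (-E) * (s ^ 2) ^ k ≤
      ((m * (g * m) : ℝ)) ^ (m * m) * B := by
    refine le_of_mul_le_mul_right ?_ hF0
    calc p ^ (m * m) * C ^ (2 * m) * Real.exp (-E) * (s ^ 2) ^ k * F
        = p ^ (m * m) * (C ^ (2 * m) * F) * Real.exp (-E) * (s ^ 2) ^ k := by ring
      _ ≤ _ := hA
      _ = _ := by ring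
  -- binomial
  have hCb := choose_big g m (by omega) (by omega)
  rw [← hC] at hCb
  have hCb2 : (((g:ℝ) - 1) * Real.exp 1) ^ (2 * (m * m)) ≤ C ^ (2 * m) * (Real.exp 1 * m) ^ (2 * m) := by
    have h1 : 0 ≤ (((g:ℝ) - 1) * Real.exp 1) ^ m := by
      have : 0 ≤ (g:ℝ) - 1 := by linarith
      positivity
    have := pow_le_pow_left₀ h1 hCb (2 * m)
    rw [← pow_mul, mul_pow C] at this
    have e : m * (2 * m) = 2 * (m * m) := by ring
    rw [e] at this
    exact this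
  -- multiply
  have hM0 : (0:ℝ) < ((m * (g * m) : ℝ)) ^ (m * m) := by positivity
  refine le_of_mul_le_mul_left ?_ hM0
  have e1 : ((m * (g * m) : ℝ)) ^ (m * m) * (((1 - y) * (1 - 1 / g)) ^ (2 * (m * m)) *
      Real.exp (2 * (m * m)) * Real.exp (-E)) =
      (p ^ (m * m) * (((g:ℝ) - 1) * Real.exp 1) ^ (2 * (m * m)) * Real.exp (-E)) *
        (s ^ 2) ^ (m * m) := by
    have e2 : Real.exp (2 * (m * m)) = (Real.exp 1) ^ (2 * (m * m)) := by
      rw [← Real.exp_nat_mul]; congr 1; push_cast; ring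
    rw [e2, pow_mul ((1 - y) * (1 - 1 / (g:ℝ))) 2, pow_mul (Real.exp 1) 2]
    have e3 : p * (((g:ℝ) - 1) * Real.exp 1) ^ 2 * s ^ 2 =
        (m * (g * m) : ℝ) * (((1 - y) * (1 - 1 / g)) ^ 2) * (Real.exp 1) ^ 2 := by
      have e4 : (1 - 1 / (g:ℝ)) = ((g:ℝ) - 1) / g := by field_simp
      rw [e4, mul_pow, mul_pow, div_pow, ← hsy, hpM]
      field_simp
    have k1 : ∀ (N a2 b2 E : ℝ) (n : ℕ), N ^ n * (a2 ^ n * b2 ^ n * E) = (N * a2 * b2) ^ n * E := by
      intro N a2 b2 E n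
      rw [mul_pow, mul_pow]; ring
    have k2 : ∀ (N a2 b2 E : ℝ) (n : ℕ), (N ^ n * a2 ^ n * E) * b2 ^ n = (N * a2 * b2) ^ n * E := by
      intro N a2 b2 E n
      rw [mul_pow, mul_pow]; ring
    rw [k1, ← e3, pow_mul ((((g:ℝ) - 1) * Real.exp 1)) 2, k2]
  rw [e1]
  calc (p ^ (m * m) * (((g:ℝ) - 1) * Real.exp 1) ^ (2 * (m * m)) * Real.exp (-E)) *
        (s ^ 2) ^ (m * m)
      ≤ (p ^ (m * m) * (C ^ (2 * m) * (Real.exp 1 * m) ^ (2 * m)) * Real.exp (-E)) *
        (s ^ 2) ^ (m * m) := by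
        apply mul_le_mul_of_nonneg_right _ (by positivity)
        apply mul_le_mul_of_nonneg_right _ (Real.exp_pos _).le
        exact mul_le_mul_of_nonneg_left hCb2 (by positivity)
    _ = (Real.exp 1 * m) ^ (2 * m) * s ^ 2 *
        (p ^ (m * m) * C ^ (2 * m) * Real.exp (-E) * (s ^ 2) ^ k) := by
        rw [← hk, pow_succ (s ^ 2)]
        generalize (Real.exp 1 * m) ^ (2 * m) = X1
        generalize C ^ (2 * m) = X2
        generalize p ^ (k + 1) = X3
        generalize (s ^ 2) ^ k = X4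
        ring
    _ ≤ (Real.exp 1 * m) ^ (2 * m) * s ^ 2 * (((m * (g * m) : ℝ)) ^ (m * m) * B) :=
        mul_le_mul_of_nonneg_left hA2 (by positivity)
    _ = _ := by ring

end Pool.Agent.LibC3e
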