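import Mathlib

/-! Number of permutations with prescribed values. -/

set_option autoImplicit false

namespace Pool.Agent.LibC3e

open Finset

variable {V : Type} [Fintype V] [DecidableEq V]

open Classical in
lemma card_perm_fix (S : Finset V) :
    ((Finset.univ : Finset (Equiv.Perm V)).filter (fun g => ∀ x ∈ S, g x = x)).card =
      (Fintype.card V - S.card).factorial := by
  have e := Equiv.Perm.subtypeEquivSubtypePerm (fun a : V => a ∉ S)
  have h1 : Fintype.card (Equiv.Perm {a : V // a ∉ S}) = (Fintype.card V - S.card).factorial := by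
    rw [Fintype.card_perm]
    congr 1
    have : Fintype.card {a : V // a ∉ S} = (Finset.univ.filter fun a => a ∉ S).card := by
      rw [Fintype.card_subtype]
    rw [this]
    have h2 : (Finset.univ.filter fun a => a ∉ S) = Sᶜ := by
      ext a; simp
    rw [h2, Finset.card_compl]
  rw [← h1, Fintype.card_congr e, Fintype.card_subtype]
  congr 1
  ext g
  simp only [Finset.mem_filter, Finset.mem_univ, true_and, not_not]

open Classical in
lemma card_perm_eq (S : Finset V) (f : V → V) (P0 : Equiv.Perm V) (h0 : ∀ x ∈ S, P0 x = f x) :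
    ((Finset.univ : Finset (Equiv.Perm V)).filter (fun g => ∀ x ∈ S, g x = f x)).card =
      (Fintype.card V - S.card).factorial := by
  rw [← card_perm_fix S]
  refine Finset.card_bij' (fun g _ => g.trans P0.symm) (fun g _ => g.trans P0) ?_ ?_ ?_ ?_
  · intro g hg
    simp only [Finset.mem_filter, Finset.mem_univ, true_and, Equiv.trans_apply] at hg ⊢
    intro x hx
    rw [hg x hx, ← h0 x hx, Equiv.symm_apply_apply]
  · intro g hg
    simp only [Finset.mem_filter, Finset.mem_univ, true_and, Equiv.trans_apply] at hg ⊢
    intro x hx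
    rw [hg x hx, h0 x hx]
  · intro g _
    ext x
    simp
  · intro g _
    ext x
    simp

open Classical in
lemma card_perm_le (S : Finset V) (f : V → V) :
    ((Finset.univ : Finset (Equiv.Perm V)).filter (fun g => ∀ x ∈ S, g x = f x)).card ≤
      (Fintype.card V - S.card).factorial := by
  rcases Finset.eq_empty_or_nonempty
    ((Finset.univ : Finset (Equiv.Perm V)).filter (fun g => ∀ x ∈ S, g x = f x)) with h | ⟨P0, h⟩
  · rw [h]; simp
  · rw [card_perm_eq S f P0 (Finset.mem_filter.mp h).2]

open Classical in
lemma card_perm_inj (S : Finset V) (f : V → V) (hf : Set.InjOn f S) :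
    ((Finset.univ : Finset (Equiv.Perm V)).filter (fun g => ∀ x ∈ S, g x = f x)).card =
      (Fintype.card V - S.card).factorial := by
  obtain ⟨g, hg⟩ := Finset.exists_equiv_extend_of_card_eq (α := V) (β := V) (t := Finset.univ)
    (by rw [Finset.card_univ]) (s := S) (f := f) (Finset.subset_univ _) hf
  set P0 : Equiv.Perm V := g.trans (Equiv.subtypeUnivEquiv (fun x => Finset.mem_univ x)) with hP
  apply card_perm_eq S f P0
  intro x hx
  rw [hP]
  simp only [Equiv.trans_apply, Equiv.subtypeUnivEquiv_apply]
  exact hg x hx

end Pool.Agent.LibC3e
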