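import Pool.Agent.LibC3e.Single

/-! Pairs of chains with a prescribed difference set. -/

set_option autoImplicit false

namespace Pool.Agent.LibC3e

open Finset

variable {m w : ℕ}

open Classical in
/-- pairs of chains which differ exactly on `E`, disjointly -/
noncomputable def UP (m w : ℕ) (E : Finset (Fin m)) :
    Finset ((Fin m ↪o Fin w) × (Fin m ↪o Fin w)) :=
  Finset.univ.filter fun c => (∀ a, a ∉ E → c.1 a = c.2 a) ∧ (∀ a ∈ E, ∀ b, c.2 a ≠ c.1 b)

/-- rank in a set -/
def rk (Z : Finset (Fin w)) (z : Fin w) : ℕ := (Z.filter fun x => x < z).card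

lemma rk_inj (Z : Finset (Fin w)) {z z' : Fin w} (hz : z ∈ Z) (hz' : z' ∈ Z)
    (h : rk Z z = rk Z z') : z = z' := by
  have key : ∀ z z' : Fin w, z ∈ Z → z < z' → rk Z z < rk Z z' := by
    intro z z' hz hlt
    unfold rk
    apply Finset.card_lt_card
    rw [Finset.ssubset_iff_of_subset]
    · exact ⟨z, by rw [Finset.mem_filter]; exact ⟨hz, hlt⟩, by
        rw [Finset.mem_filter]; intro h; exact lt_irrefl _ h.2⟩
    · intro x hx
      rw [Finset.mem_filter] at hx ⊢
      exact ⟨hx.1, hx.2.trans hlt⟩
  rcases lt_trichotomy z z' with h1 | h1 | h1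
  · have := key z z' hz h1
    omega
  · exact h1
  · have := key z' z hz' h1
    omega

/-- the elements of `Z` of common ranks -/
def CC (E : Finset (Fin m)) (Z : Finset (Fin w)) : Finset (Fin w) :=
  Z.filter fun z => ∃ j : Fin m, j ∉ E ∧ rk Z z = (j : ℕ) + (E.filter fun i => i < j).card

lemma filter_map_lt (X : Fin m ↪o Fin w) (S : Finset (Fin m)) (j : Fin m) :
    ((S.map X.toEmbedding).filter fun x => x < X j).card = (S.filter fun i => i < j).card := by
  rw [← Finset.card_map X.toEmbedding]
  congr 1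
  ext x
  simp only [Finset.mem_filter, Finset.mem_map, RelEmbedding.coe_toEmbedding]
  constructor
  · rintro ⟨⟨i, hi, rfl⟩, h⟩
    exact ⟨i, ⟨hi, X.lt_iff_lt.mp h⟩, rfl⟩
  · rintro ⟨i, ⟨hi, h⟩, rfl⟩
    exact ⟨⟨i, hi, rfl⟩, X.lt_iff_lt.mpr h⟩

/-- data of a pair -/
structure PairData (E : Finset (Fin m)) (X X' : Fin m ↪o Fin w) (Z : Finset (Fin w)) : Prop where
  hZ : Z = Finset.univ.map X.toEmbedding ∪ E.map X'.toEmbedding
  hd : Disjoint (Finset.univ.map X.toEmbedding) (E.map X'.toEmbedding)
  he : ∀ a, a ∉ E → X a = X' a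

lemma PairData.card {E : Finset (Fin m)} {X X' : Fin m ↪o Fin w} {Z : Finset (Fin w)}
    (h : PairData E X X' Z) : Z.card = m + E.card := by
  rw [h.hZ, Finset.card_union_of_disjoint h.hd]
  simp

lemma PairData.cc {E : Finset (Fin m)} {X X' : Fin m ↪o Fin w} {Z : Finset (Fin w)}
    (h : PairData E X X' Z) : CC E Z = Eᶜ.map X.toEmbedding := by
  have hrk : ∀ j, j ∉ E → rk Z (X j) = (j : ℕ) + (E.filter fun i => i < j).card := by
    intro j hj
    unfold rk
    rw [h.hZ, Finset.filter_union, Finset.card_union_of_disjoint]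
    · rw [filter_map_lt]
      have e1 : (Finset.univ.filter fun i : Fin m => i < j).card = (j : ℕ) := by
        rw [show (Finset.univ.filter fun i : Fin m => i < j) = Finset.Iio j from by ext; simp,
          Fin.card_Iio]
      rw [e1]
      rw [h.he j hj, filter_map_lt]
    · exact Finset.disjoint_filter_filter h.hd
  have hmem : ∀ j, X j ∈ Z := by
    intro j
    rw [h.hZ, Finset.mem_union]
    left
    exact Finset.mem_map_of_mem _ (Finset.mem_univ _)
  ext z
  simp only [CC, Finset.mem_filter, Finset.mem_map, Finset.mem_compl, RelEmbedding.coe_toEmbedding]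
  constructor
  · rintro ⟨hz, j, hj, hr⟩
    refine ⟨j, hj, ?_⟩
    rw [← hrk j hj] at hr
    exact (rk_inj Z hz (hmem j) hr).symm
  · rintro ⟨j, hj, rfl⟩
    exact ⟨hmem j, j, hj, hrk j hj⟩

lemma PairData.sdiff {E : Finset (Fin m)} {X X' : Fin m ↪o Fin w} {Z : Finset (Fin w)}
    (h : PairData E X X' Z) : Z \ CC E Z = E.map X.toEmbedding ∪ E.map X'.toEmbedding := by
  rw [h.cc, h.hZ]
  have hu : (Finset.univ : Finset (Fin m)) = Eᶜ ∪ E := by
    ext a; simp [em']
  have h1 : (Finset.univ : Finset (Fin m)).map X.toEmbedding =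
      Eᶜ.map X.toEmbedding ∪ E.map X.toEmbedding := by
    conv_lhs => rw [hu]
    rw [Finset.map_union]
  have h2 : Disjoint (Eᶜ.map X.toEmbedding) (E.map X.toEmbedding) := by
    rw [Finset.disjoint_map]
    exact disjoint_compl_left
  have h3 : Disjoint (Eᶜ.map X.toEmbedding) (E.map X'.toEmbedding) := by
    apply Finset.disjoint_of_subset_left _ h.hd
    exact Finset.map_subset_map.mpr (Finset.subset_univ _)
  rw [h1]
  ext z
  simp only [Finset.mem_sdiff, Finset.mem_union]
  constructor
  · rintro ⟨(h4 | h4) | h4, h5⟩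
    · exact absurd h4 h5
    · exact Or.inl h4
    · exact Or.inr h4
  · rintro (h4 | h4)
    · exact ⟨Or.inl (Or.inr h4), fun h5 => (Finset.disjoint_left.mp h2 h5) h4⟩
    · exact ⟨Or.inr h4, fun h5 => (Finset.disjoint_left.mp h3 h5) h4⟩

lemma chain_eq_of_map (X Y : Fin m ↪o Fin w)
    (h : (Finset.univ : Finset (Fin m)).map X.toEmbedding = Finset.univ.map Y.toEmbedding) :
    X = Y := by
  apply (chainEquiv m w).injective
  apply Subtype.ext
  exact h

lemma UP_data (E : Finset (Fin m)) (c : (Fin m ↪o Fin w) × (Fin m ↪o Fin w))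
    (hc : c ∈ UP m w E) : PairData E c.1 c.2
      (Finset.univ.map c.1.toEmbedding ∪ E.map c.2.toEmbedding) := by
  classical
  have h := (Finset.mem_filter.mp hc).2
  refine ⟨rfl, ?_, h.1⟩
  rw [Finset.disjoint_left]
  intro x hx hx'
  rw [Finset.mem_map] at hx hx'
  obtain ⟨b, _, rfl⟩ := hx
  obtain ⟨a, ha, hab⟩ := hx'
  exact h.2 a ha b hab

lemma UP_card (E : Finset (Fin m)) :
    (UP m w E).card ≤ w.choose (m + E.card) * 2 ^ (2 * E.card) := by
  classical
  set T : Finset (Σ _ : Finset (Fin w), Finset (Fin w)) :=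
    ((Finset.powersetCard (m + E.card) (Finset.univ : Finset (Fin w))).filter
      fun Z => (Z \ CC E Z).card = 2 * E.card).sigma
      (fun Z => Finset.powersetCard E.card (Z \ CC E Z)) with hT
  have hTc : T.card ≤ w.choose (m + E.card) * 2 ^ (2 * E.card) := by
    rw [hT, Finset.card_sigma]
    calc ∑ Z ∈ (Finset.powersetCard (m + E.card) (Finset.univ : Finset (Fin w))).filter
          (fun Z => (Z \ CC E Z).card = 2 * E.card),
          (Finset.powersetCard E.card (Z \ CC E Z)).card
        ≤ ∑ Z ∈ (Finset.powersetCard (m + E.card) (Finset.univ : Finset (Fin w))).filter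
          (fun Z => (Z \ CC E Z).card = 2 * E.card), 2 ^ (2 * E.card) := by
          refine Finset.sum_le_sum fun Z hZ => ?_
          rw [Finset.card_powersetCard, (Finset.mem_filter.mp hZ).2]
          exact Nat.choose_le_two_pow _ _
      _ = ((Finset.powersetCard (m + E.card) (Finset.univ : Finset (Fin w))).filter
          (fun Z => (Z \ CC E Z).card = 2 * E.card)).card * 2 ^ (2 * E.card) := by
          rw [Finset.sum_const, smul_eq_mul]
      _ ≤ w.choose (m + E.card) * 2 ^ (2 * E.card) := by
          apply Nat.mul_le_mul_right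
          calc _ ≤ (Finset.powersetCard (m + E.card) (Finset.univ : Finset (Fin w))).card :=
                Finset.card_le_card (Finset.filter_subset _ _)
            _ = w.choose (m + E.card) := by
                rw [Finset.card_powersetCard, Finset.card_univ, Fintype.card_fin]
  refine le_trans (Finset.card_le_card_of_injOn
    (fun c => (⟨Finset.univ.map c.1.toEmbedding ∪ E.map c.2.toEmbedding,
      E.map c.1.toEmbedding⟩ : Σ _ : Finset (Fin w), Finset (Fin w))) ?_ ?_) hTc
  · intro c hc
    have h := UP_data E c hc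
    rw [Finset.mem_coe, hT, Finset.mem_sigma]
    simp only
    refine ⟨?_, ?_⟩
    · rw [Finset.mem_filter, Finset.mem_powersetCard]
      refine ⟨⟨Finset.subset_univ _, h.card⟩, ?_⟩
      rw [h.sdiff, Finset.card_union_of_disjoint]
      · rw [Finset.card_map, Finset.card_map]; ring
      · apply Finset.disjoint_of_subset_left _ h.hd
        exact Finset.map_subset_map.mpr (Finset.subset_univ _)
    · rw [Finset.mem_powersetCard, h.sdiff, Finset.card_map]
      exact ⟨Finset.subset_union_left, rfl⟩
  · intro c hc c' hc' he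
    have h := UP_data E c hc
    have h' := UP_data E c' hc'
    simp only [Sigma.mk.injEq, heq_eq_eq] at he
    obtain ⟨e1, e2⟩ := he
    have hcc := h.cc
    have hcc' := h'.cc
    rw [e1, hcc'] at hcc
    have hu : (Finset.univ : Finset (Fin m)) = Eᶜ ∪ E := by
      ext a; simp [em']
    have e3 : c.1 = c'.1 := by
      apply chain_eq_of_map
      rw [hu, Finset.map_union, Finset.map_union, e2, hcc]
    have hE : E.map c.2.toEmbedding = E.map c'.2.toEmbedding := by
      have e4 : E.map c.2.toEmbedding = (Finset.univ.map c.1.toEmbedding ∪ E.map c.2.toEmbedding) \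
          Finset.univ.map c.1.toEmbedding := by
        rw [Finset.union_sdiff_left]
        exact (Finset.sdiff_eq_self_of_disjoint h.hd.symm).symm
      have e5 : E.map c'.2.toEmbedding = (Finset.univ.map c'.1.toEmbedding ∪ E.map c'.2.toEmbedding) \
          Finset.univ.map c'.1.toEmbedding := by
        rw [Finset.union_sdiff_left]
        exact (Finset.sdiff_eq_self_of_disjoint h'.hd.symm).symm
      rw [e4, e5, e1, e3]
    have hEc : Eᶜ.map c.2.toEmbedding = Eᶜ.map c'.2.toEmbedding := by
      have key : ∀ d : (Fin m ↪o Fin w) × (Fin m ↪o Fin w), (∀ a, a ∉ E → d.1 a = d.2 a) →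
          Eᶜ.map d.2.toEmbedding = Eᶜ.map d.1.toEmbedding := by
        intro d hd
        ext x
        simp only [Finset.mem_map, Finset.mem_compl, RelEmbedding.coe_toEmbedding]
        constructor
        · rintro ⟨a, ha, rfl⟩
          exact ⟨a, ha, hd a ha⟩
        · rintro ⟨a, ha, rfl⟩
          exact ⟨a, ha, (hd a ha).symm⟩
      rw [key c h.he, key c' h'.he, e3]
    have e6 : c.2 = c'.2 := by
      apply chain_eq_of_map
      rw [hu, Finset.map_union, Finset.map_union, hE, hEc]
    exact Prod.ext e3 e6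

lemma choose_succ_le (w m : ℕ) (hm : 0 < m) :
    (w.choose (m + 1) : ℝ) ≤ w.choose m * (w / m : ℝ) := by
  have h := Nat.choose_succ_right_eq w m
  have hm' : (0:ℝ) < m := by exact_mod_cast hm
  have h1 : (w.choose (m + 1) : ℝ) * (m + 1) = w.choose m * ((w - m : ℕ) : ℝ) := by
    exact_mod_cast h
  have h2 : ((w - m : ℕ) : ℝ) ≤ w := by exact_mod_cast Nat.sub_le w m
  have h3 : (0:ℝ) ≤ w.choose m := Nat.cast_nonneg _
  have h4 : (0:ℝ) ≤ w.choose (m + 1) := Nat.cast_nonneg _
  rw [← mul_div_assoc, le_div_iff₀ hm']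
  nlinarith

lemma choose_add_le (w m e : ℕ) (hm : 0 < m) :
    (w.choose (m + e) : ℝ) ≤ w.choose m * (w / m : ℝ) ^ e := by
  induction e with
  | zero => simp
  | succ e ih =>
    have h1 := choose_succ_le w (m + e) (by omega)
    have h2 : (w / ((m + e : ℕ) : ℝ) : ℝ) ≤ w / m := by
      have hm' : (0:ℝ) < m := by exact_mod_cast hm
      apply div_le_div_of_nonneg_left (Nat.cast_nonneg _) hm'
      exact_mod_cast Nat.le_add_right m e
    calc (w.choose (m + (e + 1)) : ℝ) ≤ w.choose (m + e) * (w / ((m + e : ℕ) : ℝ)) := by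
          rw [← add_assoc]
          exact_mod_cast h1
      _ ≤ (w.choose m * (w / m : ℝ) ^ e) * (w / m) := by
          apply mul_le_mul ih h2 (by positivity) (by positivity)
      _ = w.choose m * (w / m : ℝ) ^ (e + 1) := by rw [pow_succ]; ring

/-- the bound for pairs with difference set `E` -/
lemma UP_real (E : Finset (Fin m)) (hm : 0 < m) :
    ((UP m w E).card : ℝ) ≤ w.choose m * (4 * (w / m : ℝ)) ^ E.card := by
  have h1 := UP_card (w := w) E
  have h2 := choose_add_le w m E.card hm
  calc ((UP m w E).card : ℝ) ≤ ((w.choose (m + E.card) * 2 ^ (2 * E.card) : ℕ) : ℝ) := by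
        exact_mod_cast h1
    _ = w.choose (m + E.card) * 4 ^ E.card := by
        push_cast
        rw [pow_mul]
        norm_num
    _ ≤ (w.choose m * (w / m : ℝ) ^ E.card) * 4 ^ E.card := by
        apply mul_le_mul_of_nonneg_right h2 (by positivity)
    _ = _ := by rw [mul_pow]; ring

end Pool.Agent.LibC3e
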