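import Pool.Agent.LibC3e.Hyb
import Pool.Agent.LibC3e.Union
import Pool.Agent.LibC3e.PermCount

/-! Counting pairs of placements. -/

set_option autoImplicit false

namespace Pool.Agent.LibC3e

open Finset

variable {m w : ℕ}

open Classical in
lemma on_card (φ : Pl m w) :
    ((Finset.univ : Finset (Equiv.Perm (Fin (m * w)))).filter fun P => On P φ).card =
      (m * w - m * m).factorial := by
  set f : Fin (m * w) → Fin (m * w) :=
    Function.extend (fun a : Fin m × Fin m => px φ a.1 a.2) (fun a => py φ a.1 a.2) id with hf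
  have hfa : ∀ i j, f (px φ i j) = py φ i j := by
    intro i j
    have := (px_injective φ).extend_apply (fun a : Fin m × Fin m => py φ a.1 a.2) id (i, j)
    exact this
  have hinj : Set.InjOn f (posSet φ) := by
    intro x hx y hy hxy
    rw [Finset.mem_coe, posSet, Finset.mem_image] at hx hy
    obtain ⟨⟨i, j⟩, _, rfl⟩ := hx
    obtain ⟨⟨i', j'⟩, _, rfl⟩ := hy
    simp only at hxy ⊢
    rw [hfa, hfa] at hxy
    obtain ⟨h1, h2⟩ := py_inj φ hxy
    rw [h1, h2]
  have h1 := card_perm_inj (posSet φ) f hinj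
  rw [card_posSet, Fintype.card_fin] at h1
  rw [← h1]
  congr 1
  ext P
  simp only [Finset.mem_filter, Finset.mem_univ, true_and]
  constructor
  · intro h x hx
    rw [posSet, Finset.mem_image] at hx
    obtain ⟨⟨i, j⟩, _, rfl⟩ := hx
    simp only
    rw [hfa, h i j]
  · intro h i j
    rw [h _ (mem_posSet φ i j), hfa]

open Classical in
lemma on_both_card (φ φ' : Pl m w) :
    ((Finset.univ : Finset (Equiv.Perm (Fin (m * w)))).filter fun P => On P φ ∧ On P φ').card ≤
      (m * w - (m * m + (DS φ φ').card)).factorial := by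
  rcases Finset.eq_empty_or_nonempty
    ((Finset.univ : Finset (Equiv.Perm (Fin (m * w)))).filter fun P => On P φ ∧ On P φ')
    with h | ⟨P0, h0⟩
  · rw [h]; simp
  · have h0' := (Finset.mem_filter.mp h0).2
    have hc : (posSet φ ∪ posSet φ').card = m * m + (DS φ φ').card := by
      rw [← Finset.union_sdiff_self_eq_union, Finset.card_union_of_disjoint Finset.disjoint_sdiff,
        card_posSet, card_sdiff_posSet P0 φ φ' h0'.1 h0'.2]
    have h1 := card_perm_le (posSet φ ∪ posSet φ') P0
    rw [hc, Fintype.card_fin] at h1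
    refine le_trans (Finset.card_le_card (t := ((Finset.univ : Finset (Equiv.Perm (Fin (m * w)))).filter
      fun g => ∀ x ∈ posSet φ ∪ posSet φ', g x = P0 x)) ?_) (le_trans (le_of_eq ?_) h1)
    swap
    · congr
    intro P hP
    have hP' := (Finset.mem_filter.mp hP).2
    rw [Finset.mem_filter]
    refine ⟨Finset.mem_univ _, ?_⟩
    intro x hx
    rw [Finset.mem_union, posSet, posSet, Finset.mem_image, Finset.mem_image] at hx
    rcases hx with ⟨⟨i, j⟩, _, rfl⟩ | ⟨⟨i, j⟩, _, rfl⟩
    · rw [hP'.1 i j, h0'.1 i j]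
    · rw [hP'.2 i j, h0'.2 i j]

/-- pair of chains -/
abbrev CP (m w : ℕ) := (Fin m ↪o Fin w) × (Fin m ↪o Fin w)

/-- rearrangement of a pair of placements into columns and rows -/
def cols (c : Pl m w × Pl m w) : (Fin m → CP m w) × (Fin m → CP m w) :=
  (fun i => (c.1.1 i, c.2.1 i), fun j => (c.1.2 j, c.2.2 j))

lemma cols_injective : Function.Injective (cols (m := m) (w := w)) := by
  rintro ⟨⟨a, b⟩, ⟨c, d⟩⟩ ⟨⟨a', b'⟩, ⟨c', d'⟩⟩ h
  simp only [cols, Prod.mk.injEq] at h
  obtain ⟨h1, h2⟩ := h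
  have e1 : a = a' := by
    funext i; exact congrArg Prod.fst (congrFun h1 i)
  have e2 : c = c' := by
    funext i; exact congrArg Prod.snd (congrFun h1 i)
  have e3 : b = b' := by
    funext i; exact congrArg Prod.fst (congrFun h2 i)
  have e4 : d = d' := by
    funext i; exact congrArg Prod.snd (congrFun h2 i)
  rw [e1, e2, e3, e4]

/-- column `i` of `D` -/
def colD (D : Finset (Fin m × Fin m)) (i : Fin m) : Finset (Fin m) :=
  Finset.univ.filter fun j => (i, j) ∈ D

/-- row `j` of `D` -/
def rowD (D : Finset (Fin m × Fin m)) (j : Fin m) : Finset (Fin m) :=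
  Finset.univ.filter fun i => (i, j) ∈ D

lemma sum_colD (D : Finset (Fin m × Fin m)) : ∑ i, (colD D i).card = D.card := by
  unfold colD
  rw [Finset.card_eq_sum_card_fiberwise (f := Prod.fst) (t := Finset.univ) (fun _ _ => Finset.mem_univ _)]
  refine Finset.sum_congr rfl fun i _ => ?_
  apply Finset.card_bij (fun j _ => (i, j))
  · intro j hj
    simp only [Finset.mem_filter, Finset.mem_univ, true_and] at hj ⊢
    exact ⟨hj, trivial⟩
  · intro j _ j' _ h
    exact congrArg Prod.snd h
  · rintro ⟨i', j⟩ h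
    simp only [Finset.mem_filter] at h
    obtain ⟨h1, h2⟩ := h
    subst h2
    exact ⟨j, by simp [h1], rfl⟩

lemma sum_rowD (D : Finset (Fin m × Fin m)) : ∑ j, (rowD D j).card = D.card := by
  unfold rowD
  rw [Finset.card_eq_sum_card_fiberwise (f := Prod.snd) (t := Finset.univ) (fun _ _ => Finset.mem_univ _)]
  refine Finset.sum_congr rfl fun j _ => ?_
  apply Finset.card_bij (fun i _ => (i, j))
  · intro i hi
    simp only [Finset.mem_filter, Finset.mem_univ, true_and] at hi ⊢
    exact ⟨hi, trivial⟩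
  · intro i _ i' _ h
    exact congrArg Prod.fst h
  · rintro ⟨i, j'⟩ h
    simp only [Finset.mem_filter] at h
    obtain ⟨h1, h2⟩ := h
    subst h2
    exact ⟨i, by simp [h1], rfl⟩

lemma col_mem_UP (P : Equiv.Perm (Fin (m * w))) (φ φ' : Pl m w) (h : On P φ) (h' : On P φ')
    (i : Fin m) : (φ.1 i, φ'.1 i) ∈ UP m w (colD (DS φ φ') i) := by
  classical
  rw [UP, Finset.mem_filter]
  refine ⟨Finset.mem_univ _, ?_, ?_⟩
  · intro a ha
    simp only [colD, Finset.mem_filter, Finset.mem_univ, true_and, mem_DS, not_not] at ha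
    exact ha
  · intro a ha b hab
    simp only [colD, Finset.mem_filter, Finset.mem_univ, true_and, mem_DS] at ha
    simp only at hab
    have := on_ne P φ φ' h h' i b i a (by unfold px; rw [hab])
    rw [this.2] at hab
    exact ha hab.symm

lemma row_mem_UP (P : Equiv.Perm (Fin (m * w))) (φ φ' : Pl m w) (h : On P φ) (h' : On P φ')
    (j : Fin m) : (φ.2 j, φ'.2 j) ∈ UP m w (rowD (DS φ φ') j) := by
  classical
  rw [UP, Finset.mem_filter]
  refine ⟨Finset.mem_univ _, ?_, ?_⟩
  · intro a ha
    simp only [rowD, Finset.mem_filter, Finset.mem_univ, true_and, mem_DS, not_not] at ha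
    exact (on_eq_iff P φ φ' h h' a j).mp ha
  · intro a ha b hab
    simp only [rowD, Finset.mem_filter, Finset.mem_univ, true_and, mem_DS] at ha
    simp only at hab
    have := on_ne_y P φ φ' h h' b j a j (by unfold py; rw [hab])
    rw [this.1] at hab
    exact ha ((on_eq_iff P φ φ' h h' a j).mpr hab.symm)

open Classical in
/-- the weight of a set of pairs -/
lemma pairs_weight (𝒜 : Finset (Pl m w × Pl m w)) (d : ℕ) (hd : ∀ c ∈ 𝒜, (DS c.1 c.2).card = d) :
    ∑ P : Equiv.Perm (Fin (m * w)), (𝒜.filter fun c => On P c.1 ∧ On P c.2).card ≤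
      (𝒜.filter fun c => ∃ P : Equiv.Perm (Fin (m * w)), On P c.1 ∧ On P c.2).card *
        (m * w - (m * m + d)).factorial := by
  have h1 : ∑ P : Equiv.Perm (Fin (m * w)), (𝒜.filter fun c => On P c.1 ∧ On P c.2).card =
      ∑ c ∈ 𝒜, ((Finset.univ : Finset (Equiv.Perm (Fin (m * w)))).filter
        fun P => On P c.1 ∧ On P c.2).card := by
    simp only [Finset.card_filter]
    rw [Finset.sum_comm]
  rw [h1]
  have h2 : ∀ c ∈ 𝒜, ((Finset.univ : Finset (Equiv.Perm (Fin (m * w)))).filter
        fun P => On P c.1 ∧ On P c.2).card ≤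
      if (∃ P : Equiv.Perm (Fin (m * w)), On P c.1 ∧ On P c.2) then
        (m * w - (m * m + d)).factorial else 0 := by
    intro c hc
    split_ifs with h
    · have := on_both_card c.1 c.2
      rwa [hd c hc] at this
    · rw [Nat.le_zero, Finset.card_eq_zero, Finset.filter_eq_empty_iff]
      intro P _ hP
      exact h ⟨P, hP⟩
  refine (Finset.sum_le_sum h2).trans ?_
  rw [← Finset.sum_filter, Finset.sum_const, smul_eq_mul]

open Classical in
/-- number of pairs with columns and rows in prescribed sets -/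
lemma pairs_prod (𝒜 : Finset (Pl m w × Pl m w)) (A B : Fin m → Finset (CP m w))
    (hA : ∀ c ∈ 𝒜, ∀ i, (c.1.1 i, c.2.1 i) ∈ A i) (hB : ∀ c ∈ 𝒜, ∀ j, (c.1.2 j, c.2.2 j) ∈ B j) :
    𝒜.card ≤ (∏ i, (A i).card) * ∏ j, (B j).card := by
  rw [← Fintype.card_piFinset, ← Fintype.card_piFinset, ← Finset.card_product]
  refine Finset.card_le_card_of_injOn cols ?_ (cols_injective.injOn)
  intro c hc
  rw [Finset.mem_coe, Finset.mem_product, Fintype.mem_piFinset, Fintype.mem_piFinset]
  exact ⟨hA c hc, hB c hc⟩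

open Classical in
/-- general bound for the number of compatible pairs with difference set `D` -/
lemma pairs_gen (D : Finset (Fin m × Fin m)) (hm : 0 < m) :
    (((Finset.univ : Finset (Pl m w × Pl m w)).filter fun c => DS c.1 c.2 = D ∧
      ∃ P : Equiv.Perm (Fin (m * w)), On P c.1 ∧ On P c.2).card : ℝ) ≤
      (w.choose m : ℝ) ^ (2 * m) * (16 * (w / m : ℝ) ^ 2) ^ D.card := by
  have h1 := pairs_prod ((Finset.univ : Finset (Pl m w × Pl m w)).filter fun c => DS c.1 c.2 = D ∧
      ∃ P : Equiv.Perm (Fin (m * w)), On P c.1 ∧ On P c.2) (fun i => UP m w (colD D i))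
      (fun j => UP m w (rowD D j)) (by
        intro c hc i
        obtain ⟨h2, P, h3, h4⟩ := (Finset.mem_filter.mp hc).2
        rw [← h2]
        exact col_mem_UP P c.1 c.2 h3 h4 i) (by
        intro c hc j
        obtain ⟨h2, P, h3, h4⟩ := (Finset.mem_filter.mp hc).2
        rw [← h2]
        exact row_mem_UP P c.1 c.2 h3 h4 j)
  have h2 : (((Finset.univ : Finset (Pl m w × Pl m w)).filter fun c => DS c.1 c.2 = D ∧
      ∃ P : Equiv.Perm (Fin (m * w)), On P c.1 ∧ On P c.2).card : ℝ) ≤
      (∏ i, ((UP m w (colD D i)).card : ℝ)) * ∏ j, ((UP m w (rowD D j)).card : ℝ) := by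
    exact_mod_cast h1
  refine h2.trans ?_
  have h3 : ∏ i, ((UP m w (colD D i)).card : ℝ) ≤
      (w.choose m : ℝ) ^ m * (4 * (w / m : ℝ)) ^ D.card := by
    calc ∏ i, ((UP m w (colD D i)).card : ℝ)
        ≤ ∏ i, ((w.choose m : ℝ) * (4 * (w / m : ℝ)) ^ (colD D i).card) :=
          Finset.prod_le_prod (fun _ _ => Nat.cast_nonneg _) fun i _ => UP_real _ hm
      _ = _ := by
          rw [Finset.prod_mul_distrib, Finset.prod_const, Finset.card_univ, Fintype.card_fin,
            Finset.prod_pow_eq_pow_sum, sum_colD]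
  have h4 : ∏ j, ((UP m w (rowD D j)).card : ℝ) ≤
      (w.choose m : ℝ) ^ m * (4 * (w / m : ℝ)) ^ D.card := by
    calc ∏ i, ((UP m w (rowD D i)).card : ℝ)
        ≤ ∏ i, ((w.choose m : ℝ) * (4 * (w / m : ℝ)) ^ (rowD D i).card) :=
          Finset.prod_le_prod (fun _ _ => Nat.cast_nonneg _) fun i _ => UP_real _ hm
      _ = _ := by
          rw [Finset.prod_mul_distrib, Finset.prod_const, Finset.card_univ, Fintype.card_fin,
            Finset.prod_pow_eq_pow_sum, sum_rowD]
  calc _ ≤ ((w.choose m : ℝ) ^ m * (4 * (w / m : ℝ)) ^ D.card) *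
        ((w.choose m : ℝ) ^ m * (4 * (w / m : ℝ)) ^ D.card) := by
        apply mul_le_mul h3 h4 (Finset.prod_nonneg fun _ _ => Nat.cast_nonneg _) (by positivity)
    _ = _ := by
        have e : (16 * (w / m : ℝ) ^ 2) ^ D.card =
            (4 * (w / m : ℝ)) ^ D.card * (4 * (w / m : ℝ)) ^ D.card := by
          rw [← mul_pow]; congr 1; ring
        rw [e, two_mul, pow_add]
        generalize (4 * (w / m : ℝ)) ^ D.card = t
        generalize (w.choose m : ℝ) ^ m = u
        ring

end Pool.Agent.LibC3e
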