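import Pool.Agent.LibC3e.CountGen

/-! Counting low/high pairs. -/

set_option autoImplicit false

namespace Pool.Agent.LibC3e

open Finset

variable {m w : ℕ}

/-- number of pairs with difference at least `t` at a given place -/
def Asum (m w t : ℕ) : ℕ := ∑ s ∈ Finset.Icc t w, (w - s).choose m

open Classical in
/-- pairs differing at most at `i`, `L i ≥ H i + t` -/
noncomputable def RA (m w : ℕ) (i : Fin m) (t : ℕ) : Finset (CP m w) :=
  Finset.univ.filter fun c => (∀ a, a ≠ i → c.1 a = c.2 a) ∧ (c.2 i : ℕ) + t ≤ c.1 i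

open Classical in
/-- pairs differing exactly at `i`, `L i ≤ H i + t` -/
noncomputable def RB (m w : ℕ) (i : Fin m) (t : ℕ) : Finset (CP m w) :=
  Finset.univ.filter fun c => (∀ a, a ≠ i → c.1 a = c.2 a) ∧ c.1 i ≠ c.2 i ∧
    (c.1 i : ℕ) ≤ c.2 i + t

lemma RA_card (i : Fin m) (t : ℕ) : (RA m w i t).card = Asum m w t := by
  classical
  rw [Finset.card_eq_sum_card_fiberwise (f := fun c => (c.1 i : ℕ) - c.2 i) (t := Finset.Icc t w)]
  · unfold Asum
    refine Finset.sum_congr rfl fun s hs => ?_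
    rw [Finset.mem_Icc] at hs
    rw [← SP_card i s]
    congr 1
    ext c
    simp only [RA, SP, Finset.mem_filter, Finset.mem_univ, true_and]
    constructor
    · rintro ⟨⟨h1, h2⟩, h3⟩
      exact ⟨h1, by omega⟩
    · rintro ⟨h1, h2⟩
      exact ⟨⟨h1, by omega⟩, by omega⟩
  · intro c hc
    simp only [RA, Finset.coe_filter, Finset.mem_univ, true_and, Set.mem_ofPred_eq] at hc
    simp only [Finset.coe_Icc, Set.mem_Icc]
    have := (c.1 i).isLt
    omega

lemma RB_card (i : Fin m) (t : ℕ) :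
    (RB m w i t).card + Asum m w (t + 1) ≤ 2 * Asum m w 1 := by
  classical
  rw [← RA_card i (t + 1), ← RA_card i 1]
  have hdis : Disjoint (RB m w i t) (RA m w i (t + 1)) := by
    rw [Finset.disjoint_left]
    intro c hc hc'
    simp only [RA, RB, Finset.mem_filter, Finset.mem_univ, true_and] at hc hc'
    omega
  rw [← Finset.card_union_of_disjoint hdis]
  have hsub : RB m w i t ∪ RA m w i (t + 1) ⊆ RA m w i 1 ∪ (RA m w i 1).image Prod.swap := by
    intro c hc
    rw [Finset.mem_union] at hc ⊢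
    rcases hc with hc | hc
    · simp only [RB, Finset.mem_filter, Finset.mem_univ, true_and] at hc
      obtain ⟨h1, h2, h3⟩ := hc
      rcases lt_or_gt_of_ne h2 with h4 | h4
      · right
        rw [Finset.mem_image]
        refine ⟨c.swap, ?_, Prod.swap_swap c⟩
        simp only [RA, Finset.mem_filter, Finset.mem_univ, true_and]
        refine ⟨fun a ha => (h1 a ha).symm, ?_⟩
        exact h4
      · left
        simp only [RA, Finset.mem_filter, Finset.mem_univ, true_and]
        exact ⟨h1, h4⟩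
    · left
      simp only [RA, Finset.mem_filter, Finset.mem_univ, true_and] at hc ⊢
      exact ⟨hc.1, by omega⟩
  calc _ ≤ (RA m w i 1 ∪ (RA m w i 1).image Prod.swap).card := Finset.card_le_card hsub
    _ ≤ (RA m w i 1).card + ((RA m w i 1).image Prod.swap).card := Finset.card_union_le _ _
    _ ≤ (RA m w i 1).card + (RA m w i 1).card := by
        apply Nat.add_le_add_left
        exact Finset.card_image_le
    _ = 2 * (RA m w i 1).card := by ring

open Classical in
/-- all low/high pairs at `j, j+1` -/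
noncomputable def LHall (m w j : ℕ) (hj : j + 1 < m) : Finset (CP m w) :=
  Finset.univ.filter fun c => (∀ a : Fin m, (a:ℕ) ≠ j → (a:ℕ) ≠ j + 1 → c.1 a = c.2 a) ∧
    c.1 ⟨j + 1, hj⟩ < c.2 ⟨j, by omega⟩

/-- first displacement -/
def d1 (j : ℕ) (hj : j + 1 < m) (c : CP m w) : ℕ :=
  (c.2 ⟨j, by omega⟩ : ℕ) - c.1 ⟨j, by omega⟩

/-- second displacement -/
def d2 (j : ℕ) (hj : j + 1 < m) (c : CP m w) : ℕ :=
  (c.2 ⟨j + 1, hj⟩ : ℕ) - c.1 ⟨j + 1, hj⟩

lemma lt_succ_chain (X : Fin m ↪o Fin w) (j : ℕ) (hj : j + 1 < m) :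
    (X ⟨j, by omega⟩ : ℕ) < X ⟨j + 1, hj⟩ := by
  apply chain_mono
  simp only
  omega

open Classical in
/-- sum of a function of the first displacement -/
lemma LHall_sum (j : ℕ) (hj : j + 1 < m) (f : ℕ → ℕ) :
    ∑ c ∈ LHall m w j hj, f (d1 j hj c) ≤
      ∑ s ∈ Finset.Icc 1 w ×ˢ Finset.Icc 1 w, (w - (s.1 + s.2)).choose m * f (s.1 + s.2) := by
  have hmap : ∀ c ∈ LHall m w j hj,
      (((c.1 ⟨j + 1, hj⟩ : ℕ) - c.1 ⟨j, by omega⟩, (c.2 ⟨j, by omega⟩ : ℕ) - c.1 ⟨j + 1, hj⟩) : ℕ × ℕ) ∈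
      Finset.Icc 1 w ×ˢ Finset.Icc 1 w := by
    intro c hc
    simp only [LHall, Finset.mem_filter, Finset.mem_univ, true_and] at hc
    have h1 := lt_succ_chain c.1 j hj
    have h2 : (c.1 ⟨j + 1, hj⟩ : ℕ) < c.2 ⟨j, by omega⟩ := hc.2
    have h3 := (c.1 ⟨j + 1, hj⟩).isLt
    have h4 := (c.2 ⟨j, by omega⟩).isLt
    simp only [Finset.mem_product, Finset.mem_Icc]
    omega
  rw [← Finset.sum_fiberwise_of_maps_to hmap]
  refine Finset.sum_le_sum fun s hs => ?_
  rw [Finset.mem_product, Finset.mem_Icc, Finset.mem_Icc] at hs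
  rw [← LH_card j hj s.1 s.2 (by omega)]
  calc ∑ c ∈ (LHall m w j hj).filter (fun c => (((c.1 ⟨j + 1, hj⟩ : ℕ) - c.1 ⟨j, by omega⟩,
        (c.2 ⟨j, by omega⟩ : ℕ) - c.1 ⟨j + 1, hj⟩) : ℕ × ℕ) = s), f (d1 j hj c)
      ≤ ∑ c ∈ (LHall m w j hj).filter (fun c => (((c.1 ⟨j + 1, hj⟩ : ℕ) - c.1 ⟨j, by omega⟩,
        (c.2 ⟨j, by omega⟩ : ℕ) - c.1 ⟨j + 1, hj⟩) : ℕ × ℕ) = s), f (s.1 + s.2) := by
        refine Finset.sum_le_sum fun c hc => ?_
        rw [Finset.mem_filter] at hc
        obtain ⟨hc1, hc2⟩ := hc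
        simp only [LHall, Finset.mem_filter, Finset.mem_univ, true_and] at hc1
        have h1 := lt_succ_chain c.1 j hj
        have h2 : (c.1 ⟨j + 1, hj⟩ : ℕ) < c.2 ⟨j, by omega⟩ := hc1.2
        have e1 := congrArg Prod.fst hc2
        have e2 := congrArg Prod.snd hc2
        simp only at e1 e2
        have : d1 j hj c = s.1 + s.2 := by unfold d1; omega
        rw [this]
    _ ≤ (LH m w j hj s.1 s.2).card * f (s.1 + s.2) := by
        rw [Finset.sum_const, smul_eq_mul]
        apply Nat.mul_le_mul_right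
        apply Finset.card_le_card
        intro c hc
        rw [Finset.mem_filter] at hc
        obtain ⟨hc1, hc2⟩ := hc
        simp only [LHall, Finset.mem_filter, Finset.mem_univ, true_and] at hc1
        have h1 := lt_succ_chain c.1 j hj
        have h2 : (c.1 ⟨j + 1, hj⟩ : ℕ) < c.2 ⟨j, by omega⟩ := hc1.2
        have e1 := congrArg Prod.fst hc2
        have e2 := congrArg Prod.snd hc2
        simp only at e1 e2
        simp only [LH, Finset.mem_filter, Finset.mem_univ, true_and]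
        exact ⟨hc1.1, by omega, by omega⟩

lemma Asum_anti (m w : ℕ) {s t : ℕ} (h : s ≤ t) : Asum m w t ≤ Asum m w s := by
  unfold Asum
  apply Finset.sum_le_sum_of_subset
  exact Finset.Icc_subset_Icc_left h

open Classical in
/-- lower bound for the correction term -/
lemma LHall_lower (j : ℕ) (hj : j + 1 < m) (g : ℕ) :
    (∑ s ∈ Finset.Icc 1 g ×ˢ Finset.Icc 1 g,
      ((w - (s.1 + s.2)).choose m - (w - (s.1 + s.2) - g).choose m)) * Asum m w (2 * g + 1) ^ 2 ≤
      ∑ c ∈ LHall m w j hj, Asum m w (d1 j hj c) * Asum m w (d2 j hj c + 1) := by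
  set S : Finset (CP m w) := (LHall m w j hj).filter fun c => d1 j hj c ≤ 2 * g ∧ d2 j hj c ≤ 2 * g
    with hS
  have h1 : ∑ s ∈ Finset.Icc 1 g ×ˢ Finset.Icc 1 g,
      ((w - (s.1 + s.2)).choose m - (w - (s.1 + s.2) - g).choose m) ≤ S.card := by
    set T : ℕ × ℕ → Finset (CP m w) := fun s => (LH m w j hj s.1 s.2).filter fun c =>
      (c.2 ⟨j + 1, hj⟩ : ℕ) ≤ c.2 ⟨j, by omega⟩ + g with hT
    have h2 : ∀ s ∈ Finset.Icc 1 g ×ˢ Finset.Icc 1 g,
        (w - (s.1 + s.2)).choose m - (w - (s.1 + s.2) - g).choose m ≤ (T s).card := by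
      intro s hs
      rw [Finset.mem_product, Finset.mem_Icc, Finset.mem_Icc] at hs
      have := LH_small_card (w := w) j hj s.1 s.2 g (by omega)
      rw [Nat.sub_le_iff_le_add]
      convert this using 2
    refine (Finset.sum_le_sum h2).trans ?_
    have hdis : ∀ s ∈ Finset.Icc 1 g ×ˢ Finset.Icc 1 g, ∀ s' ∈ Finset.Icc 1 g ×ˢ Finset.Icc 1 g,
        s ≠ s' → Disjoint (T s) (T s') := by
      intro s _ s' _ hne
      rw [Finset.disjoint_left]
      intro c hc hc'
      simp only [hT, LH, Finset.mem_filter, Finset.mem_univ, true_and] at hc hc'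
      apply hne
      have e1 : s.1 = s'.1 := by omega
      have e2 : s.2 = s'.2 := by omega
      exact Prod.ext e1 e2
    rw [← Finset.card_biUnion hdis]
    apply Finset.card_le_card
    intro c hc
    rw [Finset.mem_biUnion] at hc
    obtain ⟨s, hs, hc⟩ := hc
    rw [Finset.mem_product, Finset.mem_Icc, Finset.mem_Icc] at hs
    simp only [hT, LH, Finset.mem_filter, Finset.mem_univ, true_and] at hc
    simp only [hS, LHall, Finset.mem_filter, Finset.mem_univ, true_and]
    obtain ⟨⟨h3, h4, h5⟩, h6⟩ := hc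
    refine ⟨⟨h3, ?_⟩, ?_, ?_⟩
    · rw [Fin.lt_def]; omega
    · unfold d1; omega
    · unfold d2; omega
  calc (∑ s ∈ Finset.Icc 1 g ×ˢ Finset.Icc 1 g,
      ((w - (s.1 + s.2)).choose m - (w - (s.1 + s.2) - g).choose m)) * Asum m w (2 * g + 1) ^ 2
      ≤ S.card * Asum m w (2 * g + 1) ^ 2 := Nat.mul_le_mul_right _ h1
    _ = ∑ c ∈ S, Asum m w (2 * g + 1) ^ 2 := by rw [Finset.sum_const, smul_eq_mul]
    _ ≤ ∑ c ∈ S, Asum m w (d1 j hj c) * Asum m w (d2 j hj c + 1) := by
        refine Finset.sum_le_sum fun c hc => ?_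
        have h2 := (Finset.mem_filter.mp hc).2
        rw [sq]
        exact Nat.mul_le_mul (Asum_anti m w (by omega)) (Asum_anti m w (by omega))
    _ ≤ _ := Finset.sum_le_sum_of_subset (Finset.filter_subset _ _)

/-- coupled product counting -/
lemma prod2 {α : Type} (𝒜 : Finset α) (κ : α → (Fin m → CP m w) × (Fin m → CP m w))
    (hκ : Set.InjOn κ 𝒜) (i0 : Fin m) (A : Fin m → Finset (CP m w))
    (B : CP m w → Fin m → Finset (CP m w)) (hA : ∀ c ∈ 𝒜, ∀ i, (κ c).1 i ∈ A i)
    (hB : ∀ c ∈ 𝒜, ∀ j, (κ c).2 j ∈ B ((κ c).1 i0) j) :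
    𝒜.card ≤ (∏ i ∈ Finset.univ.erase i0, (A i).card) * ∑ c0 ∈ A i0, ∏ j, (B c0 j).card := by
  classical
  set T : Finset (Σ _ : (Fin m → CP m w), (Fin m → CP m w)) :=
    (Fintype.piFinset A).sigma fun F => Fintype.piFinset (B (F i0)) with hT
  have h1 : 𝒜.card ≤ T.card := by
    refine Finset.card_le_card_of_injOn
      (fun c => (⟨(κ c).1, (κ c).2⟩ : Σ _ : (Fin m → CP m w), (Fin m → CP m w))) ?_ ?_
    · intro c hc
      rw [Finset.mem_coe, hT, Finset.mem_sigma, Fintype.mem_piFinset, Fintype.mem_piFinset]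
      exact ⟨hA c hc, hB c hc⟩
    · intro c hc c' hc' h
      simp only [Sigma.mk.injEq, heq_eq_eq] at h
      exact hκ hc hc' (Prod.ext h.1 h.2)
  refine h1.trans (le_of_eq ?_)
  rw [hT, Finset.card_sigma]
  simp only [Fintype.card_piFinset]
  have h2 := Finset.prod_univ_sum (t := A)
    (f := fun i c => if i = i0 then ∏ j, (B c j).card else 1)
  have h3 : ∏ i, ∑ c ∈ A i, (if i = i0 then ∏ j, (B c j).card else 1) =
      (∏ i ∈ Finset.univ.erase i0, (A i).card) * ∑ c0 ∈ A i0, ∏ j, (B c0 j).card := by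
    rw [← Finset.mul_prod_erase Finset.univ _ (Finset.mem_univ i0)]
    simp only [if_true]
    rw [mul_comm]
    congr 1
    refine Finset.prod_congr rfl fun i hi => ?_
    rw [Finset.mem_erase] at hi
    simp only [if_neg hi.1]
    simp
  rw [← h3, h2]
  refine Finset.sum_congr rfl fun F _ => ?_
  rw [Finset.prod_ite_eq' Finset.univ i0 (fun i => ∏ j, (B (F i) j).card)]
  simp

open Classical in
/-- the diagonal -/
noncomputable def diag (m w : ℕ) : Finset (CP m w) := Finset.univ.filter fun c => c.1 = c.2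

lemma diag_card : (diag m w).card = w.choose m := by
  classical
  rw [← card_chain, ← Finset.card_univ]
  refine Finset.card_bij' (fun c _ => c.1) (fun X _ => (X, X)) ?_ ?_ ?_ ?_
  · intro c _; exact Finset.mem_univ _
  · intro X _
    simp [diag]
  · rintro ⟨X, Y⟩ h
    simp only [diag, Finset.mem_filter, Finset.mem_univ, true_and] at h
    rw [h]
  · intro X _; rfl

/-- the number of domino pairs, coupled form -/
lemma domino_card {α : Type} (𝒜 : Finset α) (κ : α → (Fin m → CP m w) × (Fin m → CP m w))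
    (hκ : Set.InjOn κ 𝒜) (i : Fin m) (j : ℕ) (hj : j + 1 < m)
    (h1 : ∀ c ∈ 𝒜, ∀ i', i' ≠ i → (κ c).1 i' ∈ diag m w)
    (h2 : ∀ c ∈ 𝒜, (κ c).1 i ∈ LHall m w j hj)
    (h3 : ∀ c ∈ 𝒜, ∀ j' : Fin m, (j':ℕ) ≠ j → (j':ℕ) ≠ j + 1 → (κ c).2 j' ∈ diag m w)
    (h4 : ∀ c ∈ 𝒜, (κ c).2 ⟨j, by omega⟩ ∈ RA m w i (d1 j hj ((κ c).1 i)))
    (h5 : ∀ c ∈ 𝒜, (κ c).2 ⟨j + 1, hj⟩ ∈ RB m w i (d2 j hj ((κ c).1 i))) :
    𝒜.card ≤ (w.choose m) ^ (m - 1) * ∑ c0 ∈ LHall m w j hj,
      (w.choose m) ^ (m - 2) * (Asum m w (d1 j hj c0) * (RB m w i (d2 j hj c0)).card) := by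
  classical
  have key := prod2 𝒜 κ hκ i (fun i' => if i' = i then LHall m w j hj else diag m w)
    (fun c0 j' => if (j':ℕ) = j then RA m w i (d1 j hj c0) else
      if (j':ℕ) = j + 1 then RB m w i (d2 j hj c0) else diag m w) (by
      intro c hc i'
      split_ifs with h
      · rw [h]; exact h2 c hc
      · exact h1 c hc i' h) (by
      intro c hc j'
      split_ifs with h h'
      · have : j' = ⟨j, by omega⟩ := Fin.ext h
        rw [this]
        exact h4 c hc
      · have : j' = ⟨j + 1, hj⟩ := Fin.ext h'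
        rw [this]
        exact h5 c hc
      · exact h3 c hc j' h h')
  refine key.trans (le_of_eq ?_)
  simp only [if_true]
  congr 1
  · rw [Finset.prod_congr rfl (g := fun _ => w.choose m)]
    · rw [Finset.prod_const, Finset.card_erase_of_mem (Finset.mem_univ _), Finset.card_univ,
        Fintype.card_fin]
    · intro i' hi'
      rw [Finset.mem_erase] at hi'
      rw [if_neg hi'.1, diag_card]
  · refine Finset.sum_congr rfl fun c0 _ => ?_
    have hne : (⟨j + 1, hj⟩ : Fin m) ≠ ⟨j, by omega⟩ := by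
      intro h
      have := congrArg Fin.val h
      simp at this
    rw [← Finset.mul_prod_erase Finset.univ _ (Finset.mem_univ (⟨j, by omega⟩ : Fin m)),
      ← Finset.mul_prod_erase (Finset.univ.erase (⟨j, by omega⟩ : Fin m)) _
        (Finset.mem_erase.mpr ⟨hne, Finset.mem_univ _⟩)]
    simp only [if_true]
    rw [if_neg (by omega), RA_card]
    have : ∏ x ∈ (Finset.univ.erase (⟨j, by omega⟩ : Fin m)).erase ⟨j + 1, hj⟩,
        (if (x:ℕ) = j then RA m w i (d1 j hj c0) else
          if (x:ℕ) = j + 1 then RB m w i (d2 j hj c0) else diag m w).card =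
        (w.choose m) ^ (m - 2) := by
      rw [Finset.prod_congr rfl (g := fun _ => w.choose m)]
      · rw [Finset.prod_const, Finset.card_erase_of_mem
          (Finset.mem_erase.mpr ⟨hne, Finset.mem_univ _⟩),
          Finset.card_erase_of_mem (Finset.mem_univ _), Finset.card_univ, Fintype.card_fin]
        congr 1
      · intro x hx
        rw [Finset.mem_erase, Finset.mem_erase] at hx
        rw [if_neg (fun h => hx.2.1 (Fin.ext h)), if_neg (fun h => hx.1 (Fin.ext h)), diag_card]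
    rw [this]
    ring

end Pool.Agent.LibC3e
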