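import Pool.Agent.LibC3e.Domino

/-! Real bounds for the domino sums. -/

set_option autoImplicit false

namespace Pool.Agent.LibC3e

open Finset

lemma choose_sub_pow (n s m : ℕ) (hs : s ≤ n) :
    (n - s).choose m * n ^ m ≤ n.choose m * (n - s) ^ m := by
  induction m with
  | zero => simp
  | succ k ih =>
    have h1 := Nat.choose_succ_right_eq (n - s) k
    have h2 := Nat.choose_succ_right_eq n k
    have h3 : (n - s - k) * n ≤ (n - k) * (n - s) := by
      rcases Nat.lt_or_ge (n - s) k with h | h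
      · have : n - s - k = 0 := by omega
        rw [this]; simp
      · have e1 : n - s - k + k = n - s := by omega
        have e2 : n - s + s = n := by omega
        have e3 : n - k = (n - s - k) + s := by omega
        rw [e3]
        set u := n - s - k
        have e4 : n = u + k + s := by omega
        have e5 : n - s = u + k := by omega
        rw [e5]
        calc u * n = u * (u + k + s) := by rw [e4]
          _ ≤ (u + s) * (u + k) := by nlinarith
    have h4 : ((n - s).choose (k + 1) * n ^ (k + 1)) * (k + 1) ≤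
        (n.choose (k + 1) * (n - s) ^ (k + 1)) * (k + 1) := by
      calc ((n - s).choose (k + 1) * n ^ (k + 1)) * (k + 1)
          = ((n - s).choose (k + 1) * (k + 1)) * (n ^ k * n) := by rw [pow_succ]; ring
        _ = ((n - s).choose k * n ^ k) * ((n - s - k) * n) := by rw [h1]; ring
        _ ≤ (n.choose k * (n - s) ^ k) * ((n - k) * (n - s)) := Nat.mul_le_mul ih h3
        _ = (n.choose k * (n - k)) * ((n - s) ^ k * (n - s)) := by ring
        _ = (n.choose (k + 1) * (k + 1)) * ((n - s) ^ k * (n - s)) := by rw [h2]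
        _ = _ := by rw [pow_succ]; ring
    exact Nat.le_of_mul_le_mul_right h4 (Nat.succ_pos k)

lemma choose_sub_pow_ge (n s m a : ℕ) (hm : m ≤ n) (hs : s ≤ n - m) (ha : a ≤ m) :
    n.choose a * (n - m - s) ^ a ≤ (n - s).choose a * (n - m) ^ a := by
  induction a with
  | zero => simp
  | succ k ih =>
    have ih' := ih (by omega)
    have h1 := Nat.choose_succ_right_eq (n - s) k
    have h2 := Nat.choose_succ_right_eq n k
    have h3 : (n - k) * (n - m - s) ≤ (n - s - k) * (n - m) := by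
      set u := n - m - s
      have e1 : n - m = u + s := by omega
      have e2 : n - k = u + s + (m - k) := by omega
      have e3 : n - s - k = u + (m - k) := by omega
      rw [e1, e2, e3]
      nlinarith [Nat.zero_le (s * (m - k))]
    have h4 : (n.choose (k + 1) * (n - m - s) ^ (k + 1)) * (k + 1) ≤
        ((n - s).choose (k + 1) * (n - m) ^ (k + 1)) * (k + 1) := by
      calc (n.choose (k + 1) * (n - m - s) ^ (k + 1)) * (k + 1)
          = (n.choose (k + 1) * (k + 1)) * ((n - m - s) ^ k * (n - m - s)) := by rw [pow_succ]; ring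
        _ = (n.choose k * (n - m - s) ^ k) * ((n - k) * (n - m - s)) := by rw [h2]; ring
        _ ≤ ((n - s).choose k * (n - m) ^ k) * ((n - s - k) * (n - m)) := Nat.mul_le_mul ih' h3
        _ = ((n - s).choose k * (n - s - k)) * ((n - m) ^ k * (n - m)) := by ring
        _ = ((n - s).choose (k + 1) * (k + 1)) * ((n - m) ^ k * (n - m)) := by rw [h1]
        _ = _ := by rw [pow_succ]; ring
    exact Nat.le_of_mul_le_mul_right h4 (Nat.succ_pos k)

variable {m w : ℕ}

/-- the ratio -/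
noncomputable def rr (m w : ℕ) : ℝ := Real.exp (-((m:ℝ) / w))

lemma rr_pos : 0 < rr m w := Real.exp_pos _

lemma choose_sub_exp (hm : 0 < m) (hw : 0 < w) (s : ℕ) :
    ((w - s).choose m : ℝ) ≤ (w.choose m : ℝ) * rr m w ^ s := by
  have hw' : (0:ℝ) < w := by exact_mod_cast hw
  rcases Nat.lt_or_ge w s with h | h
  · have : w - s = 0 := by omega
    rw [this, Nat.choose_eq_zero_of_lt hm]
    have := rr_pos (m := m) (w := w)
    simp only [Nat.cast_zero]
    positivity
  · have h1 := choose_sub_pow w s m h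
    have h2 : ((w - s).choose m : ℝ) * (w:ℝ) ^ m ≤ (w.choose m : ℝ) * ((w:ℝ) - s) ^ m := by
      have : ((((w - s).choose m * w ^ m : ℕ)) : ℝ) ≤ ((w.choose m * (w - s) ^ m : ℕ) : ℝ) := by
        exact_mod_cast h1
      push_cast at this
      rw [Nat.cast_sub h] at this
      exact this
    have h3 : ((w:ℝ) - s) ^ m ≤ rr m w ^ s * (w:ℝ) ^ m := by
      have h4 : (w:ℝ) - s ≤ Real.exp (-(s:ℝ) / w) * w := by
        have := Real.add_one_le_exp (-(s:ℝ) / w)
        have h5 : (-(s:ℝ) / w + 1) * w = w - s := by field_simp; ring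
        rw [← h5]
        exact mul_le_mul_of_nonneg_right this hw'.le
      have h6 : (0:ℝ) ≤ (w:ℝ) - s := by
        have : (s:ℝ) ≤ w := by exact_mod_cast h
        linarith
      calc ((w:ℝ) - s) ^ m ≤ (Real.exp (-(s:ℝ) / w) * w) ^ m := pow_le_pow_left₀ h6 h4 m
        _ = rr m w ^ s * (w:ℝ) ^ m := by
            rw [mul_pow, rr, ← Real.exp_nat_mul, ← Real.exp_nat_mul]
            congr 2
            ring
    have h7 : (0:ℝ) < (w:ℝ) ^ m := by positivity
    have h8 : ((w - s).choose m : ℝ) * (w:ℝ) ^ m ≤ ((w.choose m : ℝ) * rr m w ^ s) * (w:ℝ) ^ m := by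
      calc ((w - s).choose m : ℝ) * (w:ℝ) ^ m ≤ (w.choose m : ℝ) * ((w:ℝ) - s) ^ m := h2
        _ ≤ (w.choose m : ℝ) * (rr m w ^ s * (w:ℝ) ^ m) :=
            mul_le_mul_of_nonneg_left h3 (Nat.cast_nonneg _)
        _ = _ := by ring
    exact le_of_mul_le_mul_right h8 h7

lemma rr_lt_one (hm : 0 < m) (hw : 0 < w) : rr m w < 1 := by
  unfold rr
  rw [Real.exp_lt_one_iff]
  have : (0:ℝ) < (m:ℝ) / w := by
    have : (0:ℝ) < m := by exact_mod_cast hm
    have : (0:ℝ) < w := by exact_mod_cast hw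
    positivity
  linarith

lemma geom_Icc (q : ℝ) (h0 : 0 ≤ q) (h1 : q < 1) (t n : ℕ) :
    ∑ s ∈ Finset.Icc t n, q ^ s ≤ q ^ t / (1 - q) := by
  rcases Nat.lt_or_ge n t with h | h
  · rw [Finset.Icc_eq_empty (by omega)]
    simp only [Finset.sum_empty]
    have : 0 < 1 - q := by linarith
    positivity
  · have e : ∑ s ∈ Finset.Icc t n, q ^ s = q ^ t * ∑ k ∈ Finset.range (n + 1 - t), q ^ k := by
      rw [← Finset.Ico_succ_right_eq_Icc, Finset.sum_Ico_eq_sum_range, Finset.mul_sum]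
      refine Finset.sum_congr (by simp) fun k _ => ?_
      rw [pow_add]
    rw [e, div_eq_mul_one_div]
    apply mul_le_mul_of_nonneg_left _ (by positivity)
    have h3 : ∑ k ∈ Finset.range (n + 1 - t), q ^ k ≤ ∑' k, q ^ k :=
      (summable_geometric_of_lt_one h0 h1).sum_le_tsum _ (fun k _ => by positivity)
    rw [tsum_geometric_of_lt_one h0 h1] at h3
    rw [one_div]
    exact h3

lemma Asum_le (hm : 0 < m) (hw : 0 < w) (t : ℕ) :
    (Asum m w t : ℝ) ≤ (w.choose m : ℝ) * (rr m w ^ t / (1 - rr m w)) := by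
  unfold Asum
  push_cast
  calc ∑ s ∈ Finset.Icc t w, ((w - s).choose m : ℝ)
      ≤ ∑ s ∈ Finset.Icc t w, (w.choose m : ℝ) * rr m w ^ s :=
        Finset.sum_le_sum fun s _ => choose_sub_exp hm hw s
    _ = (w.choose m : ℝ) * ∑ s ∈ Finset.Icc t w, rr m w ^ s := by rw [Finset.mul_sum]
    _ ≤ _ := mul_le_mul_of_nonneg_left (geom_Icc _ rr_pos.le (rr_lt_one hm hw) t w)
        (Nat.cast_nonneg _)

lemma rr_beta (hm : 0 < m) (hw : 0 < w) : rr m w / (1 - rr m w) ≤ (w:ℝ) / m := by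
  have hm' : (0:ℝ) < m := by exact_mod_cast hm
  have hw' : (0:ℝ) < w := by exact_mod_cast hw
  have h1 := rr_lt_one hm hw
  have h2 := rr_pos (m := m) (w := w)
  rw [div_le_div_iff₀ (by linarith) hm']
  have h3 : 1 + (m:ℝ) / w ≤ (rr m w)⁻¹ := by
    unfold rr
    rw [← Real.exp_neg, neg_neg, add_comm]
    exact Real.add_one_le_exp _
  have h4 : (1 + (m:ℝ) / w) * rr m w ≤ 1 := by
    calc (1 + (m:ℝ) / w) * rr m w ≤ (rr m w)⁻¹ * rr m w := mul_le_mul_of_nonneg_right h3 h2.le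
      _ = 1 := inv_mul_cancel₀ h2.ne'
  have h5 : (m:ℝ) / w * w = m := by field_simp
  nlinarith

lemma rr_beta' (hm : 0 < m) (hw : 0 < w) :
    1 / (1 - rr m w) ≤ (w:ℝ) / m * (rr m w)⁻¹ := by
  have h2 := rr_pos (m := m) (w := w)
  have h := rr_beta hm hw
  have e : 1 / (1 - rr m w) = rr m w / (1 - rr m w) * (rr m w)⁻¹ := by
    field_simp
  rw [e]
  exact mul_le_mul_of_nonneg_right h (by positivity)

lemma rr_beta2 (hm : 0 < m) (hw : 0 < w) :
    rr m w ^ 2 / (1 - rr m w ^ 2) ≤ (w:ℝ) / m / 2 := by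
  have hm' : (0:ℝ) < m := by exact_mod_cast hm
  have hw' : (0:ℝ) < w := by exact_mod_cast hw
  have h1 := rr_lt_one hm hw
  have h2 := rr_pos (m := m) (w := w)
  have h6 : rr m w ^ 2 < 1 := by nlinarith
  rw [div_div, div_le_div_iff₀ (by linarith) (by positivity)]
  have h3 : 1 + 2 * ((m:ℝ) / w) ≤ (rr m w ^ 2)⁻¹ := by
    unfold rr
    rw [← Real.exp_nat_mul, ← Real.exp_neg, add_comm]
    have := Real.add_one_le_exp (2 * ((m:ℝ) / w))
    convert this using 2
    push_cast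
    ring
  have h4 : (1 + 2 * ((m:ℝ) / w)) * rr m w ^ 2 ≤ 1 := by
    calc (1 + 2 * ((m:ℝ) / w)) * rr m w ^ 2 ≤ (rr m w ^ 2)⁻¹ * rr m w ^ 2 :=
          mul_le_mul_of_nonneg_right h3 (by positivity)
      _ = 1 := inv_mul_cancel₀ (by positivity)
  have h5 : (m:ℝ) / w * w = m := by field_simp
  nlinarith [sq_nonneg (rr m w)]

lemma Asum_one_le (hm : 0 < m) (hw : 0 < w) :
    (Asum m w 1 : ℝ) ≤ (w.choose m : ℝ) * ((w:ℝ) / m) := by
  have h := Asum_le hm hw 1
  rw [pow_one] at h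
  exact h.trans (mul_le_mul_of_nonneg_left (rr_beta hm hw) (Nat.cast_nonneg _))

/-- upper bound for the main domino sum -/
lemma LH_upper (hm : 0 < m) (hw : 0 < w) (j : ℕ) (hj : j + 1 < m) :
    ((∑ c ∈ LHall m w j hj, Asum m w (d1 j hj c) : ℕ) : ℝ) ≤
      (w.choose m : ℝ) ^ 2 * ((w:ℝ) / m) ^ 3 * (rr m w)⁻¹ / 4 := by
  have h1 := LHall_sum (w := w) j hj (fun t => Asum m w t)
  set C : ℝ := (w.choose m : ℝ) with hC
  set r := rr m w with hr
  have hr0 : 0 < r := rr_pos
  have hr1 : r < 1 := rr_lt_one hm hw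
  have hC0 : 0 ≤ C := Nat.cast_nonneg _
  have h1r : 0 < 1 - r := by linarith
  have hr2 : r ^ 2 < 1 := by nlinarith
  calc ((∑ c ∈ LHall m w j hj, Asum m w (d1 j hj c) : ℕ) : ℝ)
      ≤ ((∑ s ∈ Finset.Icc 1 w ×ˢ Finset.Icc 1 w, (w - (s.1 + s.2)).choose m *
          Asum m w (s.1 + s.2) : ℕ) : ℝ) := by exact_mod_cast h1
    _ = ∑ s ∈ Finset.Icc 1 w ×ˢ Finset.Icc 1 w, ((w - (s.1 + s.2)).choose m : ℝ) *
          (Asum m w (s.1 + s.2) : ℝ) := by push_cast; rfl
    _ ≤ ∑ s ∈ Finset.Icc 1 w ×ˢ Finset.Icc 1 w, (C * r ^ (s.1 + s.2)) *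
          (C * (r ^ (s.1 + s.2) / (1 - r))) := by
        refine Finset.sum_le_sum fun s _ => ?_
        exact mul_le_mul (choose_sub_exp hm hw _) (Asum_le hm hw _) (Nat.cast_nonneg _)
          (by positivity)
    _ = C ^ 2 * (1 / (1 - r)) * ((∑ a ∈ Finset.Icc 1 w, (r ^ 2) ^ a) *
          (∑ b ∈ Finset.Icc 1 w, (r ^ 2) ^ b)) := by
        rw [Finset.sum_mul_sum, ← Finset.sum_product', Finset.mul_sum]
        refine Finset.sum_congr rfl fun s _ => ?_
        rw [← pow_mul, ← pow_mul, ← pow_add]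
        have : r ^ (2 * s.1 + 2 * s.2) = r ^ (s.1 + s.2) * r ^ (s.1 + s.2) := by
          rw [← pow_add]; congr 1; ring
        rw [this]
        field_simp
    _ ≤ C ^ 2 * ((w:ℝ) / m * r⁻¹) * (((w:ℝ) / m / 2) * ((w:ℝ) / m / 2)) := by
        have h2 : ∑ a ∈ Finset.Icc 1 w, (r ^ 2) ^ a ≤ (w:ℝ) / m / 2 := by
          have := geom_Icc (r ^ 2) (by positivity) hr2 1 w
          rw [pow_one] at this
          exact this.trans (rr_beta2 hm hw)
        have h3 := rr_beta' hm hw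
        rw [← hr] at h3
        have h4 : 0 ≤ ∑ a ∈ Finset.Icc 1 w, (r ^ 2) ^ a := Finset.sum_nonneg fun _ _ => by positivity
        have h5 : (0:ℝ) ≤ (w:ℝ) / m := by positivity
        apply mul_le_mul
        · exact mul_le_mul_of_nonneg_left h3 (by positivity)
        · exact mul_le_mul h2 h2 h4 (by positivity)
        · positivity
        · positivity
    _ = _ := by ring

lemma choose_lower_exp (g : ℕ) (hm : 32 ≤ m) (hg : 11 ≤ g) :
    Real.exp (-4) * ((g * m).choose m : ℝ) ≤ ((g * m - 3 * g).choose m : ℝ) := by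
  have hgm : 4 * m + 12 * g ≤ g * m := by nlinarith
  have h1 := choose_sub_pow_ge (g * m) (3 * g) m m (by nlinarith) (by omega) le_rfl
  have h2 : (((g * m).choose m : ℕ) : ℝ) * (((g * m - m - 3 * g : ℕ)) : ℝ) ^ m ≤
      ((g * m - 3 * g).choose m : ℝ) * (((g * m - m : ℕ)) : ℝ) ^ m := by exact_mod_cast h1
  set u : ℝ := ((g * m - m - 3 * g : ℕ) : ℝ) with hu
  set v : ℝ := ((g * m - m : ℕ) : ℝ) with hv
  have huv : v = u + 3 * g := by
    have : g * m - m = (g * m - m - 3 * g) + 3 * g := by omega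
    rw [hu, hv]
    rw [this]
    push_cast
    simp
  have hmr : (32:ℝ) ≤ m := by exact_mod_cast hm
  have hgr : (11:ℝ) ≤ g := by exact_mod_cast hg
  have hbig : 3 * (g:ℝ) * m ≤ 4 * u := by
    have : 3 * g * m ≤ 4 * (g * m - m - 3 * g) := by
      have e : 4 * (g * m - m - 3 * g) = 4 * (g * m) - (4 * m + 12 * g) := by omega
      rw [e]
      have : 3 * g * m = 3 * (g * m) := by ring
      omega
    rw [hu]
    exact_mod_cast this
  have hu0 : 0 < u := by nlinarith
  have h3 : Real.exp (-4) * v ^ m ≤ u ^ m := by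
    have h4 : v ≤ u * Real.exp (3 * g / u) := by
      have := Real.add_one_le_exp (3 * (g:ℝ) / u)
      have h5 : u * (3 * (g:ℝ) / u + 1) = v := by rw [huv]; field_simp; ring
      rw [← h5]
      exact mul_le_mul_of_nonneg_left this hu0.le
    have hv0 : 0 ≤ v := by rw [huv]; positivity
    have h5 : v ^ m ≤ u ^ m * Real.exp 4 := by
      calc v ^ m ≤ (u * Real.exp (3 * g / u)) ^ m := pow_le_pow_left₀ hv0 h4 m
        _ = u ^ m * Real.exp (m * (3 * g / u)) := by rw [mul_pow, ← Real.exp_nat_mul]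
        _ ≤ u ^ m * Real.exp 4 := by
            apply mul_le_mul_of_nonneg_left _ (by positivity)
            apply Real.exp_le_exp.mpr
            rw [← mul_div_assoc, div_le_iff₀ hu0]
            linarith
    calc Real.exp (-4) * v ^ m ≤ Real.exp (-4) * (u ^ m * Real.exp 4) :=
          mul_le_mul_of_nonneg_left h5 (Real.exp_pos _).le
      _ = u ^ m * (Real.exp (-4) * Real.exp 4) := by ring
      _ = u ^ m := by rw [← Real.exp_add]; norm_num
  have hvm : 0 < v ^ m := by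
    have : 0 < v := by rw [huv]; positivity
    positivity
  refine le_of_mul_le_mul_right ?_ hvm
  calc Real.exp (-4) * ((g * m).choose m : ℝ) * v ^ m
      = ((g * m).choose m : ℝ) * (Real.exp (-4) * v ^ m) := by ring
    _ ≤ ((g * m).choose m : ℝ) * u ^ m := mul_le_mul_of_nonneg_left h3 (Nat.cast_nonneg _)
    _ ≤ _ := h2

/-- lower bound for the correction term -/
lemma LH_lower (g : ℕ) (hm : 32 ≤ m) (hg : 11 ≤ g) (j : ℕ) (hj : j + 1 < m) :
    (((g * m).choose m : ℝ)) ^ 3 * (g:ℝ) ^ 4 * (Real.exp (-4)) ^ 3 / 2 ≤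
    ((∑ c ∈ LHall m (g * m) j hj, Asum m (g * m) (d1 j hj c) * Asum m (g * m) (d2 j hj c + 1) : ℕ) : ℝ) := by
  have hm0 : 0 < m := by omega
  have h1 := LHall_lower (w := g * m) j hj g
  set C : ℝ := ((g * m).choose m : ℝ) with hC
  set κ : ℝ := Real.exp (-4) with hκ
  have hκ0 : 0 < κ := Real.exp_pos _
  have hκC : κ * C ≤ ((g * m - 3 * g).choose m : ℝ) := choose_lower_exp g hm hg
  have hC0 : 0 ≤ C := Nat.cast_nonneg _
  -- Asum
  have h2 : (g:ℝ) * (κ * C) ≤ (Asum m (g * m) (2 * g + 1) : ℝ) := by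
    have h3 : g * (g * m - 3 * g).choose m ≤ Asum m (g * m) (2 * g + 1) := by
      unfold Asum
      calc g * (g * m - 3 * g).choose m
          = ∑ s ∈ Finset.Icc (2 * g + 1) (3 * g), (g * m - 3 * g).choose m := by
            rw [Finset.sum_const, Nat.card_Icc, smul_eq_mul]
            congr 1
            omega
        _ ≤ ∑ s ∈ Finset.Icc (2 * g + 1) (3 * g), (g * m - s).choose m := by
            refine Finset.sum_le_sum fun s hs => ?_
            rw [Finset.mem_Icc] at hs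
            apply Nat.choose_le_choose
            omega
        _ ≤ ∑ s ∈ Finset.Icc (2 * g + 1) (g * m), (g * m - s).choose m := by
            apply Finset.sum_le_sum_of_subset
            apply Finset.Icc_subset_Icc_right
            nlinarith
    have h4 : (g:ℝ) * ((g * m - 3 * g).choose m : ℝ) ≤ (Asum m (g * m) (2 * g + 1) : ℝ) := by
      exact_mod_cast h3
    exact (mul_le_mul_of_nonneg_left hκC (Nat.cast_nonneg _)).trans h4
  -- the sum over s
  have h3 : (g:ℝ) ^ 2 * (κ * C / 2) ≤ ((∑ s ∈ Finset.Icc 1 g ×ˢ Finset.Icc 1 g,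
      ((g * m - (s.1 + s.2)).choose m - (g * m - (s.1 + s.2) - g).choose m) : ℕ) : ℝ) := by
    push_cast
    calc (g:ℝ) ^ 2 * (κ * C / 2) = ∑ s ∈ Finset.Icc 1 g ×ˢ Finset.Icc 1 g, (κ * C / 2) := by
          rw [Finset.sum_const, Finset.card_product, Nat.card_Icc, nsmul_eq_mul, Nat.add_sub_cancel]
          push_cast
          ring
      _ ≤ _ := by
          refine Finset.sum_le_sum fun s hs => ?_
          rw [Finset.mem_product, Finset.mem_Icc, Finset.mem_Icc] at hs
          set w' := g * m - (s.1 + s.2) with hw'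
          have hgm : 4 * m + 12 * g ≤ g * m := by nlinarith
          have hw'0 : 0 < w' := by omega
          have hle : (w' - g).choose m ≤ w'.choose m := Nat.choose_le_choose m (Nat.sub_le _ _)
          rw [Nat.cast_sub hle]
          have h4 := choose_sub_exp (w := w') hm0 hw'0 g
          have h5 : rr m w' ^ g ≤ 1 / 2 := by
            unfold rr
            rw [← Real.exp_nat_mul]
            have h6 : (1:ℝ) ≤ (g:ℝ) * ((m:ℝ) / w') := by
              rw [← mul_div_assoc, le_div_iff₀ (by exact_mod_cast hw'0), one_mul]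
              have : w' ≤ g * m := by omega
              exact_mod_cast this
            calc Real.exp ((g:ℝ) * -((m:ℝ) / w')) ≤ Real.exp (-1) := by
                  apply Real.exp_le_exp.mpr; linarith
              _ ≤ 1 / 2 := by
                  rw [Real.exp_neg, ← one_div]
                  apply one_div_le_one_div_of_le (by norm_num)
                  have := Real.add_one_le_exp (1:ℝ)
                  linarith
          have h7 : ((g * m - 3 * g).choose m : ℝ) ≤ (w'.choose m : ℝ) := by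
            exact_mod_cast Nat.choose_le_choose m (by omega)
          have h8 : (0:ℝ) ≤ (w'.choose m : ℝ) := Nat.cast_nonneg _
          nlinarith
  have h4 : ((∑ s ∈ Finset.Icc 1 g ×ˢ Finset.Icc 1 g,
      ((g * m - (s.1 + s.2)).choose m - (g * m - (s.1 + s.2) - g).choose m) : ℕ) : ℝ) *
      (Asum m (g * m) (2 * g + 1) : ℝ) ^ 2 ≤
      ((∑ c ∈ LHall m (g * m) j hj, Asum m (g * m) (d1 j hj c) * Asum m (g * m) (d2 j hj c + 1) : ℕ) : ℝ) := by
    exact_mod_cast h1
  refine le_trans ?_ h4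
  calc C ^ 3 * (g:ℝ) ^ 4 * κ ^ 3 / 2 = ((g:ℝ) ^ 2 * (κ * C / 2)) * ((g:ℝ) * (κ * C)) ^ 2 := by ring
    _ ≤ _ := by
        apply mul_le_mul h3 _ (by positivity) (Nat.cast_nonneg _)
        exact pow_le_pow_left₀ (by positivity) h2 2

/-- the final bound for a domino family -/
lemma domino_real {α : Type} (g : ℕ) (hm : 32 ≤ m) (hg : 11 ≤ g) (𝒜 : Finset α)
    (κ : α → (Fin m → CP m (g * m)) × (Fin m → CP m (g * m)))
    (hκ : Set.InjOn κ 𝒜) (i : Fin m) (j : ℕ) (hj : j + 1 < m)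
    (h1 : ∀ c ∈ 𝒜, ∀ i', i' ≠ i → (κ c).1 i' ∈ diag m (g * m))
    (h2 : ∀ c ∈ 𝒜, (κ c).1 i ∈ LHall m (g * m) j hj)
    (h3 : ∀ c ∈ 𝒜, ∀ j' : Fin m, (j':ℕ) ≠ j → (j':ℕ) ≠ j + 1 → (κ c).2 j' ∈ diag m (g * m))
    (h4 : ∀ c ∈ 𝒜, (κ c).2 ⟨j, by omega⟩ ∈ RA m (g * m) i (d1 j hj ((κ c).1 i)))
    (h5 : ∀ c ∈ 𝒜, (κ c).2 ⟨j + 1, hj⟩ ∈ RB m (g * m) i (d2 j hj ((κ c).1 i))) :
    (𝒜.card : ℝ) ≤ ((g * m).choose m : ℝ) ^ (2 * m) * (g:ℝ) ^ 4 *
      ((rr m (g * m))⁻¹ - (Real.exp (-4)) ^ 3) / 2 := by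
  have hm0 : 0 < m := by omega
  have hw0 : 0 < g * m := by positivity
  have key := domino_card 𝒜 κ hκ i j hj h1 h2 h3 h4 h5
  set C : ℝ := ((g * m).choose m : ℝ) with hC
  have hC0 : 0 ≤ C := Nat.cast_nonneg _
  have hgr : (0:ℝ) < g := by
    have : 0 < g := by omega
    exact_mod_cast this
  have hmr : (0:ℝ) < m := by exact_mod_cast hm0
  have hβ : (((g * m : ℕ) : ℝ)) / m = g := by push_cast; field_simp
  have key2 : (𝒜.card : ℝ) ≤ C ^ (m - 1) * ∑ c0 ∈ LHall m (g * m) j hj,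
      C ^ (m - 2) * ((Asum m (g * m) (d1 j hj c0) : ℝ) * ((RB m (g * m) i (d2 j hj c0)).card : ℝ)) := by
    rw [hC]
    exact_mod_cast key
  refine key2.trans ?_
  have h6 : ∑ c0 ∈ LHall m (g * m) j hj,
      C ^ (m - 2) * ((Asum m (g * m) (d1 j hj c0) : ℝ) * ((RB m (g * m) i (d2 j hj c0)).card : ℝ)) ≤
      C ^ (m - 2) * (C ^ 3 * (g:ℝ) ^ 4 * ((rr m (g * m))⁻¹ - (Real.exp (-4)) ^ 3) / 2) := by
    rw [← Finset.mul_sum]
    apply mul_le_mul_of_nonneg_left _ (by positivity)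
    have h7 : ∀ c0 ∈ LHall m (g * m) j hj,
        (Asum m (g * m) (d1 j hj c0) : ℝ) * ((RB m (g * m) i (d2 j hj c0)).card : ℝ) ≤
        2 * (Asum m (g * m) 1 : ℝ) * (Asum m (g * m) (d1 j hj c0) : ℝ) -
          (Asum m (g * m) (d1 j hj c0) : ℝ) * (Asum m (g * m) (d2 j hj c0 + 1) : ℝ) := by
      intro c0 _
      have h8 := RB_card (w := g * m) i (d2 j hj c0)
      have h9 : ((RB m (g * m) i (d2 j hj c0)).card : ℝ) + (Asum m (g * m) (d2 j hj c0 + 1) : ℝ) ≤
          2 * (Asum m (g * m) 1 : ℝ) := by exact_mod_cast h8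
      have h10 : (0:ℝ) ≤ (Asum m (g * m) (d1 j hj c0) : ℝ) := Nat.cast_nonneg _
      nlinarith
    refine (Finset.sum_le_sum h7).trans ?_
    rw [Finset.sum_sub_distrib, ← Finset.mul_sum]
    have h8 := LH_upper (w := g * m) hm0 hw0 j hj
    have h9 := LH_lower g hm hg j hj
    have h10 := Asum_one_le (w := g * m) hm0 hw0
    rw [hβ] at h8 h10
    push_cast at h8 h9
    rw [← hC] at h8 h9 h10
    have hr : (0:ℝ) < (rr m (g * m))⁻¹ := inv_pos.mpr rr_pos
    have h11 : 2 * (Asum m (g * m) 1 : ℝ) * ∑ c0 ∈ LHall m (g * m) j hj, (Asum m (g * m) (d1 j hj c0) : ℝ) ≤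
        2 * (C * g) * (C ^ 2 * (g:ℝ) ^ 3 * (rr m (g * m))⁻¹ / 4) := by
      apply mul_le_mul
      · linarith
      · exact h8
      · exact Finset.sum_nonneg fun _ _ => Nat.cast_nonneg _
      · positivity
    calc _ ≤ 2 * (C * g) * (C ^ 2 * (g:ℝ) ^ 3 * (rr m (g * m))⁻¹ / 4) -
          C ^ 3 * (g:ℝ) ^ 4 * (Real.exp (-4)) ^ 3 / 2 := sub_le_sub h11 h9
      _ = _ := by ring
  calc C ^ (m - 1) * ∑ c0 ∈ LHall m (g * m) j hj,
      C ^ (m - 2) * ((Asum m (g * m) (d1 j hj c0) : ℝ) * ((RB m (g * m) i (d2 j hj c0)).card : ℝ))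
      ≤ C ^ (m - 1) * (C ^ (m - 2) * (C ^ 3 * (g:ℝ) ^ 4 * ((rr m (g * m))⁻¹ - (Real.exp (-4)) ^ 3) / 2)) :=
        mul_le_mul_of_nonneg_left h6 (by positivity)
    _ = _ := by
        have e : C ^ (2 * m) = C ^ (m - 1) * C ^ (m - 2) * C ^ 3 := by
          rw [← pow_add, ← pow_add]; congr 1; omega
        rw [e]; ring

end Pool.Agent.LibC3e
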