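import Pool.Agent.LibC3e.Grid

/-! A dense relation on `Fin (2^l)` containing no `m × m` grid (random dyadic rectangles). -/

set_option autoImplicit false

namespace Pool.Agent.LibC3e

open Finset

/-- dyadic intervals: scale and index -/
abbrev Dy (l : ℕ) := Fin (l + 1) × Fin (2 ^ l)

/-- the dyadic interval of scale `a` containing `u` -/
def anc {l : ℕ} (u : Fin (2 ^ l)) (a : Fin (l + 1)) : Dy l :=
  (a, ⟨u / 2 ^ (a : ℕ), lt_of_le_of_lt (Nat.div_le_self _ _) u.isLt⟩)

/-- the relation given by an assignment of colours: all dyadic rectangles are active -/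
def rel {l Q : ℕ} (f : Dy l × Dy l → Fin (Q + 1)) (u v : Fin (2 ^ l)) : Prop :=
  ∀ a b, f (anc u a, anc v b) ≠ 0

lemma hull {l m : ℕ} (hm : 0 < m) (x : Fin m → Fin (2 ^ l)) :
    ∃ (a : Fin (l + 1)) (c : Fin (2 ^ l)), (∀ j, anc (x j) a = (a, c)) ∧
      ((a : ℕ) ≠ 0 → (∃ j, (x j : ℕ) / 2 ^ ((a : ℕ) - 1) = 2 * c) ∧
        (∃ j, (x j : ℕ) / 2 ^ ((a : ℕ) - 1) = 2 * c + 1)) := by
  classical
  set P : ℕ → Prop := fun a => ∀ j, (x j : ℕ) / 2 ^ a = (x ⟨0, hm⟩ : ℕ) / 2 ^ a with hP
  have hPl : P l := by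
    intro j
    rw [Nat.div_eq_of_lt (x j).isLt, Nat.div_eq_of_lt (x ⟨0, hm⟩).isLt]
  have hex : ∃ a, P a := ⟨l, hPl⟩
  have hle : Nat.find hex ≤ l := Nat.find_min' hex hPl
  have hspec := Nat.find_spec hex
  refine ⟨⟨Nat.find hex, by omega⟩, (anc (x ⟨0, hm⟩) ⟨Nat.find hex, by omega⟩).2, ?_, ?_⟩
  · intro j
    unfold anc
    ext
    · rfl
    · exact hspec j
  · intro h0
    simp only [ne_eq] at h0
    obtain ⟨a', ha'⟩ := Nat.exists_eq_succ_of_ne_zero h0
    have hmin : ¬ P a' := Nat.find_min hex (by omega)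
    rw [hP] at hmin
    push Not at hmin
    obtain ⟨j, hj⟩ := hmin
    have h1 : ∀ j, (x j : ℕ) / 2 ^ a' / 2 = (x ⟨0, hm⟩ : ℕ) / 2 ^ (Nat.find hex) := by
      intro j
      rw [Nat.div_div_eq_div_mul, ← pow_succ]
      have := hspec j
      rw [ha'] at this ⊢
      exact this
    have e1 : Nat.find hex - 1 = a' := by omega
    simp only [e1, anc]
    set c := (x ⟨0, hm⟩ : ℕ) / 2 ^ (Nat.find hex) with hc
    have h2 := h1 j
    have h3 := h1 ⟨0, hm⟩
    have h4 : (x j : ℕ) / 2 ^ a' = 2 * c ∨ (x j : ℕ) / 2 ^ a' = 2 * c + 1 := by omega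
    have h5 : (x ⟨0, hm⟩ : ℕ) / 2 ^ a' = 2 * c ∨ (x ⟨0, hm⟩ : ℕ) / 2 ^ a' = 2 * c + 1 := by omega
    rcases h4 with h4 | h4
    · rcases h5 with h5 | h5
      · exact absurd (h4.trans h5.symm) hj
      · exact ⟨⟨j, h4⟩, ⟨_, h5⟩⟩
    · rcases h5 with h5 | h5
      · exact ⟨⟨_, h5⟩, ⟨j, h4⟩⟩
      · exact absurd (h4.trans h5.symm) hj

/-- families of ordered blocks have distinct hulls -/
lemma hulls {l m : ℕ} (hm : 0 < m) (x : Fin m → Fin m → Fin (2 ^ l))
    (hx : ∀ i j i' j', i < i' → x i j < x i' j') :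
    ∃ I : Fin m → Dy l, Function.Injective I ∧ ∀ i j, anc (x i j) (I i).1 = I i := by
  choose a c h1 h2 using fun i => hull hm (x i)
  refine ⟨fun i => (a i, c i), ?_, fun i j => h1 i j⟩
  have key : ∀ i i', i < i' → (a i, c i) ≠ (a i', c i') := by
    intro i i' hii' heq
    simp only [Prod.mk.injEq] at heq
    obtain ⟨ha, hc⟩ := heq
    by_cases h0 : (a i : ℕ) = 0
    · have h3 := h1 i ⟨0, hm⟩
      have h4 := h1 i' ⟨0, hm⟩
      unfold anc at h3 h4
      simp only [Prod.mk.injEq, true_and] at h3 h4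
      have h5 : (x i ⟨0, hm⟩ : ℕ) = c i := by
        rw [← h3]; simp [h0]
      have h6 : (x i' ⟨0, hm⟩ : ℕ) = c i' := by
        rw [← h4, ← ha]; simp [h0]
      have h7 : (x i ⟨0, hm⟩ : ℕ) < x i' ⟨0, hm⟩ := hx _ _ _ _ hii'
      rw [h5, h6, hc] at h7
      exact lt_irrefl _ h7
    · obtain ⟨_, ⟨j, hj⟩⟩ := h2 i h0
      obtain ⟨⟨j', hj'⟩, _⟩ := h2 i' (by rw [← ha]; exact h0)
      rw [← ha, ← hc] at hj'
      have h7 : (x i j : ℕ) < x i' j' := hx _ _ _ _ hii'
      have h8 : (x i j : ℕ) / 2 ^ ((a i : ℕ) - 1) ≤ (x i' j' : ℕ) / 2 ^ ((a i : ℕ) - 1) :=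
        Nat.div_le_div_right h7.le
      omega
  intro i i' hii'
  rcases lt_trichotomy i i' with h | h | h
  · exact absurd hii' (key i i' h)
  · exact h
  · exact absurd hii'.symm (key i' i h)

lemma grid_active {l m Q : ℕ} (hm : 0 < m) (f : Dy l × Dy l → Fin (Q + 1))
    (g : GridIn m (rel f)) :
    ∃ I J : Fin m → Dy l, Function.Injective I ∧ Function.Injective J ∧
      ∀ i j, f (I i, J j) ≠ 0 := by
  obtain ⟨I, hI, hI2⟩ := hulls hm g.x g.hx
  obtain ⟨J, hJ, hJ2⟩ := hulls hm (fun j i => g.y i j) (fun j i j' i' h => g.hy i j i' j' h)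
  refine ⟨I, J, hI, hJ, fun i j => ?_⟩
  have h := g.hA i j (I i).1 (J j).1
  rw [hI2 i j, hJ2 j i] at h
  exact h

/-- number of colourings avoiding `0` on a finite set -/
lemma card_avoid {X : Type} [Fintype X] [DecidableEq X] (Q : ℕ) (S : Finset X) :
    (Finset.univ.filter fun f : X → Fin (Q + 1) => ∀ x ∈ S, f x ≠ 0).card * (Q + 1) ^ S.card =
      Q ^ S.card * (Q + 1) ^ Fintype.card X := by
  have h1 : (Finset.univ.filter fun f : X → Fin (Q + 1) => ∀ x ∈ S, f x ≠ 0) =
      Fintype.piFinset (fun x => if x ∈ S then Finset.univ.erase 0 else Finset.univ) := by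
    ext f
    simp only [Finset.mem_filter, Finset.mem_univ, true_and, Fintype.mem_piFinset]
    constructor
    · intro h x
      split_ifs with hx
      · simpa using h x hx
      · simp
    · intro h x hx
      have := h x
      rw [if_pos hx] at this
      simpa using this
  rw [h1, Fintype.card_piFinset]
  have h2 : ∀ x : X, (if x ∈ S then (Finset.univ : Finset (Fin (Q+1))).erase 0
      else Finset.univ).card = if x ∈ S then Q else Q + 1 := by
    intro x
    split_ifs <;> simp
  simp only [h2]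
  rw [Finset.prod_ite, Finset.prod_const, Finset.prod_const]
  have h3 : (Finset.univ.filter fun x => x ∈ S) = S := by ext; simp
  have h4 : (Finset.univ.filter fun x => x ∉ S).card = Fintype.card X - S.card := by
    rw [Finset.filter_not, h3, ← Finset.compl_eq_univ_sdiff, Finset.card_compl]
  rw [h3, h4, mul_assoc, ← pow_add]
  congr 2
  have : S.card ≤ Fintype.card X := Finset.card_le_univ S
  omega

/-- number of colourings with `f x = 0` -/
lemma card_zero {X : Type} [Fintype X] [DecidableEq X] (Q : ℕ) (x : X) :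
    (Finset.univ.filter fun f : X → Fin (Q + 1) => f x = 0).card * (Q + 1) =
      (Q + 1) ^ Fintype.card X := by
  have h1 : (Finset.univ.filter fun f : X → Fin (Q + 1) => f x = 0) =
      Fintype.piFinset (fun z => if z = x then {0} else Finset.univ) := by
    ext f
    simp only [Finset.mem_filter, Finset.mem_univ, true_and, Fintype.mem_piFinset]
    constructor
    · intro h z
      split_ifs with hz
      · subst hz; simp [h]
      · simp
    · intro h
      have := h x
      simpa using this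
  rw [h1, Fintype.card_piFinset]
  have h2 : ∀ z : X, (if z = x then ({0} : Finset (Fin (Q+1))) else Finset.univ).card =
      if z = x then 1 else Q + 1 := by
    intro z
    split_ifs <;> simp
  simp only [h2]
  rw [Finset.prod_ite, Finset.prod_const, Finset.prod_const]
  have h3 : (Finset.univ.filter fun z => z = x) = {x} := by ext; simp
  have h4 : (Finset.univ.filter fun z => ¬ z = x).card = Fintype.card X - 1 := by
    rw [Finset.filter_not, h3, ← Finset.compl_eq_univ_sdiff, Finset.card_compl]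
    simp
  have h5 : 0 < Fintype.card X := Fintype.card_pos_iff.mpr ⟨x⟩
  rw [h4, one_pow, one_mul, ← pow_succ]
  congr 1
  omega

open Classical in
/-- The existence of a dense relation without grids. `Q + 1 = 2 (l+1)^2`. -/
lemma dense_exists (l m Q : ℕ) (hm : 0 < m) (hQ : Q + 1 = 2 * (l + 1) ^ 2)
    (hbad : 4 * (Fintype.card (Dy l)) ^ (2 * m) * Q ^ (m * m) ≤ (Q + 1) ^ (m * m)) :
    ∃ A : Fin (2 ^ l) → Fin (2 ^ l) → Prop, IsEmpty (GridIn m A) ∧
      (2 ^ l) ^ 2 ≤ 4 * (Finset.univ.filter fun z : Fin (2 ^ l) × Fin (2 ^ l) => A z.1 z.2).card := by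
  set T := (Q + 1) ^ Fintype.card (Dy l × Dy l) with hT
  set N := 2 ^ l with hN
  have hT0 : 0 < T := by positivity
  -- bad colourings
  set Bad := (Finset.univ.filter fun f : Dy l × Dy l → Fin (Q + 1) =>
    ∃ I J : Fin m → Dy l, Function.Injective I ∧ Function.Injective J ∧
      ∀ i j, f (I i, J j) ≠ 0) with hBad
  have hBadcard : 4 * Bad.card ≤ T := by
    have h1 : Bad ⊆ (Finset.univ : Finset ((Fin m → Dy l) × (Fin m → Dy l))).biUnion fun IJ =>
        if Function.Injective IJ.1 ∧ Function.Injective IJ.2 then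
          (Finset.univ.filter fun f : Dy l × Dy l → Fin (Q + 1) =>
            ∀ i j, f (IJ.1 i, IJ.2 j) ≠ 0) else ∅ := by
      intro f hf
      rw [hBad, Finset.mem_filter] at hf
      obtain ⟨_, I, J, hI, hJ, h⟩ := hf
      rw [Finset.mem_biUnion]
      refine ⟨(I, J), Finset.mem_univ _, ?_⟩
      rw [if_pos ⟨hI, hJ⟩]
      simp only [Finset.mem_filter, Finset.mem_univ, true_and]
      exact h
    have h2 : ∀ IJ : (Fin m → Dy l) × (Fin m → Dy l),
        (if Function.Injective IJ.1 ∧ Function.Injective IJ.2 then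
          (Finset.univ.filter fun f : Dy l × Dy l → Fin (Q + 1) =>
            ∀ i j, f (IJ.1 i, IJ.2 j) ≠ 0) else ∅).card * (Q + 1) ^ (m * m) ≤ Q ^ (m * m) * T := by
      intro IJ
      split_ifs with h
      · set S := (Finset.univ : Finset (Fin m × Fin m)).image (fun z => (IJ.1 z.1, IJ.2 z.2)) with hS
        have hScard : S.card = m * m := by
          rw [hS, Finset.card_image_of_injective]
          · simp
          · rintro ⟨a, b⟩ ⟨c, d⟩ hz
            simp only [Prod.mk.injEq] at hz
            rw [h.1 hz.1, h.2 hz.2]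
        have h3 := card_avoid Q S
        rw [hScard] at h3
        rw [hT, ← h3]
        apply Nat.mul_le_mul_right
        apply Finset.card_le_card
        intro f hf
        simp only [Finset.mem_filter, Finset.mem_univ, true_and] at hf ⊢
        intro x hx
        rw [hS, Finset.mem_image] at hx
        obtain ⟨z, _, rfl⟩ := hx
        exact hf z.1 z.2
      · simp
    have h4 : Bad.card * (Q + 1) ^ (m * m) ≤
        (Fintype.card (Dy l)) ^ (2 * m) * (Q ^ (m * m) * T) := by
      calc Bad.card * (Q + 1) ^ (m * m)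
          ≤ (∑ IJ : (Fin m → Dy l) × (Fin m → Dy l),
              (if Function.Injective IJ.1 ∧ Function.Injective IJ.2 then
                (Finset.univ.filter fun f : Dy l × Dy l → Fin (Q + 1) =>
            ∀ i j, f (IJ.1 i, IJ.2 j) ≠ 0) else ∅).card) * (Q + 1) ^ (m * m) := by
            apply Nat.mul_le_mul_right
            exact le_trans (Finset.card_le_card h1) Finset.card_biUnion_le
        _ = ∑ IJ : (Fin m → Dy l) × (Fin m → Dy l),
              (if Function.Injective IJ.1 ∧ Function.Injective IJ.2 then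
                (Finset.univ.filter fun f : Dy l × Dy l → Fin (Q + 1) =>
            ∀ i j, f (IJ.1 i, IJ.2 j) ≠ 0) else ∅).card * (Q + 1) ^ (m * m) := by
            rw [Finset.sum_mul]
        _ ≤ ∑ IJ : (Fin m → Dy l) × (Fin m → Dy l), Q ^ (m * m) * T :=
            Finset.sum_le_sum fun IJ _ => h2 IJ
        _ = _ := by
            rw [Finset.sum_const, Finset.card_univ, smul_eq_mul, Fintype.card_prod]
            congr 1
            rw [Fintype.card_fun, Fintype.card_fin, two_mul, pow_add]
    have h5 : (4 * Bad.card) * (Q + 1) ^ (m * m) ≤ T * (Q + 1) ^ (m * m) := by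
      calc (4 * Bad.card) * (Q + 1) ^ (m * m) = 4 * (Bad.card * (Q + 1) ^ (m * m)) := by ring
        _ ≤ 4 * ((Fintype.card (Dy l)) ^ (2 * m) * (Q ^ (m * m) * T)) := by gcongr
        _ = (4 * (Fintype.card (Dy l)) ^ (2 * m) * Q ^ (m * m)) * T := by ring
        _ ≤ (Q + 1) ^ (m * m) * T := by gcongr
        _ = _ := by ring
    exact Nat.le_of_mul_le_mul_right h5 (by positivity)
  -- density
  have hdens : ∀ u v : Fin N, T ≤ 2 * (Finset.univ.filter fun f : Dy l × Dy l → Fin (Q + 1) =>
      rel f u v).card := by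
    intro u v
    have h1 : (Finset.univ.filter fun f : Dy l × Dy l → Fin (Q + 1) => ¬ rel f u v) ⊆
        (Finset.univ : Finset (Fin (l+1) × Fin (l+1))).biUnion fun ab =>
          Finset.univ.filter fun f : Dy l × Dy l → Fin (Q + 1) =>
            f (anc u ab.1, anc v ab.2) = 0 := by
      intro f hf
      simp only [Finset.mem_filter, Finset.mem_univ, true_and, rel] at hf
      push Not at hf
      obtain ⟨a, b, hab⟩ := hf
      rw [Finset.mem_biUnion]
      exact ⟨(a, b), Finset.mem_univ _, by simpa using hab⟩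
    have h2 : (Finset.univ.filter fun f : Dy l × Dy l → Fin (Q + 1) => ¬ rel f u v).card *
        (Q + 1) ≤ (l+1)^2 * T := by
      calc (Finset.univ.filter fun f : Dy l × Dy l → Fin (Q + 1) => ¬ rel f u v).card * (Q + 1)
          ≤ (∑ ab : Fin (l+1) × Fin (l+1), (Finset.univ.filter fun f : Dy l × Dy l → Fin (Q + 1) =>
            f (anc u ab.1, anc v ab.2) = 0).card) * (Q + 1) := by
            apply Nat.mul_le_mul_right
            exact le_trans (Finset.card_le_card h1) Finset.card_biUnion_le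
        _ = ∑ ab : Fin (l+1) × Fin (l+1), T := by
            rw [Finset.sum_mul]
            exact Finset.sum_congr rfl fun ab _ => card_zero Q _
        _ = (l+1)^2 * T := by
            rw [Finset.sum_const, Finset.card_univ, smul_eq_mul, Fintype.card_prod,
              Fintype.card_fin, sq]
    have h3 : 2 * (Finset.univ.filter fun f : Dy l × Dy l → Fin (Q + 1) => ¬ rel f u v).card
        ≤ T := by
      have h4 : (l+1)^2 * (2 * (Finset.univ.filter fun f : Dy l × Dy l → Fin (Q + 1) =>
        ¬ rel f u v).card) ≤ (l+1)^2 * T := by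
        calc _ = (Finset.univ.filter fun f : Dy l × Dy l → Fin (Q + 1) => ¬ rel f u v).card *
          (2 * (l+1)^2) := by ring
          _ = (Finset.univ.filter fun f : Dy l × Dy l → Fin (Q + 1) => ¬ rel f u v).card *
          (Q + 1) := by rw [← hQ]
          _ ≤ _ := h2
      exact Nat.le_of_mul_le_mul_left h4 (by positivity)
    have h4 := Finset.card_filter_add_card_filter_not
      (s := (Finset.univ : Finset (Dy l × Dy l → Fin (Q + 1)))) (fun f => rel f u v)
    rw [Finset.card_univ, Fintype.card_fun, Fintype.card_fin] at h4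
    have h5 : (Q + 1) ^ Fintype.card (Dy l × Dy l) = T := rfl
    omega
  -- double counting
  have hsum : N ^ 2 * T ≤ 2 * ∑ f : Dy l × Dy l → Fin (Q + 1),
      (Finset.univ.filter fun z : Fin N × Fin N => rel f z.1 z.2).card := by
    have h1 : ∑ f : Dy l × Dy l → Fin (Q + 1),
      (Finset.univ.filter fun z : Fin N × Fin N => rel f z.1 z.2).card =
      ∑ z : Fin N × Fin N, (Finset.univ.filter fun f : Dy l × Dy l → Fin (Q + 1) =>
        rel f z.1 z.2).card := by
      simp only [Finset.card_filter]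
      rw [Finset.sum_comm]
    rw [h1, Finset.mul_sum]
    calc N ^ 2 * T = ∑ z : Fin N × Fin N, T := by
          rw [Finset.sum_const, Finset.card_univ, smul_eq_mul, Fintype.card_prod,
            Fintype.card_fin, sq]
      _ ≤ _ := Finset.sum_le_sum fun z _ => hdens z.1 z.2
  by_contra hcon
  push Not at hcon
  -- every good colouring has low density
  have hgood : ∀ f : Dy l × Dy l → Fin (Q + 1), f ∉ Bad →
      4 * (Finset.univ.filter fun z : Fin N × Fin N => rel f z.1 z.2).card < N ^ 2 := by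
    intro f hf
    apply hcon (rel f)
    constructor
    intro g
    apply hf
    rw [hBad, Finset.mem_filter]
    exact ⟨Finset.mem_univ _, grid_active hm f g⟩
  have hall : ∀ f : Dy l × Dy l → Fin (Q + 1),
      (Finset.univ.filter fun z : Fin N × Fin N => rel f z.1 z.2).card ≤ N ^ 2 := by
    intro f
    refine le_trans (Finset.card_le_univ _) ?_
    rw [Fintype.card_prod, Fintype.card_fin, sq]
  have hN0 : 0 < N := by positivity
  have h1 : 4 * ∑ f : Dy l × Dy l → Fin (Q + 1),
      (Finset.univ.filter fun z : Fin N × Fin N => rel f z.1 z.2).card ≤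
      Bad.card * (4 * N ^ 2) + Badᶜ.card * (N ^ 2 - 1) := by
    rw [← Finset.sum_add_sum_compl Bad, mul_add, Finset.mul_sum, Finset.mul_sum]
    refine add_le_add ?_ ?_
    · rw [← smul_eq_mul (Bad.card)]
      refine Finset.sum_le_card_nsmul _ _ _ fun f _ => ?_
      have := hall f
      omega
    · rw [← smul_eq_mul (Badᶜ.card)]
      refine Finset.sum_le_card_nsmul _ _ _ fun f hf => ?_
      have := hgood f (Finset.mem_compl.mp hf)
      omega
  have h2 : Badᶜ.card = T - Bad.card := by
    rw [Finset.card_compl, Fintype.card_fun, Fintype.card_fin]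
  have h3 : 0 < Badᶜ.card := by omega
  have h4 : 1 ≤ N ^ 2 := Nat.one_le_pow _ _ hN0
  have h5 : Badᶜ.card * (N ^ 2 - 1) < Badᶜ.card * N ^ 2 :=
    Nat.mul_lt_mul_of_pos_left (by omega) h3
  have h6 : Badᶜ.card * N ^ 2 ≤ T * N ^ 2 := Nat.mul_le_mul_right _ (by omega)
  have h7 : Bad.card * (4 * N ^ 2) ≤ T * N ^ 2 := by
    calc Bad.card * (4 * N ^ 2) = (4 * Bad.card) * N ^ 2 := by ring
      _ ≤ T * N ^ 2 := Nat.mul_le_mul_right _ hBadcard
  have h8 : 2 * (N ^ 2 * T) ≤ 4 * ∑ f : Dy l × Dy l → Fin (Q + 1),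
      (Finset.univ.filter fun z : Fin N × Fin N => rel f z.1 z.2).card := by omega
  have h9 : N ^ 2 * T = T * N ^ 2 := by ring
  omega

end Pool.Agent.LibC3e
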