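import Pool.Agent.LibC3e.Dyadic

/-! Many permutations avoiding the grid permutation. -/

set_option autoImplicit false

namespace Pool.Agent.LibC3e

open Finset

lemma exists_factor {n N : ℕ} (x : Fin n → Fin N) (hx : Function.Injective x) :
    ∃ (e : Fin n ↪o Fin N) (α : Equiv.Perm (Fin n)), ∀ t, x t = e (α t) := by
  classical
  set s := Finset.univ.image x with hs
  have hcard : s.card = n := by
    rw [hs, Finset.card_image_of_injective _ hx]; simp
  have hmem : ∀ t, ∃ a, s.orderEmbOfFin hcard a = x t := by
    intro t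
    have h1 : x t ∈ (s : Set (Fin N)) := by simp [hs]
    rw [← Finset.range_orderEmbOfFin s hcard] at h1
    exact h1
  choose α hα using hmem
  have hαinj : Function.Injective α := by
    intro a b hab
    apply hx
    rw [← hα a, ← hα b, hab]
  refine ⟨s.orderEmbOfFin hcard, Equiv.ofBijective α (Finite.injective_iff_bijective.mp hαinj), ?_⟩
  intro t
  exact (hα t).symm

open Classical in
/-- partial matchings inside `A` -/
noncomputable def matchings {N : ℕ} (A : Fin N → Fin N → Prop) (n : ℕ) :
    Finset (Fin n → Fin N × Fin N) :=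
  Finset.univ.filter fun z => Function.Injective (fun t => (z t).1) ∧
    Function.Injective (fun t => (z t).2) ∧ ∀ t, A (z t).1 (z t).2

open Classical in
lemma matchings_succ {N : ℕ} (A : Fin N → Fin N → Prop) (n : ℕ)
    (hA : N ^ 2 ≤ 4 * (Finset.univ.filter fun z : Fin N × Fin N => A z.1 z.2).card)
    (hn : 16 * n ≤ N) :
    (matchings A n).card * N ^ 2 ≤ 8 * (matchings A (n + 1)).card := by
  set W := (Finset.univ.filter fun z : Fin N × Fin N => A z.1 z.2) with hW
  -- allowed extensions
  set ext : (Fin n → Fin N × Fin N) → Finset (Fin N × Fin N) := fun z =>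
    (W \ (((Finset.univ.image fun t => (z t).1) ×ˢ (Finset.univ : Finset (Fin N))))) \
      ((Finset.univ : Finset (Fin N)) ×ˢ (Finset.univ.image fun t => (z t).2)) with hext
  have h1 : ∀ z : Fin n → Fin N × Fin N, N ^ 2 ≤ 8 * (ext z).card := by
    intro z
    have c1 : (((Finset.univ.image fun t => (z t).1) ×ˢ (Finset.univ : Finset (Fin N)))).card ≤
        n * N := by
      rw [Finset.card_product, Finset.card_univ, Fintype.card_fin]
      apply Nat.mul_le_mul_right
      refine le_trans Finset.card_image_le ?_
      simp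
    have c2 : ((Finset.univ : Finset (Fin N)) ×ˢ (Finset.univ.image fun t => (z t).2)).card ≤
        N * n := by
      rw [Finset.card_product, Finset.card_univ, Fintype.card_fin]
      apply Nat.mul_le_mul_left
      refine le_trans Finset.card_image_le ?_
      simp
    have c3 := Finset.le_card_sdiff (((Finset.univ.image fun t => (z t).1) ×ˢ
      (Finset.univ : Finset (Fin N)))) W
    have c4 := Finset.le_card_sdiff ((Finset.univ : Finset (Fin N)) ×ˢ
      (Finset.univ.image fun t => (z t).2)) (W \ (((Finset.univ.image fun t => (z t).1) ×ˢ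
      (Finset.univ : Finset (Fin N)))))
    have c5 : 16 * n * N ≤ N * N := Nat.mul_le_mul_right N hn
    have c6 : N ^ 2 = N * N := sq N
    have c7 : N * n = n * N := mul_comm _ _
    have c8 : 16 * n * N = 16 * (n * N) := by ring
    simp only [hext]
    omega
  -- injection
  have h2 : ((matchings A n).sigma fun z => ext z).card ≤ (matchings A (n + 1)).card := by
    refine Finset.card_le_card_of_injOn (fun p => (Fin.cons p.2 p.1 : Fin (n+1) → Fin N × Fin N))
      ?_ ?_
    · rintro ⟨z, q⟩ hz
      simp only [Finset.coe_sigma, Set.mem_sigma_iff, Finset.mem_coe] at hz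
      obtain ⟨hz1, hz2⟩ := hz
      simp only [matchings, Finset.mem_filter, Finset.mem_univ, true_and] at hz1
      simp only [hext, hW, Finset.mem_sdiff, Finset.mem_filter, Finset.mem_univ, true_and,
        Finset.mem_product, Finset.mem_image, and_true, not_exists] at hz2
      obtain ⟨⟨hq1, hq2⟩, hq3⟩ := hz2
      simp only [Finset.mem_coe, matchings, Finset.mem_filter, Finset.mem_univ, true_and]
      refine ⟨?_, ?_, ?_⟩
      · intro a b hab
        refine Fin.cases ?_ (fun a' => ?_) a hab <;> refine Fin.cases ?_ (fun b' => ?_) b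
        · intro _; rfl
        · intro h
          simp only [Fin.cons_zero, Fin.cons_succ] at h
          exact absurd h.symm (hq2 b')
        · intro h
          simp only [Fin.cons_zero, Fin.cons_succ] at h
          exact absurd h (hq2 a')
        · intro h
          simp only [Fin.cons_succ] at h
          rw [hz1.1 h]
      · intro a b hab
        refine Fin.cases ?_ (fun a' => ?_) a hab <;> refine Fin.cases ?_ (fun b' => ?_) b
        · intro _; rfl
        · intro h
          simp only [Fin.cons_zero, Fin.cons_succ] at h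
          exact absurd h.symm (hq3 b')
        · intro h
          simp only [Fin.cons_zero, Fin.cons_succ] at h
          exact absurd h (hq3 a')
        · intro h
          simp only [Fin.cons_succ] at h
          rw [hz1.2.1 h]
      · intro a
        refine Fin.cases ?_ (fun a' => ?_) a
        · simpa using hq1
        · simpa using hz1.2.2 a'
    · rintro ⟨z, q⟩ _ ⟨z', q'⟩ _ h
      simp only [Fin.cons_inj] at h
      obtain ⟨h1, h2⟩ := h
      subst h1; subst h2; rfl
  rw [Finset.card_sigma] at h2
  calc (matchings A n).card * N ^ 2 = ∑ z ∈ matchings A n, N ^ 2 := by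
        rw [Finset.sum_const, smul_eq_mul]
    _ ≤ ∑ z ∈ matchings A n, 8 * (ext z).card := Finset.sum_le_sum fun z _ => h1 z
    _ = 8 * ∑ z ∈ matchings A n, (ext z).card := by rw [Finset.mul_sum]
    _ ≤ _ := by omega

open Classical in
lemma matchings_card {N : ℕ} (A : Fin N → Fin N → Prop)
    (hA : N ^ 2 ≤ 4 * (Finset.univ.filter fun z : Fin N × Fin N => A z.1 z.2).card)
    (n : ℕ) (hn : 16 * n ≤ N) :
    N ^ (2 * n) ≤ 8 ^ n * (matchings A n).card := by
  induction n with
  | zero =>
    have : (matchings A 0).card = 1 := by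
      unfold matchings
      rw [Finset.filter_true_of_mem]
      · simp
      · intro z _
        refine ⟨?_, ?_, ?_⟩
        · intro a; exact a.elim0
        · intro a; exact a.elim0
        · intro a; exact a.elim0
    simp [this]
  | succ n ih =>
    have h1 := ih (by omega)
    have h2 := matchings_succ A n hA (by omega)
    calc N ^ (2 * (n + 1)) = N ^ (2 * n) * N ^ 2 := by ring
      _ ≤ (8 ^ n * (matchings A n).card) * N ^ 2 := by gcongr
      _ = 8 ^ n * ((matchings A n).card * N ^ 2) := by ring
      _ ≤ 8 ^ n * (8 * (matchings A (n + 1)).card) := by gcongr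
      _ = _ := by ring

/-- if the pattern of a matching inside `A` contains `tau m`, then `A` contains a grid -/
def gridOf {n N m : ℕ} (A : Fin N → Fin N → Prop) (e g : Fin n ↪o Fin N)
    (π : Equiv.Perm (Fin n)) (hA : ∀ t, A (e t) (g (π t)))
    (f : Fin (m * m) ↪o Fin n) (hf : ∀ i j, tau m i < tau m j ↔ π (f i) < π (f j)) :
    GridIn m A where
  x i j := e (f (idx i j))
  y i j := g (π (f (idx i j)))
  hx i j i' j' h := e.strictMono (f.strictMono ((idx_lt _ _ _ _).mpr (Or.inl h)))
  hy i j i' j' h := by
    refine g.strictMono ((hf _ _).mp ?_)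
    rw [tau_idx, tau_idx]
    exact (idx_lt _ _ _ _).mpr (Or.inl h)
  hA i j := hA _

open Classical in
lemma matchings_le {N : ℕ} (m : ℕ) (A : Fin N → Fin N → Prop) (hA : IsEmpty (GridIn m A)) (n : ℕ) :
    (matchings A n).card ≤ (N.choose n) ^ 2 * n.factorial * av (tau m) n := by
  set T : Finset ((Fin n ↪o Fin N) × (Fin n ↪o Fin N) × Equiv.Perm (Fin n) × Equiv.Perm (Fin n)) :=
    (Finset.univ ×ˢ (Finset.univ ×ˢ (Finset.univ ×ˢ
      (Finset.univ.filter fun π : Equiv.Perm (Fin n) => ¬ Contains (tau m) π)))) with hT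
  have hTcard : T.card = (N.choose n) ^ 2 * n.factorial * av (tau m) n := by
    rw [hT, Finset.card_product, Finset.card_product, Finset.card_product, Finset.card_univ,
      Finset.card_univ, card_chain, Fintype.card_perm, Fintype.card_fin]
    unfold av
    ring
  rw [← hTcard]
  refine Finset.card_le_card_of_surjOn
    (fun p t => (p.1 (p.2.2.1 t), p.2.1 (p.2.2.2 (p.2.2.1 t)))) ?_
  intro z hz
  simp only [matchings, Finset.coe_filter, Finset.mem_univ, true_and, Set.mem_ofPred_eq] at hz
  obtain ⟨h1, h2, h3⟩ := hz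
  obtain ⟨e, α, he⟩ := exists_factor _ h1
  obtain ⟨g, β, hg⟩ := exists_factor _ h2
  refine ⟨(e, g, α, α.symm.trans β), ?_, ?_⟩
  · simp only [hT, Finset.coe_product, Finset.coe_univ, Finset.coe_filter, Finset.mem_univ,
      true_and, Set.mem_prod, Set.mem_univ, Set.mem_ofPred_eq]
    rintro ⟨f, hf⟩
    refine hA.false (gridOf A e g (α.symm.trans β) ?_ f hf)
    intro t
    have h4 := h3 (α.symm t)
    have h5 := he (α.symm t)
    have h6 := hg (α.symm t)
    rw [h5, h6, Equiv.apply_symm_apply] at h4
    exact h4
  · funext t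
    have h5 := he t
    have h6 := hg t
    ext1
    · simp [← h5]
    · simp [← h6]

open Classical in
lemma av_of_dense {N : ℕ} (m n : ℕ) (hN0 : 0 < N) (A : Fin N → Fin N → Prop)
    (hA1 : IsEmpty (GridIn m A))
    (hA2 : N ^ 2 ≤ 4 * (Finset.univ.filter fun z : Fin N × Fin N => A z.1 z.2).card)
    (hn : 16 * n ≤ N) : n.factorial ≤ 8 ^ n * av (tau m) n := by
  have h1 := matchings_card A hA2 n hn
  have h2 := matchings_le m A hA1 n
  have h3 : N.choose n * n.factorial ≤ N ^ n := by
    rw [mul_comm, ← Nat.descFactorial_eq_factorial_mul_choose]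
    exact Nat.descFactorial_le_pow N n
  have h4 : N ^ (2 * n) * n.factorial ≤ N ^ (2 * n) * (8 ^ n * av (tau m) n) := by
    calc N ^ (2 * n) * n.factorial ≤ (8 ^ n * (matchings A n).card) * n.factorial := by gcongr
      _ ≤ (8 ^ n * ((N.choose n) ^ 2 * n.factorial * av (tau m) n)) * n.factorial := by gcongr
      _ = (N.choose n * n.factorial) ^ 2 * (8 ^ n * av (tau m) n) := by ring
      _ ≤ (N ^ n) ^ 2 * (8 ^ n * av (tau m) n) := by gcongr
      _ = _ := by rw [← pow_mul, mul_comm n 2]
  exact Nat.le_of_mul_le_mul_left h4 (by positivity)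

/-- many avoiders -/
lemma av_tau_large (l m Q n : ℕ) (hm : 0 < m) (hQ : Q + 1 = 2 * (l + 1) ^ 2)
    (hbad : 4 * (Fintype.card (Dy l)) ^ (2 * m) * Q ^ (m * m) ≤ (Q + 1) ^ (m * m))
    (hn : 16 * n ≤ 2 ^ l) :
    n.factorial ≤ 8 ^ n * av (tau m) n := by
  classical
  obtain ⟨A, hA1, hA2⟩ := dense_exists l m Q hm hQ hbad
  exact av_of_dense m n (by positivity) A hA1 hA2 hn

end Pool.Agent.LibC3e
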