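import Pool.Agent.LibC3e.Basic

/-! At most `k^(2n)` permutations of length `n` avoid `12...k`. -/

set_option autoImplicit false

namespace Pool.Agent.LibC3e

open Finset

/-- there is an increasing subsequence with `s+1` terms ending at position `i` -/
def Inc {n : ℕ} (π : Equiv.Perm (Fin n)) (i : Fin n) (s : ℕ) : Prop :=
  ∃ f : Fin (s + 1) → Fin n, StrictMono f ∧ StrictMono (fun t => π (f t)) ∧ f (Fin.last s) = i

lemma inc_zero {n : ℕ} (π : Equiv.Perm (Fin n)) (i : Fin n) : Inc π i 0 := by
  refine ⟨fun _ => i, ?_, ?_, rfl⟩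
  · intro a b hab
    exact absurd hab (by have := a.isLt; have := b.isLt; rw [Fin.lt_def]; omega)
  · intro a b hab
    exact absurd hab (by have := a.isLt; have := b.isLt; rw [Fin.lt_def]; omega)

lemma inc_succ {n : ℕ} (π : Equiv.Perm (Fin n)) (i j : Fin n) (s : ℕ) (hij : i < j)
    (hπ : π i < π j) (h : Inc π i s) : Inc π j (s + 1) := by
  obtain ⟨f, h1, h2, h3⟩ := h
  refine ⟨Fin.snoc f j, ?_, ?_, by simp⟩
  · intro a b
    refine Fin.lastCases ?_ (fun b' => ?_) b
    · refine Fin.lastCases ?_ (fun a' => ?_) a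
      · intro h; exact absurd h (lt_irrefl _)
      · intro _
        simp only [Fin.snoc_castSucc, Fin.snoc_last]
        exact lt_of_le_of_lt ((h1.monotone (Fin.le_last a')).trans h3.le) hij
    · refine Fin.lastCases ?_ (fun a' => ?_) a
      · intro h; exact absurd h (not_lt.mpr (Fin.le_last _))
      · intro h
        simp only [Fin.snoc_castSucc]
        exact h1 (Fin.castSucc_lt_castSucc_iff.mp h)
  · intro a b
    refine Fin.lastCases ?_ (fun b' => ?_) b
    · refine Fin.lastCases ?_ (fun a' => ?_) a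
      · intro h; exact absurd h (lt_irrefl _)
      · intro _
        simp only [Fin.snoc_castSucc, Fin.snoc_last]
        refine lt_of_le_of_lt (h2.monotone (Fin.le_last a')) ?_
        simp only [h3]
        exact hπ
    · refine Fin.lastCases ?_ (fun a' => ?_) a
      · intro h; exact absurd h (not_lt.mpr (Fin.le_last _))
      · intro h
        simp only [Fin.snoc_castSucc]
        exact h2 (Fin.castSucc_lt_castSucc_iff.mp h)

lemma inc_contains {n k : ℕ} (π : Equiv.Perm (Fin n)) (i : Fin n) (s : ℕ) (hs : k ≤ s + 1)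
    (h : Inc π i s) : Contains (1 : Equiv.Perm (Fin k)) π := by
  obtain ⟨f, h1, h2, _⟩ := h
  refine ⟨OrderEmbedding.ofStrictMono (fun t => f (Fin.castLE hs t)) ?_, ?_⟩
  · intro a b hab
    exact h1 hab
  · intro a b
    simp only [Equiv.Perm.coe_one, id_eq, OrderEmbedding.coe_ofStrictMono]
    exact (h2.lt_iff_lt (a := Fin.castLE hs a) (b := Fin.castLE hs b)).symm

open Classical in
/-- label -/
noncomputable def lab {n : ℕ} (π : Equiv.Perm (Fin n)) (i : Fin n) : ℕ :=
  Nat.findGreatest (Inc π i) n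

lemma inc_le {n : ℕ} (π : Equiv.Perm (Fin n)) (i : Fin n) (s : ℕ) (h : Inc π i s) : s ≤ n := by
  obtain ⟨f, h1, _, _⟩ := h
  have := Fintype.card_le_of_injective f h1.injective
  simp at this
  omega

lemma lab_spec {n : ℕ} (π : Equiv.Perm (Fin n)) (i : Fin n) : Inc π i (lab π i) := by
  classical
  unfold lab
  exact Nat.findGreatest_spec (P := Inc π i) (Nat.zero_le n) (inc_zero π i)

lemma lab_lt {n : ℕ} (π : Equiv.Perm (Fin n)) (i j : Fin n) (hij : i < j) (hπ : π i < π j) :
    lab π i < lab π j := by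
  classical
  have h1 := inc_succ π i j _ hij hπ (lab_spec π i)
  have h2 := inc_le _ _ _ h1
  have h3 : lab π i + 1 ≤ lab π j := by
    unfold lab at h1 ⊢
    exact Nat.le_findGreatest (by unfold lab at h2; exact h2) h1
  omega

lemma lab_bound {n k : ℕ} (π : Equiv.Perm (Fin n)) (h : ¬ Contains (1 : Equiv.Perm (Fin k)) π)
    (i : Fin n) : lab π i < k := by
  by_contra hcon
  push Not at hcon
  exact h (inc_contains π i (lab π i) (by omega) (lab_spec π i))

lemma perm_eq_of_lab {n : ℕ} (π π' : Equiv.Perm (Fin n)) (a b : Fin n → ℕ)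
    (h1 : ∀ i, lab π i = a i) (h1' : ∀ i, lab π' i = a i)
    (h2 : ∀ i, b (π i) = a i) (h2' : ∀ i, b (π' i) = a i) : π = π' := by
  classical
  have key : ∀ (ρ : Equiv.Perm (Fin n)), (∀ i, lab ρ i = a i) → (∀ i, b (ρ i) = a i) → ∀ i,
      (Finset.univ.filter fun v => b v = a i ∧ v < ρ i).card =
      (Finset.univ.filter fun j => a j = a i ∧ i < j).card := by
    intro ρ hρ1 hρ2 i
    symm
    refine Finset.card_bij (fun j _ => ρ j) ?_ ?_ ?_
    · intro j hj
      simp only [Finset.mem_filter, Finset.mem_univ, true_and] at hj ⊢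
      refine ⟨by rw [hρ2, hj.1], ?_⟩
      by_contra hcon
      have hne : ρ i ≠ ρ j := fun h => absurd (ρ.injective h) (ne_of_lt hj.2)
      have hlt : ρ i < ρ j := lt_of_le_of_ne (not_lt.mp hcon) hne
      have := lab_lt ρ i j hj.2 hlt
      rw [hρ1, hρ1, hj.1] at this
      exact lt_irrefl _ this
    · intro j _ j' _ h
      exact ρ.injective h
    · intro v hv
      simp only [Finset.mem_filter, Finset.mem_univ, true_and] at hv
      refine ⟨ρ.symm v, ?_, by simp⟩
      simp only [Finset.mem_filter, Finset.mem_univ, true_and]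
      have h3 : a (ρ.symm v) = a i := by
        rw [← hρ2 (ρ.symm v), Equiv.apply_symm_apply]; exact hv.1
      refine ⟨h3, ?_⟩
      by_contra hcon
      have hne : ρ.symm v ≠ i := by
        intro h
        rw [← h, Equiv.apply_symm_apply] at hv
        exact lt_irrefl _ hv.2
      have hlt : ρ.symm v < i := lt_of_le_of_ne (not_lt.mp hcon) hne
      have h4 : ρ (ρ.symm v) < ρ i := by rw [Equiv.apply_symm_apply]; exact hv.2
      have := lab_lt ρ _ i hlt h4
      rw [hρ1, hρ1, h3] at this
      exact lt_irrefl _ this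
  ext i
  have e1 := key π h1 h2 i
  have e2 := key π' h1' h2' i
  have e3 := e1.trans e2.symm
  by_contra hne
  have hne' : π i ≠ π' i := fun h => hne (by rw [h])
  rcases lt_or_gt_of_ne hne' with h | h
  · have : (Finset.univ.filter fun v => b v = a i ∧ v < π i) ⊂
        (Finset.univ.filter fun v => b v = a i ∧ v < π' i) := by
      rw [Finset.ssubset_iff_of_subset]
      · refine ⟨π i, ?_, ?_⟩
        · simp [h2, h]
        · simp
      · intro v hv
        simp only [Finset.mem_filter, Finset.mem_univ, true_and] at hv ⊢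
        exact ⟨hv.1, hv.2.trans h⟩
    exact absurd e3 (ne_of_lt (Finset.card_lt_card this))
  · have : (Finset.univ.filter fun v => b v = a i ∧ v < π' i) ⊂
        (Finset.univ.filter fun v => b v = a i ∧ v < π i) := by
      rw [Finset.ssubset_iff_of_subset]
      · refine ⟨π' i, ?_, ?_⟩
        · simp [h2', h]
        · simp
      · intro v hv
        simp only [Finset.mem_filter, Finset.mem_univ, true_and] at hv ⊢
        exact ⟨hv.1, hv.2.trans h⟩
    exact absurd e3 (ne_of_gt (Finset.card_lt_card this))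

lemma av_mono_le (k n : ℕ) : av (1 : Equiv.Perm (Fin k)) n ≤ k ^ (2 * n) := by
  classical
  unfold av
  set P : Finset (Fin n → ℕ) := Fintype.piFinset (fun _ => Finset.range k) with hP
  have hPc : P.card = k ^ n := by
    rw [hP, Fintype.card_piFinset]; simp
  have h1 : (Finset.univ.filter fun π : Equiv.Perm (Fin n) =>
    ¬ Contains (1 : Equiv.Perm (Fin k)) π).card ≤ (P ×ˢ P).card := by
    refine Finset.card_le_card_of_injOn (fun π => (lab π, fun v => lab π (π.symm v))) ?_ ?_
    · intro π hπ
      simp only [Finset.coe_filter, Finset.mem_univ, true_and, Set.mem_ofPred_eq] at hπ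
      simp only [Finset.coe_product, Set.mem_prod, Finset.mem_coe, hP, Fintype.mem_piFinset,
        Finset.mem_range]
      exact ⟨fun i => lab_bound π hπ i, fun v => lab_bound π hπ _⟩
    · intro π _ π' _ h
      simp only [Prod.mk.injEq] at h
      refine perm_eq_of_lab π π' (lab π) (fun v => lab π (π.symm v)) (fun _ => rfl) ?_ ?_ ?_
      · intro i; rw [h.1]
      · intro i; simp
      · intro i
        have := congrFun h.2 (π' i)
        simp only [Equiv.symm_apply_apply] at this ⊢
        rw [this, h.1]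
  refine le_trans h1 ?_
  rw [Finset.card_product, hPc, ← pow_add, two_mul]

/-- comparison at large length -/
lemma large_compare (k n T : ℕ) (hk : 0 < k) (hn : 24 * k ^ 2 < n) (hT : n.factorial ≤ 8 ^ n * T) :
    av (1 : Equiv.Perm (Fin k)) n < T := by
  by_contra hcon
  push Not at hcon
  have h1 : T ≤ k ^ (2 * n) := le_trans hcon (av_mono_le k n)
  have h2 : n.factorial ≤ 8 ^ n * k ^ (2 * n) := le_trans hT (Nat.mul_le_mul_left _ h1)
  have h3 : (n.factorial : ℝ) ≤ (8 * (k:ℝ)^2) ^ n := by
    have : (n.factorial : ℝ) ≤ ((8 ^ n * k ^ (2 * n) : ℕ) : ℝ) := by exact_mod_cast h2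
    push_cast at this
    rw [mul_pow, ← pow_mul]
    exact this
  have h4 := Real.pow_div_factorial_le_exp (n:ℝ) (by positivity) n
  have hf : (0:ℝ) < (n.factorial : ℝ) := by exact_mod_cast Nat.factorial_pos n
  rw [div_le_iff₀ hf] at h4
  have h5 : Real.exp (n:ℝ) ≤ 3 ^ n := by
    have e1 : Real.exp (n:ℝ) = (Real.exp 1)^n := by rw [← Real.exp_nat_mul]; simp
    rw [e1]
    apply pow_le_pow_left₀ (Real.exp_pos _).le
    have := Real.exp_one_lt_d9
    linarith
  have h6 : (n:ℝ)^n ≤ (24 * (k:ℝ)^2)^n := by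
    calc (n:ℝ)^n ≤ Real.exp n * n.factorial := h4
      _ ≤ 3^n * (8 * (k:ℝ)^2) ^ n := by gcongr
      _ = _ := by rw [← mul_pow]; congr 1; ring
  have h7 : (24 * (k:ℝ)^2) < n := by exact_mod_cast hn
  have hn0 : n ≠ 0 := by omega
  have h8 : (24 * (k:ℝ)^2)^n < (n:ℝ)^n := pow_lt_pow_left₀ h7 (by positivity) hn0
  linarith

end Pool.Agent.LibC3e
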