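import Pool.Agent.LibC3e.Middle
import Pool.Agent.LibC3e.MonoAv
import Pool.Agent.LibC3e.Match

/-! The three crossings. -/

set_option autoImplicit false

namespace Pool.Agent.LibC3e

open Finset

/-- in the middle range the grid permutation is contained more often -/
lemma middle (m : ℕ) (hm : m = 2 ^ 200) :
    ∃ n ≤ m * (m ^ 4 * m), cnt (1 : Equiv.Perm (Fin (m * m - 1))) n < cnt (tau m) n := by
  by_contra hcon
  push Not at hcon
  have hx : (m:ℝ) = 2 ^ 200 := by rw [hm]; norm_num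
  have hx0 : (0:ℝ) < (m:ℝ) := by rw [hx]; positivity
  have hm32 : 32 ≤ m := by rw [hm]; norm_num
  have hg11 : 11 ≤ m ^ 4 := by
    calc 11 ≤ 32 ^ 4 := by norm_num
      _ ≤ m ^ 4 := Nat.pow_le_pow_left hm32 4
  have hmm : 32 * 32 ≤ m * m := Nat.mul_le_mul hm32 hm32
  set k := m * m - 1 with hk
  have hk1 : k + 1 = m * m := by omega
  have hk0 : 0 < k := by omega
  set p : ℝ := (1 / 2 ^ 48 : ℝ) * m ^ 2 / ((m ^ 4 : ℕ) : ℝ) with hp
  have hp' : p = (1 / 2 ^ 48) / (m:ℝ) ^ 2 := by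
    rw [hp]
    push_cast
    field_simp
  have hp0 : 0 < p := by rw [hp']; positivity
  have hp2 : p ≤ 1 / 2 := by
    rw [hp', hx]; norm_num
  obtain ⟨hη, hE⟩ := E_bound m hm p hp
  set E : ℝ := (1 + 2 * p) * ((m:ℝ) ^ 2 * (2 * eta m (m ^ 4) p +
      2 * dc m (m ^ 4 * m) * (eta m (m ^ 4) p) ^ 2 + (512 * eta m (m ^ 4) p) ^ 3)) with hEd
  have hthin := thin_le (1 : Equiv.Perm (Fin k)) (tau m) (m * (m ^ 4 * m)) p hp0.le (by linarith) hcon
  have hlow := thin_lower (m ^ 4) hm32 hg11 p hp0.le hp2 hη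
  rw [← hEd] at hlow
  set s : ℝ := (1 - (1 / 2 ^ 48 : ℝ)) * 2 ^ 24 with hs
  have hs1 : 1 ≤ s := by rw [hs]; norm_num
  have hMp : (((m * (m ^ 4 * m) : ℕ)) : ℝ) * p = (1 / 2 ^ 48 : ℝ) * (m:ℝ) ^ 4 := by
    rw [hp']
    push_cast
    field_simp
  have hsqrt : Real.sqrt ((1 / 2 ^ 48 : ℝ) * (m:ℝ) ^ 4) = (1 / 2 ^ 24 : ℝ) * (m:ℝ) ^ 2 := by
    have : (1 / 2 ^ 48 : ℝ) * (m:ℝ) ^ 4 = ((1 / 2 ^ 24 : ℝ) * (m:ℝ) ^ 2) ^ 2 := by
      ring
    rw [this]
    exact Real.sqrt_sq (by positivity)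
  have hsy : Real.sqrt (1 / 2 ^ 48 : ℝ) = 1 / 2 ^ 24 := by
    have : (1 / 2 ^ 48 : ℝ) = (1 / 2 ^ 24 : ℝ) ^ 2 := by norm_num
    rw [this]
    exact Real.sqrt_sq (by positivity)
  have hup := mono_thin k (m * (m ^ 4 * m)) p s hk0 hp0.le (by linarith) hs1 (by
    rw [hMp, hx, hs]
    norm_num)
  rw [hMp, hsqrt] at hup
  have key := combine m (m ^ 4) k p s (1 / 2 ^ 48) E hm32 hg11 hk1 hp0 (by positivity) (by norm_num)
    hs1 hp (by rw [hs]; norm_num) hthin hlow (by rw [hsy]; exact hup)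
  rw [hsy] at key
  exact middle_contra m hm E hE key

/-- the arithmetic condition for the dense relation -/
lemma bad_ok (m : ℕ) (hm : m = 2 ^ 200) :
    4 * (Fintype.card (Dy 1205)) ^ (2 * m) * 2908871 ^ (m * m) ≤ (2908871 + 1) ^ (m * m) := by
  have hcard : Fintype.card (Dy 1205) ≤ 2 ^ 1216 := by
    rw [Fintype.card_prod, Fintype.card_fin, Fintype.card_fin]
    calc (1205 + 1) * 2 ^ 1205 ≤ 2 ^ 11 * 2 ^ 1205 := by
          apply Nat.mul_le_mul_right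
          norm_num
      _ = 2 ^ 1216 := by rw [← pow_add]
  have h1 : 4 * (Fintype.card (Dy 1205)) ^ (2 * m) ≤ 2 ^ (2 + 2432 * m) := by
    calc 4 * (Fintype.card (Dy 1205)) ^ (2 * m) ≤ 4 * (2 ^ 1216) ^ (2 * m) :=
          Nat.mul_le_mul_left _ (Nat.pow_le_pow_left hcard _)
      _ = 2 ^ (2 + 2432 * m) := by
          rw [← pow_mul, pow_add]
          congr 2
          ring
  set Q := 2908871 with hQ
  set q := (m * m) / Q with hq
  have hdiv : Q * q + (m * m) % Q = m * m := Nat.div_add_mod (m * m) Q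
  have h2 : 2 * Q ^ Q ≤ (Q + 1) ^ Q := by
    have h3 := one_add_mul_le_pow (R := ℝ) (a := 1 / (Q:ℝ)) (by
      have : (0:ℝ) ≤ 1 / (Q:ℝ) := by positivity
      linarith) Q
    have hQ0 : (0:ℝ) < (Q:ℝ) := by rw [hQ]; norm_num
    have h4 : (1 + (Q:ℝ) * (1 / Q)) = 2 := by
      rw [mul_one_div_cancel hQ0.ne']; norm_num
    rw [h4] at h3
    have h5 : (2:ℝ) * (Q:ℝ) ^ Q ≤ ((Q:ℝ) + 1) ^ Q := by
      calc (2:ℝ) * (Q:ℝ) ^ Q ≤ (1 + 1 / (Q:ℝ)) ^ Q * (Q:ℝ) ^ Q :=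
            mul_le_mul_of_nonneg_right h3 (by positivity)
        _ = ((Q:ℝ) + 1) ^ Q := by
            rw [← mul_pow]
            congr 1
            field_simp
    exact_mod_cast h5
  have h3 : 2 ^ q * Q ^ (m * m) ≤ (Q + 1) ^ (m * m) := by
    calc 2 ^ q * Q ^ (m * m) = 2 ^ q * Q ^ (Q * q + (m * m) % Q) := by rw [hdiv]
      _ = (2 * Q ^ Q) ^ q * Q ^ ((m * m) % Q) := by rw [pow_add, pow_mul, mul_pow]; ring
      _ ≤ ((Q + 1) ^ Q) ^ q * (Q + 1) ^ ((m * m) % Q) :=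
          Nat.mul_le_mul (Nat.pow_le_pow_left h2 q) (Nat.pow_le_pow_left (Nat.le_succ Q) _)
      _ = (Q + 1) ^ (m * m) := by rw [← pow_mul, ← pow_add, hdiv]
  have h4 : 2 + 2432 * m ≤ q := by
    rw [hq, Nat.le_div_iff_mul_le (by rw [hQ]; norm_num), hm, hQ]
    norm_num
  calc 4 * (Fintype.card (Dy 1205)) ^ (2 * m) * Q ^ (m * m)
      ≤ 2 ^ (2 + 2432 * m) * Q ^ (m * m) := Nat.mul_le_mul_right _ h1
    _ ≤ 2 ^ q * Q ^ (m * m) := Nat.mul_le_mul_right _ (Nat.pow_le_pow_right (by norm_num) h4)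
    _ ≤ _ := h3

lemma contains_self {k : ℕ} (σ : Equiv.Perm (Fin k)) : Contains σ σ :=
  ⟨RelEmbedding.refl _, fun i j => Iff.rfl⟩

lemma cnt_pos_self {k : ℕ} (σ : Equiv.Perm (Fin k)) : 0 < cnt σ k := by
  classical
  unfold cnt
  rw [Finset.card_pos]
  exact ⟨σ, by rw [Finset.mem_filter]; exact ⟨Finset.mem_univ _, contains_self σ⟩⟩

lemma le_of_cnt_pos {k n : ℕ} (σ : Equiv.Perm (Fin k)) (h : 0 < cnt σ n) : k ≤ n := by
  classical
  unfold cnt at h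
  rw [Finset.card_pos] at h
  obtain ⟨π, hπ⟩ := h
  obtain ⟨f, _⟩ := (Finset.mem_filter.mp hπ).2
  have := Fintype.card_le_of_injective f f.injective
  simpa using this

/-- the three lengths -/
theorem three (m : ℕ) (hm : m = 2 ^ 200) :
    ∃ n₁ n₂ n₃ : ℕ, n₁ < n₂ ∧ n₂ < n₃ ∧
      av (1 : Equiv.Perm (Fin (m * m - 1))) n₁ < av (tau m) n₁ ∧
      av (tau m) n₂ < av (1 : Equiv.Perm (Fin (m * m - 1))) n₂ ∧
      av (1 : Equiv.Perm (Fin (m * m - 1))) n₃ < av (tau m) n₃ := by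
  have hm32 : 32 ≤ m := by rw [hm]; norm_num
  have hmm : 32 * 32 ≤ m * m := Nat.mul_le_mul hm32 hm32
  obtain ⟨n₂, hn₂, hlt⟩ := middle m hm
  have hpos : 0 < cnt (tau m) n₂ := lt_of_le_of_lt (Nat.zero_le _) hlt
  have hge : m * m ≤ n₂ := le_of_cnt_pos (tau m) hpos
  refine ⟨m * m - 1, n₂, m * (m ^ 4 * m) + 1, by omega, by omega, ?_, ?_, ?_⟩
  · have h1 := cnt_add_av (1 : Equiv.Perm (Fin (m * m - 1))) (m * m - 1)
    have h2 := cnt_add_av (tau m) (m * m - 1)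
    have h3 := cnt_pos_self (1 : Equiv.Perm (Fin (m * m - 1)))
    have h4 : cnt (tau m) (m * m - 1) = 0 := by
      by_contra hne
      have := le_of_cnt_pos (tau m) (Nat.pos_of_ne_zero hne)
      omega
    omega
  · have h1 := cnt_add_av (1 : Equiv.Perm (Fin (m * m - 1))) n₂
    have h2 := cnt_add_av (tau m) n₂
    omega
  · apply large_compare
    · omega
    · have h1 : (m * m - 1) ^ 2 ≤ (m * m) ^ 2 := Nat.pow_le_pow_left (Nat.sub_le _ _) 2
      have h2 : 24 * (m * m) ^ 2 ≤ m * (m ^ 4 * m) := by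
        have h3 : m * (m ^ 4 * m) = (m * m) * (m * m) ^ 2 := by ring
        rw [h3]
        exact Nat.mul_le_mul_right _ (by omega)
      omega
    · refine av_tau_large 1205 m 2908871 (m * (m ^ 4 * m) + 1) (by omega) (by norm_num)
        (bad_ok m hm) ?_
      have h1 : m * (m ^ 4 * m) = 2 ^ 1200 := by
        rw [hm, ← pow_mul, ← pow_add, ← pow_add]
      rw [h1]
      calc 16 * (2 ^ 1200 + 1) ≤ 16 * (2 ^ 1200 + 2 ^ 1200) := by
            apply Nat.mul_le_mul_left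
            apply Nat.add_le_add_left
            exact Nat.one_le_two_pow
        _ = 2 ^ 1205 := by
            rw [← two_mul, show (16:ℕ) = 2 ^ 4 by norm_num, ← mul_assoc, ← pow_succ, ← pow_add]

end Pool.Agent.LibC3e
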