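import Pool.Agent.LibC3e.Weights2

/-! Total weight of the minimal improving moves. -/

set_option autoImplicit false

namespace Pool.Agent.LibC3e

open Finset

variable {m : ℕ}

lemma fact_step (n d : ℕ) (hd : d ≤ n) : (n - d).factorial * (n + 1 - d) ^ d ≤ n.factorial := by
  rw [← Nat.factorial_mul_descFactorial hd]
  exact Nat.mul_le_mul_left _ (Nat.pow_sub_le_descFactorial n d)

lemma fact_real (M m d : ℕ) (hM : 2 * (m * m) < M) (hd : d ≤ m * m) :
    ((M - (m * m + d)).factorial : ℝ) ≤
      ((M - m * m).factorial : ℝ) / ((M:ℝ) - 2 * m * m) ^ d := by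
  have h1 := fact_step (M - m * m) d (by omega)
  have h2 : M - m * m - d = M - (m * m + d) := by omega
  rw [h2] at h1
  have h3 : M - 2 * (m * m) ≤ M - m * m + 1 - d := by omega
  have h4 : (M - (m * m + d)).factorial * (M - 2 * (m * m)) ^ d ≤ (M - m * m).factorial :=
    (Nat.mul_le_mul_left _ (Nat.pow_le_pow_left h3 d)).trans h1
  have h5 : ((M - (m * m + d)).factorial : ℝ) * ((M:ℝ) - 2 * m * m) ^ d ≤
      ((M - m * m).factorial : ℝ) := by
    have h6 : (((M - (m * m + d)).factorial * (M - 2 * (m * m)) ^ d : ℕ) : ℝ) ≤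
      (((M - m * m).factorial : ℕ) : ℝ) := by exact_mod_cast h4
    push_cast [Nat.cast_sub hM.le] at h6
    convert h6 using 3
    ring
  have hpos : (0:ℝ) < (M:ℝ) - 2 * m * m := by
    have : ((2 * (m * m) : ℕ) : ℝ) < M := by exact_mod_cast hM
    push_cast at this
    linarith
  rw [le_div_iff₀ (by positivity)]
  exact h5

/-- vertical domino at `a` -/
def Fv (a : Fin m × Fin m) : Finset (Fin m × Fin m) :=
  if h : (a.2 : ℕ) + 1 < m then {(a.1, ⟨a.2, by omega⟩), (a.1, ⟨a.2 + 1, h⟩)} else ∅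

/-- horizontal domino at `a` -/
def Fh (a : Fin m × Fin m) : Finset (Fin m × Fin m) :=
  if h : (a.1 : ℕ) + 1 < m then {(⟨a.1, by omega⟩, a.2), (⟨a.1 + 1, h⟩, a.2)} else ∅

lemma domino_class (D : Finset (Fin m × Fin m)) (h2 : D.card = 2) (hc : Conn nb D) :
    (∃ a, D = Fv a) ∨ ∃ a, D = Fh a := by
  rw [Finset.card_eq_two] at h2
  obtain ⟨a, b, hab, rfl⟩ := h2
  obtain ⟨x, hx, y, hy, hxy⟩ := hc {a} (by simp) (by simp) (by
    intro h
    have : b ∈ ({a} : Finset (Fin m × Fin m)) := by rw [h]; simp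
    exact hab (Finset.mem_singleton.mp this).symm)
  rw [Finset.mem_singleton] at hx
  subst hx
  have hyb : y = b := by
    rw [Finset.mem_sdiff, Finset.mem_insert, Finset.mem_singleton, Finset.mem_singleton] at hy
    tauto
  subst hyb
  obtain ⟨x1, x2⟩ := x
  obtain ⟨y1, y2⟩ := y
  rw [mem_nb] at hxy
  simp only at hxy
  rcases hxy with (⟨h1, h2⟩ | ⟨h1, h2⟩) | (⟨h1, h2⟩ | ⟨h1, h2⟩)
  · left
    refine ⟨(x1, x2), ?_⟩
    subst h1
    have h3 : (x2:ℕ) + 1 < m := by rw [h2]; exact y2.isLt
    unfold Fv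
    rw [dif_pos h3]
    have : y2 = ⟨x2 + 1, h3⟩ := Fin.ext h2.symm
    rw [this]
  · left
    refine ⟨(x1, y2), ?_⟩
    subst h1
    have h3 : (y2:ℕ) + 1 < m := by rw [h2]; exact x2.isLt
    unfold Fv
    rw [dif_pos h3]
    have : x2 = ⟨y2 + 1, h3⟩ := Fin.ext h2.symm
    rw [this, Finset.pair_comm]
  · right
    refine ⟨(x1, x2), ?_⟩
    subst h1
    have h3 : (x1:ℕ) + 1 < m := by rw [h2]; exact y1.isLt
    unfold Fh
    rw [dif_pos h3]
    have : y1 = ⟨x1 + 1, h3⟩ := Fin.ext h2.symm
    rw [this]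
  · right
    refine ⟨(y1, x2), ?_⟩
    subst h1
    have h3 : (y1:ℕ) + 1 < m := by rw [h2]; exact x1.isLt
    unfold Fh
    rw [dif_pos h3]
    have : x1 = ⟨y1 + 1, h3⟩ := Fin.ext h2.symm
    rw [this, Finset.pair_comm]

lemma dc_nonneg (hm : 0 < m) (w : ℕ) (hw : 0 < w) : 0 ≤ dc m w := by
  unfold dc
  have h1 : 1 ≤ (rr m w)⁻¹ := by
    rw [one_le_inv₀ rr_pos]
    exact (rr_lt_one hm hw).le
  have h2 : (Real.exp (-4)) ^ 3 ≤ 1 := by
    apply pow_le_one₀ (Real.exp_pos _).le
    rw [← Real.exp_zero]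
    apply Real.exp_le_exp.mpr
    norm_num
  linarith

/-- the effective density -/
noncomputable def eta (m g : ℕ) (p : ℝ) : ℝ :=
  (g:ℝ) ^ 2 * p / ((m * (g * m) : ℝ) - 2 * m * m)

/-- the main normalisation -/
noncomputable def T0 (m g : ℕ) : ℝ :=
  ((g * m).choose m : ℝ) ^ (2 * m) * ((m * (g * m) - m * m).factorial : ℝ)

lemma T0_nonneg (m g : ℕ) : 0 ≤ T0 m g := by unfold T0; positivity

lemma WD_total (g : ℕ) (hm : 32 ≤ m) (hg : 11 ≤ g) (p : ℝ) (hp : 0 ≤ p)
    (hη : 512 * eta m g p ≤ 1) :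
    ∑ D : Finset (Fin m × Fin m), p ^ D.card * (WD m (g * m) D : ℝ) ≤
      T0 m g * ((m:ℝ) ^ 2 * (2 * eta m g p + 2 * dc m (g * m) * (eta m g p) ^ 2 +
        (512 * eta m g p) ^ 3)) := by
  classical
  have hm0 : 0 < m := by omega
  have hw0 : 0 < g * m := by positivity
  set C : ℝ := ((g * m).choose m : ℝ) with hC
  have hC0 : 0 ≤ C := Nat.cast_nonneg _
  have hMm : 2 * (m * m) < m * (g * m) := by nlinarith
  have hpos : (0:ℝ) < (m * (g * m) : ℝ) - 2 * m * m := by
    have : ((2 * (m * m) : ℕ) : ℝ) < ((m * (g * m) : ℕ) : ℝ) := by exact_mod_cast hMm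
    push_cast at this
    linarith
  set Q : ℝ := (m * (g * m) : ℝ) - 2 * m * m with hQ
  set F : ℝ := ((m * (g * m) - m * m).factorial : ℝ) with hF
  have hF0 : 0 ≤ F := Nat.cast_nonneg _
  set η := eta m g p with hηd
  have hηe : η = (g:ℝ) ^ 2 * p / Q := rfl
  have hη0 : 0 ≤ η := by rw [hηe]; positivity
  have hT0 : T0 m g = C ^ (2 * m) * F := rfl
  have hT00 : 0 ≤ T0 m g := T0_nonneg m g
  have hβ : (((g * m : ℕ) : ℝ)) / m = g := by
    push_cast
    have : (m:ℝ) ≠ 0 := by positivity
    field_simp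
  have hfact : ∀ d, d ≤ m * m → ((m * (g * m) - (m * m + d)).factorial : ℝ) ≤ F / Q ^ d := by
    intro d hd
    have := fact_real (m * (g * m)) m d hMm hd
    push_cast at this
    exact this
  set f : Finset (Fin m × Fin m) → ℝ := fun D => p ^ D.card * (WD m (g * m) D : ℝ) with hf
  have hf0 : ∀ D, 0 ≤ f D := fun D => by simp only [hf]; positivity
  have hcardle : ∀ D : Finset (Fin m × Fin m), D.card ≤ m * m := by
    intro D
    have := Finset.card_le_univ D
    simpa using this
  -- pieces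
  have hgen : ∀ D, f D ≤ T0 m g * (16 * η) ^ D.card := by
    intro D
    simp only [hf]
    have h1 := WD_gen (w := g * m) D hm0
    rw [hβ] at h1
    have h2 := hfact D.card (hcardle D)
    calc p ^ D.card * (WD m (g * m) D : ℝ)
        ≤ p ^ D.card * (C ^ (2 * m) * (16 * (g:ℝ) ^ 2) ^ D.card * (F / Q ^ D.card)) := by
          apply mul_le_mul_of_nonneg_left _ (by positivity)
          exact h1.trans (mul_le_mul_of_nonneg_left h2 (by positivity))
      _ = _ := by
          have e1 : (16 * ((g:ℝ) ^ 2 * p / Q)) ^ D.card =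
              p ^ D.card * (16 * (g:ℝ) ^ 2) ^ D.card * (1 / Q ^ D.card) := by
            rw [← one_div_pow, ← mul_pow, ← mul_pow]
            congr 1
            ring
          rw [hT0, hηe, e1]
          ring
  have hone : ∀ a : Fin m × Fin m, f {a} ≤ T0 m g * (2 * η) := by
    rintro ⟨i, j⟩
    simp only [hf]
    have h1 := WD_one (w := g * m) i j hm0 hw0
    rw [hβ] at h1
    have h2 := hfact 1 (by nlinarith)
    rw [Finset.card_singleton, pow_one]
    rw [pow_one] at h2
    calc p * (WD m (g * m) {(i, j)} : ℝ)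
        ≤ p * (2 * C ^ (2 * m) * (g:ℝ) ^ 2 * (F / Q)) := by
          apply mul_le_mul_of_nonneg_left _ hp
          exact h1.trans (mul_le_mul_of_nonneg_left h2 (by positivity))
      _ = _ := by
          rw [hT0, hηe]
          ring
  have hdc := dc_nonneg hm0 (g * m) hw0
  have hempty : f ∅ = 0 := by
    simp only [hf]
    rw [WD_zero]
    · simp
    · rintro ⟨h, _⟩
      exact Finset.not_nonempty_empty h
  have hvert : ∀ a : Fin m × Fin m, f (Fv a) ≤ T0 m g * (dc m (g * m) * η ^ 2) := by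
    rintro ⟨i, j⟩
    unfold Fv
    by_cases h : (j:ℕ) + 1 < m
    · simp only [dif_pos h]
      have h1 := WD_vert g hm hg i j h
      have h2 := hfact 2 (by nlinarith)
      simp only [hf]
      have hc2 : ({(i, ⟨j, by omega⟩), (i, ⟨j + 1, h⟩)} : Finset (Fin m × Fin m)).card = 2 := by
        rw [Finset.card_pair]
        intro he
        have := congrArg (fun a : Fin m × Fin m => (a.2 : ℕ)) he
        simp at this
      rw [hc2]
      calc _ ≤ p ^ 2 * (C ^ (2 * m) * (g:ℝ) ^ 4 * dc m (g * m) * (F / Q ^ 2)) := by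
            apply mul_le_mul_of_nonneg_left _ (by positivity)
            exact h1.trans (mul_le_mul_of_nonneg_left h2 (by positivity))
        _ = _ := by
            rw [hT0, hηe]
            generalize C ^ (2 * m) = X
            field_simp
    · simp only [dif_neg h]
      rw [hempty]
      positivity
  have hhor : ∀ a : Fin m × Fin m, f (Fh a) ≤ T0 m g * (dc m (g * m) * η ^ 2) := by
    rintro ⟨i, j⟩
    unfold Fh
    by_cases h : (i:ℕ) + 1 < m
    · simp only [dif_pos h]
      have h1 := WD_horiz g hm hg j i h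
      have h2 := hfact 2 (by nlinarith)
      simp only [hf]
      have hc2 : ({(⟨i, by omega⟩, j), (⟨i + 1, h⟩, j)} : Finset (Fin m × Fin m)).card = 2 := by
        rw [Finset.card_pair]
        intro he
        have := congrArg (fun a : Fin m × Fin m => (a.1 : ℕ)) he
        simp at this
      rw [hc2]
      calc _ ≤ p ^ 2 * (C ^ (2 * m) * (g:ℝ) ^ 4 * dc m (g * m) * (F / Q ^ 2)) := by
            apply mul_le_mul_of_nonneg_left _ (by positivity)
            exact h1.trans (mul_le_mul_of_nonneg_left h2 (by positivity))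
        _ = _ := by
            rw [hT0, hηe]
            generalize C ^ (2 * m) = X
            field_simp
    · simp only [dif_neg h]
      rw [hempty]
      positivity
  -- splitting
  set S1 : Finset (Finset (Fin m × Fin m)) := Finset.univ.image (fun a => ({a} : Finset (Fin m × Fin m)))
    with hS1
  set S2 : Finset (Finset (Fin m × Fin m)) := Finset.univ.image Fv with hS2
  set S3 : Finset (Finset (Fin m × Fin m)) := Finset.univ.image Fh with hS3
  set S4 : Finset (Finset (Fin m × Fin m)) := Finset.univ.filter (fun D => 3 ≤ D.card ∧ Conn nb D)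
    with hS4
  have hcover : ∀ D, f D ≤ (if D ∈ S1 then f D else 0) + (if D ∈ S2 then f D else 0) +
      (if D ∈ S3 then f D else 0) + (if D ∈ S4 then f D else 0) := by
    intro D
    have nn : ∀ S : Finset (Finset (Fin m × Fin m)), 0 ≤ (if D ∈ S then f D else 0) := by
      intro S; split_ifs
      · exact hf0 D
      · exact le_rfl
    by_cases hc : D.Nonempty ∧ Conn nb D
    · have h1 : 0 < D.card := Finset.card_pos.mpr hc.1
      rcases Nat.lt_or_ge D.card 2 with h2 | h2
      · have h3 : D.card = 1 := by omega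
        rw [Finset.card_eq_one] at h3
        obtain ⟨a, ha⟩ := h3
        have h4 : D ∈ S1 := by
          rw [hS1, Finset.mem_image]; exact ⟨a, Finset.mem_univ _, ha.symm⟩
        rw [if_pos h4]
        linarith [nn S2, nn S3, nn S4]
      · rcases Nat.lt_or_ge D.card 3 with h3 | h3
        · rcases domino_class D (by omega) hc.2 with ⟨a, ha⟩ | ⟨a, ha⟩
          · have h4 : D ∈ S2 := by
              rw [hS2, Finset.mem_image]; exact ⟨a, Finset.mem_univ _, ha.symm⟩
            rw [if_pos h4]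
            linarith [nn S1, nn S3, nn S4]
          · have h4 : D ∈ S3 := by
              rw [hS3, Finset.mem_image]; exact ⟨a, Finset.mem_univ _, ha.symm⟩
            rw [if_pos h4]
            linarith [nn S2, nn S1, nn S4]
        · have h4 : D ∈ S4 := by
            rw [hS4, Finset.mem_filter]; exact ⟨Finset.mem_univ _, h3, hc.2⟩
          rw [if_pos h4]
          linarith [nn S2, nn S3, nn S1]
    · have h1 : f D = 0 := by
        simp only [hf]
        rw [WD_zero D hc]
        simp
      rw [h1]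
      simp
  have hsum : ∑ D, f D ≤ ∑ D ∈ S1, f D + ∑ D ∈ S2, f D + ∑ D ∈ S3, f D + ∑ D ∈ S4, f D := by
    refine (Finset.sum_le_sum fun D _ => hcover D).trans (le_of_eq ?_)
    rw [Finset.sum_add_distrib, Finset.sum_add_distrib, Finset.sum_add_distrib]
    simp only [← Finset.sum_filter, Finset.filter_mem_eq_inter, Finset.univ_inter]
  have himg : ∀ G : Fin m × Fin m → Finset (Fin m × Fin m), ∀ b : ℝ, 0 ≤ b → (∀ a, f (G a) ≤ b) →
      ∑ D ∈ Finset.univ.image G, f D ≤ (m:ℝ) ^ 2 * b := by
    intro G b hb hG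
    calc ∑ D ∈ Finset.univ.image G, f D ≤ ∑ D ∈ Finset.univ.image G, b := by
          refine Finset.sum_le_sum fun D hD => ?_
          rw [Finset.mem_image] at hD
          obtain ⟨a, _, rfl⟩ := hD
          exact hG a
      _ = ((Finset.univ.image G).card : ℝ) * b := by rw [Finset.sum_const, nsmul_eq_mul]
      _ ≤ (m:ℝ) ^ 2 * b := by
          apply mul_le_mul_of_nonneg_right _ hb
          have : (Finset.univ.image G).card ≤ m * m := by
            refine Finset.card_image_le.trans ?_
            simp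
          calc ((Finset.univ.image G).card : ℝ) ≤ ((m * m : ℕ) : ℝ) := by exact_mod_cast this
            _ = (m:ℝ) ^ 2 := by push_cast; ring
  have hs1 := himg (fun a => {a}) (T0 m g * (2 * η)) (by positivity) hone
  have hs2 := himg Fv (T0 m g * (dc m (g * m) * η ^ 2)) (by positivity) hvert
  have hs3 := himg Fh (T0 m g * (dc m (g * m) * η ^ 2)) (by positivity) hhor
  have hs4 : ∑ D ∈ S4, f D ≤ T0 m g * ((m:ℝ) ^ 2 * (512 * η) ^ 3) := by
    have h1 := perc_sum (V := Fin m × Fin m) nb nb_card (16 * η) (by positivity) (by linarith)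
    calc ∑ D ∈ S4, f D ≤ ∑ D ∈ S4, T0 m g * (16 * η) ^ D.card :=
          Finset.sum_le_sum fun D _ => hgen D
      _ = T0 m g * ∑ D ∈ S4, (16 * η) ^ D.card := by rw [Finset.mul_sum]
      _ ≤ T0 m g * ((Fintype.card (Fin m × Fin m) : ℝ) * (32 * (16 * η)) ^ 3) := by
          apply mul_le_mul_of_nonneg_left _ hT00
          convert h1 using 2
      _ = _ := by
          rw [Fintype.card_prod, Fintype.card_fin]
          push_cast
          ring
  calc ∑ D, f D ≤ _ := hsum
    _ ≤ (m:ℝ) ^ 2 * (T0 m g * (2 * η)) + (m:ℝ) ^ 2 * (T0 m g * (dc m (g * m) * η ^ 2)) +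
        (m:ℝ) ^ 2 * (T0 m g * (dc m (g * m) * η ^ 2)) + T0 m g * ((m:ℝ) ^ 2 * (512 * η) ^ 3) := by
        linarith
    _ = _ := by ring

end Pool.Agent.LibC3e
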