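import Pool.Agent.LibC3e.Basic

/-! The `m × m` grid permutation. -/

set_option autoImplicit false

namespace Pool.Agent.LibC3e

open Finset

/-- index of `(i,j)`, i.e. `i*m+j` -/
def idx {m : ℕ} (i j : Fin m) : Fin (m * m) := finProdFinEquiv (i, j)

/-- the grid permutation `i*m+j ↦ j*m+i` -/
def tau (m : ℕ) : Equiv.Perm (Fin (m * m)) :=
  finProdFinEquiv.symm.trans ((Equiv.prodComm (Fin m) (Fin m)).trans finProdFinEquiv)

lemma tau_idx {m : ℕ} (i j : Fin m) : tau m (idx i j) = idx j i := by
  simp [tau, idx]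

lemma idx_surj {m : ℕ} (a : Fin (m * m)) : ∃ i j, a = idx i j := by
  refine ⟨(finProdFinEquiv.symm a).1, (finProdFinEquiv.symm a).2, ?_⟩
  exact (finProdFinEquiv.apply_symm_apply a).symm

lemma idx_val {m : ℕ} (i j : Fin m) : (idx i j : ℕ) = j + m * i := rfl

lemma idx_lt {m : ℕ} (i j i' j' : Fin m) :
    idx i j < idx i' j' ↔ i < i' ∨ (i = i' ∧ j < j') := by
  rw [Fin.lt_def, idx_val, idx_val]
  constructor
  · intro h
    by_cases h1 : i < i'
    · exact Or.inl h1
    · right
      have h2 : i' ≤ i := not_lt.mp h1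
      have h3 : (i':ℕ) ≤ i := h2
      rcases Nat.lt_or_ge (i':ℕ) i with h4 | h4
      · exfalso
        have : m * (i' + 1) ≤ m * i := Nat.mul_le_mul_left m h4
        have hj := j'.isLt
        rw [mul_add] at this
        omega
      · have h5 : i = i' := Fin.ext (by omega)
        subst h5
        refine ⟨rfl, ?_⟩
        rw [Fin.lt_def]; omega
  · rintro (h | ⟨h, h'⟩)
    · have h1 : (i:ℕ) + 1 ≤ i' := h
      have : m * (i + 1) ≤ m * i' := Nat.mul_le_mul_left m h1
      have hj := j.isLt
      rw [mul_add] at this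
      omega
    · subst h
      have : (j:ℕ) < j' := h'
      omega

/-- a grid placement inside a relation `A`: `m × m` points, columns ordered by `i`, rows by `j` -/
structure GridIn {N : ℕ} (m : ℕ) (A : Fin N → Fin N → Prop) : Type where
  x : Fin m → Fin m → Fin N
  y : Fin m → Fin m → Fin N
  hx : ∀ i j i' j', i < i' → x i j < x i' j'
  hy : ∀ i j i' j', j < j' → y i j < y i' j'
  hA : ∀ i j, A (x i j) (y i j)

end Pool.Agent.LibC3e
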