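import Mathlib

/-! Harris inequality for families of increasing events and the canonical-embedding lower bound. -/

set_option autoImplicit false

namespace Pool.Agent.LibC3e

open Finset

variable {V : Type} [Fintype V] [DecidableEq V]

/-- product Bernoulli weight on the sets containing `S`, normalised. -/
noncomputable def mu (p : ℝ) (S R : Finset V) : ℝ :=
  if S ⊆ R then p ^ (R \ S).card * (1 - p) ^ (Rᶜ).card else 0

lemma mu_nonneg (p : ℝ) (h0 : 0 ≤ p) (h1 : p ≤ 1) (S R : Finset V) : 0 ≤ mu p S R := by
  unfold mu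
  have : 0 ≤ 1 - p := by linarith
  split_ifs <;> positivity

lemma mu_sum (p : ℝ) (S : Finset V) : ∑ R : Finset V, mu p S R = 1 := by
  have h := Finset.sum_pow_mul_eq_add_pow p (1 - p) (Sᶜ : Finset V)
  have h1 : (p + (1 - p)) ^ (Sᶜ).card = 1 := by
    rw [add_sub_cancel, one_pow]
  rw [h1] at h
  rw [← h]
  unfold mu
  rw [← Finset.sum_filter]
  refine Finset.sum_bij' (fun R _ => R \ S) (fun T _ => T ∪ S) ?_ ?_ ?_ ?_ ?_
  · intro R hR
    rw [Finset.mem_powerset]
    intro x hx
    rw [Finset.mem_sdiff] at hx
    exact Finset.mem_compl.mpr hx.2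
  · intro T hT
    simp
  · intro R hR
    simp only [Finset.mem_filter, Finset.mem_univ, true_and] at hR
    exact Finset.sdiff_union_of_subset hR
  · intro T hT
    rw [Finset.mem_powerset] at hT
    rw [Finset.union_sdiff_right]
    apply Finset.sdiff_eq_self_of_disjoint
    rw [Finset.disjoint_left]
    intro x hx hx'
    exact (Finset.mem_compl.mp (hT hx)) hx'
  · intro R hR
    simp only [Finset.mem_filter, Finset.mem_univ, true_and] at hR
    congr 2
    rw [Finset.card_compl, Finset.card_compl, Finset.card_sdiff_of_subset hR]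
    have := Finset.card_le_card hR
    have := Finset.card_le_univ R
    omega

/-- probability that `A` is contained in `R` -/
lemma mu_sub (p : ℝ) (S A : Finset V) :
    ∑ R : Finset V, mu p S R * (if A ⊆ R then (1:ℝ) else 0) = p ^ (A \ S).card := by
  have h := mu_sum p (S ∪ A)
  have h2 : ∀ R : Finset V, mu p S R * (if A ⊆ R then (1:ℝ) else 0) =
      p ^ (A \ S).card * mu p (S ∪ A) R := by
    intro R
    unfold mu
    by_cases h1 : S ⊆ R
    · by_cases h2 : A ⊆ R
      · rw [if_pos h1, if_pos h2, if_pos (Finset.union_subset h1 h2)]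
        have h3 : (R \ S).card = (A \ S).card + (R \ (S ∪ A)).card := by
          have e : R \ S = (A \ S) ∪ (R \ (S ∪ A)) := by
            ext x
            simp only [Finset.mem_sdiff, Finset.mem_union]
            constructor
            · rintro ⟨a, b⟩
              by_cases hx : x ∈ A
              · exact Or.inl ⟨hx, b⟩
              · exact Or.inr ⟨a, by tauto⟩
            · rintro (⟨a, b⟩ | ⟨a, b⟩)
              · exact ⟨h2 a, b⟩
              · exact ⟨a, by tauto⟩
          rw [e, Finset.card_union_of_disjoint]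
          rw [Finset.disjoint_left]
          intro x hx hx'
          simp only [Finset.mem_sdiff, Finset.mem_union] at hx hx'
          tauto
        rw [h3, pow_add]
        ring
      · rw [if_neg h2, if_neg (fun h => h2 (Finset.union_subset_iff.mp h).2)]
        simp
    · rw [if_neg h1, if_neg (fun h => h1 (Finset.union_subset_iff.mp h).1)]
      simp
  simp only [h2]
  rw [← Finset.mul_sum, h, mul_one]

lemma mu_lattice (p : ℝ) (h0 : 0 ≤ p) (h1 : p ≤ 1) (S : Finset V) (a b : Finset V) :
    mu p S a * mu p S b ≤ mu p S (a ⊓ b) * mu p S (a ⊔ b) := by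
  by_cases ha : S ⊆ a
  · by_cases hb : S ⊆ b
    · have hab : S ⊆ a ∩ b := Finset.subset_inter ha hb
      have hab' : S ⊆ a ∪ b := ha.trans Finset.subset_union_left
      unfold mu
      simp only [Finset.inf_eq_inter, Finset.sup_eq_union]
      rw [if_pos ha, if_pos hb, if_pos hab, if_pos hab']
      apply le_of_eq
      have e1 : (a \ S).card + (b \ S).card = ((a ∩ b) \ S).card + ((a ∪ b) \ S).card := by
        rw [Finset.card_sdiff_of_subset ha, Finset.card_sdiff_of_subset hb,
          Finset.card_sdiff_of_subset hab, Finset.card_sdiff_of_subset hab']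
        have := Finset.card_union_add_card_inter a b
        have := Finset.card_le_card ha
        have := Finset.card_le_card hb
        have := Finset.card_le_card hab
        have := Finset.card_le_card hab'
        omega
      have e2 : (aᶜ).card + (bᶜ).card = ((a ∩ b)ᶜ).card + ((a ∪ b)ᶜ).card := by
        simp only [Finset.card_compl]
        have := Finset.card_union_add_card_inter a b
        have := Finset.card_le_univ a
        have := Finset.card_le_univ b
        have := Finset.card_le_univ (a ∩ b)
        have := Finset.card_le_univ (a ∪ b)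
        omega
      calc p ^ (a \ S).card * (1 - p) ^ (aᶜ).card * (p ^ (b \ S).card * (1 - p) ^ (bᶜ).card)
          = p ^ ((a \ S).card + (b \ S).card) * (1 - p) ^ ((aᶜ).card + (bᶜ).card) := by
            rw [pow_add, pow_add]; ring
        _ = _ := by rw [e1, e2, pow_add, pow_add]; ring
    · have : mu p S b = 0 := by unfold mu; rw [if_neg hb]
      rw [this, mul_zero]
      exact mul_nonneg (mu_nonneg p h0 h1 _ _) (mu_nonneg p h0 h1 _ _)
  · have : mu p S a = 0 := by unfold mu; rw [if_neg ha]
    rw [this, zero_mul]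
    exact mul_nonneg (mu_nonneg p h0 h1 _ _) (mu_nonneg p h0 h1 _ _)

open Classical in
/-- Harris inequality for a family -/
lemma harris {ι : Type} (p : ℝ) (h0 : 0 ≤ p) (h1 : p ≤ 1) (S : Finset V) (A : ι → Finset V)
    (I : Finset ι) :
    ∏ i ∈ I, (1 - p ^ (A i \ S).card) ≤
      ∑ R : Finset V, mu p S R * (if ∀ i ∈ I, ¬ A i ⊆ R then (1:ℝ) else 0) := by
  induction I using Finset.induction_on with
  | empty =>
    simp [mu_sum]
  | insert i I hi ih =>
    rw [Finset.prod_insert hi]
    set G : Finset V → ℝ := fun R => 1 - (if ∀ j ∈ I, ¬ A j ⊆ R then (1:ℝ) else 0) with hG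
    set f : Finset V → ℝ := fun R => if A i ⊆ R then (1:ℝ) else 0 with hf
    have hG0 : 0 ≤ G := by
      intro R; simp only [hG, Pi.zero_apply]; split_ifs <;> norm_num
    have hf0 : 0 ≤ f := by
      intro R; simp only [hf, Pi.zero_apply]; split_ifs <;> norm_num
    have hfm : Monotone f := by
      intro R R' hRR'
      simp only [hf]
      split_ifs with a b
      · exact le_rfl
      · exact absurd (a.trans hRR') b
      · norm_num
      · exact le_rfl
    have hGm : Monotone G := by
      intro R R' hRR'
      simp only [hG]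
      split_ifs with a b b
      · exact le_rfl
      · norm_num
      · exact absurd (fun j hj h => b j hj (h.trans hRR')) a
      · exact le_rfl
    have hmu0 : 0 ≤ (fun R => mu p S R) := fun R => mu_nonneg p h0 h1 S R
    have key := fkg (α := Finset V) (μ := fun R => mu p S R) (f := f) (g := G) hmu0 hf0 hG0 hfm hGm
      (mu_lattice p h0 h1 S)
    rw [mu_sum, one_mul] at key
    have ef : ∑ R : Finset V, mu p S R * f R = p ^ (A i \ S).card := mu_sub p S (A i)
    have eG : ∑ R : Finset V, mu p S R * G R =
        1 - ∑ R : Finset V, mu p S R * (if ∀ j ∈ I, ¬ A j ⊆ R then (1:ℝ) else 0) := by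
      simp only [hG, mul_sub, mul_one, Finset.sum_sub_distrib, mu_sum]
    rw [ef, eG] at key
    set X := ∑ R : Finset V, mu p S R * (if ∀ j ∈ I, ¬ A j ⊆ R then (1:ℝ) else 0) with hX
    have eT : ∑ R : Finset V, mu p S R *
        (if ∀ j ∈ insert i I, ¬ A j ⊆ R then (1:ℝ) else 0) =
        1 - p ^ (A i \ S).card - (1 - X) + ∑ R : Finset V, mu p S R * (f R * G R) := by
      have e1 : ∀ R : Finset V, mu p S R *
        (if ∀ j ∈ insert i I, ¬ A j ⊆ R then (1:ℝ) else 0) =
        mu p S R - mu p S R * f R - mu p S R * G R + mu p S R * (f R * G R) := by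
        intro R
        simp only [hf, hG]
        by_cases ha : A i ⊆ R
        · rw [if_pos ha, if_neg]
          · ring
          · intro h
            exact h i (Finset.mem_insert_self _ _) ha
        · rw [if_neg ha]
          by_cases hb : ∀ j ∈ I, ¬ A j ⊆ R
          · rw [if_pos hb, if_pos]
            · ring
            · intro j hj
              rcases Finset.mem_insert.mp hj with h | h
              · rw [h]; exact ha
              · exact hb j h
          · rw [if_neg hb, if_neg]
            · ring
            · intro h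
              exact hb (fun j hj => h j (Finset.mem_insert_of_mem hj))
      simp only [e1, Finset.sum_add_distrib, Finset.sum_sub_distrib]
      rw [mu_sum, ef, eG]
    rw [eT]
    have hp : 0 ≤ 1 - p ^ (A i \ S).card := by
      have := pow_le_one₀ (n := (A i \ S).card) h0 h1
      linarith
    calc (1 - p ^ (A i \ S).card) * ∏ j ∈ I, (1 - p ^ (A j \ S).card)
        ≤ (1 - p ^ (A i \ S).card) * X := mul_le_mul_of_nonneg_left ih hp
      _ = 1 - p ^ (A i \ S).card - (1 - X) + p ^ (A i \ S).card * (1 - X) := by ring
      _ ≤ _ := by linarith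

lemma mu_empty_of (p : ℝ) (S R : Finset V) (h : S ⊆ R) :
    mu p ∅ R = p ^ S.card * mu p S R := by
  unfold mu
  rw [if_pos (Finset.empty_subset _), if_pos h, Finset.sdiff_empty]
  have : R.card = S.card + (R \ S).card := by
    rw [Finset.card_sdiff_of_subset h]
    have := Finset.card_le_card h
    omega
  rw [this, pow_add]
  ring

open Classical in
/-- The canonical embedding bound. -/
lemma canonical {ι : Type} [Fintype ι] (p : ℝ) (h0 : 0 ≤ p) (h1 : p ≤ 1) (K : ℕ)
    (S : ι → Finset V) (hS : ∀ i, (S i).card = K) (Ψ : ι → ℕ) (hΨ : Function.Injective Ψ)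
    (Mv : ι → Finset ι)
    (hM : ∀ i j, Ψ j < Ψ i → ∃ k ∈ Mv i, S k ⊆ S i ∪ S j) :
    ∑ i : ι, p ^ K * ∏ k ∈ Mv i, (1 - p ^ (S k \ S i).card) ≤
      ∑ R : Finset V, mu p ∅ R * (if ∃ i, S i ⊆ R then (1:ℝ) else 0) := by
  -- events
  set E : ι → Finset V → Prop := fun i R => S i ⊆ R ∧ ∀ k ∈ Mv i, ¬ S k ⊆ R with hE
  have hdis : ∀ i j R, E i R → E j R → i = j := by
    intro i j R hi hj
    by_contra hne
    rcases lt_or_gt_of_ne (fun h => hne (hΨ h)) with h | h
    · obtain ⟨k, hk1, hk2⟩ := hM j i h
      exact hj.2 k hk1 (hk2.trans (Finset.union_subset hj.1 hi.1))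
    · obtain ⟨k, hk1, hk2⟩ := hM i j h
      exact hi.2 k hk1 (hk2.trans (Finset.union_subset hi.1 hj.1))
  have hstep : ∀ i, p ^ K * ∏ k ∈ Mv i, (1 - p ^ (S k \ S i).card) ≤
      ∑ R : Finset V, mu p ∅ R * (if E i R then (1:ℝ) else 0) := by
    intro i
    have h2' := harris p h0 h1 (S i) S (Mv i)
    have h2 : ∏ k ∈ Mv i, (1 - p ^ (S k \ S i).card) ≤ ∑ R : Finset V, mu p (S i) R *
          (if ∀ k ∈ Mv i, ¬ S k ⊆ R then (1:ℝ) else 0) := by
      refine h2'.trans (le_of_eq (Finset.sum_congr rfl fun R _ => ?_))
      by_cases hb : ∀ k ∈ Mv i, ¬ S k ⊆ R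
      · rw [if_pos hb, if_pos hb]
      · rw [if_neg hb, if_neg hb]
    calc p ^ K * ∏ k ∈ Mv i, (1 - p ^ (S k \ S i).card)
        ≤ p ^ K * ∑ R : Finset V, mu p (S i) R *
          (if ∀ k ∈ Mv i, ¬ S k ⊆ R then (1:ℝ) else 0) :=
          mul_le_mul_of_nonneg_left h2 (by positivity)
      _ = ∑ R : Finset V, mu p ∅ R * (if E i R then (1:ℝ) else 0) := by
          rw [Finset.mul_sum]
          refine Finset.sum_congr rfl fun R _ => ?_
          by_cases hR : S i ⊆ R
          · rw [mu_empty_of p (S i) R hR, hS i]
            by_cases hb : ∀ k ∈ Mv i, ¬ S k ⊆ R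
            · rw [if_pos hb, if_pos (show E i R from ⟨hR, hb⟩)]; ring
            · rw [if_neg hb, if_neg (show ¬ E i R from fun h => hb h.2)]; ring
          · have : mu p (S i) R = 0 := by unfold mu; rw [if_neg hR]
            rw [this, if_neg (show ¬ E i R from fun h => hR h.1)]
            ring
  calc ∑ i : ι, p ^ K * ∏ k ∈ Mv i, (1 - p ^ (S k \ S i).card)
      ≤ ∑ i : ι, ∑ R : Finset V, mu p ∅ R * (if E i R then (1:ℝ) else 0) :=
        Finset.sum_le_sum fun i _ => hstep i
    _ = ∑ R : Finset V, mu p ∅ R * ∑ i : ι, (if E i R then (1:ℝ) else 0) := by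
        rw [Finset.sum_comm]
        refine Finset.sum_congr rfl fun R _ => ?_
        rw [Finset.mul_sum]
    _ ≤ _ := by
        refine Finset.sum_le_sum fun R _ => ?_
        apply mul_le_mul_of_nonneg_left _ (mu_nonneg p h0 h1 _ _)
        rw [← Finset.sum_filter, Finset.sum_const, nsmul_eq_mul, mul_one]
        split_ifs with hex
        · have : (Finset.univ.filter fun i => E i R).card ≤ 1 := by
            rw [Finset.card_le_one]
            intro a ha b hb
            simp only [Finset.mem_filter, Finset.mem_univ, true_and] at ha hb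
            exact hdis a b R ha hb
          exact_mod_cast this
        · have : (Finset.univ.filter fun i => E i R) = ∅ := by
            rw [Finset.filter_eq_empty_iff]
            intro i _ hi
            exact hex ⟨i, hi.1⟩
          rw [this]; simp

end Pool.Agent.LibC3e
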