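import Mathlib

/-! Sum over connected sets by a percolation argument. -/

set_option autoImplicit false

namespace Pool.Agent.LibC3e

open Finset

variable {V : Type} [Fintype V] [DecidableEq V]

/-- every proper nonempty part has a neighbour in the rest -/
def Conn (nb : V → Finset V) (D : Finset V) : Prop :=
  ∀ E ⊆ D, E.Nonempty → E ≠ D → ∃ a ∈ E, ∃ b ∈ D \ E, b ∈ nb a

def bdry (nb : V → Finset V) (D : Finset V) : Finset V := (D.biUnion nb) \ D

omit [Fintype V] in
lemma card_bdry (nb : V → Finset V) (h4 : ∀ v, (nb v).card ≤ 4) (D : Finset V) :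
    (bdry nb D).card ≤ 4 * D.card := by
  unfold bdry
  calc ((D.biUnion nb) \ D).card ≤ (D.biUnion nb).card := Finset.card_le_card Finset.sdiff_subset
    _ ≤ ∑ v ∈ D, (nb v).card := Finset.card_biUnion_le
    _ ≤ ∑ v ∈ D, 4 := Finset.sum_le_sum fun v _ => h4 v
    _ = 4 * D.card := by rw [Finset.sum_const, smul_eq_mul, mul_comm]

open Classical in
lemma perc_point (nb : V → Finset V) (h4 : ∀ v, (nb v).card ≤ 4) (a : V) :
    ∑ D ∈ (Finset.univ : Finset (Finset V)).filter (fun D => a ∈ D ∧ Conn nb D),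
      (1 / 32 : ℝ) ^ D.card ≤ 1 := by
  set N := Fintype.card V with hN
  have hsub : ∀ D : Finset V, D ⊆ (bdry nb D)ᶜ := by
    intro D x hx
    rw [Finset.mem_compl]
    unfold bdry
    intro h
    exact (Finset.mem_sdiff.mp h).2 hx
  have hcard : ∀ D : Finset V, (Finset.Icc D (bdry nb D)ᶜ).card = 2 ^ (N - (bdry nb D).card - D.card) := by
    intro D
    rw [Finset.card_Icc_finset (hsub D), Finset.card_compl]
  have hsum : ∀ D : Finset V, (1 / 32 : ℝ) ^ D.card * 2 ^ N ≤ ((Finset.Icc D (bdry nb D)ᶜ).card : ℝ) := by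
    intro D
    rw [hcard D]
    have h1 := card_bdry nb h4 D
    have h2 := Finset.card_le_card (hsub D)
    rw [Finset.card_compl] at h2
    have h3 : (bdry nb D).card ≤ N := Finset.card_le_univ _
    rw [← hN] at h2
    set b := (bdry nb D).card
    set d := D.card
    have h5 : N = (N - b - d) + (b + d) := by omega
    push_cast
    calc (1 / 32 : ℝ) ^ d * 2 ^ N = (1 / 32 : ℝ) ^ d * (2 ^ (N - b - d) * 2 ^ (b + d)) := by
          rw [← pow_add, ← h5]
      _ ≤ (1 / 32 : ℝ) ^ d * (2 ^ (N - b - d) * 2 ^ (5 * d)) := by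
          gcongr
          · norm_num
          · omega
      _ = 2 ^ (N - b - d) := by
          rw [pow_mul]
          norm_num
          rw [mul_comm, mul_assoc, ← mul_pow]
          norm_num
  have hdisj : ∀ D ∈ (Finset.univ : Finset (Finset V)).filter (fun D => a ∈ D ∧ Conn nb D),
      ∀ D' ∈ (Finset.univ : Finset (Finset V)).filter (fun D => a ∈ D ∧ Conn nb D),
      D ≠ D' → Disjoint (Finset.Icc D (bdry nb D)ᶜ) (Finset.Icc D' (bdry nb D')ᶜ) := by
    intro D hD D' hD' hne
    simp only [Finset.mem_filter, Finset.mem_univ, true_and] at hD hD'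
    rw [Finset.disjoint_left]
    intro ω h1 h2
    rw [Finset.mem_Icc] at h1 h2
    -- key: D ⊆ D'
    have key : ∀ D D' : Finset V, a ∈ D → a ∈ D' → Conn nb D → D ≤ ω → ω ≤ (bdry nb D')ᶜ →
        D ⊆ D' := by
      intro D D' haD haD' hc hω hω'
      by_contra hnot
      obtain ⟨x, hx, y, hy, hxy⟩ := hc (D ∩ D') Finset.inter_subset_left
        ⟨a, Finset.mem_inter.mpr ⟨haD, haD'⟩⟩ (by
          intro h
          exact hnot (by rw [← h]; exact Finset.inter_subset_right))
      rw [Finset.mem_sdiff, Finset.mem_inter] at hy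
      have hyD' : y ∉ D' := fun h => hy.2 ⟨hy.1, h⟩
      have hyb : y ∈ bdry nb D' := by
        unfold bdry
        rw [Finset.mem_sdiff, Finset.mem_biUnion]
        exact ⟨⟨x, (Finset.mem_inter.mp hx).2, hxy⟩, hyD'⟩
      have := hω' (hω hy.1)
      rw [Finset.mem_compl] at this
      exact this hyb
    apply hne
    exact Finset.Subset.antisymm (key D D' hD.1 hD'.1 hD.2 h1.1 h2.2)
      (key D' D hD'.1 hD.1 hD'.2 h2.1 h1.2)
  have htot : ∑ D ∈ (Finset.univ : Finset (Finset V)).filter (fun D => a ∈ D ∧ Conn nb D),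
      ((Finset.Icc D (bdry nb D)ᶜ).card : ℝ) ≤ 2 ^ N := by
    rw [← Nat.cast_sum, ← Finset.card_biUnion hdisj]
    calc ((((Finset.univ : Finset (Finset V)).filter (fun D => a ∈ D ∧ Conn nb D)).biUnion
          fun D => Finset.Icc D (bdry nb D)ᶜ).card : ℝ) ≤ ((Finset.univ : Finset (Finset V)).card : ℝ) := by
          exact_mod_cast Finset.card_le_card (Finset.subset_univ _)
      _ = 2 ^ N := by
          rw [Finset.card_univ, Fintype.card_finset]
          push_cast
          rfl
  have h2N : (0:ℝ) < 2 ^ N := by positivity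
  have := (Finset.sum_le_sum (s := (Finset.univ : Finset (Finset V)).filter
    (fun D => a ∈ D ∧ Conn nb D)) fun D _ => hsum D).trans htot
  rw [← Finset.sum_mul] at this
  exact le_of_mul_le_mul_right (by linarith) h2N

open Classical in
/-- sum over large connected sets -/
lemma perc_sum (nb : V → Finset V) (h4 : ∀ v, (nb v).card ≤ 4) (x : ℝ) (h0 : 0 ≤ x)
    (h1 : 32 * x ≤ 1) :
    ∑ D ∈ (Finset.univ : Finset (Finset V)).filter (fun D => 3 ≤ D.card ∧ Conn nb D),
      x ^ D.card ≤ (Fintype.card V : ℝ) * (32 * x) ^ 3 := by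
  have hle : ∀ D : Finset V, 3 ≤ D.card → x ^ D.card ≤ (32 * x) ^ 3 * (1 / 32 : ℝ) ^ D.card := by
    intro D hD
    have e : x ^ D.card = (32 * x) ^ D.card * (1 / 32 : ℝ) ^ D.card := by
      rw [← mul_pow]
      congr 1
      ring
    rw [e]
    apply mul_le_mul_of_nonneg_right _ (by positivity)
    exact pow_le_pow_of_le_one (by positivity) h1 hD
  calc ∑ D ∈ (Finset.univ : Finset (Finset V)).filter (fun D => 3 ≤ D.card ∧ Conn nb D),
      x ^ D.card
      ≤ ∑ D ∈ (Finset.univ : Finset (Finset V)).filter (fun D => 3 ≤ D.card ∧ Conn nb D),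
        (32 * x) ^ 3 * (1 / 32 : ℝ) ^ D.card := by
        refine Finset.sum_le_sum fun D hD => hle D ?_
        exact (Finset.mem_filter.mp hD).2.1
    _ ≤ ∑ D ∈ (Finset.univ : Finset (Finset V)).filter (fun D => 3 ≤ D.card ∧ Conn nb D),
        ∑ a : V, (if a ∈ D then (32 * x) ^ 3 * (1 / 32 : ℝ) ^ D.card else 0) := by
        refine Finset.sum_le_sum fun D hD => ?_
        have hc : 0 < D.card := by
          have := (Finset.mem_filter.mp hD).2.1
          omega
        obtain ⟨a, ha⟩ := Finset.card_pos.mp hc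
        have := Finset.single_le_sum (f := fun a => if a ∈ D then (32 * x) ^ 3 * (1 / 32 : ℝ) ^ D.card else 0)
          (fun i _ => by
            split_ifs <;> positivity) (Finset.mem_univ a)
        simp only [ha, if_true] at this
        exact this
    _ = ∑ a : V, ∑ D ∈ (Finset.univ : Finset (Finset V)).filter (fun D => 3 ≤ D.card ∧ Conn nb D),
        (if a ∈ D then (32 * x) ^ 3 * (1 / 32 : ℝ) ^ D.card else 0) := Finset.sum_comm
    _ ≤ ∑ a : V, (32 * x) ^ 3 := by
        refine Finset.sum_le_sum fun a _ => ?_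
        rw [← Finset.sum_filter, Finset.filter_filter]
        calc ∑ D ∈ (Finset.univ : Finset (Finset V)).filter
              (fun D => (3 ≤ D.card ∧ Conn nb D) ∧ a ∈ D), (32 * x) ^ 3 * (1 / 32 : ℝ) ^ D.card
            ≤ ∑ D ∈ (Finset.univ : Finset (Finset V)).filter (fun D => a ∈ D ∧ Conn nb D),
              (32 * x) ^ 3 * (1 / 32 : ℝ) ^ D.card := by
              apply Finset.sum_le_sum_of_subset_of_nonneg
              · intro D hD
                rw [Finset.mem_filter] at hD ⊢
                exact ⟨hD.1, hD.2.2, hD.2.1.2⟩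
              · intro D _ _
                positivity
          _ ≤ (32 * x) ^ 3 * 1 := by
              rw [← Finset.mul_sum]
              exact mul_le_mul_of_nonneg_left (perc_point nb h4 a) (by positivity)
          _ = (32 * x) ^ 3 := mul_one _
    _ = (Fintype.card V : ℝ) * (32 * x) ^ 3 := by
        rw [Finset.sum_const, nsmul_eq_mul, Finset.card_univ]

end Pool.Agent.LibC3e
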