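import Pool.Agent.LibC3e.Place
import Pool.Agent.LibC3e.Perc

/-! Minimal improving moves. -/

set_option autoImplicit false

namespace Pool.Agent.LibC3e

open Finset

variable {m w : ℕ}

/-- neighbours in the grid -/
def nb (a : Fin m × Fin m) : Finset (Fin m × Fin m) :=
  Finset.univ.filter fun b =>
    ((a.1 = b.1 ∧ (a.2:ℕ) + 1 = b.2) ∨ (a.1 = b.1 ∧ (b.2:ℕ) + 1 = a.2)) ∨
    ((a.2 = b.2 ∧ (a.1:ℕ) + 1 = b.1) ∨ (a.2 = b.2 ∧ (b.1:ℕ) + 1 = a.1))

lemma mem_nb (a b : Fin m × Fin m) : b ∈ nb a ↔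
    ((a.1 = b.1 ∧ (a.2:ℕ) + 1 = b.2) ∨ (a.1 = b.1 ∧ (b.2:ℕ) + 1 = a.2)) ∨
    ((a.2 = b.2 ∧ (a.1:ℕ) + 1 = b.1) ∨ (a.2 = b.2 ∧ (b.1:ℕ) + 1 = a.1)) := by
  simp [nb]

lemma nb_symm (a b : Fin m × Fin m) (h : b ∈ nb a) : a ∈ nb b := by
  rw [mem_nb] at h ⊢
  rcases h with (⟨h1, h2⟩ | ⟨h1, h2⟩) | (⟨h1, h2⟩ | ⟨h1, h2⟩)
  · exact Or.inl (Or.inr ⟨h1.symm, h2⟩)
  · exact Or.inl (Or.inl ⟨h1.symm, h2⟩)
  · exact Or.inr (Or.inr ⟨h1.symm, h2⟩)
  · exact Or.inr (Or.inl ⟨h1.symm, h2⟩)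

lemma nb_card (a : Fin m × Fin m) : (nb a).card ≤ 4 := by
  unfold nb
  rw [Finset.filter_or, Finset.filter_or, Finset.filter_or]
  have one : ∀ (p : Fin m × Fin m → Prop) [DecidablePred p],
      (∀ b c, p b → p c → b = c) → (Finset.univ.filter p).card ≤ 1 := by
    intro p _ hp
    rw [Finset.card_le_one]
    intro b hb c hc
    exact hp b c (Finset.mem_filter.mp hb).2 (Finset.mem_filter.mp hc).2
  have h1 := one (fun b => a.1 = b.1 ∧ (a.2:ℕ) + 1 = b.2) (by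
    rintro b c ⟨h1, h2⟩ ⟨h3, h4⟩
    exact Prod.ext (h1.symm.trans h3) (Fin.ext (by omega)))
  have h2 := one (fun b => a.1 = b.1 ∧ (b.2:ℕ) + 1 = a.2) (by
    rintro b c ⟨h1, h2⟩ ⟨h3, h4⟩
    exact Prod.ext (h1.symm.trans h3) (Fin.ext (by omega)))
  have h3 := one (fun b => a.2 = b.2 ∧ (a.1:ℕ) + 1 = b.1) (by
    rintro b c ⟨h1, h2⟩ ⟨h3, h4⟩
    exact Prod.ext (Fin.ext (by omega)) (h1.symm.trans h3))
  have h4 := one (fun b => a.2 = b.2 ∧ (b.1:ℕ) + 1 = a.1) (by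
    rintro b c ⟨h1, h2⟩ ⟨h3, h4⟩
    exact Prod.ext (Fin.ext (by omega)) (h1.symm.trans h3))
  refine (Finset.card_union_le _ _).trans ?_
  have h5 := (Finset.card_union_le (Finset.univ.filter (fun b : Fin m × Fin m => a.1 = b.1 ∧ (a.2:ℕ) + 1 = b.2))
    (Finset.univ.filter (fun b : Fin m × Fin m => a.1 = b.1 ∧ (b.2:ℕ) + 1 = a.2)))
  have h6 := (Finset.card_union_le (Finset.univ.filter (fun b : Fin m × Fin m => a.2 = b.2 ∧ (a.1:ℕ) + 1 = b.1))
    (Finset.univ.filter (fun b : Fin m × Fin m => a.2 = b.2 ∧ (b.1:ℕ) + 1 = a.1)))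
  omega

lemma strictMono_of_consec {n : ℕ} (f : Fin m → Fin n)
    (h : ∀ (j : ℕ) (hj : j + 1 < m), f ⟨j, by omega⟩ < f ⟨j + 1, hj⟩) : StrictMono f := by
  cases m with
  | zero => intro a; exact a.elim0
  | succ m =>
    rw [Fin.strictMono_iff_lt_succ]
    intro i
    exact h i (by have := i.isLt; omega)

/-- the hybrid on `E` -/
structure IsHyb (E : Finset (Fin m × Fin m)) (φ φ' ρ : Pl m w) : Prop where
  hx : ∀ i j, ρ.1 i j = if (i, j) ∈ E then φ'.1 i j else φ.1 i j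
  hy : ∀ i j, ρ.2 j i = if (i, j) ∈ E then φ'.2 j i else φ.2 j i

/-- compatibility of differences -/
def EqC (φ φ' : Pl m w) : Prop := ∀ i j, φ.1 i j = φ'.1 i j ↔ φ.2 j i = φ'.2 j i

lemma exists_hyb (E : Finset (Fin m × Fin m)) (φ φ' : Pl m w) (hc : EqC φ φ')
    (x1 : ∀ (i : Fin m) (j : ℕ) (hj : j + 1 < m), (i, ⟨j, by omega⟩) ∈ E → (i, ⟨j + 1, hj⟩) ∉ E →
      (i, ⟨j + 1, hj⟩) ∈ DS φ φ' → φ'.1 i ⟨j, by omega⟩ < φ.1 i ⟨j + 1, hj⟩)
    (x2 : ∀ (i : Fin m) (j : ℕ) (hj : j + 1 < m), (i, ⟨j, by omega⟩) ∉ E → (i, ⟨j + 1, hj⟩) ∈ E →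
      (i, ⟨j, by omega⟩) ∈ DS φ φ' → φ.1 i ⟨j, by omega⟩ < φ'.1 i ⟨j + 1, hj⟩)
    (y1 : ∀ (j : Fin m) (i : ℕ) (hi : i + 1 < m), (⟨i, by omega⟩, j) ∈ E → (⟨i + 1, hi⟩, j) ∉ E →
      (⟨i + 1, hi⟩, j) ∈ DS φ φ' → φ'.2 j ⟨i, by omega⟩ < φ.2 j ⟨i + 1, hi⟩)
    (y2 : ∀ (j : Fin m) (i : ℕ) (hi : i + 1 < m), (⟨i, by omega⟩, j) ∉ E → (⟨i + 1, hi⟩, j) ∈ E →
      (⟨i, by omega⟩, j) ∈ DS φ φ' → φ.2 j ⟨i, by omega⟩ < φ'.2 j ⟨i + 1, hi⟩) :
    ∃ ρ : Pl m w, IsHyb E φ φ' ρ := by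
  have lt_succ : ∀ (X : Fin m ↪o Fin w) (j : ℕ) (hj : j + 1 < m),
      X ⟨j, by omega⟩ < X ⟨j + 1, hj⟩ := by
    intro X j hj
    apply X.strictMono
    rw [Fin.lt_def]
    simp
  have hX : ∀ i, StrictMono (fun j => if (i, j) ∈ E then φ'.1 i j else φ.1 i j) := by
    intro i
    apply strictMono_of_consec
    intro j hj
    by_cases h1 : (i, (⟨j, by omega⟩ : Fin m)) ∈ E
    · by_cases h2 : (i, (⟨j + 1, hj⟩ : Fin m)) ∈ E
      · rw [if_pos h1, if_pos h2]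
        exact lt_succ _ j hj
      · rw [if_pos h1, if_neg h2]
        by_cases h3 : (i, (⟨j + 1, hj⟩ : Fin m)) ∈ DS φ φ'
        · exact x1 i j hj h1 h2 h3
        · rw [mem_DS, not_not] at h3
          rw [h3]
          exact lt_succ _ j hj
    · by_cases h2 : (i, (⟨j + 1, hj⟩ : Fin m)) ∈ E
      · rw [if_neg h1, if_pos h2]
        by_cases h3 : (i, (⟨j, by omega⟩ : Fin m)) ∈ DS φ φ'
        · exact x2 i j hj h1 h2 h3
        · rw [mem_DS, not_not] at h3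
          rw [h3]
          exact lt_succ _ j hj
      · rw [if_neg h1, if_neg h2]
        exact lt_succ _ j hj
  have hY : ∀ j, StrictMono (fun i => if (i, j) ∈ E then φ'.2 j i else φ.2 j i) := by
    intro j
    apply strictMono_of_consec
    intro i hi
    by_cases h1 : ((⟨i, by omega⟩ : Fin m), j) ∈ E
    · by_cases h2 : ((⟨i + 1, hi⟩ : Fin m), j) ∈ E
      · rw [if_pos h1, if_pos h2]
        exact lt_succ _ i hi
      · rw [if_pos h1, if_neg h2]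
        by_cases h3 : ((⟨i + 1, hi⟩ : Fin m), j) ∈ DS φ φ'
        · exact y1 j i hi h1 h2 h3
        · rw [mem_DS, not_not] at h3
          rw [(hc _ _).mp h3]
          exact lt_succ _ i hi
    · by_cases h2 : ((⟨i + 1, hi⟩ : Fin m), j) ∈ E
      · rw [if_neg h1, if_pos h2]
        by_cases h3 : ((⟨i, by omega⟩ : Fin m), j) ∈ DS φ φ'
        · exact y2 j i hi h1 h2 h3
        · rw [mem_DS, not_not] at h3
          rw [(hc _ _).mp h3]
          exact lt_succ _ i hi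
      · rw [if_neg h1, if_neg h2]
        exact lt_succ _ i hi
  exact ⟨(fun i => OrderEmbedding.ofStrictMono _ (hX i), fun j => OrderEmbedding.ofStrictMono _ (hY j)),
    ⟨fun i j => rfl, fun i j => rfl⟩⟩

lemma IsHyb.px_eq {E : Finset (Fin m × Fin m)} {φ φ' ρ : Pl m w} (h : IsHyb E φ φ' ρ)
    (i j : Fin m) : px ρ i j = if (i, j) ∈ E then px φ' i j else px φ i j := by
  unfold px
  rw [h.hx i j]
  split_ifs <;> rfl

lemma IsHyb.on {E : Finset (Fin m × Fin m)} {φ φ' ρ : Pl m w} (h : IsHyb E φ φ' ρ)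
    (P : Equiv.Perm (Fin (m * w))) (h1 : On P φ) (h2 : On P φ') : On P ρ := by
  intro i j
  rw [h.px_eq]
  unfold py
  rw [h.hy i j]
  split_ifs
  · exact h2 i j
  · exact h1 i j

lemma IsHyb.pos {E : Finset (Fin m × Fin m)} {φ φ' ρ : Pl m w} (h : IsHyb E φ φ' ρ) :
    posSet ρ ⊆ posSet φ ∪ posSet φ' := by
  intro x hx
  unfold posSet at hx
  rw [Finset.mem_image] at hx
  obtain ⟨⟨i, j⟩, _, rfl⟩ := hx
  simp only
  rw [h.px_eq, Finset.mem_union]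
  split_ifs
  · exact Or.inr (mem_posSet φ' i j)
  · exact Or.inl (mem_posSet φ i j)

lemma IsHyb.ds {E : Finset (Fin m × Fin m)} {φ φ' ρ : Pl m w} (h : IsHyb E φ φ' ρ)
    (hE : E ⊆ DS φ φ') : DS φ ρ = E := by
  ext ⟨i, j⟩
  rw [mem_DS, h.hx i j]
  split_ifs with h1
  · simp only [h1, iff_true]
    exact (mem_DS φ φ' i j).mp (hE h1)
  · simp [h1]

lemma IsHyb.psi {E : Finset (Fin m × Fin m)} {φ φ' ρ : Pl m w} (h : IsHyb E φ φ' ρ)
    (P : Equiv.Perm (Fin (m * w))) :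
    Psi P ρ + ∑ a ∈ E, psi P (px φ a.1 a.2) = Psi P φ + ∑ a ∈ E, psi P (px φ' a.1 a.2) := by
  have hsplit : ∀ f : Fin m × Fin m → ℕ, ∑ a, f a = ∑ a ∈ E, f a + ∑ a ∈ Eᶜ, f a := by
    intro f
    rw [Finset.sum_add_sum_compl]
  have e1 : ∑ a ∈ E, LibC3e.psi P (px ρ a.1 a.2) = ∑ a ∈ E, LibC3e.psi P (px φ' a.1 a.2) := by
    refine Finset.sum_congr rfl ?_
    rintro ⟨i, j⟩ ha
    simp only
    rw [h.px_eq, if_pos ha]
  have e2 : ∑ a ∈ Eᶜ, LibC3e.psi P (px ρ a.1 a.2) = ∑ a ∈ Eᶜ, LibC3e.psi P (px φ a.1 a.2) := by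
    refine Finset.sum_congr rfl ?_
    rintro ⟨i, j⟩ ha
    simp only
    rw [h.px_eq, if_neg (Finset.mem_compl.mp ha)]
  unfold Psi
  rw [hsplit (fun a => LibC3e.psi P (px ρ a.1 a.2)), hsplit (fun a => LibC3e.psi P (px φ a.1 a.2)),
    e1, e2]
  ring

/-- minimal improving placements -/
structure MinImp (P : Equiv.Perm (Fin (m * w))) (φ φ' : Pl m w) : Prop where
  on : On P φ'
  lt : Psi P φ' < Psi P φ
  min : ∀ ρ, On P ρ → posSet ρ ⊆ posSet φ ∪ posSet φ' → Psi P ρ < Psi P φ →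
    (DS φ φ').card ≤ (DS φ ρ).card

lemma minImp_exists (P : Equiv.Perm (Fin (m * w))) (φ ψ : Pl m w) (hψ : On P ψ)
    (hlt : Psi P ψ < Psi P φ) :
    ∃ φ', MinImp P φ φ' ∧ posSet φ' ⊆ posSet φ ∪ posSet ψ := by
  classical
  set S : Set ℕ := {n | ∃ ρ : Pl m w, On P ρ ∧ posSet ρ ⊆ posSet φ ∪ posSet ψ ∧
    Psi P ρ < Psi P φ ∧ (DS φ ρ).card = n} with hS
  have hne : S.Nonempty := ⟨(DS φ ψ).card, ψ, hψ, Finset.subset_union_right, hlt, rfl⟩
  obtain ⟨ρ, h1, h2, h3, h4⟩ := Nat.sInf_mem hne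
  refine ⟨ρ, ⟨h1, h3, ?_⟩, h2⟩
  intro ρ' h5 h6 h7
  rw [h4]
  apply Nat.sInf_le
  refine ⟨ρ', h5, ?_, h7, rfl⟩
  exact h6.trans (Finset.union_subset Finset.subset_union_left h2)

lemma MinImp.sum_lt {P : Equiv.Perm (Fin (m * w))} {φ φ' : Pl m w} (h : MinImp P φ φ') :
    ∑ a ∈ DS φ φ', psi P (px φ' a.1 a.2) < ∑ a ∈ DS φ φ', psi P (px φ a.1 a.2) := by
  have hsplit : ∀ f : Fin m × Fin m → ℕ, ∑ a, f a = ∑ a ∈ DS φ φ', f a + ∑ a ∈ (DS φ φ')ᶜ, f a := by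
    intro f
    rw [Finset.sum_add_sum_compl]
  have h1 := h.lt
  unfold Psi at h1
  rw [hsplit (fun a => psi P (px φ' a.1 a.2)), hsplit (fun a => psi P (px φ a.1 a.2))] at h1
  have e2 : ∑ a ∈ (DS φ φ')ᶜ, psi P (px φ' a.1 a.2) = ∑ a ∈ (DS φ φ')ᶜ, psi P (px φ a.1 a.2) := by
    refine Finset.sum_congr rfl ?_
    rintro ⟨i, j⟩ ha
    rw [Finset.mem_compl, mem_DS, not_not] at ha
    simp only
    unfold px
    rw [ha]
  rw [e2] at h1
  omega

lemma MinImp.hyb_le {P : Equiv.Perm (Fin (m * w))} {φ φ' ρ : Pl m w} (h : MinImp P φ φ')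
    (hφ : On P φ) {E : Finset (Fin m × Fin m)} (hE : E ⊆ DS φ φ') (hne : E ≠ DS φ φ')
    (hρ : IsHyb E φ φ' ρ) :
    ∑ a ∈ E, psi P (px φ a.1 a.2) ≤ ∑ a ∈ E, psi P (px φ' a.1 a.2) := by
  by_contra hlt
  rw [not_le] at hlt
  have h1 := hρ.psi P
  have h2 : Psi P ρ < Psi P φ := by omega
  have h3 := h.min ρ (hρ.on P hφ h.on) hρ.pos h2
  rw [hρ.ds hE] at h3
  exact hne (Finset.eq_of_subset_of_card_le hE h3)

lemma hyb_of_sep (E : Finset (Fin m × Fin m)) (φ φ' : Pl m w) (hc : EqC φ φ')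
    (hs : ∀ a ∈ E, ∀ b ∈ nb a, b ∈ DS φ φ' → b ∈ E) : ∃ ρ : Pl m w, IsHyb E φ φ' ρ := by
  apply exists_hyb E φ φ' hc
  · intro i j hj h1 h2 h3
    exact absurd (hs _ h1 _ (by rw [mem_nb]; simp) h3) h2
  · intro i j hj h1 h2 h3
    exact absurd (hs _ h2 _ (by rw [mem_nb]; simp) h3) h1
  · intro j i hj h1 h2 h3
    exact absurd (hs _ h1 _ (by rw [mem_nb]; simp) h3) h2
  · intro j i hj h1 h2 h3
    exact absurd (hs _ h2 _ (by rw [mem_nb]; simp) h3) h1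

lemma MinImp.conn {P : Equiv.Perm (Fin (m * w))} {φ φ' : Pl m w} (h : MinImp P φ φ')
    (hφ : On P φ) : Conn nb (DS φ φ') := by
  intro E hE hEne hEq
  by_contra hcon
  push Not at hcon
  have hc : EqC φ φ' := on_eq_iff P φ φ' hφ h.on
  obtain ⟨ρ, hρ⟩ := hyb_of_sep E φ φ' hc (by
    intro a ha b hb hbD
    by_contra hbE
    exact hcon a ha b (Finset.mem_sdiff.mpr ⟨hbD, hbE⟩) hb)
  obtain ⟨ρ', hρ'⟩ := hyb_of_sep (DS φ φ' \ E) φ φ' hc (by
    intro a ha b hb hbD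
    rw [Finset.mem_sdiff]
    refine ⟨hbD, fun hbE => ?_⟩
    exact hcon b hbE a ha (nb_symm a b hb))
  have h1 := h.hyb_le hφ hE hEq hρ
  have h2 := h.hyb_le hφ Finset.sdiff_subset (by
    intro he
    obtain ⟨x, hx⟩ := hEne
    have : x ∈ DS φ φ' \ E := by rw [he]; exact hE hx
    exact (Finset.mem_sdiff.mp this).2 hx) hρ'
  have h3 := h.sum_lt
  rw [← Finset.sum_sdiff hE, ← Finset.sum_sdiff hE] at h3
  omega

lemma MinImp.nonempty {P : Equiv.Perm (Fin (m * w))} {φ φ' : Pl m w} (h : MinImp P φ φ') :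
    (DS φ φ').Nonempty := by
  rw [Finset.nonempty_iff_ne_empty]
  intro he
  have := h.sum_lt
  rw [he] at this
  simp at this

lemma psi_le {P : Equiv.Perm (Fin (m * w))} {x y : Fin (m * w)} (h : psi P x ≤ psi P y) :
    (x:ℕ) + P x ≤ y + P y := by
  unfold psi at h
  by_contra hlt
  rw [not_le] at hlt
  have h1 : 2 ^ (y:ℕ) < 2 ^ (m * w) := Nat.pow_lt_pow_right (by norm_num) y.isLt
  have h2 : 0 < 2 ^ (x:ℕ) := by positivity
  have h3 : ((y:ℕ) + P y + 1) * 2 ^ (m * w) ≤ ((x:ℕ) + P x) * 2 ^ (m * w) :=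
    Nat.mul_le_mul_right _ hlt
  rw [add_mul ((y:ℕ) + P y) 1] at h3
  omega

/-- vertical low/high pair -/
def VD (i : Fin m) (j : ℕ) (hj : j + 1 < m) (L H : Pl m w) : Prop :=
  L.1 i ⟨j + 1, hj⟩ < H.1 i ⟨j, by omega⟩ ∧
  (H.1 i ⟨j, by omega⟩ : ℕ) + H.2 ⟨j, by omega⟩ i ≤ L.1 i ⟨j, by omega⟩ + L.2 ⟨j, by omega⟩ i ∧
  (L.1 i ⟨j + 1, hj⟩ : ℕ) + L.2 ⟨j + 1, hj⟩ i ≤ H.1 i ⟨j + 1, hj⟩ + H.2 ⟨j + 1, hj⟩ i

/-- horizontal low/high pair -/
def HD (j : Fin m) (i : ℕ) (hi : i + 1 < m) (L H : Pl m w) : Prop :=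
  L.2 j ⟨i + 1, hi⟩ < H.2 j ⟨i, by omega⟩ ∧
  (H.2 j ⟨i, by omega⟩ : ℕ) + H.1 ⟨i, by omega⟩ j ≤ L.2 j ⟨i, by omega⟩ + L.1 ⟨i, by omega⟩ j ∧
  (L.2 j ⟨i + 1, hi⟩ : ℕ) + L.1 ⟨i + 1, hi⟩ j ≤ H.2 j ⟨i + 1, hi⟩ + H.1 ⟨i + 1, hi⟩ j

lemma psi_px_le {P : Equiv.Perm (Fin (m * w))} {φ φ' : Pl m w} (h : On P φ) (h' : On P φ')
    (i j : Fin m) (hle : psi P (px φ i j) ≤ psi P (px φ' i j)) :
    (φ.1 i j : ℕ) + φ.2 j i ≤ φ'.1 i j + φ'.2 j i := by
  have h1 := psi_le hle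
  rw [h i j, h' i j] at h1
  unfold px py at h1
  rw [pos_val, pos_val, pos_val, pos_val] at h1
  omega

lemma MinImp.vert {P : Equiv.Perm (Fin (m * w))} {φ φ' : Pl m w} (h : MinImp P φ φ')
    (hφ : On P φ) (i : Fin m) (j : ℕ) (hj : j + 1 < m)
    (hD : DS φ φ' = {(i, ⟨j, by omega⟩), (i, ⟨j + 1, hj⟩)}) :
    VD i j hj φ φ' ∨ VD i j hj φ' φ := by
  have hc : EqC φ φ' := on_eq_iff P φ φ' hφ h.on
  have hne : ((i, ⟨j, by omega⟩) : Fin m × Fin m) ≠ (i, ⟨j + 1, hj⟩) := by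
    intro he
    have := congrArg (fun a : Fin m × Fin m => (a.2 : ℕ)) he
    simp at this
  have hsum := h.sum_lt
  rw [hD, Finset.sum_pair hne, Finset.sum_pair hne] at hsum
  simp only at hsum
  -- replacing only b
  have hb : φ.1 i ⟨j, by omega⟩ < φ'.1 i ⟨j + 1, hj⟩ →
      psi P (px φ i ⟨j + 1, hj⟩) ≤ psi P (px φ' i ⟨j + 1, hj⟩) := by
    intro hlt
    obtain ⟨ρ, hρ⟩ := exists_hyb {(i, ⟨j + 1, hj⟩)} φ φ' hc (by
        intro i' j' hj' h1 h2 h3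
        rw [hD] at h3
        simp only [Finset.mem_singleton, Finset.mem_insert, Prod.mk.injEq, Fin.mk.injEq] at h1 h2 h3
        omega) (by
        intro i' j' hj' h1 h2 h3
        simp only [Finset.mem_singleton, Prod.mk.injEq, Fin.mk.injEq] at h2
        obtain ⟨rfl, h4⟩ := h2
        have h5 : j' = j := by omega
        subst h5
        exact hlt) (by
        intro j' i' hi' h1 h2 h3
        rw [hD] at h3
        simp only [Finset.mem_singleton, Finset.mem_insert, Prod.mk.injEq, Fin.ext_iff] at h1 h2 h3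
        omega) (by
        intro j' i' hi' h1 h2 h3
        rw [hD] at h3
        simp only [Finset.mem_singleton, Finset.mem_insert, Prod.mk.injEq, Fin.ext_iff] at h1 h2 h3
        omega)
    have := h.hyb_le hφ (E := {(i, ⟨j + 1, hj⟩)}) (by rw [hD]; simp) (by
      rw [hD]; intro he
      have : ((i, ⟨j, by omega⟩) : Fin m × Fin m) ∈ ({(i, ⟨j + 1, hj⟩)} : Finset (Fin m × Fin m)) := by
        rw [he]; simp
      exact hne (Finset.mem_singleton.mp this)) hρ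
    simpa using this
  have ha : φ'.1 i ⟨j, by omega⟩ < φ.1 i ⟨j + 1, hj⟩ →
      psi P (px φ i ⟨j, by omega⟩) ≤ psi P (px φ' i ⟨j, by omega⟩) := by
    intro hlt
    have hj0 : j < m := by omega
    obtain ⟨ρ, hρ⟩ := exists_hyb {(i, ⟨j, hj0⟩)} φ φ' hc (by
        intro i' j' hj' h1 h2 h3
        simp only [Finset.mem_singleton, Prod.mk.injEq, Fin.ext_iff] at h1
        obtain ⟨e1, e2⟩ := h1
        have e1' : i' = i := Fin.ext e1
        subst e1'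
        subst e2
        exact hlt) (by
        intro i' j' hj' h1 h2 h3
        rw [hD] at h3
        simp only [Finset.mem_singleton, Finset.mem_insert, Prod.mk.injEq, Fin.mk.injEq] at h1 h2 h3
        omega) (by
        intro j' i' hi' h1 h2 h3
        rw [hD] at h3
        simp only [Finset.mem_singleton, Finset.mem_insert, Prod.mk.injEq, Fin.ext_iff] at h1 h2 h3
        omega) (by
        intro j' i' hi' h1 h2 h3
        rw [hD] at h3
        simp only [Finset.mem_singleton, Finset.mem_insert, Prod.mk.injEq, Fin.ext_iff] at h1 h2 h3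
        omega)
    have := h.hyb_le hφ (E := {(i, ⟨j, by omega⟩)}) (by rw [hD]; simp) (by
      rw [hD]; intro he
      have : ((i, ⟨j + 1, hj⟩) : Fin m × Fin m) ∈ ({(i, ⟨j, by omega⟩)} : Finset (Fin m × Fin m)) := by
        rw [he]; simp
      exact hne (Finset.mem_singleton.mp this).symm) hρ
    simpa using this
  have lt_succ : ∀ (X : Fin m ↪o Fin w), X ⟨j, by omega⟩ < X ⟨j + 1, hj⟩ := by
    intro X
    apply X.strictMono
    rw [Fin.lt_def]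
    simp
  by_cases c1 : φ.1 i ⟨j, by omega⟩ < φ'.1 i ⟨j + 1, hj⟩
  · by_cases c2 : φ'.1 i ⟨j, by omega⟩ < φ.1 i ⟨j + 1, hj⟩
    · have h1 := ha c2
      have h2 := hb c1
      omega
    · left
      have h2 := hb c1
      rw [not_lt] at c2
      refine ⟨lt_of_le_of_ne c2 ?_, ?_, ?_⟩
      · intro he
        have := on_ne P φ φ' hφ h.on i ⟨j + 1, hj⟩ i ⟨j, by omega⟩ (by unfold px; rw [he])
        have h3 := congrArg Fin.val this.2
        simp at h3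
      · exact psi_px_le h.on hφ _ _ (by omega)
      · exact psi_px_le hφ h.on _ _ h2
  · right
    rw [not_lt] at c1
    have c2 : φ'.1 i ⟨j, by omega⟩ < φ.1 i ⟨j + 1, hj⟩ :=
      lt_of_lt_of_le (lt_succ _) (c1.trans (le_of_lt (lt_succ _)))
    have h2 := ha c2
    refine ⟨lt_of_le_of_ne c1 ?_, ?_, ?_⟩
    · intro he
      have := on_ne P φ φ' hφ h.on i ⟨j, by omega⟩ i ⟨j + 1, hj⟩ (by unfold px; rw [he])
      have h3 := congrArg Fin.val this.2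
      simp at h3
    · exact psi_px_le hφ h.on _ _ h2
    · exact psi_px_le h.on hφ _ _ (by omega)

lemma on_ne_y (P : Equiv.Perm (Fin (m * w))) (φ φ' : Pl m w) (h : On P φ) (h' : On P φ')
    (i j i' j' : Fin m) (he : py φ i j = py φ' i' j') : i = i' ∧ j = j' := by
  rw [← h i j, ← h' i' j'] at he
  exact on_ne P φ φ' h h' i j i' j' (P.injective he)

lemma MinImp.horiz {P : Equiv.Perm (Fin (m * w))} {φ φ' : Pl m w} (h : MinImp P φ φ')
    (hφ : On P φ) (j : Fin m) (i : ℕ) (hi : i + 1 < m)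
    (hD : DS φ φ' = {(⟨i, by omega⟩, j), (⟨i + 1, hi⟩, j)}) :
    HD j i hi φ φ' ∨ HD j i hi φ' φ := by
  have hc : EqC φ φ' := on_eq_iff P φ φ' hφ h.on
  have hne : ((⟨i, by omega⟩, j) : Fin m × Fin m) ≠ (⟨i + 1, hi⟩, j) := by
    intro he
    have := congrArg (fun a : Fin m × Fin m => (a.1 : ℕ)) he
    simp at this
  have hsum := h.sum_lt
  rw [hD, Finset.sum_pair hne, Finset.sum_pair hne] at hsum
  simp only at hsum
  -- replacing only b
  have hb : φ.2 j ⟨i, by omega⟩ < φ'.2 j ⟨i + 1, hi⟩ →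
      psi P (px φ ⟨i + 1, hi⟩ j) ≤ psi P (px φ' ⟨i + 1, hi⟩ j) := by
    intro hlt
    obtain ⟨ρ, hρ⟩ := exists_hyb {(⟨i + 1, hi⟩, j)} φ φ' hc (by
        intro i' j' hj' h1 h2 h3
        rw [hD] at h3
        simp only [Finset.mem_singleton, Finset.mem_insert, Prod.mk.injEq, Fin.ext_iff] at h1 h2 h3
        omega) (by
        intro i' j' hj' h1 h2 h3
        rw [hD] at h3
        simp only [Finset.mem_singleton, Finset.mem_insert, Prod.mk.injEq, Fin.ext_iff] at h1 h2 h3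
        omega) (by
        intro j' i' hi' h1 h2 h3
        rw [hD] at h3
        simp only [Finset.mem_singleton, Finset.mem_insert, Prod.mk.injEq, Fin.ext_iff] at h1 h2 h3
        omega) (by
        intro j' i' hi' h1 h2 h3
        simp only [Finset.mem_singleton, Prod.mk.injEq, Fin.ext_iff] at h2
        obtain ⟨e1, e2⟩ := h2
        have e2' : j' = j := Fin.ext e2
        subst e2'
        have e1' : i' = i := by omega
        subst e1'
        exact hlt)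
    have := h.hyb_le hφ (E := {(⟨i + 1, hi⟩, j)}) (by rw [hD]; simp) (by
      rw [hD]; intro he
      have : ((⟨i, by omega⟩, j) : Fin m × Fin m) ∈ ({(⟨i + 1, hi⟩, j)} : Finset (Fin m × Fin m)) := by
        rw [he]; simp
      exact hne (Finset.mem_singleton.mp this)) hρ
    simpa using this
  have ha : φ'.2 j ⟨i, by omega⟩ < φ.2 j ⟨i + 1, hi⟩ →
      psi P (px φ ⟨i, by omega⟩ j) ≤ psi P (px φ' ⟨i, by omega⟩ j) := by
    intro hlt
    have hi0 : i < m := by omega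
    obtain ⟨ρ, hρ⟩ := exists_hyb {(⟨i, hi0⟩, j)} φ φ' hc (by
        intro i' j' hj' h1 h2 h3
        rw [hD] at h3
        simp only [Finset.mem_singleton, Finset.mem_insert, Prod.mk.injEq, Fin.ext_iff] at h1 h2 h3
        omega) (by
        intro i' j' hj' h1 h2 h3
        rw [hD] at h3
        simp only [Finset.mem_singleton, Finset.mem_insert, Prod.mk.injEq, Fin.ext_iff] at h1 h2 h3
        omega) (by
        intro j' i' hi' h1 h2 h3
        simp only [Finset.mem_singleton, Prod.mk.injEq, Fin.ext_iff] at h1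
        obtain ⟨e1, e2⟩ := h1
        have e2' : j' = j := Fin.ext e2
        subst e2'
        subst e1
        exact hlt) (by
        intro j' i' hi' h1 h2 h3
        rw [hD] at h3
        simp only [Finset.mem_singleton, Finset.mem_insert, Prod.mk.injEq, Fin.ext_iff] at h1 h2 h3
        omega)
    have := h.hyb_le hφ (E := {(⟨i, by omega⟩, j)}) (by rw [hD]; simp) (by
      rw [hD]; intro he
      have : ((⟨i + 1, hi⟩, j) : Fin m × Fin m) ∈ ({(⟨i, by omega⟩, j)} : Finset (Fin m × Fin m)) := by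
        rw [he]; simp
      exact hne (Finset.mem_singleton.mp this).symm) hρ
    simpa using this
  have lt_succ : ∀ (X : Fin m ↪o Fin w), X ⟨i, by omega⟩ < X ⟨i + 1, hi⟩ := by
    intro X
    apply X.strictMono
    rw [Fin.lt_def]
    simp
  by_cases c1 : φ.2 j ⟨i, by omega⟩ < φ'.2 j ⟨i + 1, hi⟩
  · by_cases c2 : φ'.2 j ⟨i, by omega⟩ < φ.2 j ⟨i + 1, hi⟩
    · have h1 := ha c2
      have h2 := hb c1
      omega
    · left
      have h2 := hb c1
      rw [not_lt] at c2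
      refine ⟨lt_of_le_of_ne c2 ?_, ?_, ?_⟩
      · intro he
        have := on_ne_y P φ φ' hφ h.on ⟨i + 1, hi⟩ j ⟨i, by omega⟩ j (by unfold py; rw [he])
        have h3 := congrArg Fin.val this.1
        simp at h3
      · have := psi_px_le h.on hφ ⟨i, by omega⟩ j (by omega)
        omega
      · have := psi_px_le hφ h.on _ _ h2
        omega
  · right
    rw [not_lt] at c1
    have c2 : φ'.2 j ⟨i, by omega⟩ < φ.2 j ⟨i + 1, hi⟩ :=
      lt_of_lt_of_le (lt_succ _) (c1.trans (le_of_lt (lt_succ _)))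
    have h2 := ha c2
    refine ⟨lt_of_le_of_ne c1 ?_, ?_, ?_⟩
    · intro he
      have := on_ne_y P φ φ' hφ h.on ⟨i, by omega⟩ j ⟨i + 1, hi⟩ j (by unfold py; rw [he])
      have h3 := congrArg Fin.val this.1
      simp at h3
    · have := psi_px_le hφ h.on _ _ h2
      omega
    · have := psi_px_le h.on hφ ⟨i + 1, hi⟩ j (by omega)
      omega

end Pool.Agent.LibC3e
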