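import Pool.Agent.LibC3e.MonoBound

/-! Binomial average of the probability of containing `12...k`. -/

set_option autoImplicit false

namespace Pool.Agent.LibC3e

open Finset

/-- binomial weight -/
noncomputable def bin (M n : ℕ) (p : ℝ) : ℝ := (M.choose n : ℝ) * p ^ n * (1 - p) ^ (M - n)

/-- the binomial average of the containment probability -/
noncomputable def thin {k : ℕ} (σ : Equiv.Perm (Fin k)) (M : ℕ) (p : ℝ) : ℝ :=
  ∑ n ∈ Finset.range (M + 1), bin M n p * ((cnt σ n : ℝ) / (n.factorial : ℝ))

lemma bin_nonneg (M n : ℕ) (p : ℝ) (h0 : 0 ≤ p) (h1 : p ≤ 1) : 0 ≤ bin M n p := by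
  unfold bin
  have : 0 ≤ 1 - p := by linarith
  positivity

lemma cnt_zero {k : ℕ} (σ : Equiv.Perm (Fin k)) (hk : 0 < k) : cnt σ 0 = 0 := by
  classical
  unfold cnt
  rw [Finset.card_eq_zero, Finset.filter_eq_empty_iff]
  rintro π _ ⟨f, _⟩
  exact (f ⟨0, hk⟩).elim0

lemma bin_exp (M : ℕ) (p u : ℝ) (hp0 : 0 ≤ p) (hp1 : p ≤ 1) :
    ∑ n ∈ Finset.range (M + 1), bin M n p * Real.exp (u * n) ≤
      Real.exp (M * p * (Real.exp u - 1)) := by
  have h1 : ∑ n ∈ Finset.range (M + 1), bin M n p * Real.exp (u * n) =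
      (p * Real.exp u + (1 - p)) ^ M := by
    rw [add_pow]
    refine Finset.sum_congr rfl fun n _ => ?_
    unfold bin
    rw [mul_pow, ← Real.exp_nat_mul, mul_comm (n:ℝ) u]
    ring
  rw [h1]
  have h2 : p * Real.exp u + (1 - p) ≤ Real.exp (p * (Real.exp u - 1)) := by
    have := Real.add_one_le_exp (p * (Real.exp u - 1))
    linarith
  have h3 : 0 ≤ p * Real.exp u + (1 - p) := by
    have := mul_nonneg hp0 (Real.exp_pos u).le
    linarith
  calc (p * Real.exp u + (1 - p)) ^ M ≤ (Real.exp (p * (Real.exp u - 1))) ^ M :=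
        pow_le_pow_left₀ h3 h2 M
    _ = _ := by rw [← Real.exp_nat_mul]; congr 1; ring

lemma mono_thin (k M : ℕ) (p s : ℝ) (hk : 0 < k) (hp0 : 0 ≤ p) (hp1 : p ≤ 1) (hs : 1 ≤ s)
    (hl : (s - 1 / s + 1) ^ 2 ≤ M * p) :
    thin (1 : Equiv.Perm (Fin k)) M p * (s ^ 2) ^ k ≤
      Real.exp 1 * (M * p) * Real.exp (2 * Real.sqrt (M * p) * (s - 1 / s) + 1 +
        (s - 1 / s + 1) ^ 2) := by
  set l : ℝ := M * p with hldef
  set c := s - 1 / s with hc
  have hc0 : 0 ≤ c := by
    rw [hc]
    have : 1 / s ≤ 1 := by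
      rw [div_le_one (by linarith)]; exact hs
    linarith
  have hl1 : 1 ≤ l := by nlinarith
  have hl0 : 0 < l := by linarith
  set q := Real.sqrt l with hq
  have hqq : q * q = l := Real.mul_self_sqrt hl0.le
  have hq1 : c + 1 ≤ q := by
    rw [hq]
    exact Real.le_sqrt_of_sq_le hl
  have hq0 : 0 < q := by linarith
  set u := c / q + 1 / l with hu
  have hu0 : 0 ≤ u := by positivity
  have hu1 : u ≤ 1 := by
    have h1 : c / q ≤ c / (c + 1) := div_le_div_of_nonneg_left hc0 (by linarith) hq1
    have h2 : 1 / l ≤ 1 / (c + 1) := by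
      apply one_div_le_one_div_of_le (by linarith)
      nlinarith
    have h3 : c / (c+1) + 1 / (c+1) = 1 := by field_simp
    linarith
  -- pointwise bound
  have hpt : ∀ n : ℕ, ((cnt (1 : Equiv.Perm (Fin k)) n : ℝ) / (n.factorial : ℝ)) * (s^2)^k ≤
      Real.exp 1 * l * Real.exp (c * q) * Real.exp (u * n) := by
    intro n
    rcases Nat.eq_zero_or_pos n with h0 | h0
    · subst h0
      rw [cnt_zero _ hk]
      simp only [Nat.cast_zero, zero_div, zero_mul]
      positivity
    · have h1 := mono_prob k n s h0 hs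
      refine le_trans h1 ?_
      have hn0 : (0:ℝ) < n := by exact_mod_cast h0
      have h2 : (n:ℝ) ≤ l * Real.exp (n / l) := by
        have := Real.add_one_le_exp ((n:ℝ) / l)
        have h3 : (n:ℝ) / l ≤ Real.exp (n / l) := by linarith
        rw [div_le_iff₀ hl0] at h3
        linarith
      have h4 : 2 * Real.sqrt n ≤ n / q + q := by
        have h5 : Real.sqrt n * Real.sqrt n = n := Real.mul_self_sqrt hn0.le
        have h6 : 0 ≤ (Real.sqrt n - q)^2 := sq_nonneg _
        have h7 : 2 * Real.sqrt n * q ≤ n + q * q := by nlinarith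
        have h8 : (n:ℝ) / q + q = (n + q * q) / q := by field_simp
        rw [h8, le_div_iff₀ hq0]
        exact h7
      have h5 : 2 * Real.sqrt n * (s - 1 / s) ≤ (n / q + q) * c :=
        mul_le_mul_of_nonneg_right h4 hc0
      calc Real.exp 1 * n * Real.exp (2 * Real.sqrt n * (s - 1 / s))
          ≤ Real.exp 1 * (l * Real.exp (n / l)) * Real.exp ((n / q + q) * c) := by
            gcongr
        _ = Real.exp 1 * l * (Real.exp (n / l) * Real.exp ((n / q + q) * c)) := by ring
        _ = Real.exp 1 * l * (Real.exp (c * q) * Real.exp (u * n)) := by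
            congr 1
            rw [← Real.exp_add, ← Real.exp_add]
            congr 1
            rw [hu]
            field_simp
            ring
        _ = _ := by ring
  unfold thin
  rw [Finset.sum_mul]
  calc ∑ n ∈ Finset.range (M + 1), bin M n p * ((cnt (1 : Equiv.Perm (Fin k)) n : ℝ) /
          (n.factorial : ℝ)) * (s^2)^k
      ≤ ∑ n ∈ Finset.range (M + 1), Real.exp 1 * l * Real.exp (c * q) *
          (bin M n p * Real.exp (u * n)) := by
        refine Finset.sum_le_sum fun n _ => ?_
        have h1 := mul_le_mul_of_nonneg_left (hpt n) (bin_nonneg M n p hp0 hp1)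
        calc bin M n p * ((cnt (1 : Equiv.Perm (Fin k)) n : ℝ) / (n.factorial : ℝ)) * (s^2)^k
            = bin M n p * (((cnt (1 : Equiv.Perm (Fin k)) n : ℝ) / (n.factorial : ℝ)) *
              (s^2)^k) := by ring
          _ ≤ _ := h1
          _ = _ := by ring
    _ = Real.exp 1 * l * Real.exp (c * q) *
          ∑ n ∈ Finset.range (M + 1), (bin M n p * Real.exp (u * n)) := by
        rw [Finset.mul_sum]
    _ ≤ Real.exp 1 * l * Real.exp (c * q) * Real.exp (l * (Real.exp u - 1)) := by
        have := bin_exp M p u hp0 hp1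
        gcongr
    _ ≤ Real.exp 1 * l * Real.exp (c * q) * Real.exp (c * q + 1 + (c + 1) ^ 2) := by
        gcongr
        have h1 := Real.abs_exp_sub_one_sub_id_le (x := u) (by rw [abs_of_nonneg hu0]; exact hu1)
        have h2 : Real.exp u - 1 ≤ u + u^2 := by
          have := le_abs_self (Real.exp u - 1 - u)
          linarith
        have h3 : l * (Real.exp u - 1) ≤ l * (u + u^2) := by gcongr
        refine le_trans h3 ?_
        have h4 : l * u = c * q + 1 := by
          rw [hu, ← hqq]; field_simp
        have h5 : l * u^2 = (c + 1 / q)^2 := by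
          rw [hu, ← hqq]; field_simp
        have h6 : 1 / q ≤ 1 := by
          rw [div_le_one hq0]; linarith
        have h7 : (c + 1/q)^2 ≤ (c + 1)^2 := by
          have : 0 ≤ 1 / q := by positivity
          apply pow_le_pow_left₀ (by linarith)
          linarith
        calc l * (u + u^2) = l * u + l * u^2 := by ring
          _ = c * q + 1 + (c + 1/q)^2 := by rw [h4, h5]
          _ ≤ _ := by linarith
    _ = _ := by
        rw [mul_assoc, ← Real.exp_add]
        congr 2
        ring

end Pool.Agent.LibC3e
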