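import Pool.Agent.LibC3e.Harris
import Pool.Agent.LibC3e.Match
import Pool.Agent.LibC3e.MonoThin

/-! Thinning a uniform permutation. -/

set_option autoImplicit false

namespace Pool.Agent.LibC3e

open Finset

/-- `Π` restricted to the positions in `R` contains `σ` -/
def ContainsIn {k M : ℕ} (σ : Equiv.Perm (Fin k)) (P : Equiv.Perm (Fin M)) (R : Finset (Fin M)) :
    Prop :=
  ∃ f : Fin k ↪o Fin M, (∀ i, f i ∈ R) ∧ ∀ i j, σ i < σ j ↔ P (f i) < P (f j)

lemma containsIn_iff {k M n : ℕ} (σ : Equiv.Perm (Fin k)) (P : Equiv.Perm (Fin M))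
    (R : Finset (Fin M)) (hR : R.card = n) (g : Fin n ↪o Fin M) (ρ : Equiv.Perm (Fin n))
    (h : ∀ t, P (R.orderEmbOfFin hR t) = g (ρ t)) :
    ContainsIn σ P R ↔ Contains σ ρ := by
  constructor
  · rintro ⟨f, h1, h2⟩
    have hmem : ∀ i, ∃ a, R.orderEmbOfFin hR a = f i := by
      intro i
      have h3 : f i ∈ (R : Set (Fin M)) := h1 i
      rw [← Finset.range_orderEmbOfFin R hR] at h3
      exact h3
    choose a ha using hmem
    refine ⟨OrderEmbedding.ofStrictMono a ?_, ?_⟩
    · intro i j hij
      have := f.strictMono hij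
      rw [← ha i, ← ha j] at this
      exact (R.orderEmbOfFin hR).lt_iff_lt.mp this
    · intro i j
      simp only [OrderEmbedding.coe_ofStrictMono]
      rw [h2 i j, ← ha i, ← ha j, h, h]
      exact g.lt_iff_lt
  · rintro ⟨f, h1⟩
    refine ⟨f.trans (R.orderEmbOfFin hR), ?_, ?_⟩
    · intro i
      exact Finset.orderEmbOfFin_mem R hR _
    · intro i j
      rw [h1 i j]
      simp only [RelEmbedding.coe_trans, Function.comp_apply]
      rw [h, h]
      exact g.lt_iff_lt.symm

open Classical in
lemma card_containsIn {k M : ℕ} (σ : Equiv.Perm (Fin k)) (R : Finset (Fin M)) :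
    R.card.factorial * (Finset.univ.filter fun P : Equiv.Perm (Fin M) => ContainsIn σ P R).card =
      M.factorial * cnt σ R.card := by
  set n := R.card with hn
  have hR : R.card = n := hn.symm
  set e := R.orderEmbOfFin hR with he
  -- double counting of pairs
  have h1 : ∑ P : Equiv.Perm (Fin M), ∑ κ : Equiv.Perm (Fin n),
      (if ContainsIn σ (κ.viaEmbedding e.toEmbedding |>.trans P) R then 1 else 0) =
      M.factorial * cnt σ n := by
    have h2 : ∀ P : Equiv.Perm (Fin M), ∑ κ : Equiv.Perm (Fin n),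
      (if ContainsIn σ (κ.viaEmbedding e.toEmbedding |>.trans P) R then 1 else 0) = cnt σ n := by
      intro P
      obtain ⟨g, ρ, hg⟩ := exists_factor (fun t => P (e t)) (by
        intro a b hab
        exact e.injective (P.injective hab))
      have h3 : ∀ κ : Equiv.Perm (Fin n),
          (ContainsIn σ (κ.viaEmbedding e.toEmbedding |>.trans P) R ↔ Contains σ (κ.trans ρ)) := by
        intro κ
        apply containsIn_iff σ _ R hR g
        intro t
        have h4 := Equiv.Perm.viaEmbedding_apply κ e.toEmbedding t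
        have h5 : (κ.viaEmbedding e.toEmbedding) (R.orderEmbOfFin hR t) = e (κ t) := h4
        rw [Equiv.trans_apply, h5, hg (κ t), Equiv.trans_apply]
      simp only [h3]
      unfold cnt
      rw [Finset.card_filter]
      exact Fintype.sum_equiv (Equiv.mk (fun κ : Equiv.Perm (Fin n) => κ.trans ρ)
        (fun κ => κ.trans ρ.symm) (by intro κ; ext; simp) (by intro κ; ext; simp)) _ _
        (fun κ => rfl)
    simp only [h2]
    rw [Finset.sum_const, Finset.card_univ, Fintype.card_perm, Fintype.card_fin, smul_eq_mul]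
  rw [← h1, Finset.sum_comm]
  have h2 : ∀ κ : Equiv.Perm (Fin n), ∑ P : Equiv.Perm (Fin M),
      (if ContainsIn σ (κ.viaEmbedding e.toEmbedding |>.trans P) R then 1 else 0) =
      (Finset.univ.filter fun P : Equiv.Perm (Fin M) => ContainsIn σ P R).card := by
    intro κ
    rw [Finset.card_filter]
    exact Fintype.sum_equiv (Equiv.mk
        (fun P : Equiv.Perm (Fin M) => (κ.viaEmbedding e.toEmbedding).trans P)
        (fun P => (κ.viaEmbedding e.toEmbedding).symm.trans P) (by intro κ; ext; simp)
        (by intro κ; ext; simp)) _ _ (fun κ => rfl)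
  simp only [h2]
  rw [Finset.sum_const, Finset.card_univ, Fintype.card_perm, Fintype.card_fin, smul_eq_mul]

open Classical in
lemma thin_eq {k : ℕ} (σ : Equiv.Perm (Fin k)) (M : ℕ) (p : ℝ) :
    ∑ P : Equiv.Perm (Fin M), ∑ R : Finset (Fin M), mu p ∅ R *
      (if ContainsIn σ P R then (1:ℝ) else 0) = M.factorial * thin σ M p := by
  rw [Finset.sum_comm]
  have h1 : ∀ R : Finset (Fin M), ∑ P : Equiv.Perm (Fin M), mu p ∅ R *
      (if ContainsIn σ P R then (1:ℝ) else 0) =
      p ^ R.card * (1 - p) ^ (M - R.card) *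
        (M.factorial * ((cnt σ R.card : ℝ) / (R.card.factorial : ℝ))) := by
    intro R
    rw [← Finset.mul_sum]
    have h2 : ∑ P : Equiv.Perm (Fin M), (if ContainsIn σ P R then (1:ℝ) else 0) =
        ((Finset.univ.filter fun P : Equiv.Perm (Fin M) => ContainsIn σ P R).card : ℝ) := by
      rw [Finset.card_filter]; push_cast; rfl
    have h3 := card_containsIn σ R
    have h4 : (0:ℝ) < (R.card.factorial : ℝ) := by exact_mod_cast Nat.factorial_pos _
    have h5 : ((Finset.univ.filter fun P : Equiv.Perm (Fin M) => ContainsIn σ P R).card : ℝ) =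
        M.factorial * ((cnt σ R.card : ℝ) / (R.card.factorial : ℝ)) := by
      have h6 : (R.card.factorial : ℝ) * ((Finset.univ.filter fun P : Equiv.Perm (Fin M) =>
        ContainsIn σ P R).card : ℝ) = M.factorial * (cnt σ R.card : ℝ) := by exact_mod_cast h3
      field_simp
      linarith
    rw [h2, h5]
    congr 1
    unfold mu
    rw [if_pos (Finset.empty_subset _), Finset.sdiff_empty, Finset.card_compl, Fintype.card_fin]
  simp only [h1]
  have h2 := Finset.sum_powerset_apply_card (x := (Finset.univ : Finset (Fin M)))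
      (fun n => p ^ n * (1 - p) ^ (M - n) *
        (M.factorial * ((cnt σ n : ℝ) / (n.factorial : ℝ))))
  rw [Finset.powerset_univ] at h2
  rw [h2, Finset.card_univ, Fintype.card_fin]
  unfold thin
  rw [Finset.mul_sum]
  refine Finset.sum_congr rfl fun n _ => ?_
  unfold bin
  rw [nsmul_eq_mul]
  ring

/-- if no length works, the binomial averages compare -/
lemma thin_le {k l : ℕ} (σ : Equiv.Perm (Fin k)) (τ : Equiv.Perm (Fin l)) (M : ℕ) (p : ℝ)
    (h0 : 0 ≤ p) (h1 : p ≤ 1) (h : ∀ n ≤ M, cnt τ n ≤ cnt σ n) :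
    thin τ M p ≤ thin σ M p := by
  unfold thin
  refine Finset.sum_le_sum fun n hn => ?_
  apply mul_le_mul_of_nonneg_left _ (bin_nonneg M n p h0 h1)
  have : n ≤ M := by
    have := Finset.mem_range.mp hn
    omega
  have h2 : (cnt τ n : ℝ) ≤ cnt σ n := by exact_mod_cast h n this
  gcongr

end Pool.Agent.LibC3e
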