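import Pool.Agent.LibC3e.GTotal
import Pool.Agent.LibC3e.Thin

/-! Lower bound for the thinned containment probability of the grid permutation. -/

set_option autoImplicit false

namespace Pool.Agent.LibC3e

open Finset

variable {m w : ℕ}

lemma one_sub_ge (p x : ℝ) (h0 : 0 ≤ x) (h1 : x ≤ p) (h2 : p ≤ 1 / 2) :
    Real.exp (-((1 + 2 * p) * x)) ≤ 1 - x := by
  have hp : 0 ≤ p := h0.trans h1
  have h3 := Real.add_one_le_exp ((1 + 2 * p) * x)
  have h4 : 0 < (1 + 2 * p) * x + 1 := by positivity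
  have h5 : 1 ≤ (1 - x) * ((1 + 2 * p) * x + 1) := by
    have : (1 + 2 * p) * x ≤ 2 * p := by nlinarith
    nlinarith
  rw [Real.exp_neg]
  have h6 : (Real.exp ((1 + 2 * p) * x))⁻¹ ≤ ((1 + 2 * p) * x + 1)⁻¹ := inv_anti₀ h4 h3
  refine h6.trans ?_
  rw [inv_le_iff_one_le_mul₀ h4]
  exact h5

open Classical in
lemma canon_P (P : Equiv.Perm (Fin (m * w))) (p : ℝ) (h0 : 0 ≤ p) (h2 : p ≤ 1 / 2) :
    ∑ φ ∈ (Finset.univ : Finset (Pl m w)).filter (fun φ => On P φ),
      p ^ (m * m) * Real.exp (-((1 + 2 * p) *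
        ∑ φ' ∈ (Finset.univ : Finset (Pl m w)).filter (fun φ' => MinImp P φ φ'),
          p ^ (DS φ φ').card)) ≤
      ∑ R : Finset (Fin (m * w)), mu p ∅ R * (if ContainsIn (tau m) P R then (1:ℝ) else 0) := by
  have h1 : p ≤ 1 := by linarith
  set ι := {φ : Pl m w // On P φ} with hι
  have key := canonical (ι := ι) (V := Fin (m * w)) p h0 h1 (m * m) (fun i => posSet i.1)
    (fun i => card_posSet i.1) (fun i => Psi P i.1)
    (fun i j hij => Subtype.ext (Psi_injective P i.1 j.1 i.2 j.2 hij))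
    (fun i => Finset.univ.filter fun k : ι => MinImp P i.1 k.1) (by
      intro i j hij
      obtain ⟨φ', h3, h4⟩ := minImp_exists P i.1 j.1 j.2 hij
      exact ⟨⟨φ', h3.on⟩, by rw [Finset.mem_filter]; exact ⟨Finset.mem_univ _, h3⟩, h4⟩)
  have h3 : ∑ R : Finset (Fin (m * w)), mu p ∅ R * (if ∃ i : ι, posSet i.1 ⊆ R then (1:ℝ) else 0) ≤
      ∑ R : Finset (Fin (m * w)), mu p ∅ R * (if ContainsIn (tau m) P R then (1:ℝ) else 0) := by
    refine Finset.sum_le_sum fun R _ => ?_
    apply mul_le_mul_of_nonneg_left _ (mu_nonneg p h0 h1 _ _)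
    by_cases h : ∃ i : ι, posSet i.1 ⊆ R
    · obtain ⟨i, hi⟩ := h
      rw [if_pos (containsIn_of_on P i.1 i.2 R hi)]
      split_ifs <;> norm_num
    · rw [if_neg h]
      split_ifs <;> norm_num
  refine le_trans ?_ (key.trans h3)
  rw [Finset.sum_subtype ((Finset.univ : Finset (Pl m w)).filter (fun φ => On P φ))
    (p := fun φ => On P φ) (by intro φ; simp)]
  refine Finset.sum_le_sum fun i _ => ?_
  apply mul_le_mul_of_nonneg_left _ (by positivity)
  -- product bound
  have h4 : ∀ k ∈ (Finset.univ.filter fun k : ι => MinImp P i.1 k.1),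
      Real.exp (-((1 + 2 * p) * p ^ (DS i.1 k.1).card)) ≤ 1 - p ^ (posSet k.1 \ posSet i.1).card := by
    intro k hk
    have hk' := (Finset.mem_filter.mp hk).2
    rw [card_sdiff_posSet P i.1 k.1 i.2 k.2]
    have h5 : 1 ≤ (DS i.1 k.1).card := Finset.card_pos.mpr hk'.nonempty
    apply one_sub_ge p _ (by positivity) _ h2
    calc p ^ (DS i.1 k.1).card ≤ p ^ 1 := pow_le_pow_of_le_one h0 h1 h5
      _ = p := pow_one p
  have h5 : Real.exp (-((1 + 2 * p) *
      ∑ k ∈ (Finset.univ.filter fun k : ι => MinImp P i.1 k.1), p ^ (DS i.1 k.1).card)) ≤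
      ∏ k ∈ (Finset.univ.filter fun k : ι => MinImp P i.1 k.1),
        (1 - p ^ (posSet k.1 \ posSet i.1).card) := by
    rw [Finset.mul_sum, ← Finset.sum_neg_distrib, Real.exp_sum]
    exact Finset.prod_le_prod (fun _ _ => (Real.exp_pos _).le) h4
  refine le_trans ?_ h5
  apply Real.exp_le_exp.mpr
  apply neg_le_neg
  apply mul_le_mul_of_nonneg_left _ (by positivity)
  have h6 : ∑ k ∈ (Finset.univ.filter fun k : ι => MinImp P i.1 k.1), p ^ (DS i.1 k.1).card =
      ∑ φ' ∈ (Finset.univ.filter fun k : ι => MinImp P i.1 k.1).map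
        (Function.Embedding.subtype _), p ^ (DS i.1 φ').card := by
    rw [Finset.sum_map]
    rfl
  rw [h6]
  apply Finset.sum_le_sum_of_subset_of_nonneg
  · intro φ' h
    rw [Finset.mem_map] at h
    obtain ⟨k, hk, rfl⟩ := h
    rw [Finset.mem_filter] at hk ⊢
    exact ⟨Finset.mem_univ _, hk.2⟩
  · intro _ _ _
    positivity

open Classical in
lemma total_eq (p : ℝ) :
    ∑ P : Equiv.Perm (Fin (m * w)), ∑ φ ∈ (Finset.univ : Finset (Pl m w)).filter (fun φ => On P φ),
      ∑ φ' ∈ (Finset.univ : Finset (Pl m w)).filter (fun φ' => MinImp P φ φ'),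
        p ^ (DS φ φ').card =
    ∑ D : Finset (Fin m × Fin m), p ^ D.card * (WD m w D : ℝ) := by
  have h1 : ∀ P : Equiv.Perm (Fin (m * w)),
      ∑ φ ∈ (Finset.univ : Finset (Pl m w)).filter (fun φ => On P φ),
      ∑ φ' ∈ (Finset.univ : Finset (Pl m w)).filter (fun φ' => MinImp P φ φ'),
        p ^ (DS φ φ').card =
      ∑ D : Finset (Fin m × Fin m), p ^ D.card *
        (((Finset.univ : Finset (Pl m w × Pl m w)).filter fun c =>
          On P c.1 ∧ MinImp P c.1 c.2 ∧ DS c.1 c.2 = D).card : ℝ) := by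
    intro P
    have h2 : ∑ φ ∈ (Finset.univ : Finset (Pl m w)).filter (fun φ => On P φ),
      ∑ φ' ∈ (Finset.univ : Finset (Pl m w)).filter (fun φ' => MinImp P φ φ'),
        p ^ (DS φ φ').card =
      ∑ c ∈ (Finset.univ : Finset (Pl m w × Pl m w)).filter
        (fun c => On P c.1 ∧ MinImp P c.1 c.2), p ^ (DS c.1 c.2).card := by
      have e := Fintype.sum_prod_type (fun c : Pl m w × Pl m w =>
        if On P c.1 ∧ MinImp P c.1 c.2 then p ^ (DS c.1 c.2).card else 0)
      rw [Finset.sum_filter, Finset.sum_filter, e]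
      refine Finset.sum_congr rfl fun φ _ => ?_
      by_cases h : On P φ
      · rw [if_pos h, Finset.sum_filter]
        refine Finset.sum_congr rfl fun φ' _ => ?_
        by_cases h' : MinImp P φ φ'
        · rw [if_pos h', if_pos ⟨h, h'⟩]
        · rw [if_neg h', if_neg (fun h3 => h' h3.2)]
      · rw [if_neg h]
        symm
        apply Finset.sum_eq_zero
        intro φ' _
        rw [if_neg (fun h3 => h h3.1)]
    rw [h2, ← Finset.sum_fiberwise _ (fun c => DS c.1 c.2)]
    refine Finset.sum_congr rfl fun D _ => ?_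
    rw [Finset.filter_filter]
    have e : ∑ c ∈ (Finset.univ : Finset (Pl m w × Pl m w)).filter
        (fun c => (On P c.1 ∧ MinImp P c.1 c.2) ∧ DS c.1 c.2 = D), p ^ (DS c.1 c.2).card =
        ∑ c ∈ (Finset.univ : Finset (Pl m w × Pl m w)).filter
        (fun c => (On P c.1 ∧ MinImp P c.1 c.2) ∧ DS c.1 c.2 = D), p ^ D.card := by
      refine Finset.sum_congr rfl fun c hc => ?_
      rw [(Finset.mem_filter.mp hc).2.2]
    rw [e, Finset.sum_const, nsmul_eq_mul, mul_comm]
    congr 3
    ext c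
    simp only [and_assoc]
  simp only [h1]
  rw [Finset.sum_comm]
  refine Finset.sum_congr rfl fun D _ => ?_
  rw [← Finset.mul_sum]
  congr 1
  unfold WD
  push_cast
  rfl

open Classical in
lemma total_card : ∑ P : Equiv.Perm (Fin (m * w)),
      (((Finset.univ : Finset (Pl m w)).filter (fun φ => On P φ)).card : ℝ) =
      (w.choose m : ℝ) ^ (2 * m) * ((m * w - m * m).factorial : ℝ) := by
  have h1 : ∑ P : Equiv.Perm (Fin (m * w)),
      ((Finset.univ : Finset (Pl m w)).filter (fun φ => On P φ)).card =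
      ∑ φ : Pl m w, ((Finset.univ : Finset (Equiv.Perm (Fin (m * w)))).filter
        fun P => On P φ).card := by
    simp only [Finset.card_filter]
    rw [Finset.sum_comm]
  have h2 : ∑ P : Equiv.Perm (Fin (m * w)),
      ((Finset.univ : Finset (Pl m w)).filter (fun φ => On P φ)).card =
      (w.choose m) ^ (2 * m) * (m * w - m * m).factorial := by
    rw [h1]
    have h3 : ∀ φ : Pl m w, ((Finset.univ : Finset (Equiv.Perm (Fin (m * w)))).filter
        fun P => On P φ).card = (m * w - m * m).factorial := fun φ => on_card φ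
    simp only [h3]
    rw [Finset.sum_const, smul_eq_mul, Finset.card_univ, Fintype.card_prod, Fintype.card_pi]
    simp only [card_chain]
    rw [Finset.prod_const, Finset.card_univ, Fintype.card_fin, two_mul, pow_add]
  exact_mod_cast h2

/-- the lower bound -/
lemma thin_lower (g : ℕ) (hm : 32 ≤ m) (hg : 11 ≤ g) (p : ℝ) (hp : 0 ≤ p) (hp2 : p ≤ 1 / 2)
    (hη : 512 * eta m g p ≤ 1) :
    p ^ (m * m) * T0 m g * Real.exp (-((1 + 2 * p) * ((m:ℝ) ^ 2 * (2 * eta m g p +
      2 * dc m (g * m) * (eta m g p) ^ 2 + (512 * eta m g p) ^ 3)))) ≤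
      ((m * (g * m)).factorial : ℝ) * thin (tau m) (m * (g * m)) p := by
  classical
  set G : ℝ := (m:ℝ) ^ 2 * (2 * eta m g p + 2 * dc m (g * m) * (eta m g p) ^ 2 +
    (512 * eta m g p) ^ 3) with hG
  rw [← thin_eq]
  refine le_trans ?_ (Finset.sum_le_sum fun P _ => canon_P (m := m) (w := g * m) P p hp hp2)
  set f : Equiv.Perm (Fin (m * (g * m))) → Pl m (g * m) → ℝ := fun P φ =>
    ∑ φ' ∈ (Finset.univ : Finset (Pl m (g * m))).filter (fun φ' => MinImp P φ φ'),
      p ^ (DS φ φ').card with hf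
  have hc : 0 ≤ 1 + 2 * p := by linarith
  have htan : ∀ P φ, Real.exp (-((1 + 2 * p) * G)) * (1 - (1 + 2 * p) * (f P φ - G)) ≤
      Real.exp (-((1 + 2 * p) * f P φ)) := by
    intro P φ
    have h1 := Real.add_one_le_exp (-((1 + 2 * p) * (f P φ - G)))
    have h2 : Real.exp (-((1 + 2 * p) * f P φ)) = Real.exp (-((1 + 2 * p) * G)) *
        Real.exp (-((1 + 2 * p) * (f P φ - G))) := by
      rw [← Real.exp_add]; congr 1; ring
    rw [h2]
    apply mul_le_mul_of_nonneg_left _ (Real.exp_pos _).le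
    linarith
  have htot := total_eq (m := m) (w := g * m) p
  have hcard := total_card (m := m) (w := g * m)
  have hWD := WD_total g hm hg p hp hη
  have hT : ((g * m).choose m : ℝ) ^ (2 * m) * ((m * (g * m) - m * m).factorial : ℝ) = T0 m g := rfl
  rw [hT] at hcard
  calc p ^ (m * m) * T0 m g * Real.exp (-((1 + 2 * p) * G))
      ≤ p ^ (m * m) * (Real.exp (-((1 + 2 * p) * G)) * (T0 m g -
          (1 + 2 * p) * ((∑ D : Finset (Fin m × Fin m), p ^ D.card * (WD m (g * m) D : ℝ)) -
            T0 m g * G))) := by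
        have h1 : 0 ≤ -((1 + 2 * p) * ((∑ D : Finset (Fin m × Fin m), p ^ D.card *
            (WD m (g * m) D : ℝ)) - T0 m g * G)) := by
          rw [neg_nonneg]
          apply mul_nonpos_of_nonneg_of_nonpos hc
          linarith
        have h2 := Real.exp_pos (-((1 + 2 * p) * G))
        have h3 : 0 ≤ p ^ (m * m) := by positivity
        rw [mul_assoc]
        apply mul_le_mul_of_nonneg_left _ h3
        rw [mul_comm]
        apply mul_le_mul_of_nonneg_left _ h2.le
        linarith
    _ = ∑ P : Equiv.Perm (Fin (m * (g * m))),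
        ∑ φ ∈ (Finset.univ : Finset (Pl m (g * m))).filter (fun φ => On P φ),
          p ^ (m * m) * (Real.exp (-((1 + 2 * p) * G)) * (1 - (1 + 2 * p) * (f P φ - G))) := by
        simp only [← Finset.mul_sum]
        congr 2
        have h1 : ∀ P : Equiv.Perm (Fin (m * (g * m))),
            ∑ φ ∈ (Finset.univ : Finset (Pl m (g * m))).filter (fun φ => On P φ),
              (1 - (1 + 2 * p) * (f P φ - G)) =
            (1 + (1 + 2 * p) * G) * (((Finset.univ : Finset (Pl m (g * m))).filter
              (fun φ => On P φ)).card : ℝ) - (1 + 2 * p) *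
              ∑ φ ∈ (Finset.univ : Finset (Pl m (g * m))).filter (fun φ => On P φ), f P φ := by
          intro P
          rw [Finset.mul_sum]
          have : ∀ φ, 1 - (1 + 2 * p) * (f P φ - G) = (1 + (1 + 2 * p) * G) -
              (1 + 2 * p) * f P φ := by intro φ; ring
          simp only [this, Finset.sum_sub_distrib, Finset.sum_const, nsmul_eq_mul]
          ring
        simp only [h1, Finset.sum_sub_distrib, ← Finset.mul_sum]
        rw [hcard]
        simp only [hf]
        rw [htot]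
        ring
    _ ≤ _ := by
        refine Finset.sum_le_sum fun P _ => Finset.sum_le_sum fun φ _ => ?_
        apply mul_le_mul_of_nonneg_left (htan P φ) (by positivity)

end Pool.Agent.LibC3e
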