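import Pool.Agent.LibC3e.Chain2

/-! Numerical conclusion at `m = 2^200`. -/

set_option autoImplicit false

namespace Pool.Agent.LibC3e

open Finset

lemma exp_small (t : ℝ) (h0 : 0 ≤ t) (h1 : t ≤ 1 / 2) : Real.exp t ≤ 1 + 2 * t := by
  have h2 := Real.add_one_le_exp (-t)
  have h3 : 0 < 1 - t := by linarith
  have h4 : Real.exp t = (Real.exp (-t))⁻¹ := by rw [Real.exp_neg, inv_inv]
  rw [h4, inv_le_iff_one_le_mul₀ (Real.exp_pos _)]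
  nlinarith

lemma exp_twelve : (1:ℝ) / 2 ^ 18 ≤ (Real.exp (-4)) ^ 3 := by
  have h : Real.exp 1 < 2.72 := lt_trans Real.exp_one_lt_d9 (by norm_num)
  have h1 : (Real.exp (-4)) ^ 3 = ((Real.exp 1) ^ 12)⁻¹ := by
    rw [← Real.exp_nat_mul, ← Real.exp_nat_mul, ← Real.exp_neg]
    congr 1
    norm_num
  rw [h1, one_div]
  apply inv_anti₀ (by positivity)
  calc (Real.exp 1) ^ 12 ≤ (2.72:ℝ) ^ 12 := pow_le_pow_left₀ (Real.exp_pos _).le h.le 12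
    _ ≤ 2 ^ 18 := by norm_num

/-- the exponent of the lower bound -/
lemma E_bound (m : ℕ) (hm : m = 2 ^ 200) (p : ℝ) (hp : p = (1 / 2 ^ 48 : ℝ) * m ^ 2 / ((m ^ 4 : ℕ) : ℝ)) :
    512 * eta m (m ^ 4) p ≤ 1 ∧
    (1 + 2 * p) * ((m:ℝ) ^ 2 * (2 * eta m (m ^ 4) p +
      2 * dc m (m ^ 4 * m) * (eta m (m ^ 4) p) ^ 2 + (512 * eta m (m ^ 4) p) ^ 3)) ≤
      (m:ℝ) ^ 2 * (2 * (1 / 2 ^ 48) + (1 / 2 ^ 48) ^ 2 - (1 / 2 ^ 48) ^ 2 / 2 ^ 20) := by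
  have hx : (m:ℝ) = 2 ^ 200 := by rw [hm]; norm_num
  have hx0 : (0:ℝ) < (m:ℝ) := by rw [hx]; positivity
  set x : ℝ := (m:ℝ) with hxd
  have hp' : p = (1 / 2 ^ 48) / x ^ 2 := by
    rw [hp]
    push_cast
    rw [← hxd]
    field_simp
  have hηv : eta m (m ^ 4) p = (1 / 2 ^ 48) * x ^ 4 / (x ^ 4 - 2) := by
    unfold eta
    push_cast
    rw [← hxd, hp']
    have h1 : x ^ 4 - 2 ≠ 0 := by rw [hx]; norm_num
    have h2 : x * (x ^ 4 * x) - 2 * x * x ≠ 0 := by rw [hx]; norm_num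
    field_simp
  set η := eta m (m ^ 4) p with hη
  have hη1 : η ≤ (1 / 2 ^ 48) * (1 + 1 / 2 ^ 200) := by
    rw [hηv, hx]
    norm_num
  have hη0 : 0 ≤ η := by
    rw [hηv, hx]
    norm_num
  have hdc : 2 * dc m (m ^ 4 * m) ≤ 1 + 1 / 2 ^ 200 - 1 / 2 ^ 18 := by
    unfold dc
    have h1 : (rr m (m ^ 4 * m))⁻¹ = Real.exp (1 / x ^ 4) := by
      unfold rr
      rw [← Real.exp_neg, neg_neg]
      congr 1
      push_cast
      rw [← hxd]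
      field_simp
    have h2 : Real.exp (1 / x ^ 4) ≤ 1 + 2 * (1 / x ^ 4) := by
      apply exp_small
      · positivity
      · rw [hx]; norm_num
    have h3 : 2 * (1 / x ^ 4) ≤ 1 / 2 ^ 200 := by rw [hx]; norm_num
    have h4 := exp_twelve
    rw [h1]
    linarith
  have hdc0 : 0 ≤ 1 + (1:ℝ) / 2 ^ 200 - 1 / 2 ^ 18 := by norm_num
  have hp2 : 1 + 2 * p ≤ 1 + 1 / 2 ^ 200 := by
    rw [hp', hx]; norm_num
  have hp0 : 0 ≤ 1 + 2 * p := by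
    rw [hp']; positivity
  refine ⟨?_, ?_⟩
  · calc 512 * η ≤ 512 * ((1 / 2 ^ 48) * (1 + 1 / 2 ^ 200)) := by linarith
      _ ≤ 1 := by norm_num
  · set T : ℝ := (1 / 2 ^ 48) * (1 + 1 / 2 ^ 200) with hT
    have hT0 : 0 ≤ T := by rw [hT]; positivity
    have h1 : 2 * η + 2 * dc m (m ^ 4 * m) * η ^ 2 + (512 * η) ^ 3 ≤
        2 * T + (1 + 1 / 2 ^ 200 - 1 / 2 ^ 18) * T ^ 2 + (512 * T) ^ 3 := by
      have h2 : η ^ 2 ≤ T ^ 2 := pow_le_pow_left₀ hη0 hη1 2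
      have h3 : (512 * η) ^ 3 ≤ (512 * T) ^ 3 := by
        apply pow_le_pow_left₀ (by positivity)
        linarith
      have h4 : 2 * dc m (m ^ 4 * m) * η ^ 2 ≤ (1 + 1 / 2 ^ 200 - 1 / 2 ^ 18) * T ^ 2 := by
        calc 2 * dc m (m ^ 4 * m) * η ^ 2 ≤ (1 + 1 / 2 ^ 200 - 1 / 2 ^ 18) * η ^ 2 :=
              mul_le_mul_of_nonneg_right hdc (by positivity)
          _ ≤ _ := mul_le_mul_of_nonneg_left h2 hdc0
      exact add_le_add (add_le_add (mul_le_mul_of_nonneg_left hη1 (by norm_num)) h4) h3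
    have h5 : 0 ≤ 2 * T + (1 + 1 / 2 ^ 200 - 1 / 2 ^ 18) * T ^ 2 + (512 * T) ^ 3 := by positivity
    calc (1 + 2 * p) * (x ^ 2 * (2 * η + 2 * dc m (m ^ 4 * m) * η ^ 2 + (512 * η) ^ 3))
        ≤ (1 + 1 / 2 ^ 200) * (x ^ 2 * (2 * T + (1 + 1 / 2 ^ 200 - 1 / 2 ^ 18) * T ^ 2 +
          (512 * T) ^ 3)) := by
          apply mul_le_mul hp2 (mul_le_mul_of_nonneg_left h1 (by positivity)) _ (by positivity)
          apply mul_nonneg (by positivity)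
          have hdd : 0 ≤ dc m (m ^ 4 * m) := by
            apply dc_nonneg
            · rw [hm]; positivity
            · rw [hm]; positivity
          positivity
      _ = x ^ 2 * ((1 + 1 / 2 ^ 200) * (2 * T + (1 + 1 / 2 ^ 200 - 1 / 2 ^ 18) * T ^ 2 +
          (512 * T) ^ 3)) := by ring
      _ ≤ _ := by
          apply mul_le_mul_of_nonneg_left _ (by positivity)
          rw [hT]
          norm_num

lemma log_one_sub_ge (y : ℝ) (h0 : 0 ≤ y) (h1 : y ≤ 1 / 2) :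
    -y - y ^ 2 / 2 - 2 * y ^ 3 ≤ Real.log (1 - y) := by
  have h := Real.abs_log_sub_add_sum_range_le (x := y) (by rw [abs_of_nonneg h0]; linarith) 2
  simp only [Finset.sum_range_succ, Finset.sum_range_zero] at h
  rw [abs_of_nonneg h0] at h
  have h2 := (abs_le.mp h).1
  have h3 : y ^ (2 + 1) / (1 - y) ≤ 2 * y ^ 3 := by
    rw [div_le_iff₀ (by linarith)]
    have : 0 ≤ y ^ 3 := by positivity
    norm_num
    nlinarith
  norm_num at h2 h3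
  linarith

lemma log_one_sub_ge' (y : ℝ) (h0 : 0 ≤ y) (h1 : y ≤ 1 / 2) : -2 * y ≤ Real.log (1 - y) := by
  have h2 : Real.exp (-2 * y) ≤ 1 - y := by
    have h3 := Real.add_one_le_exp (2 * y)
    have h4 : Real.exp (-2 * y) = (Real.exp (2 * y))⁻¹ := by rw [← Real.exp_neg]; congr 1; ring
    rw [h4]
    have h5 : (Real.exp (2 * y))⁻¹ ≤ (2 * y + 1)⁻¹ := inv_anti₀ (by linarith) h3
    refine h5.trans ?_
    rw [inv_le_iff_one_le_mul₀ (by linarith)]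
    nlinarith
  rw [Real.le_log_iff_exp_le (by linarith)]
  exact h2

lemma middle_contra (m : ℕ) (hm : m = 2 ^ 200) (E : ℝ)
    (hE : E ≤ (m:ℝ) ^ 2 * (2 * (1 / 2 ^ 48) + (1 / 2 ^ 48) ^ 2 - (1 / 2 ^ 48) ^ 2 / 2 ^ 20))
    (h : (((1 - (1 / 2 ^ 48 : ℝ)) * (1 - 1 / ((m ^ 4 : ℕ) : ℝ))) ^ (2 * (m * m)) *
        Real.exp (2 * (m * m))) * Real.exp (-E) ≤
      (Real.exp 1 * m) ^ (2 * m) * ((1 - (1 / 2 ^ 48 : ℝ)) * 2 ^ 24) ^ 2 *
        (Real.exp 1 * ((1 / 2 ^ 48 : ℝ) * m ^ 4) *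
        Real.exp (2 * ((1 / 2 ^ 24 : ℝ) * m ^ 2) * (((1 - (1 / 2 ^ 48 : ℝ)) * 2 ^ 24) -
          1 / ((1 - (1 / 2 ^ 48 : ℝ)) * 2 ^ 24)) + 1 +
          (((1 - (1 / 2 ^ 48 : ℝ)) * 2 ^ 24) - 1 / ((1 - (1 / 2 ^ 48 : ℝ)) * 2 ^ 24) + 1) ^ 2))) :
    False := by
  have hx : (m:ℝ) = 2 ^ 200 := by rw [hm]; norm_num
  have hx0 : (0:ℝ) < (m:ℝ) := by rw [hx]; positivity
  set y : ℝ := 1 / 2 ^ 48 with hy
  set s : ℝ := (1 - y) * 2 ^ 24 with hs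
  have hy0 : 0 < y := by rw [hy]; positivity
  have hy1 : y ≤ 1 / 2 := by rw [hy]; norm_num
  have hg0 : (0:ℝ) ≤ 1 / ((m ^ 4 : ℕ) : ℝ) := by positivity
  have hg : 1 / ((m ^ 4 : ℕ) : ℝ) ≤ 1 / 2 ^ 250 := by
    push_cast
    rw [hx]
    norm_num
  set γ : ℝ := 1 / ((m ^ 4 : ℕ) : ℝ) with hγ
  have hγ1 : γ ≤ 1 / 2 := hg.trans (by norm_num)
  have hy1' : 0 < 1 - y := by rw [hy]; norm_num
  have hg1' : 0 < 1 - γ := sub_pos.mpr (lt_of_le_of_lt hγ1 (by norm_num))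
  -- lower bound of the left side
  have hL : Real.exp (2 * (m:ℝ) ^ 2 * (-y - y ^ 2 / 2 - 2 * y ^ 3 - 2 * γ) + 2 * (m:ℝ) ^ 2 - E) ≤
      (((1 - y) * (1 - γ)) ^ (2 * (m * m)) * Real.exp (2 * (m * m))) * Real.exp (-E) := by
    have h1 := log_one_sub_ge y hy0.le hy1
    have h2 := log_one_sub_ge' γ hg0 hγ1
    have h3 : 0 < (1 - y) * (1 - γ) := mul_pos hy1' hg1'
    have h4 : Real.exp (2 * (m:ℝ) ^ 2 * (-y - y ^ 2 / 2 - 2 * y ^ 3 - 2 * γ)) ≤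
        ((1 - y) * (1 - γ)) ^ (2 * (m * m)) := by
      have h5 : ((1 - y) * (1 - γ)) ^ (2 * (m * m)) =
          Real.exp (2 * (m:ℝ) ^ 2 * Real.log ((1 - y) * (1 - γ))) := by
        conv_lhs => rw [← Real.exp_log h3]
        rw [← Real.exp_nat_mul]
        congr 1
        push_cast
        ring
      rw [h5]
      apply Real.exp_le_exp.mpr
      apply mul_le_mul_of_nonneg_left _ (by positivity)
      rw [Real.log_mul hy1'.ne' hg1'.ne']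
      linarith
    have h6 : Real.exp (2 * (m:ℝ) ^ 2 * (-y - y ^ 2 / 2 - 2 * y ^ 3 - 2 * γ) + 2 * (m:ℝ) ^ 2 - E) =
        Real.exp (2 * (m:ℝ) ^ 2 * (-y - y ^ 2 / 2 - 2 * y ^ 3 - 2 * γ)) *
          Real.exp (2 * (m * m)) * Real.exp (-E) := by
      rw [← Real.exp_add, ← Real.exp_add]
      congr 1
      ring
    rw [h6]
    apply mul_le_mul_of_nonneg_right _ (Real.exp_pos _).le
    exact mul_le_mul_of_nonneg_right h4 (Real.exp_pos _).le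
  -- upper bound of the right side
  have hmexp : (m:ℝ) ≤ Real.exp 200 := by
    rw [hx]
    have h1 : (2:ℝ) ≤ Real.exp 1 := by
      have := Real.add_one_le_exp (1:ℝ)
      linarith
    calc (2:ℝ) ^ 200 ≤ (Real.exp 1) ^ 200 := pow_le_pow_left₀ (by norm_num) h1 200
      _ = Real.exp 200 := by rw [← Real.exp_nat_mul]; norm_num
  have hR1 : (Real.exp 1 * m) ^ (2 * m) ≤ Real.exp (402 * m) := by
    calc (Real.exp 1 * m) ^ (2 * m) ≤ (Real.exp 1 * Real.exp 200) ^ (2 * m) := by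
          apply pow_le_pow_left₀ (by positivity)
          exact mul_le_mul_of_nonneg_left hmexp (Real.exp_pos _).le
      _ = Real.exp (402 * m) := by
          rw [← Real.exp_add, ← Real.exp_nat_mul]
          congr 1
          push_cast
          ring
  have hs0 : 0 < s := by rw [hs]; exact mul_pos hy1' (by norm_num)
  have hs24 : s ≤ 2 ^ 24 := by
    rw [hs]
    have : (1 - y) ≤ 1 := by linarith
    nlinarith
  have hR2 : s ^ 2 ≤ Real.exp (2 ^ 48) := by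
    calc s ^ 2 ≤ (2 ^ 24) ^ 2 := pow_le_pow_left₀ hs0.le hs24 2
      _ ≤ (2 ^ 48 : ℝ) + 1 := by norm_num
      _ ≤ _ := Real.add_one_le_exp _
  have hR3 : y * (m:ℝ) ^ 4 ≤ Real.exp 800 := by
    calc y * (m:ℝ) ^ 4 ≤ 1 * (Real.exp 200) ^ 4 := by
          apply mul_le_mul (by linarith) (pow_le_pow_left₀ hx0.le hmexp 4) (by positivity) (by norm_num)
      _ = Real.exp 800 := by rw [one_mul, ← Real.exp_nat_mul]; norm_num
  have hR4 : 2 * ((1 / 2 ^ 24 : ℝ) * (m:ℝ) ^ 2) * (s - 1 / s) + 1 + (s - 1 / s + 1) ^ 2 ≤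
      2 * (m:ℝ) ^ 2 * (1 - 2 * y - y ^ 2) + 1 + 2 ^ 50 := by
    have h1 : (1 / 2 ^ 24 : ℝ) * (s - 1 / s) ≤ 1 - 2 * y - y ^ 2 := by
      rw [hs, hy]
      norm_num
    have h2 : (s - 1 / s + 1) ^ 2 ≤ 2 ^ 50 := by
      have h3 : 0 ≤ s - 1 / s + 1 := by
        rw [hs, hy]; norm_num
      have h4 : s - 1 / s + 1 ≤ 2 ^ 25 := by
        have : 0 ≤ 1 / s := by positivity
        have h5 : (2:ℝ) ^ 24 + 1 ≤ 2 ^ 25 := by norm_num
        linarith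
      calc (s - 1 / s + 1) ^ 2 ≤ (2 ^ 25) ^ 2 := pow_le_pow_left₀ h3 h4 2
        _ = 2 ^ 50 := by norm_num
    have h3 : 2 * ((1 / 2 ^ 24 : ℝ) * (m:ℝ) ^ 2) * (s - 1 / s) =
        2 * (m:ℝ) ^ 2 * ((1 / 2 ^ 24 : ℝ) * (s - 1 / s)) := by ring
    rw [h3]
    have h4 : 2 * (m:ℝ) ^ 2 * ((1 / 2 ^ 24 : ℝ) * (s - 1 / s)) ≤
        2 * (m:ℝ) ^ 2 * (1 - 2 * y - y ^ 2) := mul_le_mul_of_nonneg_left h1 (by positivity)
    linarith
  have hR : (Real.exp 1 * m) ^ (2 * m) * s ^ 2 * (Real.exp 1 * (y * m ^ 4) *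
        Real.exp (2 * ((1 / 2 ^ 24 : ℝ) * m ^ 2) * (s - 1 / s) + 1 + (s - 1 / s + 1) ^ 2)) ≤
      Real.exp (402 * m + 2 ^ 48 + (1 + 800 + (2 * (m:ℝ) ^ 2 * (1 - 2 * y - y ^ 2) + 1 + 2 ^ 50))) := by
    rw [Real.exp_add (402 * m + 2 ^ 48), Real.exp_add (402 * (m:ℝ)), Real.exp_add (1 + 800),
      Real.exp_add 1 800]
    apply mul_le_mul (mul_le_mul hR1 hR2 (by positivity) (Real.exp_pos _).le) _ (by positivity)
      (by positivity)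
    apply mul_le_mul (mul_le_mul_of_nonneg_left hR3 (Real.exp_pos _).le)
      (Real.exp_le_exp.mpr hR4) (Real.exp_pos _).le (by positivity)
  have hfin := Real.exp_le_exp.mp ((hL.trans h).trans hR)
  -- contradiction
  have hgm : (m:ℝ) ^ 2 * γ ≤ (m:ℝ) ^ 2 * (1 / 2 ^ 250) :=
    mul_le_mul_of_nonneg_left hg (by positivity)
  have hnum : 402 * (m:ℝ) + 2 ^ 48 + (1 + 800 + (1 + 2 ^ 50)) <
      (m:ℝ) ^ 2 * (y ^ 2 / 2 ^ 20 - 4 * y ^ 3 - 4 * (1 / 2 ^ 250)) := by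
    rw [hx, hy]
    norm_num
  have hid : (m:ℝ) ^ 2 * (y ^ 2 / 2 ^ 20 - 4 * y ^ 3 - 4 * (1 / 2 ^ 250)) =
      (2 * (m:ℝ) ^ 2 * (-y - y ^ 2 / 2 - 2 * y ^ 3) + 2 * (m:ℝ) ^ 2) -
      (m:ℝ) ^ 2 * (2 * y + y ^ 2 - y ^ 2 / 2 ^ 20) - 2 * (m:ℝ) ^ 2 * (1 - 2 * y - y ^ 2) -
      4 * ((m:ℝ) ^ 2 * (1 / 2 ^ 250)) := by ring
  nlinarith

end Pool.Agent.LibC3e
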