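import Pool.Agent.LibC3e.MonoGrid

/-! Tail bound for the longest increasing subsequence of a uniform permutation. -/

set_option autoImplicit false

namespace Pool.Agent.LibC3e

open Finset Filter Topology

lemma mono_finite (k n N : ℕ) (l s : ℝ) (hl : 0 ≤ l) (hs : 1 ≤ s) (hN : 0 < N) (hlN : l ≤ (N:ℝ)^2) :
    (s ^ 2) ^ k * ((cnt (1 : Equiv.Perm (Fin k)) n : ℝ) * ((N.choose n : ℝ) ^ 2 *
        ((l / (N:ℝ)^2) ^ n * (1 - l / (N:ℝ)^2) ^ (N * N)))) ≤
      Real.exp (2 * Real.sqrt l * (s - 1 / s)) := by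
  have hNr : (0:ℝ) < N := by exact_mod_cast hN
  have hs0 : (0:ℝ) < s := by linarith
  set p := l / (N:ℝ)^2 with hp
  have hp0 : 0 ≤ p := by positivity
  have hp1 : p ≤ 1 := by
    rw [hp, div_le_one (by positivity)]; exact hlN
  set a := Real.sqrt l / (s * N) with ha
  have ha0 : 0 ≤ a := by positivity
  have hat : a * (a * s ^ 2) = p := by
    rw [ha, hp]
    have h2 : Real.sqrt l * Real.sqrt l = l := Real.mul_self_sqrt hl
    field_simp
    nlinarith [h2]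
  have h := mono_grid k n N p a (s^2) hp0 hp1 ha0 (by nlinarith) hat
  have hpos : (0:ℝ) < (1 + a) ^ (2 * N) := by positivity
  have hX : (s ^ 2) ^ k * ((cnt (1 : Equiv.Perm (Fin k)) n : ℝ) * ((N.choose n : ℝ) ^ 2 *
        (p ^ n * (1 - p) ^ (N * N)))) ≤ (s ^ 2) ^ k *
        ((cnt (1 : Equiv.Perm (Fin k)) n : ℝ) * (N.choose n : ℝ) ^ 2 *
        (p ^ n * (1 - p) ^ (N * N - n))) := by
    have h1 : (1 - p) ^ (N * N) ≤ (1 - p) ^ (N * N - n) :=
      pow_le_pow_of_le_one (by linarith) (by linarith) (Nat.sub_le _ _)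
    rw [mul_assoc ((cnt (1 : Equiv.Perm (Fin k)) n : ℝ))]
    gcongr
  refine le_trans hX ?_
  have h3 : (s ^ 2) ^ k * ((cnt (1 : Equiv.Perm (Fin k)) n : ℝ) * (N.choose n : ℝ) ^ 2 *
        (p ^ n * (1 - p) ^ (N * N - n))) ≤ (1 + a * s^2) ^ (2 * N) / (1 + a) ^ (2 * N) := by
    rw [le_div_iff₀ hpos]
    refine le_trans (le_of_eq ?_) h
    ring
  refine le_trans h3 ?_
  rw [← div_pow]
  have h4 : (1 + a * s^2) / (1 + a) ≤ Real.exp (a * (s^2 - 1)) := by
    have h5 : (1 + a * s^2) / (1 + a) ≤ 1 + a * (s^2 - 1) := by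
      rw [div_le_iff₀ (by linarith)]
      have : 0 ≤ a * a * (s^2 - 1) := by
        apply mul_nonneg (mul_nonneg ha0 ha0); nlinarith
      nlinarith
    refine le_trans h5 ?_
    have := Real.add_one_le_exp (a * (s^2 - 1))
    linarith
  have h6 : ((1 + a * s^2) / (1 + a)) ^ (2 * N) ≤ (Real.exp (a * (s^2 - 1))) ^ (2 * N) := by
    apply pow_le_pow_left₀ _ h4
    positivity
  refine le_trans h6 (le_of_eq ?_)
  rw [← Real.exp_nat_mul]
  congr 1
  rw [ha]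
  push_cast
  field_simp

lemma choose_lower (n N : ℕ) (h : n ≤ N) (hN : 0 < N) :
    (1 - (n:ℝ) / N) ^ n / (n.factorial : ℝ) ≤ (N.choose n : ℝ) / (N:ℝ) ^ n := by
  have hNr : (0:ℝ) < N := by exact_mod_cast hN
  have hf : (0:ℝ) < (n.factorial : ℝ) := by exact_mod_cast Nat.factorial_pos n
  have h1 : ((N:ℝ) - n) ^ n ≤ (N.descFactorial n : ℝ) := by
    have h2 := Nat.pow_sub_le_descFactorial N n
    have h3 : ((N:ℝ) - n) ≤ ((N + 1 - n : ℕ) : ℝ) := by
      rw [Nat.cast_sub (by omega)]; push_cast; linarith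
    have h4 : (0:ℝ) ≤ (N:ℝ) - n := by
      have : (n:ℝ) ≤ N := by exact_mod_cast h
      linarith
    calc ((N:ℝ) - n) ^ n ≤ ((N + 1 - n : ℕ) : ℝ) ^ n := pow_le_pow_left₀ h4 h3 n
      _ ≤ (N.descFactorial n : ℝ) := by exact_mod_cast h2
  have h5 : (N.descFactorial n : ℝ) = (n.factorial : ℝ) * (N.choose n : ℝ) := by
    rw [Nat.descFactorial_eq_factorial_mul_choose]; push_cast; ring
  rw [div_le_div_iff₀ hf (by positivity)]
  have h6 : (1 - (n:ℝ)/N) ^ n * (N:ℝ)^n = ((N:ℝ) - n)^n := by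
    rw [← mul_pow]
    congr 1
    field_simp
  rw [h6]
  linarith [h1, h5, mul_comm (n.factorial : ℝ) (N.choose n : ℝ)]

lemma mono_bound (k n : ℕ) (l s : ℝ) (hl : 0 ≤ l) (hs : 1 ≤ s) :
    (cnt (1 : Equiv.Perm (Fin k)) n : ℝ) * (l ^ n * Real.exp (-l)) * (s ^ 2) ^ k ≤
      (n.factorial : ℝ) ^ 2 * Real.exp (2 * Real.sqrt l * (s - 1 / s)) := by
  have hf : (0:ℝ) < (n.factorial : ℝ) := by exact_mod_cast Nat.factorial_pos n
  -- limiting statement
  have h1 : Tendsto (fun N : ℕ => (s ^ 2) ^ k * ((cnt (1 : Equiv.Perm (Fin k)) n : ℝ) *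
      (((1 - (n:ℝ) / N) ^ n / (n.factorial : ℝ)) ^ 2 * (l ^ n *
        (1 + (-l) / ((N ^ 2 : ℕ) : ℝ)) ^ (N ^ 2))))) atTop
      (𝓝 ((s ^ 2) ^ k * ((cnt (1 : Equiv.Perm (Fin k)) n : ℝ) *
      (((1 - 0) ^ n / (n.factorial : ℝ)) ^ 2 * (l ^ n * Real.exp (-l)))))) := by
    apply Tendsto.const_mul
    apply Tendsto.const_mul
    apply Tendsto.mul
    · apply Tendsto.pow
      apply Tendsto.div_const
      apply Tendsto.pow
      apply Tendsto.const_sub
      exact tendsto_const_div_atTop_nhds_zero_nat (n:ℝ)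
    · apply Tendsto.const_mul
      have h2 := Real.tendsto_one_add_div_pow_exp (-l)
      exact h2.comp (tendsto_pow_atTop (by norm_num))
  have h2 : (s ^ 2) ^ k * ((cnt (1 : Equiv.Perm (Fin k)) n : ℝ) *
      (((1 - 0) ^ n / (n.factorial : ℝ)) ^ 2 * (l ^ n * Real.exp (-l)))) ≤
      Real.exp (2 * Real.sqrt l * (s - 1 / s)) := by
    refine le_of_tendsto h1 ?_
    obtain ⟨N0, hN0⟩ := exists_nat_ge l
    filter_upwards [eventually_ge_atTop (max (max n 1) N0)] with N hN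
    have hNn : n ≤ N := by omega
    have hN1 : 0 < N := by omega
    have hNN0 : N0 ≤ N := by omega
    have hNr : (1:ℝ) ≤ N := by exact_mod_cast hN1
    have hlN : l ≤ (N:ℝ)^2 := by
      have : (N0:ℝ) ≤ N := by exact_mod_cast hNN0
      nlinarith
    refine le_trans ?_ (mono_finite k n N l s hl hs hN1 hlN)
    have h3 := choose_lower n N hNn hN1
    have h4 : (0:ℝ) ≤ (1 - (n:ℝ) / N) ^ n / (n.factorial : ℝ) := by
      have : (n:ℝ) ≤ N := by exact_mod_cast hNn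
      have : (n:ℝ) / N ≤ 1 := by
        rw [div_le_one (by linarith)]; exact this
      have : 0 ≤ 1 - (n:ℝ)/N := by linarith
      positivity
    have h5 : (1 + (-l) / ((N ^ 2 : ℕ) : ℝ)) = 1 - l / (N:ℝ)^2 := by
      push_cast; ring
    rw [h5]
    have h6 : (0:ℝ) ≤ (1 - l / (N:ℝ)^2) := by
      have : l / (N:ℝ)^2 ≤ 1 := by
        rw [div_le_one (by positivity)]; exact hlN
      linarith
    have h7 : (N.choose n : ℝ) ^ 2 * ((l / (N:ℝ)^2) ^ n * (1 - l / (N:ℝ)^2) ^ (N * N)) =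
      ((N.choose n : ℝ) / (N:ℝ)^n) ^ 2 * (l ^ n * (1 - l / (N:ℝ)^2) ^ (N ^ 2)) := by
      rw [div_pow, div_pow, ← pow_mul, ← pow_mul, mul_comm 2 n, sq N]
      ring
    rw [h7]
    gcongr
  have h3 : (s ^ 2) ^ k * ((cnt (1 : Equiv.Perm (Fin k)) n : ℝ) *
      (((1 - 0) ^ n / (n.factorial : ℝ)) ^ 2 * (l ^ n * Real.exp (-l)))) =
      ((cnt (1 : Equiv.Perm (Fin k)) n : ℝ) * (l ^ n * Real.exp (-l)) * (s ^ 2) ^ k) /
        (n.factorial : ℝ)^2 := by
    field_simp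
    ring
  rw [h3, div_le_iff₀ (by positivity)] at h2
  linarith

/-- `n! ≤ e n (n/e)^n` in the form used below -/
lemma factorial_le (n : ℕ) (hn : 1 ≤ n) :
    (n.factorial : ℝ) ≤ Real.exp 1 * n * ((n:ℝ) ^ n * Real.exp (-n)) := by
  induction n, hn using Nat.le_induction with
  | base =>
    simp only [Nat.factorial_one, Nat.cast_one, one_pow, mul_one, one_mul]
    rw [← Real.exp_add]; simp
  | succ n hn ih =>
    have hn0 : (0:ℝ) < n := by exact_mod_cast hn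
    rw [Nat.factorial_succ]
    push_cast
    -- need (n+1) * e n n^n e^{-n} ≤ e (n+1) (n+1)^{n+1} e^{-n-1}
    have h1 : (n:ℝ) * ((n:ℝ)^n) * Real.exp 1 ≤ ((n:ℝ)+1)^(n+1) := by
      have h2 : Real.exp (1 / ((n:ℝ) + 1)) ≤ ((n:ℝ)+1)/n := by
        have h3 := Real.add_one_le_exp (-(1 / ((n:ℝ)+1)))
        have h4 : -(1 / ((n:ℝ)+1)) + 1 = n / (n+1) := by field_simp; ring
        rw [h4, Real.exp_neg] at h3
        have h5 : 0 < (n:ℝ) / (n+1) := by positivity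
        have h6 := inv_anti₀ h5 h3
        rw [inv_inv, inv_div] at h6
        exact h6
      have h7 : Real.exp 1 ≤ (((n:ℝ)+1)/n)^(n+1) := by
        calc Real.exp 1 = (Real.exp (1 / ((n:ℝ) + 1)))^(n+1) := by
              rw [← Real.exp_nat_mul]; congr 1; push_cast; field_simp
          _ ≤ _ := pow_le_pow_left₀ (Real.exp_pos _).le h2 _
      rw [div_pow] at h7
      rw [le_div_iff₀ (by positivity)] at h7
      calc (n:ℝ) * ((n:ℝ)^n) * Real.exp 1 = Real.exp 1 * (n:ℝ)^(n+1) := by ring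
        _ ≤ _ := h7
    have h8 : Real.exp (-((n:ℝ)+1)) = Real.exp (-(n:ℝ)) * Real.exp (-1) := by
      rw [← Real.exp_add]; congr 1; ring
    rw [h8]
    have h9 : Real.exp 1 * Real.exp (-1) = 1 := by rw [← Real.exp_add]; simp
    calc ((n:ℝ)+1) * (n.factorial : ℝ)
        ≤ ((n:ℝ)+1) * (Real.exp 1 * n * ((n:ℝ) ^ n * Real.exp (-n))) := by gcongr
      _ = ((n:ℝ)+1) * Real.exp (-n) * ((n:ℝ) * ((n:ℝ)^n) * Real.exp 1) := by ring
      _ ≤ ((n:ℝ)+1) * Real.exp (-n) * ((n:ℝ)+1)^(n+1) := by gcongr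
      _ = (Real.exp 1 * Real.exp (-1)) * (((n:ℝ)+1) * Real.exp (-n) * ((n:ℝ)+1)^(n+1)) := by
          rw [h9]; ring
      _ = _ := by ring

/-- the probability that a uniform permutation of length `n` contains `12...k` -/
lemma mono_prob (k n : ℕ) (s : ℝ) (hn : 1 ≤ n) (hs : 1 ≤ s) :
    (cnt (1 : Equiv.Perm (Fin k)) n : ℝ) / (n.factorial : ℝ) * (s ^ 2) ^ k ≤
      Real.exp 1 * n * Real.exp (2 * Real.sqrt n * (s - 1 / s)) := by
  have hf : (0:ℝ) < (n.factorial : ℝ) := by exact_mod_cast Nat.factorial_pos n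
  have hn0 : (0:ℝ) < n := by exact_mod_cast hn
  have h := mono_bound k n n s hn0.le hs
  have h2 := factorial_le n hn
  have hX : (0:ℝ) < (n:ℝ) ^ n * Real.exp (-n) := by positivity
  rw [div_mul_eq_mul_div, div_le_iff₀ hf]
  have h3 : ((cnt (1 : Equiv.Perm (Fin k)) n : ℝ) * (s ^ 2) ^ k) * ((n:ℝ) ^ n * Real.exp (-n)) ≤
      (Real.exp 1 * n * Real.exp (2 * Real.sqrt n * (s - 1 / s)) * (n.factorial : ℝ)) *
        ((n:ℝ) ^ n * Real.exp (-n)) := by
    calc ((cnt (1 : Equiv.Perm (Fin k)) n : ℝ) * (s ^ 2) ^ k) * ((n:ℝ) ^ n * Real.exp (-n))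
        = (cnt (1 : Equiv.Perm (Fin k)) n : ℝ) * ((n:ℝ) ^ n * Real.exp (-n)) * (s ^ 2) ^ k := by ring
      _ ≤ (n.factorial : ℝ) ^ 2 * Real.exp (2 * Real.sqrt n * (s - 1 / s)) := h
      _ = (n.factorial : ℝ) * ((n.factorial : ℝ) * Real.exp (2 * Real.sqrt n * (s - 1 / s))) := by
          ring
      _ ≤ (Real.exp 1 * n * ((n:ℝ) ^ n * Real.exp (-n))) *
          ((n.factorial : ℝ) * Real.exp (2 * Real.sqrt n * (s - 1 / s))) := by gcongr
      _ = _ := by ring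
  exact le_of_mul_le_mul_right h3 hX

end Pool.Agent.LibC3e
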