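import Pool.Agent.LibC3e.Chain
import Pool.Agent.LibC3e.Basic

/-! Permutations with an increasing subsequence of length `k` inside the Bernoulli grid. -/

set_option autoImplicit false

namespace Pool.Agent.LibC3e

open Finset

/-- the matrix of the points `(e i, g (π i))` -/
noncomputable def om {n N : ℕ} (e g : Fin n ↪o Fin N) (π : Equiv.Perm (Fin n)) :
    Fin N → Fin N → Bool :=
  open Classical in fun r c => decide (∃ i, e i = r ∧ g (π i) = c)

lemma om_true {n N : ℕ} (e g : Fin n ↪o Fin N) (π : Equiv.Perm (Fin n)) (r c : Fin N) :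
    om e g π r c = true ↔ ∃ i, e i = r ∧ g (π i) = c := by
  simp [om]

lemma om_inj {n N : ℕ} : Function.Injective
    (fun x : (Fin n ↪o Fin N) × (Fin n ↪o Fin N) × Equiv.Perm (Fin n) => om x.1 x.2.1 x.2.2) := by
  rintro ⟨e, g, π⟩ ⟨e', g', π'⟩ h
  simp only at h
  have hiff : ∀ r c, (∃ i, e i = r ∧ g (π i) = c) ↔ (∃ i, e' i = r ∧ g' (π' i) = c) := by
    intro r c
    rw [← om_true, ← om_true, h]
  have he : e = e' := by
    apply DFunLike.ext'
    refine (StrictMono.range_inj e.strictMono e'.strictMono).mp ?_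
    ext r
    constructor
    · rintro ⟨i, rfl⟩
      obtain ⟨i', h1, _⟩ := (hiff (e i) (g (π i))).mp ⟨i, rfl, rfl⟩
      exact ⟨i', h1⟩
    · rintro ⟨i, rfl⟩
      obtain ⟨i', h1, _⟩ := (hiff (e' i) (g' (π' i))).mpr ⟨i, rfl, rfl⟩
      exact ⟨i', h1⟩
  have hg : g = g' := by
    apply DFunLike.ext'
    refine (StrictMono.range_inj g.strictMono g'.strictMono).mp ?_
    ext r
    constructor
    · rintro ⟨i, rfl⟩
      obtain ⟨i', _, h1⟩ := (hiff (e (π.symm i)) (g i)).mp ⟨π.symm i, rfl, by simp⟩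
      exact ⟨_, h1⟩
    · rintro ⟨i, rfl⟩
      obtain ⟨i', _, h1⟩ := (hiff (e' (π'.symm i)) (g' i)).mpr ⟨π'.symm i, rfl, by simp⟩
      exact ⟨_, h1⟩
  subst he; subst hg
  have hp : π = π' := by
    ext i
    obtain ⟨i', h1, h2⟩ := (hiff (e i) (g (π i))).mp ⟨i, rfl, rfl⟩
    have := e.injective h1
    subst this
    have := g.injective h2
    rw [this]
  rw [hp]

lemma mw_om {n N : ℕ} (p : ℝ) (e g : Fin n ↪o Fin N) (π : Equiv.Perm (Fin n)) :
    mw p (om e g π) = p ^ n * (1 - p) ^ (N * N - n) := by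
  classical
  have h1 : mw p (om e g π) = ∏ x : Fin N × Fin N, if om e g π x.1 x.2 = true then p else 1 - p := by
    rw [Fintype.prod_prod_type]
    rfl
  rw [h1, Finset.prod_ite, Finset.prod_const, Finset.prod_const]
  have h2 : (Finset.univ.filter fun x : Fin N × Fin N => om e g π x.1 x.2 = true) =
      Finset.univ.image (fun i : Fin n => (e i, g (π i))) := by
    ext ⟨r, c⟩
    simp only [Finset.mem_filter, Finset.mem_univ, true_and, Finset.mem_image, om_true,
      Prod.mk.injEq]
  have h3 : (Finset.univ.filter fun x : Fin N × Fin N => om e g π x.1 x.2 = true).card = n := by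
    rw [h2, Finset.card_image_of_injective]
    · simp
    · intro i j hij
      simp only [Prod.mk.injEq] at hij
      exact e.injective hij.1
  have h4 : (Finset.univ.filter fun x : Fin N × Fin N => ¬ om e g π x.1 x.2 = true).card =
      N * N - n := by
    have := Finset.card_filter_add_card_filter_not (s := (Finset.univ : Finset (Fin N × Fin N)))
      (fun x => om e g π x.1 x.2 = true)
    simp only [Finset.card_univ, Fintype.card_prod, Fintype.card_fin] at this
    omega
  rw [h3, h4]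

lemma om_chain {k n N : ℕ} (e g : Fin n ↪o Fin N) (π : Equiv.Perm (Fin n))
    (h : Contains (1 : Equiv.Perm (Fin k)) π) : HasChain (om e g π) 0 k := by
  obtain ⟨f, hf⟩ := h
  refine ⟨fun s => e (f s), fun s => g (π (f s)), ?_, ?_, ?_, ?_⟩
  · intro a b hab
    exact e.strictMono (f.strictMono hab)
  · intro a b hab
    refine g.strictMono ((hf a b).mp ?_)
    simpa using hab
  · intro s; exact Nat.zero_le _
  · intro s
    rw [om_true]
    exact ⟨f s, rfl, rfl⟩

lemma mono_grid (k n N : ℕ) (p a t : ℝ) (hp0 : 0 ≤ p) (hp1 : p ≤ 1) (ha : 0 ≤ a) (ht : 1 ≤ t)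
    (hat : a * (a * t) = p) :
    t ^ k * (1 + a) ^ (2 * N) *
      ((cnt (1 : Equiv.Perm (Fin k)) n : ℝ) * (N.choose n : ℝ) ^ 2 *
        (p ^ n * (1 - p) ^ (N * N - n))) ≤ (1 + a * t) ^ (2 * N) := by
  classical
  set T : Finset ((Fin n ↪o Fin N) × (Fin n ↪o Fin N) × Equiv.Perm (Fin n)) :=
    (Finset.univ : Finset (Fin n ↪o Fin N)) ×ˢ ((Finset.univ : Finset (Fin n ↪o Fin N)) ×ˢ
      (Finset.univ.filter fun π : Equiv.Perm (Fin n) =>
        Contains (1 : Equiv.Perm (Fin k)) π)) with hT
  have h := chain_weight_le N k p a t hp0 hp1 ha ht hat (T.image fun x => om x.1 x.2.1 x.2.2) (by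
    intro ω hω
    rw [Finset.mem_image] at hω
    obtain ⟨x, hx, rfl⟩ := hω
    simp only [hT, Finset.mem_product, Finset.mem_univ, true_and, Finset.mem_filter] at hx
    exact om_chain _ _ _ hx)
  refine le_trans (le_of_eq ?_) h
  congr 1
  rw [Finset.sum_image (fun x _ y _ hxy => om_inj hxy)]
  simp only [mw_om]
  rw [Finset.sum_const, hT, Finset.card_product, Finset.card_product, Finset.card_univ, card_chain]
  rw [nsmul_eq_mul]
  unfold cnt
  push_cast
  ring

end Pool.Agent.LibC3e
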