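import Pool.Agent.LibC3e.Thin

/-! Placements of the grid pattern in windows. -/

set_option autoImplicit false

namespace Pool.Agent.LibC3e

open Finset

/-- coordinates of a placement: `φ.1 i j` is the abscissa in column block `i`, `φ.2 j i` the
ordinate in row block `j` of the point of window `(i,j)`. -/
abbrev Pl (m w : ℕ) := (Fin m → (Fin m ↪o Fin w)) × (Fin m → (Fin m ↪o Fin w))

variable {m w : ℕ}

/-- absolute coordinate -/
def pos (i : Fin m) (x : Fin w) : Fin (m * w) := finProdFinEquiv (i, x)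

lemma pos_inj {i i' : Fin m} {x x' : Fin w} : pos i x = pos i' x' ↔ i = i' ∧ x = x' := by
  unfold pos
  rw [EmbeddingLike.apply_eq_iff_eq, Prod.mk.injEq]

lemma pos_val (i : Fin m) (x : Fin w) : (pos i x : ℕ) = x + w * i := rfl

lemma pos_lt_of_lt {i i' : Fin m} (x x' : Fin w) (h : i < i') : pos i x < pos i' x' := by
  rw [Fin.lt_def, pos_val, pos_val]
  have h1 : (i:ℕ) + 1 ≤ i' := h
  have h2 : w * (i + 1) ≤ w * i' := Nat.mul_le_mul_left w h1
  have h3 := x.isLt
  rw [mul_add] at h2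
  omega

lemma pos_lt_iff {i : Fin m} {x x' : Fin w} : pos i x < pos i x' ↔ x < x' := by
  rw [Fin.lt_def, pos_val, pos_val, Fin.lt_def]
  omega

/-- position of the point in window `(i,j)` -/
def px (φ : Pl m w) (i j : Fin m) : Fin (m * w) := pos i (φ.1 i j)

/-- value of the point in window `(i,j)` -/
def py (φ : Pl m w) (i j : Fin m) : Fin (m * w) := pos j (φ.2 j i)

/-- the placement lies on the graph of `P` -/
def On (P : Equiv.Perm (Fin (m * w))) (φ : Pl m w) : Prop := ∀ i j, P (px φ i j) = py φ i j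

lemma px_inj (φ : Pl m w) {i j i' j' : Fin m} (h : px φ i j = px φ i' j') : i = i' ∧ j = j' := by
  unfold px at h
  rw [pos_inj] at h
  obtain ⟨h1, h2⟩ := h
  subst h1
  exact ⟨rfl, (φ.1 i).injective h2⟩

lemma py_inj (φ : Pl m w) {i j i' j' : Fin m} (h : py φ i j = py φ i' j') : i = i' ∧ j = j' := by
  unfold py at h
  rw [pos_inj] at h
  obtain ⟨h1, h2⟩ := h
  subst h1
  exact ⟨(φ.2 j).injective h2, rfl⟩

/-- positions used by a placement -/
def posSet (φ : Pl m w) : Finset (Fin (m * w)) :=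
  Finset.univ.image (fun a : Fin m × Fin m => px φ a.1 a.2)

lemma mem_posSet (φ : Pl m w) (i j : Fin m) : px φ i j ∈ posSet φ :=
  Finset.mem_image.mpr ⟨(i, j), Finset.mem_univ _, rfl⟩

lemma px_injective (φ : Pl m w) : Function.Injective (fun a : Fin m × Fin m => px φ a.1 a.2) := by
  rintro ⟨i, j⟩ ⟨i', j'⟩ h
  obtain ⟨h1, h2⟩ := px_inj φ h
  exact Prod.ext h1 h2

lemma card_posSet (φ : Pl m w) : (posSet φ).card = m * m := by
  unfold posSet
  rw [Finset.card_image_of_injective _ (px_injective φ)]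
  simp

/-- a placement inside `R` gives an occurrence of the grid permutation -/
lemma containsIn_of_on (P : Equiv.Perm (Fin (m * w))) (φ : Pl m w) (h : On P φ)
    (R : Finset (Fin (m * w))) (hR : posSet φ ⊆ R) : ContainsIn (tau m) P R := by
  classical
  -- the map on indices
  set f : Fin (m * m) → Fin (m * w) := fun a =>
    px φ (finProdFinEquiv.symm a).1 (finProdFinEquiv.symm a).2 with hf
  have hf1 : ∀ i j, f (idx i j) = px φ i j := by
    intro i j
    simp only [hf, idx, Equiv.symm_apply_apply]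
  set g : Fin (m * m) → Fin (m * w) := fun a =>
    py φ (finProdFinEquiv.symm a).2 (finProdFinEquiv.symm a).1 with hg
  have hg1 : ∀ i j, g (idx j i) = py φ i j := by
    intro i j
    simp only [hg, idx, Equiv.symm_apply_apply]
  have hfm : StrictMono f := by
    intro a b hab
    obtain ⟨i, j, rfl⟩ := idx_surj a
    obtain ⟨i', j', rfl⟩ := idx_surj b
    rw [hf1, hf1]
    rcases (idx_lt _ _ _ _).mp hab with h1 | ⟨h1, h2⟩
    · exact pos_lt_of_lt _ _ h1
    · subst h1
      unfold px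
      rw [pos_lt_iff]
      exact (φ.1 i).strictMono h2
  have hgm : StrictMono g := by
    intro a b hab
    obtain ⟨j, i, rfl⟩ := idx_surj a
    obtain ⟨j', i', rfl⟩ := idx_surj b
    rw [hg1, hg1]
    rcases (idx_lt _ _ _ _).mp hab with h1 | ⟨h1, h2⟩
    · exact pos_lt_of_lt _ _ h1
    · subst h1
      unfold py
      rw [pos_lt_iff]
      exact (φ.2 j).strictMono h2
  refine ⟨OrderEmbedding.ofStrictMono f hfm, ?_, ?_⟩
  · intro a
    obtain ⟨i, j, rfl⟩ := idx_surj a
    simp only [OrderEmbedding.coe_ofStrictMono]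
    rw [hf1]
    exact hR (mem_posSet φ i j)
  · intro a b
    obtain ⟨i, j, rfl⟩ := idx_surj a
    obtain ⟨i', j', rfl⟩ := idx_surj b
    simp only [OrderEmbedding.coe_ofStrictMono]
    rw [hf1, hf1, tau_idx, tau_idx, h i j, h i' j', ← hg1, ← hg1]
    exact hgm.lt_iff_lt.symm

/-- windows where two placements differ -/
def DS (φ φ' : Pl m w) : Finset (Fin m × Fin m) :=
  Finset.univ.filter fun a => φ.1 a.1 a.2 ≠ φ'.1 a.1 a.2

lemma mem_DS (φ φ' : Pl m w) (i j : Fin m) : (i, j) ∈ DS φ φ' ↔ φ.1 i j ≠ φ'.1 i j := by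
  simp [DS]

lemma on_eq_iff (P : Equiv.Perm (Fin (m * w))) (φ φ' : Pl m w) (h : On P φ) (h' : On P φ')
    (i j : Fin m) : φ.1 i j = φ'.1 i j ↔ φ.2 j i = φ'.2 j i := by
  have e1 := h i j
  have e2 := h' i j
  unfold px py at e1 e2
  constructor
  · intro he
    rw [he, e2] at e1
    exact (pos_inj.mp e1).2.symm
  · intro he
    rw [he, ← e2] at e1
    exact (pos_inj.mp (P.injective e1)).2

/-- distinct points in different windows -/
lemma on_ne (P : Equiv.Perm (Fin (m * w))) (φ φ' : Pl m w) (h : On P φ) (h' : On P φ')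
    (i j i' j' : Fin m) (he : px φ i j = px φ' i' j') : i = i' ∧ j = j' := by
  have e1 := h i j
  have e2 := h' i' j'
  rw [he, e2] at e1
  unfold py at e1
  unfold px at he
  exact ⟨(pos_inj.mp he).1, (pos_inj.mp e1).1.symm⟩

lemma sdiff_posSet (P : Equiv.Perm (Fin (m * w))) (φ φ' : Pl m w) (h : On P φ) (h' : On P φ') :
    posSet φ' \ posSet φ = (DS φ φ').image (fun a => px φ' a.1 a.2) := by
  ext x
  simp only [Finset.mem_sdiff, posSet, Finset.mem_image, Finset.mem_univ, true_and]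
  constructor
  · rintro ⟨⟨⟨i, j⟩, rfl⟩, h2⟩
    refine ⟨(i, j), ?_, rfl⟩
    rw [mem_DS]
    intro he
    apply h2
    refine ⟨(i, j), ?_⟩
    unfold px
    simp only
    rw [he]
  · rintro ⟨⟨i, j⟩, h1, rfl⟩
    refine ⟨⟨(i, j), rfl⟩, ?_⟩
    rintro ⟨⟨i', j'⟩, h2⟩
    obtain ⟨e1, e2⟩ := on_ne P φ φ' h h' _ _ _ _ h2
    simp only at e1 e2
    subst e1; subst e2
    rw [mem_DS] at h1
    apply h1
    unfold px at h2
    exact (pos_inj.mp h2).2

lemma card_sdiff_posSet (P : Equiv.Perm (Fin (m * w))) (φ φ' : Pl m w) (h : On P φ)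
    (h' : On P φ') : (posSet φ' \ posSet φ).card = (DS φ φ').card := by
  rw [sdiff_posSet P φ φ' h h', Finset.card_image_of_injective _ (px_injective φ')]

/-- potential of a position -/
def psi (P : Equiv.Perm (Fin (m * w))) (a : Fin (m * w)) : ℕ :=
  ((a : ℕ) + (P a : ℕ)) * 2 ^ (m * w) + 2 ^ (a : ℕ)

/-- potential of a placement -/
def Psi (P : Equiv.Perm (Fin (m * w))) (φ : Pl m w) : ℕ :=
  ∑ a : Fin m × Fin m, psi P (px φ a.1 a.2)

lemma posSet_injective (P : Equiv.Perm (Fin (m * w))) (φ φ' : Pl m w) (h : On P φ) (h' : On P φ')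
    (he : posSet φ = posSet φ') : φ = φ' := by
  have h1 : ∀ i, φ.1 i = φ'.1 i := by
    intro i
    apply DFunLike.ext'
    refine (StrictMono.range_inj (φ.1 i).strictMono (φ'.1 i).strictMono).mp ?_
    ext x
    constructor
    · rintro ⟨j, rfl⟩
      have h2 : px φ i j ∈ posSet φ' := by rw [← he]; exact mem_posSet φ i j
      simp only [posSet, Finset.mem_image, Finset.mem_univ, true_and] at h2
      obtain ⟨⟨i', j'⟩, h3⟩ := h2
      unfold px at h3
      simp only at h3
      obtain ⟨e1, e2⟩ := pos_inj.mp h3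
      subst e1
      exact ⟨j', e2⟩
    · rintro ⟨j, rfl⟩
      have h2 : px φ' i j ∈ posSet φ := by rw [he]; exact mem_posSet φ' i j
      simp only [posSet, Finset.mem_image, Finset.mem_univ, true_and] at h2
      obtain ⟨⟨i', j'⟩, h3⟩ := h2
      unfold px at h3
      simp only at h3
      obtain ⟨e1, e2⟩ := pos_inj.mp h3
      subst e1
      exact ⟨j', e2⟩
  have h2 : ∀ j, φ.2 j = φ'.2 j := by
    intro j
    ext i
    have := (on_eq_iff P φ φ' h h' i j).mp (by rw [h1 i])
    rw [this]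
  exact Prod.ext (funext h1) (funext h2)

lemma Psi_injective (P : Equiv.Perm (Fin (m * w))) (φ φ' : Pl m w) (h : On P φ) (h' : On P φ')
    (he : Psi P φ = Psi P φ') : φ = φ' := by
  apply posSet_injective P φ φ' h h'
  have key : ∀ ρ : Pl m w, Psi P ρ = (∑ a : Fin m × Fin m, ((px ρ a.1 a.2 : ℕ) +
      (P (px ρ a.1 a.2) : ℕ))) * 2 ^ (m * w) + ∑ k ∈ (posSet ρ).map Fin.valEmbedding, 2 ^ k := by
    intro ρ
    unfold Psi psi
    rw [Finset.sum_add_distrib, Finset.sum_mul]
    congr 1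
    rw [Finset.sum_map]
    unfold posSet
    rw [Finset.sum_image (fun a _ b _ hab => px_injective ρ hab)]
    rfl
  have hlt : ∀ ρ : Pl m w, ∑ k ∈ (posSet ρ).map Fin.valEmbedding, 2 ^ k < 2 ^ (m * w) := by
    intro ρ
    apply Nat.geomSum_lt le_rfl
    intro k hk
    rw [Finset.mem_map] at hk
    obtain ⟨a, _, rfl⟩ := hk
    exact a.isLt
  rw [key φ, key φ'] at he
  have h1 := hlt φ
  have h2 := hlt φ'
  have h3 : ∑ k ∈ (posSet φ).map Fin.valEmbedding, 2 ^ k =
      ∑ k ∈ (posSet φ').map Fin.valEmbedding, 2 ^ k := by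
    have e1 := congrArg (fun n => n % 2 ^ (m * w)) he
    simp only [Nat.mul_add_mod_self_right] at e1
    rw [Nat.mod_eq_of_lt h1, Nat.mod_eq_of_lt h2] at e1
    exact e1
  have h4 := Finset.geomSum_injective (le_refl 2) h3
  exact Finset.map_injective _ h4

end Pool.Agent.LibC3e
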