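import Pool.Agent.LibC3e.Basic

/-! Pairs of chains that differ in one or two places. -/

set_option autoImplicit false

namespace Pool.Agent.LibC3e

open Finset

variable {m w : ℕ}

lemma chain_mono (X : Fin m ↪o Fin w) {a b : Fin m} (h : (a:ℕ) < b) : (X a : ℕ) < X b :=
  X.strictMono h

lemma chain_mono_le (X : Fin m ↪o Fin w) {a b : Fin m} (h : (a:ℕ) ≤ b) : (X a : ℕ) ≤ X b :=
  X.monotone h

lemma chain_ext (X Y : Fin m ↪o Fin w) (h : ∀ a, (X a : ℕ) = Y a) : X = Y := by
  ext a
  exact h a

/-- shift by `s` from index `c` on -/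
def sh {s : ℕ} (c : ℕ) (Z : Fin m ↪o Fin (w - s)) : Fin m ↪o Fin w :=
  OrderEmbedding.ofStrictMono (fun a => ⟨(Z a : ℕ) + (if c ≤ (a:ℕ) then s else 0), by
    have := (Z a).isLt
    split_ifs <;> omega⟩) (by
    intro a b hab
    have h1 : (a:ℕ) < b := hab
    have h2 := chain_mono Z h1
    rw [Fin.lt_def]
    simp only
    split_ifs <;> omega)

lemma sh_val {s : ℕ} (c : ℕ) (Z : Fin m ↪o Fin (w - s)) (a : Fin m) :
    (sh c Z a : ℕ) = Z a + (if c ≤ (a:ℕ) then s else 0) := rfl

/-- contraction of a pair at index `i` -/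
def ctr (i : ℕ) (s : ℕ) (X X' : Fin m ↪o Fin w) (hm : i < m)
    (h : (X' ⟨i, hm⟩ : ℕ) + s ≤ X ⟨i, hm⟩) :
    Fin m ↪o Fin (w - s) :=
  OrderEmbedding.ofStrictMono (fun a => ⟨if (a:ℕ) ≤ i then (X' a : ℕ) else (X a : ℕ) - s, by
    have h0 := (X ⟨i, hm⟩).isLt
    have h3 := (X a).isLt
    split_ifs with h1
    · have h2 := chain_mono_le X' (a := a) (b := ⟨i, hm⟩) h1
      omega
    · have h2 := chain_mono_le X (a := ⟨i, hm⟩) (b := a) (by simp only; omega)
      omega⟩) (by
    intro a b hab
    have h1 : (a:ℕ) < b := hab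
    rw [Fin.lt_def]
    simp only
    split_ifs with h2 h3 h3
    · exact chain_mono X' h1
    · have h4 := chain_mono_le X' (a := a) (b := ⟨i, hm⟩) h2
      have h5 := chain_mono X (a := ⟨i, hm⟩) (b := b) (by simp only; omega)
      omega
    · omega
    · have h4 := chain_mono X h1
      have h5 := chain_mono_le X (a := ⟨i, hm⟩) (b := a) (by simp only; omega)
      omega)

lemma ctr_val (i : ℕ) (s : ℕ) (X X' : Fin m ↪o Fin w) (hm : i < m)
    (h : (X' ⟨i, hm⟩ : ℕ) + s ≤ X ⟨i, hm⟩) (a : Fin m) :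
    (ctr i s X X' hm h a : ℕ) = if (a:ℕ) ≤ i then (X' a : ℕ) else (X a : ℕ) - s := rfl

open Classical in
/-- pairs differing exactly at `i`, with difference `s` -/
noncomputable def SP (m w : ℕ) (i : Fin m) (s : ℕ) :
    Finset ((Fin m ↪o Fin w) × (Fin m ↪o Fin w)) :=
  Finset.univ.filter fun c => (∀ a, a ≠ i → c.1 a = c.2 a) ∧ (c.1 i : ℕ) = c.2 i + s

lemma SP_card (i : Fin m) (s : ℕ) : (SP m w i s).card = (w - s).choose m := by
  classical
  rw [← card_chain, ← Finset.card_univ]
  refine Finset.card_bij'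
    (fun c hc => ctr i s c.1 c.2 i.isLt (le_of_eq ((Finset.mem_filter.mp hc).2.2).symm))
    (fun Z _ => (sh i Z, sh (i + 1) Z)) ?_ ?_ ?_ ?_
  · intro c hc
    exact Finset.mem_univ _
  · intro Z _
    rw [SP, Finset.mem_filter]
    refine ⟨Finset.mem_univ _, ?_, ?_⟩
    · intro a ha
      apply Fin.ext
      rw [sh_val, sh_val]
      have : (a:ℕ) ≠ i := fun h => ha (Fin.ext h)
      split_ifs <;> omega
    · simp only
      rw [sh_val, sh_val]
      split_ifs <;> omega
  · rintro ⟨X, X'⟩ hc
    have h := (Finset.mem_filter.mp hc).2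
    simp only at h
    simp only [Prod.mk.injEq]
    constructor
    · apply chain_ext
      intro a
      rw [sh_val, ctr_val]
      rcases lt_trichotomy (a:ℕ) (i:ℕ) with h1 | h1 | h1
      · rw [if_pos (by omega), if_neg (by omega), h.1 a (by intro e; rw [e] at h1; omega)]
        omega
      · have e : a = i := Fin.ext h1
        subst e
        rw [if_pos (by omega), if_pos (by omega), h.2]
      · have h4 := chain_mono X h1
        rw [if_neg (by omega), if_pos (by omega)]
        omega
    · apply chain_ext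
      intro a
      rw [sh_val, ctr_val]
      rcases lt_trichotomy (a:ℕ) (i:ℕ) with h1 | h1 | h1
      · rw [if_pos (by omega), if_neg (by omega)]
        omega
      · have e : a = i := Fin.ext h1
        subst e
        rw [if_pos (by omega), if_neg (by omega)]
        omega
      · have h4 := chain_mono X h1
        have h5 := h.1 a (by intro e; rw [e] at h1; omega)
        rw [if_neg (by omega), if_pos (by omega)]
        rw [h5] at h4 ⊢
        omega
  · intro Z _
    apply chain_ext
    intro a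
    rw [ctr_val]
    simp only
    rw [sh_val, sh_val]
    split_ifs <;> omega

/-- the lower chain of a low/high pair -/
def loL {s1 s2 : ℕ} (j : ℕ) (hj : j + 1 < m) (hs : 0 < s1)
    (Z : Fin m ↪o Fin (w - (s1 + s2))) : Fin m ↪o Fin w :=
  OrderEmbedding.ofStrictMono (fun a => ⟨if (a:ℕ) ≤ j then (Z a : ℕ) else
      if (a:ℕ) = j + 1 then (Z ⟨j, by omega⟩ : ℕ) + s1 else (Z a : ℕ) + (s1 + s2), by
    have := (Z a).isLt
    have := (Z ⟨j, by omega⟩).isLt
    split_ifs <;> omega⟩) (by
    intro a b hab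
    have h1 : (a:ℕ) < b := hab
    have h2 := chain_mono Z h1
    rw [Fin.lt_def]
    simp only
    split_ifs with h3 h4 h5 h6 h7 h8
    · omega
    · have h9 := chain_mono_le Z (a := a) (b := ⟨j, by omega⟩) h3
      omega
    · omega
    · omega
    · omega
    · have h9 := chain_mono Z (a := ⟨j, by omega⟩) (b := b) (by simp only; omega)
      omega
    · omega
    · omega
    · omega)

lemma loL_val {s1 s2 : ℕ} (j : ℕ) (hj : j + 1 < m) (hs : 0 < s1)
    (Z : Fin m ↪o Fin (w - (s1 + s2))) (a : Fin m) :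
    (loL j hj hs Z a : ℕ) = if (a:ℕ) ≤ j then (Z a : ℕ) else
      if (a:ℕ) = j + 1 then (Z ⟨j, by omega⟩ : ℕ) + s1 else (Z a : ℕ) + (s1 + s2) := rfl

open Classical in
/-- low/high pairs at `j, j+1` -/
noncomputable def LH (m w : ℕ) (j : ℕ) (hj : j + 1 < m) (s1 s2 : ℕ) :
    Finset ((Fin m ↪o Fin w) × (Fin m ↪o Fin w)) :=
  Finset.univ.filter fun c => (∀ a : Fin m, (a:ℕ) ≠ j → (a:ℕ) ≠ j + 1 → c.1 a = c.2 a) ∧
    (c.1 ⟨j + 1, hj⟩ : ℕ) = c.1 ⟨j, by omega⟩ + s1 ∧
    (c.2 ⟨j, by omega⟩ : ℕ) = c.1 ⟨j + 1, hj⟩ + s2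

lemma LH_inj (j : ℕ) (hj : j + 1 < m) (s1 s2 : ℕ) (c : (Fin m ↪o Fin w) × (Fin m ↪o Fin w))
    (hc : c ∈ LH m w j hj s1 s2) :
    (c.1 ⟨j, by omega⟩ : ℕ) + (s1 + s2) ≤ c.2 ⟨j, by omega⟩ := by
  classical
  have h := (Finset.mem_filter.mp hc).2
  have h1 := h.2.1
  have h2 := h.2.2
  omega

lemma LH_card (j : ℕ) (hj : j + 1 < m) (s1 s2 : ℕ) (hs : 0 < s1) :
    (LH m w j hj s1 s2).card = (w - (s1 + s2)).choose m := by
  classical
  rw [← card_chain, ← Finset.card_univ]
  refine Finset.card_bij'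
    (fun c hc => ctr j (s1 + s2) c.2 c.1 (by omega) (LH_inj j hj s1 s2 c hc))
    (fun Z _ => (loL j hj hs Z, sh j Z)) ?_ ?_ ?_ ?_
  · intro c hc
    exact Finset.mem_univ _
  · intro Z _
    rw [LH, Finset.mem_filter]
    refine ⟨Finset.mem_univ _, ?_, ?_, ?_⟩
    · intro a ha ha'
      apply Fin.ext
      simp only
      rw [loL_val, sh_val]
      split_ifs <;> omega
    · simp only
      rw [loL_val, loL_val]
      rw [if_neg (by simp only; omega), if_pos rfl, if_pos (by simp only; omega)]
    · simp only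
      rw [loL_val, sh_val]
      rw [if_pos (le_refl j), if_neg (by simp only; omega), if_pos rfl]
      omega
  · rintro ⟨L, H⟩ hc
    have h := (Finset.mem_filter.mp hc).2
    have h' := LH_inj j hj s1 s2 _ hc
    simp only at h h'
    simp only [Prod.mk.injEq]
    constructor
    · apply chain_ext
      intro a
      rw [loL_val, ctr_val, ctr_val]
      simp only [le_refl, if_true]
      split_ifs with h1 h2
      · rfl
      · have e : a = ⟨j + 1, hj⟩ := Fin.ext h2
        rw [e, h.2.1]
      · have h3 := h.1 a (by omega) (by omega)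
        have h4 := chain_mono H (a := ⟨j, by omega⟩) (b := a) (by simp only; omega)
        rw [h3]
        omega
    · apply chain_ext
      intro a
      rw [sh_val, ctr_val]
      rcases lt_trichotomy (a:ℕ) j with h1 | h1 | h1
      · rw [if_pos (by omega), if_neg (by omega), h.1 a (by omega) (by omega)]
        omega
      · have e : a = ⟨j, by omega⟩ := Fin.ext h1
        rw [e]
        simp only [le_refl, if_true]
        have h2 := h.2.1
        have h3 := h.2.2
        omega
      · have h4 := chain_mono H (a := ⟨j, by omega⟩) (b := a) (by simp only; omega)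
        rw [if_neg (by omega), if_pos (by omega)]
        omega
  · intro Z _
    apply chain_ext
    intro a
    rw [ctr_val]
    simp only
    rw [sh_val, loL_val]
    split_ifs <;> omega

open Classical in
/-- chains with a large gap -/
lemma gap_card (j : ℕ) (hj : j + 1 < m) (g : ℕ) :
    ((Finset.univ : Finset (Fin m ↪o Fin w)).filter fun Z =>
      (Z ⟨j, by omega⟩ : ℕ) + g < Z ⟨j + 1, hj⟩).card ≤ (w - g).choose m := by
  rw [← card_chain, ← Finset.card_univ]
  -- contraction
  have hex : ∀ Z ∈ (Finset.univ : Finset (Fin m ↪o Fin w)).filter (fun Z =>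
      (Z ⟨j, by omega⟩ : ℕ) + g < Z ⟨j + 1, hj⟩), ∃ Y : Fin m ↪o Fin (w - g), ∀ a,
      (Y a : ℕ) = if (a:ℕ) ≤ j then (Z a : ℕ) else (Z a : ℕ) - g := by
    intro Z hZ
    have h := (Finset.mem_filter.mp hZ).2
    have h0 := (Z ⟨j + 1, hj⟩).isLt
    refine ⟨OrderEmbedding.ofStrictMono (fun a => ⟨if (a:ℕ) ≤ j then (Z a : ℕ) else (Z a : ℕ) - g, ?_⟩) ?_, ?_⟩
    · have h3 := (Z a).isLt
      split_ifs with h1
      · have h2 := chain_mono_le Z (a := a) (b := ⟨j, by omega⟩) h1
        omega
      · have h2 := chain_mono_le Z (a := ⟨j + 1, hj⟩) (b := a) (by simp only; omega)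
        omega
    · intro a b hab
      have h1 : (a:ℕ) < b := hab
      rw [Fin.lt_def]
      simp only
      have h4 := chain_mono Z h1
      split_ifs with h2 h3 h3
      · exact h4
      · have h4 := chain_mono_le Z (a := a) (b := ⟨j, by omega⟩) h2
        have h5 := chain_mono_le Z (a := ⟨j + 1, hj⟩) (b := b) (by simp only; omega)
        omega
      · omega
      · have h5 := chain_mono_le Z (a := ⟨j + 1, hj⟩) (b := a) (by simp only; omega)
        omega
    · intro a
      rfl
  rcases Finset.eq_empty_or_nonempty ((Finset.univ : Finset (Fin m ↪o Fin w)).filter fun Z =>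
      (Z ⟨j, by omega⟩ : ℕ) + g < Z ⟨j + 1, hj⟩) with hem | ⟨Z0, hZ0⟩
  · rw [hem]; simp
  have : Nonempty (Fin m ↪o Fin (w - g)) := ⟨(hex Z0 hZ0).choose⟩
  choose! F hF using hex
  refine Finset.card_le_card_of_injOn F (fun _ _ => Finset.mem_univ _) ?_
  intro Z hZ Z' hZ' he
  have h := (Finset.mem_filter.mp hZ).2
  have h' := (Finset.mem_filter.mp hZ').2
  apply chain_ext
  intro a
  have e1 := hF Z hZ a
  have e2 := hF Z' hZ' a
  have e3 : (F Z a : ℕ) = F Z' a := by rw [he]
  rw [e1, e2] at e3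
  split_ifs at e3 with h1
  · exact e3
  · have h2 := chain_mono_le Z (a := ⟨j + 1, hj⟩) (b := a) (by simp only; omega)
    have h3 := chain_mono_le Z' (a := ⟨j + 1, hj⟩) (b := a) (by simp only; omega)
    omega

open Classical in
/-- low/high pairs with bounded last gap -/
lemma LH_small_card (j : ℕ) (hj : j + 1 < m) (s1 s2 g : ℕ) (hs : 0 < s1) :
    (w - (s1 + s2)).choose m ≤
    ((LH m w j hj s1 s2).filter fun c =>
      (c.2 ⟨j + 1, hj⟩ : ℕ) ≤ c.2 ⟨j, by omega⟩ + g).card + (w - (s1 + s2) - g).choose m := by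
  have h1 := gap_card (m := m) (w := w - (s1 + s2)) j hj g
  have h2 : ((Finset.univ : Finset (Fin m ↪o Fin (w - (s1 + s2)))).filter fun Z =>
      ¬ ((Z ⟨j, by omega⟩ : ℕ) + g < Z ⟨j + 1, hj⟩)).card ≤
      ((LH m w j hj s1 s2).filter fun c =>
      (c.2 ⟨j + 1, hj⟩ : ℕ) ≤ c.2 ⟨j, by omega⟩ + g).card := by
    refine Finset.card_le_card_of_injOn (fun Z => (loL j hj hs Z, sh j Z)) ?_ ?_
    · intro Z hZ
      have h := (Finset.mem_filter.mp hZ).2
      simp only [Finset.coe_filter, Set.mem_ofPred_eq]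
      refine ⟨?_, ?_⟩
      · rw [LH, Finset.mem_filter]
        refine ⟨Finset.mem_univ _, ?_, ?_, ?_⟩
        · intro a ha ha'
          apply Fin.ext
          simp only
          rw [loL_val, sh_val]
          split_ifs <;> omega
        · simp only
          rw [loL_val, loL_val]
          rw [if_neg (by simp only; omega), if_pos rfl, if_pos (by simp only; omega)]
        · simp only
          rw [loL_val, sh_val]
          rw [if_pos (le_refl j), if_neg (by simp only; omega), if_pos rfl]
          omega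
      · rw [sh_val, sh_val]
        rw [if_pos (by simp only; omega), if_pos (le_refl j)]
        omega
    · intro Z _ Z' _ he
      simp only [Prod.mk.injEq] at he
      apply chain_ext
      intro a
      have e : (sh j Z a : ℕ) = sh j Z' a := by rw [he.2]
      rw [sh_val, sh_val] at e
      omega
  have h3 := Finset.card_filter_add_card_filter_not (s := (Finset.univ : Finset (Fin m ↪o Fin (w - (s1 + s2)))))
    (fun Z => (Z ⟨j, by omega⟩ : ℕ) + g < Z ⟨j + 1, hj⟩)
  rw [Finset.card_univ, card_chain] at h3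
  omega

end Pool.Agent.LibC3e
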