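import Pool.Agent.LibC3e.DominoReal

/-! Weights of the difference sets. -/

set_option autoImplicit false

namespace Pool.Agent.LibC3e

open Finset

variable {m w : ℕ}

open Classical in
/-- total number of minimal improving moves with difference set `D` -/
noncomputable def WD (m w : ℕ) (D : Finset (Fin m × Fin m)) : ℕ :=
  ∑ P : Equiv.Perm (Fin (m * w)), ((Finset.univ : Finset (Pl m w × Pl m w)).filter fun c =>
    On P c.1 ∧ MinImp P c.1 c.2 ∧ DS c.1 c.2 = D).card

lemma WD_zero (D : Finset (Fin m × Fin m)) (h : ¬ (D.Nonempty ∧ Conn nb D)) : WD m w D = 0 := by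
  classical
  unfold WD
  apply Finset.sum_eq_zero
  intro P _
  rw [Finset.card_eq_zero, Finset.filter_eq_empty_iff]
  rintro c _ ⟨h1, h2, h3⟩
  apply h
  rw [← h3]
  exact ⟨h2.nonempty, h2.conn h1⟩

lemma DS_comm (φ φ' : Pl m w) : DS φ φ' = DS φ' φ := by
  ext ⟨i, j⟩
  rw [mem_DS, mem_DS]
  exact ne_comm

open Classical in
lemma WD_gen (D : Finset (Fin m × Fin m)) (hm : 0 < m) :
    (WD m w D : ℝ) ≤ (w.choose m : ℝ) ^ (2 * m) * (16 * (w / m : ℝ) ^ 2) ^ D.card *
      ((m * w - (m * m + D.card)).factorial : ℝ) := by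
  have h1 := pairs_weight ((Finset.univ : Finset (Pl m w × Pl m w)).filter fun c => DS c.1 c.2 = D)
    D.card (fun c hc => by rw [(Finset.mem_filter.mp hc).2])
  have h2 : WD m w D ≤ ∑ P : Equiv.Perm (Fin (m * w)),
      (((Finset.univ : Finset (Pl m w × Pl m w)).filter fun c => DS c.1 c.2 = D).filter
        fun c => On P c.1 ∧ On P c.2).card := by
    unfold WD
    refine Finset.sum_le_sum fun P _ => Finset.card_le_card ?_
    intro c hc
    rw [Finset.mem_filter] at hc
    rw [Finset.mem_filter, Finset.mem_filter]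
    exact ⟨⟨Finset.mem_univ _, hc.2.2.2⟩, hc.2.1, hc.2.2.1.on⟩
  have h3 := h2.trans h1
  rw [Finset.filter_filter] at h3
  have h4 := pairs_gen (w := w) D hm
  have h5 : (WD m w D : ℝ) ≤
      (((Finset.univ : Finset (Pl m w × Pl m w)).filter fun c => DS c.1 c.2 = D ∧
      ∃ P : Equiv.Perm (Fin (m * w)), On P c.1 ∧ On P c.2).card : ℝ) *
        ((m * w - (m * m + D.card)).factorial : ℝ) := by exact_mod_cast h3
  exact h5.trans (mul_le_mul_of_nonneg_right h4 (Nat.cast_nonneg _))

open Classical in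
/-- pairs differing exactly at `i` -/
lemma differ_card (i : Fin m) :
    ((Finset.univ : Finset (CP m w)).filter fun c => (∀ a, a ≠ i → c.1 a = c.2 a) ∧
      c.1 i ≠ c.2 i).card ≤ 2 * Asum m w 1 := by
  have h := RB_card (w := w) i w
  refine le_trans (Finset.card_le_card ?_) (le_trans (Nat.le_add_right _ _) h)
  intro c hc
  rw [Finset.mem_filter] at hc
  rw [RB, Finset.mem_filter]
  refine ⟨hc.1, hc.2.1, hc.2.2, ?_⟩
  have := (c.1 i).isLt
  omega

lemma prod_ite_eq_pow (i : Fin m) (a b : ℕ) :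
    ∏ i' : Fin m, (if i' = i then a else b) = a * b ^ (m - 1) := by
  rw [← Finset.mul_prod_erase Finset.univ _ (Finset.mem_univ i)]
  simp only [if_true]
  congr 1
  rw [Finset.prod_congr rfl (g := fun _ => b)]
  · rw [Finset.prod_const, Finset.card_erase_of_mem (Finset.mem_univ _), Finset.card_univ,
      Fintype.card_fin]
  · intro i' hi'
    rw [Finset.mem_erase] at hi'
    rw [if_neg hi'.1]

open Classical in
lemma WD_one (i j : Fin m) (hm : 0 < m) (hw : 0 < w) :
    (WD m w {(i, j)} : ℝ) ≤ 2 * (w.choose m : ℝ) ^ (2 * m) * (w / m : ℝ) ^ 2 *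
      ((m * w - (m * m + 1)).factorial : ℝ) := by
  set D : Finset (Fin m × Fin m) := {(i, j)} with hD
  -- symmetry
  have hhalf : ∀ P : Equiv.Perm (Fin (m * w)),
      2 * ((Finset.univ : Finset (Pl m w × Pl m w)).filter fun c =>
        On P c.1 ∧ MinImp P c.1 c.2 ∧ DS c.1 c.2 = D).card ≤
      (((Finset.univ : Finset (Pl m w × Pl m w)).filter fun c => DS c.1 c.2 = D).filter
        fun c => On P c.1 ∧ On P c.2).card := by
    intro P
    set X := (Finset.univ : Finset (Pl m w × Pl m w)).filter fun c =>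
        On P c.1 ∧ MinImp P c.1 c.2 ∧ DS c.1 c.2 = D with hX
    have h1 : Disjoint X (X.map ⟨Prod.swap, Prod.swap_injective⟩) := by
      rw [Finset.disjoint_left]
      intro c hc hc'
      rw [Finset.mem_map] at hc'
      obtain ⟨c', hc', rfl⟩ := hc'
      rw [hX, Finset.mem_filter] at hc hc'
      have h1 := hc.2.2.1.lt
      have h2 := hc'.2.2.1.lt
      simp only [Function.Embedding.coeFn_mk, Prod.fst_swap, Prod.snd_swap] at h1
      omega
    have h2 : 2 * X.card = (X ∪ X.map ⟨Prod.swap, Prod.swap_injective⟩).card := by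
      rw [Finset.card_union_of_disjoint h1, Finset.card_map]
      ring
    rw [h2]
    apply Finset.card_le_card
    intro c hc
    rw [Finset.mem_union, Finset.mem_map] at hc
    rw [Finset.mem_filter, Finset.mem_filter]
    rcases hc with hc | ⟨c', hc', rfl⟩
    · rw [hX, Finset.mem_filter] at hc
      exact ⟨⟨Finset.mem_univ _, hc.2.2.2⟩, hc.2.1, hc.2.2.1.on⟩
    · rw [hX, Finset.mem_filter] at hc'
      refine ⟨⟨Finset.mem_univ _, ?_⟩, hc'.2.2.1.on, hc'.2.1⟩
      simp only [Function.Embedding.coeFn_mk, Prod.fst_swap, Prod.snd_swap]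
      rw [DS_comm]
      exact hc'.2.2.2
  have h1 := pairs_weight ((Finset.univ : Finset (Pl m w × Pl m w)).filter fun c => DS c.1 c.2 = D)
    1 (fun c hc => by rw [(Finset.mem_filter.mp hc).2, hD]; simp)
  have h2 : 2 * WD m w D ≤ ∑ P : Equiv.Perm (Fin (m * w)),
      (((Finset.univ : Finset (Pl m w × Pl m w)).filter fun c => DS c.1 c.2 = D).filter
        fun c => On P c.1 ∧ On P c.2).card := by
    unfold WD
    rw [Finset.mul_sum]
    exact Finset.sum_le_sum fun P _ => hhalf P
  have h3 := h2.trans h1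
  set 𝒜 := ((Finset.univ : Finset (Pl m w × Pl m w)).filter fun c => DS c.1 c.2 = D).filter
    fun c => ∃ P : Equiv.Perm (Fin (m * w)), On P c.1 ∧ On P c.2 with h𝒜
  have hmemD : ∀ c ∈ 𝒜, ∀ i' j', (i', j') ≠ (i, j) → c.1.1 i' j' = c.2.1 i' j' := by
    intro c hc i' j' hne
    rw [h𝒜, Finset.mem_filter, Finset.mem_filter] at hc
    by_contra hcon
    have := (mem_DS c.1 c.2 i' j').mpr hcon
    rw [hc.1.2, hD, Finset.mem_singleton] at this
    exact hne this
  have hmemD' : ∀ c ∈ 𝒜, c.1.1 i j ≠ c.2.1 i j := by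
    intro c hc
    rw [h𝒜, Finset.mem_filter, Finset.mem_filter] at hc
    rw [← mem_DS, hc.1.2, hD]
    simp
  have heq : ∀ c ∈ 𝒜, EqC c.1 c.2 := by
    intro c hc
    rw [h𝒜, Finset.mem_filter] at hc
    obtain ⟨_, P, h4, h5⟩ := hc
    exact on_eq_iff P c.1 c.2 h4 h5
  have h4 := pairs_prod 𝒜
    (fun i' => if i' = i then ((Finset.univ : Finset (CP m w)).filter fun c =>
      (∀ a, a ≠ j → c.1 a = c.2 a) ∧ c.1 j ≠ c.2 j) else diag m w)
    (fun j' => if j' = j then ((Finset.univ : Finset (CP m w)).filter fun c =>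
      (∀ a, a ≠ i → c.1 a = c.2 a) ∧ c.1 i ≠ c.2 i) else diag m w) (by
      intro c hc i'
      split_ifs with h
      · rw [h, Finset.mem_filter]
        refine ⟨Finset.mem_univ _, ?_, hmemD' c hc⟩
        intro a ha
        exact hmemD c hc i a (by intro h; exact ha (Prod.mk.injEq _ _ _ _ ▸ h).2)
      · rw [diag, Finset.mem_filter]
        refine ⟨Finset.mem_univ _, ?_⟩
        apply DFunLike.ext
        intro a
        exact hmemD c hc i' a (by intro h'; exact h (Prod.mk.injEq _ _ _ _ ▸ h').1)) (by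
      intro c hc j'
      split_ifs with h
      · rw [h, Finset.mem_filter]
        refine ⟨Finset.mem_univ _, ?_, ?_⟩
        · intro a ha
          exact (heq c hc a j).mp (hmemD c hc a j (by intro h; exact ha (Prod.mk.injEq _ _ _ _ ▸ h).1))
        · intro he
          exact hmemD' c hc ((heq c hc i j).mpr he)
      · rw [diag, Finset.mem_filter]
        refine ⟨Finset.mem_univ _, ?_⟩
        apply DFunLike.ext
        intro a
        exact (heq c hc a j').mp (hmemD c hc a j' (by intro h'; exact h (Prod.mk.injEq _ _ _ _ ▸ h').2)))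
  have h5 : 𝒜.card ≤ ((2 * Asum m w 1) * (w.choose m) ^ (m - 1)) *
      ((2 * Asum m w 1) * (w.choose m) ^ (m - 1)) := by
    refine h4.trans ?_
    apply Nat.mul_le_mul
    · rw [← prod_ite_eq_pow i]
      refine Finset.prod_le_prod' fun i' _ => ?_
      split_ifs with h
      · exact differ_card j
      · exact le_of_eq diag_card
    · rw [← prod_ite_eq_pow j]
      refine Finset.prod_le_prod' fun i' _ => ?_
      split_ifs with h
      · exact differ_card i
      · exact le_of_eq diag_card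
  have h6 : (𝒜.card : ℝ) ≤ 4 * (w.choose m : ℝ) ^ (2 * m) * (w / m : ℝ) ^ 2 := by
    have h7 := Asum_one_le hm hw
    have h8 : (𝒜.card : ℝ) ≤ ((2 * (Asum m w 1 : ℝ)) * (w.choose m : ℝ) ^ (m - 1)) *
      ((2 * (Asum m w 1 : ℝ)) * (w.choose m : ℝ) ^ (m - 1)) := by exact_mod_cast h5
    refine h8.trans ?_
    set C : ℝ := (w.choose m : ℝ) with hC
    have h9 : (2 * (Asum m w 1 : ℝ)) * C ^ (m - 1) ≤ 2 * (C * (w / m)) * C ^ (m - 1) := by
      apply mul_le_mul_of_nonneg_right _ (by positivity)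
      linarith
    calc _ ≤ (2 * (C * (w / m)) * C ^ (m - 1)) * (2 * (C * (w / m)) * C ^ (m - 1)) :=
          mul_le_mul h9 h9 (by positivity) (by positivity)
      _ = 4 * ((C ^ (m - 1) * C) * (C ^ (m - 1) * C)) * (w / m : ℝ) ^ 2 := by ring
      _ = _ := by
          rw [← pow_succ, Nat.sub_add_cancel hm, two_mul, pow_add]
  have h7 : 2 * (WD m w D : ℝ) ≤ (𝒜.card : ℝ) * ((m * w - (m * m + 1)).factorial : ℝ) := by
    exact_mod_cast h3
  have h8 := h7.trans (mul_le_mul_of_nonneg_right h6 (Nat.cast_nonneg _))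
  linarith

/-- choosing the orientation -/
lemma orient (P : Equiv.Perm (Fin (m * w))) (D : Finset (Fin m × Fin m)) (R : Pl m w → Pl m w → Prop)
    (hR : ∀ φ φ', On P φ → MinImp P φ φ' → DS φ φ' = D → R φ φ' ∨ R φ' φ) :
    open Classical in
    ((Finset.univ : Finset (Pl m w × Pl m w)).filter fun c =>
      On P c.1 ∧ MinImp P c.1 c.2 ∧ DS c.1 c.2 = D).card ≤
    (((Finset.univ : Finset (Pl m w × Pl m w)).filter fun c => DS c.1 c.2 = D ∧ R c.1 c.2).filter
      fun c => On P c.1 ∧ On P c.2).card := by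
  classical
  refine Finset.card_le_card_of_injOn (fun c => if R c.1 c.2 then c else c.swap) ?_ ?_
  · intro c hc
    rw [Finset.mem_coe, Finset.mem_filter] at hc
    rw [Finset.mem_coe, Finset.mem_filter, Finset.mem_filter]
    obtain ⟨_, h1, h2, h3⟩ := hc
    by_cases h : R c.1 c.2
    · simp only [h, if_true]
      exact ⟨⟨Finset.mem_univ _, h3, trivial⟩, h1, h2.on⟩
    · simp only [h, if_false, Prod.fst_swap, Prod.snd_swap]
      refine ⟨⟨Finset.mem_univ _, ?_, ?_⟩, h2.on, h1⟩
      · rw [DS_comm]; exact h3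
      · exact (hR _ _ h1 h2 h3).resolve_left h
  · intro c hc c' hc' he
    rw [Finset.mem_coe, Finset.mem_filter] at hc hc'
    have h1 := hc.2.2.1.lt
    have h2 := hc'.2.2.1.lt
    simp only at he
    split_ifs at he with h3 h4 h4
    · exact he
    · rw [he] at h1
      simp only [Prod.fst_swap, Prod.snd_swap] at h1
      omega
    · rw [← he] at h2
      simp only [Prod.fst_swap, Prod.snd_swap] at h2
      omega
    · exact Prod.swap_injective he

end Pool.Agent.LibC3e
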