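import Pool.Agent.LibC3e.Weights

/-! Weights of dominoes. -/

set_option autoImplicit false

namespace Pool.Agent.LibC3e

open Finset

variable {m : ℕ}

/-- the domino constant -/
noncomputable def dc (m w : ℕ) : ℝ := ((rr m w)⁻¹ - (Real.exp (-4)) ^ 3) / 2

lemma WD_vert (g : ℕ) (hm : 32 ≤ m) (hg : 11 ≤ g) (i : Fin m) (j : ℕ) (hj : j + 1 < m) :
    (WD m (g * m) {(i, ⟨j, by omega⟩), (i, ⟨j + 1, hj⟩)} : ℝ) ≤
      ((g * m).choose m : ℝ) ^ (2 * m) * (g:ℝ) ^ 4 * dc m (g * m) *
      ((m * (g * m) - (m * m + 2)).factorial : ℝ) := by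
  classical
  have hj0 : j < m := by omega
  set D : Finset (Fin m × Fin m) := {(i, ⟨j, hj0⟩), (i, ⟨j + 1, hj⟩)} with hD
  have hDc : D.card = 2 := by
    rw [hD, Finset.card_pair]
    intro he
    have := congrArg (fun a : Fin m × Fin m => (a.2 : ℕ)) he
    simp at this
  set w := g * m with hw
  set 𝒜0 := (Finset.univ : Finset (Pl m w × Pl m w)).filter fun c =>
    DS c.1 c.2 = D ∧ VD i j hj c.1 c.2 with h𝒜0
  have h1 := pairs_weight 𝒜0 2 (fun c hc => by rw [(Finset.mem_filter.mp hc).2.1, hDc])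
  have h2 : WD m w D ≤ ∑ P : Equiv.Perm (Fin (m * w)),
      (𝒜0.filter fun c => On P c.1 ∧ On P c.2).card := by
    unfold WD
    refine Finset.sum_le_sum fun P _ => ?_
    exact orient P D (VD i j hj) (fun φ φ' h1 h2 h3 => h2.vert h1 i j hj h3)
  have h3 := h2.trans h1
  set 𝒜 := 𝒜0.filter fun c => ∃ P : Equiv.Perm (Fin (m * w)), On P c.1 ∧ On P c.2 with h𝒜
  have hmemD : ∀ c ∈ 𝒜, ∀ i' j', (i', j') ∉ D → c.1.1 i' j' = c.2.1 i' j' := by
    intro c hc i' j' hne
    rw [h𝒜, Finset.mem_filter, h𝒜0, Finset.mem_filter] at hc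
    by_contra hcon
    have := (mem_DS c.1 c.2 i' j').mpr hcon
    rw [hc.1.2.1] at this
    exact hne this
  have hmemD' : ∀ c ∈ 𝒜, ∀ i' j', (i', j') ∈ D → c.1.1 i' j' ≠ c.2.1 i' j' := by
    intro c hc i' j' hne
    rw [h𝒜, Finset.mem_filter, h𝒜0, Finset.mem_filter] at hc
    rw [← mem_DS, hc.1.2.1]
    exact hne
  have heq : ∀ c ∈ 𝒜, EqC c.1 c.2 := by
    intro c hc
    rw [h𝒜, Finset.mem_filter] at hc
    obtain ⟨_, P, h4, h5⟩ := hc
    exact on_eq_iff P c.1 c.2 h4 h5
  have hVD : ∀ c ∈ 𝒜, VD i j hj c.1 c.2 := by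
    intro c hc
    rw [h𝒜, Finset.mem_filter, h𝒜0, Finset.mem_filter] at hc
    exact hc.1.2.2
  have h4 : (𝒜.card : ℝ) ≤ ((g * m).choose m : ℝ) ^ (2 * m) * (g:ℝ) ^ 4 *
      ((rr m (g * m))⁻¹ - (Real.exp (-4)) ^ 3) / 2 := by
    refine domino_real g hm hg 𝒜 cols cols_injective.injOn i j hj ?_ ?_ ?_ ?_ ?_
    · intro c hc i' hi'
      simp only [diag, cols, Finset.mem_filter, Finset.mem_univ, true_and]
      apply DFunLike.ext
      intro a
      apply hmemD c hc
      intro h
      rw [hD, Finset.mem_insert, Finset.mem_singleton, Prod.mk.injEq, Prod.mk.injEq] at h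
      tauto
    · intro c hc
      simp only [LHall, cols, Finset.mem_filter, Finset.mem_univ, true_and]
      refine ⟨?_, (hVD c hc).1⟩
      intro a ha ha'
      apply hmemD c hc
      intro h
      rw [hD, Finset.mem_insert, Finset.mem_singleton, Prod.mk.injEq, Prod.mk.injEq, Fin.ext_iff,
        Fin.ext_iff] at h
      simp only [Fin.ext_iff] at h
      omega
    · intro c hc j' hj' hj''
      simp only [diag, cols, Finset.mem_filter, Finset.mem_univ, true_and]
      apply DFunLike.ext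
      intro a
      apply (heq c hc a j').mp
      apply hmemD c hc
      intro h
      rw [hD, Finset.mem_insert, Finset.mem_singleton, Prod.mk.injEq, Prod.mk.injEq] at h
      simp only [Fin.ext_iff] at h
      omega
    · intro c hc
      simp only [RA, cols, d1, Finset.mem_filter, Finset.mem_univ, true_and]
      obtain ⟨hv1, hv2, hv3⟩ := hVD c hc
      refine ⟨?_, ?_⟩
      · intro a ha
        apply (heq c hc a _).mp
        apply hmemD c hc
        intro h
        rw [hD, Finset.mem_insert, Finset.mem_singleton, Prod.mk.injEq, Prod.mk.injEq] at h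
        tauto
      · have hv1' : (c.1.1 i ⟨j + 1, hj⟩ : ℕ) < c.2.1 i ⟨j, hj0⟩ := hv1
        have h5 := lt_succ_chain (c.1.1 i) j hj
        omega
    · intro c hc
      simp only [RB, cols, d2, Finset.mem_filter, Finset.mem_univ, true_and]
      obtain ⟨hv1, hv2, hv3⟩ := hVD c hc
      refine ⟨?_, ?_, ?_⟩
      · intro a ha
        apply (heq c hc a _).mp
        apply hmemD c hc
        intro h
        rw [hD, Finset.mem_insert, Finset.mem_singleton, Prod.mk.injEq, Prod.mk.injEq] at h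
        tauto
      · intro he
        exact hmemD' c hc i ⟨j + 1, hj⟩ (by rw [hD]; simp) ((heq c hc _ _).mpr he)
      · have hv1' : (c.1.1 i ⟨j + 1, hj⟩ : ℕ) < c.2.1 i ⟨j, hj0⟩ := hv1
        have h5 := lt_succ_chain (c.2.1 i) j hj
        omega
  have h5 : (WD m w D : ℝ) ≤ (𝒜.card : ℝ) * ((m * w - (m * m + 2)).factorial : ℝ) := by
    exact_mod_cast h3
  refine h5.trans ?_
  apply mul_le_mul_of_nonneg_right _ (Nat.cast_nonneg _)
  unfold dc
  linarith

lemma WD_horiz (g : ℕ) (hm : 32 ≤ m) (hg : 11 ≤ g) (j : Fin m) (i : ℕ) (hi : i + 1 < m) :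
    (WD m (g * m) {(⟨i, by omega⟩, j), (⟨i + 1, hi⟩, j)} : ℝ) ≤
      ((g * m).choose m : ℝ) ^ (2 * m) * (g:ℝ) ^ 4 * dc m (g * m) *
      ((m * (g * m) - (m * m + 2)).factorial : ℝ) := by
  classical
  have hi0 : i < m := by omega
  set D : Finset (Fin m × Fin m) := {(⟨i, hi0⟩, j), (⟨i + 1, hi⟩, j)} with hD
  have hDc : D.card = 2 := by
    rw [hD, Finset.card_pair]
    intro he
    have := congrArg (fun a : Fin m × Fin m => (a.1 : ℕ)) he
    simp at this
  set w := g * m with hw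
  set 𝒜0 := (Finset.univ : Finset (Pl m w × Pl m w)).filter fun c =>
    DS c.1 c.2 = D ∧ HD j i hi c.1 c.2 with h𝒜0
  have h1 := pairs_weight 𝒜0 2 (fun c hc => by rw [(Finset.mem_filter.mp hc).2.1, hDc])
  have h2 : WD m w D ≤ ∑ P : Equiv.Perm (Fin (m * w)),
      (𝒜0.filter fun c => On P c.1 ∧ On P c.2).card := by
    unfold WD
    refine Finset.sum_le_sum fun P _ => ?_
    exact orient P D (HD j i hi) (fun φ φ' h1 h2 h3 => h2.horiz h1 j i hi h3)
  have h3 := h2.trans h1
  set 𝒜 := 𝒜0.filter fun c => ∃ P : Equiv.Perm (Fin (m * w)), On P c.1 ∧ On P c.2 with h𝒜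
  have hmemD : ∀ c ∈ 𝒜, ∀ i' j', (i', j') ∉ D → c.1.1 i' j' = c.2.1 i' j' := by
    intro c hc i' j' hne
    rw [h𝒜, Finset.mem_filter, h𝒜0, Finset.mem_filter] at hc
    by_contra hcon
    have := (mem_DS c.1 c.2 i' j').mpr hcon
    rw [hc.1.2.1] at this
    exact hne this
  have hmemD' : ∀ c ∈ 𝒜, ∀ i' j', (i', j') ∈ D → c.1.1 i' j' ≠ c.2.1 i' j' := by
    intro c hc i' j' hne
    rw [h𝒜, Finset.mem_filter, h𝒜0, Finset.mem_filter] at hc
    rw [← mem_DS, hc.1.2.1]
    exact hne
  have heq : ∀ c ∈ 𝒜, EqC c.1 c.2 := by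
    intro c hc
    rw [h𝒜, Finset.mem_filter] at hc
    obtain ⟨_, P, h4, h5⟩ := hc
    exact on_eq_iff P c.1 c.2 h4 h5
  have hHD : ∀ c ∈ 𝒜, HD j i hi c.1 c.2 := by
    intro c hc
    rw [h𝒜, Finset.mem_filter, h𝒜0, Finset.mem_filter] at hc
    exact hc.1.2.2
  have h4 : (𝒜.card : ℝ) ≤ ((g * m).choose m : ℝ) ^ (2 * m) * (g:ℝ) ^ 4 *
      ((rr m (g * m))⁻¹ - (Real.exp (-4)) ^ 3) / 2 := by
    refine domino_real g hm hg 𝒜 (fun c => (cols c).swap)
      ((Prod.swap_injective.comp cols_injective).injOn) j i hi ?_ ?_ ?_ ?_ ?_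
    · intro c hc j' hj'
      simp only [diag, cols, Prod.fst_swap, Finset.mem_filter, Finset.mem_univ, true_and]
      apply DFunLike.ext
      intro a
      apply (heq c hc a j').mp
      apply hmemD c hc
      intro h
      rw [hD, Finset.mem_insert, Finset.mem_singleton, Prod.mk.injEq, Prod.mk.injEq] at h
      tauto
    · intro c hc
      simp only [LHall, cols, Prod.fst_swap, Finset.mem_filter, Finset.mem_univ, true_and]
      refine ⟨?_, (hHD c hc).1⟩
      intro a ha ha'
      apply (heq c hc a j).mp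
      apply hmemD c hc
      intro h
      rw [hD, Finset.mem_insert, Finset.mem_singleton, Prod.mk.injEq, Prod.mk.injEq] at h
      simp only [Fin.ext_iff] at h
      omega
    · intro c hc i' hi' hi''
      simp only [diag, cols, Prod.snd_swap, Finset.mem_filter, Finset.mem_univ, true_and]
      apply DFunLike.ext
      intro a
      apply hmemD c hc
      intro h
      rw [hD, Finset.mem_insert, Finset.mem_singleton, Prod.mk.injEq, Prod.mk.injEq] at h
      simp only [Fin.ext_iff] at h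
      omega
    · intro c hc
      simp only [RA, cols, d1, Prod.fst_swap, Prod.snd_swap, Finset.mem_filter, Finset.mem_univ,
        true_and]
      obtain ⟨hv1, hv2, hv3⟩ := hHD c hc
      refine ⟨?_, ?_⟩
      · intro a ha
        apply hmemD c hc
        intro h
        rw [hD, Finset.mem_insert, Finset.mem_singleton, Prod.mk.injEq, Prod.mk.injEq] at h
        tauto
      · have hv1' : (c.1.2 j ⟨i + 1, hi⟩ : ℕ) < c.2.2 j ⟨i, hi0⟩ := hv1
        have h5 := lt_succ_chain (c.1.2 j) i hi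
        omega
    · intro c hc
      simp only [RB, cols, d2, Prod.fst_swap, Prod.snd_swap, Finset.mem_filter, Finset.mem_univ,
        true_and]
      obtain ⟨hv1, hv2, hv3⟩ := hHD c hc
      refine ⟨?_, ?_, ?_⟩
      · intro a ha
        apply hmemD c hc
        intro h
        rw [hD, Finset.mem_insert, Finset.mem_singleton, Prod.mk.injEq, Prod.mk.injEq] at h
        tauto
      · exact hmemD' c hc ⟨i + 1, hi⟩ j (by rw [hD]; simp)
      · have hv1' : (c.1.2 j ⟨i + 1, hi⟩ : ℕ) < c.2.2 j ⟨i, hi0⟩ := hv1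
        have h5 := lt_succ_chain (c.2.2 j) i hi
        omega
  have h5 : (WD m w D : ℝ) ≤ (𝒜.card : ℝ) * ((m * w - (m * m + 2)).factorial : ℝ) := by
    exact_mod_cast h3
  refine h5.trans ?_
  apply mul_le_mul_of_nonneg_right _ (Nat.cast_nonneg _)
  unfold dc
  linarith

end Pool.Agent.LibC3e
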